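import Pool.Agent.NNb.Cnt
import Pool.Agent.NNb.Disch
import Pool.Agent.NNb.SumVal

/-!
# Angle level certificates for tilings by congruent triangles

A price table `A` gives numbers `pr A k s`: for `k = 0, 1, 2` the price of a corner with label `k` at a
node of valence `s + 2`, for `k = 3` the price of a flat tile at such a node (all prices are shifted by
`1000 s`), and `pr A 4 t` is a lower bound for the price of a set of flat nodes with
`∑ (val - 2) = t`.  `chkT`: every tile pays at least `1`; `chkN`: every node of the class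
`(c0, c1, c2, f)` receives nothing.  `kill`: both together are impossible.
-/

namespace Pool.Agent.NNc

open Pool.Agent.NNb

/-- `∀ k < m, f k` -/
def allB : ℕ → (ℕ → Bool) → Bool
  | 0, _ => true
  | k + 1, f => cond (f k) (allB k f) false

theorem allB_spec : ∀ {m : ℕ} {f : ℕ → Bool}, allB m f = true → ∀ k < m, f k = true
  | 0, _, _, k, hk => absurd hk (Nat.not_lt_zero k)
  | m + 1, f, h, k, hk => by
    unfold allB at h
    cases hf : f m with
    | false => rw [hf] at h; exact absurd h (by simp)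
    | true =>
      rw [hf] at h
      rcases Nat.lt_succ_iff_lt_or_eq.1 hk with h1 | h1
      · exact allB_spec h k h1
      · rw [h1]; exact hf

/-- `∃ k < m, f k` -/
def anyB : ℕ → (ℕ → Bool) → Bool
  | 0, _ => false
  | k + 1, f => cond (f k) true (anyB k f)

theorem anyB_spec : ∀ {m : ℕ} {f : ℕ → Bool}, anyB m f = true → ∃ k < m, f k = true
  | 0, _, h => absurd h (by simp [anyB])
  | m + 1, f, h => by
    unfold anyB at h
    cases hf : f m with
    | true => exact ⟨m, Nat.lt_succ_self m, hf⟩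
    | false =>
      rw [hf] at h
      obtain ⟨k, hk, hk'⟩ := anyB_spec (m := m) h
      exact ⟨k, Nat.lt_succ_of_lt hk, hk'⟩

theorem cond_false_right {a b : Bool} (h : cond a b false = true) : a = true ∧ b = true := by
  cases a
  · exact absurd h (by simp)
  · exact ⟨rfl, h⟩

theorem cond_true_right {a b : Bool} (h : cond a b true = true) (ha : a = true) : b = true := by
  rw [ha] at h
  exact h

/-- field `(k, s)` of a price table -/
def pr (A k s : ℕ) : ℕ := (A >>> (20 * (16 * k + s))) % 1048576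

/-- the tile condition -/
def chkT (n A : ℕ) : Bool :=
  cond (Nat.beq (pr A 4 0) 0)
    (cond (allB (n + 1) fun t => allB t fun j =>
        Nat.ble (pr A 4 t) (pr A 3 (j + 1) + pr A 4 (t - (j + 1))))
      (allB (n - 2) fun s0 => allB (n - 2 - s0) fun s1 => allB (n - 2 - s0 - s1) fun s2 =>
        Nat.ble (1000 * n + 1) (pr A 0 (s0 + 1) + pr A 1 (s1 + 1) + pr A 2 (s2 + 1) +
          pr A 4 (n - (s0 + s1 + s2 + 3))))
      false)
    false

/-- the node condition -/
def chkN (A c0 c1 c2 f : ℕ) : Bool :=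
  Nat.ble (c0 * pr A 0 (c0 + c1 + c2 + f - 2) + c1 * pr A 1 (c0 + c1 + c2 + f - 2) +
    c2 * pr A 2 (c0 + c1 + c2 + f - 2) + f * pr A 3 (c0 + c1 + c2 + f - 2))
    (1000 * (c0 + c1 + c2 + f - 2) * (c0 + c1 + c2 + f))

theorem chkT_flat {n A : ℕ} (h : chkT n A = true) {ν : Type} (g : ν → ℕ) (F : Finset ν)
    (hg : ∀ x ∈ F, 1 ≤ g x) (hs : ∑ x ∈ F, g x ≤ n) :
    pr A 4 (∑ x ∈ F, g x) ≤ ∑ x ∈ F, pr A 3 (g x) := by
  classical
  obtain ⟨h0, h⟩ := cond_false_right h
  obtain ⟨h1, _⟩ := cond_false_right h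
  induction F using Finset.induction_on with
  | empty =>
    simp only [Finset.sum_empty]
    exact le_of_eq (Nat.eq_of_beq_eq_true h0)
  | insert a F ha ih =>
    rw [Finset.sum_insert ha] at hs ⊢
    rw [Finset.sum_insert ha]
    have hga := hg a (Finset.mem_insert_self a F)
    have ih' := ih (fun x hx => hg x (Finset.mem_insert_of_mem hx)) (by omega)
    have h2 := allB_spec (allB_spec h1 (g a + ∑ x ∈ F, g x) (by omega)) (g a - 1) (by omega)
    have h3 := Nat.le_of_ble_eq_true h2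
    have e1 : g a - 1 + 1 = g a := by omega
    have e2 : g a + ∑ x ∈ F, g x - (g a - 1 + 1) = ∑ x ∈ F, g x := by omega
    rw [e2, e1] at h3
    omega

theorem chkT_corner {n A : ℕ} (h : chkT n A = true) {s0 s1 s2 t : ℕ} (h0 : 1 ≤ s0) (h1 : 1 ≤ s1)
    (h2 : 1 ≤ s2) (hs : s0 + s1 + s2 + t = n) :
    1000 * n + 1 ≤ pr A 0 s0 + pr A 1 s1 + pr A 2 s2 + pr A 4 t := by
  obtain ⟨_, h⟩ := cond_false_right h
  obtain ⟨_, h⟩ := cond_false_right h
  have h3 := allB_spec (allB_spec (allB_spec h (s0 - 1) (by omega)) (s1 - 1) (by omega)) (s2 - 1)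
    (by omega)
  have h4 := Nat.le_of_ble_eq_true h3
  have e0 : s0 - 1 + 1 = s0 := by omega
  have e1 : s1 - 1 + 1 = s1 := by omega
  have e2 : s2 - 1 + 1 = s2 := by omega
  have e3 : n - (s0 - 1 + (s1 - 1) + (s2 - 1) + 3) = t := by omega
  rw [e0, e1, e2, e3] at h4
  exact h4

open Classical in
/-- the price of the tile `i` at the node `x` -/
noncomputable def price {ι : Type} {n : ℕ} (S : Sys3 ι n) (A : ℕ) (i : ι) (x : ℂ) : ℝ :=
  (if S.lab i 0 = x then (pr A 0 (S.val x - 2) : ℝ) else 0) +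
    (if S.lab i 1 = x then (pr A 1 (S.val x - 2) : ℝ) else 0) +
    (if S.lab i 2 = x then (pr A 2 (S.val x - 2) : ℝ) else 0) +
    (if x ∉ S.C i then (pr A 3 (S.val x - 2) : ℝ) else 0)

theorem price_le {ι : Type} {n : ℕ} (S : Sys3 ι n) (A : ℕ) (i : ι) (x : ℂ) :
    |price S A i x| ≤ 4 * 1048576 := by
  have hb : ∀ k, (pr A k (S.val x - 2) : ℝ) ≤ 1048576 := by
    intro k
    have : pr A k (S.val x - 2) < 1048576 := Nat.mod_lt _ (by norm_num)
    exact_mod_cast this.le
  have h0 : ∀ k, (0 : ℝ) ≤ (pr A k (S.val x - 2) : ℝ) := fun k => Nat.cast_nonneg _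
  unfold price
  have b0 := hb 0
  have b1 := hb 1
  have b2 := hb 2
  have b3 := hb 3
  have a0 := h0 0
  have a1 := h0 1
  have a2 := h0 2
  have a3 := h0 3
  rw [abs_le]
  constructor <;> split_ifs <;> linarith

open Classical in
/-- **Angle level certificates**: the tile condition and the node condition at all nodes are
contradictory. -/
theorem kill {ι : Type} {n : ℕ} (S : Sys3 ι n) (A : ℕ) (hT : chkT n A = true)
    (hN : ∀ i x, x ∈ S.N i → chkN A (S.cnt 0 x) (S.cnt 1 x) (S.cnt 2 x) (S.fl x) = true) :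
    False := by
  -- the charge
  set g : ι → ℂ → ℝ := fun i x => price S A i x - 1000 * ((S.val x : ℝ) - 2) with hgdef
  set φ : ι → ℂ → ℝ := fun i x => g i x - (∑ j ∈ S.tl x, g j x) / (S.val x : ℝ) with hφ
  have hval : ∀ i x, x ∈ S.N i → (3 : ℝ) ≤ S.val x := by
    intro i x hx
    exact_mod_cast S.val_ge hx
  have hsum : ∀ i x, x ∈ S.N i → ∑ j ∈ S.tl x, g j x ≤ 0 := by
    intro i x hx
    have h1 : ∑ j ∈ S.tl x, price S A j x = S.cnt 0 x * (pr A 0 (S.val x - 2) : ℝ) +
        S.cnt 1 x * (pr A 1 (S.val x - 2) : ℝ) + S.cnt 2 x * (pr A 2 (S.val x - 2) : ℝ) +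
        S.fl x * (pr A 3 (S.val x - 2) : ℝ) := by
      have h := S.CNT_sum x (fun j => price S A j x)
        (fun k : Fin 3 => (pr A k.val (S.val x - 2) : ℝ)) (pr A 3 (S.val x - 2) : ℝ)
        (fun j _ => rfl)
      exact h
    have h2 : ∑ j ∈ S.tl x, g j x = ∑ j ∈ S.tl x, price S A j x -
        (S.val x : ℝ) * (1000 * ((S.val x : ℝ) - 2)) := by
      simp only [hgdef, Finset.sum_sub_distrib, Finset.sum_const, nsmul_eq_mul]
      rfl
    rw [h2, h1]
    have h3 := Nat.le_of_ble_eq_true (hN i x hx)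
    have hv := S.val_cnt x
    rw [← hv] at h3
    have h4 : ((S.cnt 0 x * pr A 0 (S.val x - 2) + S.cnt 1 x * pr A 1 (S.val x - 2) +
        S.cnt 2 x * pr A 2 (S.val x - 2) + S.fl x * pr A 3 (S.val x - 2) : ℕ) : ℝ) ≤
        ((1000 * (S.val x - 2) * S.val x : ℕ) : ℝ) := by exact_mod_cast h3
    have h5 : ((S.val x - 2 : ℕ) : ℝ) = (S.val x : ℝ) - 2 := by
      have := S.val_ge hx
      rw [Nat.cast_sub (by omega)]
      norm_num
    push_cast at h4
    rw [h5] at h4
    linarith
  have hZS : S.ZS φ := by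
    intro i x hx
    have hv := hval i x hx
    simp only [hφ, Finset.sum_sub_distrib, Finset.sum_const, nsmul_eq_mul]
    have : ((S.tl x).card : ℝ) = S.val x := rfl
    rw [this]
    field_simp
    ring
  have hgB : ∀ i x, x ∈ S.N i → |g i x| ≤ 4 * 1048576 + 1000 * ((n : ℝ) + 3) := by
    intro i x hx
    have h1 := price_le S A i x
    have h2 := hval i x hx
    have h3 : (S.val x : ℝ) ≤ n + 1 := by exact_mod_cast S.val_le hx
    rw [abs_le] at h1 ⊢
    simp only [hgdef]
    constructor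
    · linarith [h1.1]
    · linarith [h1.2]
  have hBdd : S.Bdd φ := by
    refine ⟨2 * (4 * 1048576 + 1000 * ((n : ℝ) + 3)), fun i x hx => ?_⟩
    have hv := hval i x hx
    have h1 := hgB i x hx
    have h2 : |(∑ j ∈ S.tl x, g j x) / (S.val x : ℝ)| ≤ 4 * 1048576 + 1000 * ((n : ℝ) + 3) := by
      rw [abs_div, abs_of_pos (by linarith : (0 : ℝ) < S.val x), div_le_iff₀ (by linarith)]
      refine (Finset.abs_sum_le_sum_abs _ _).trans ?_
      have h3 : ∑ j ∈ S.tl x, |g j x| ≤ ∑ j ∈ S.tl x, (4 * 1048576 + 1000 * ((n : ℝ) + 3)) :=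
        Finset.sum_le_sum fun j hj => hgB j x ((S.mem_tl j x).1 hj)
      rw [Finset.sum_const, nsmul_eq_mul] at h3
      have : ((S.tl x).card : ℝ) = S.val x := rfl
      rw [this] at h3
      linarith
    calc |φ i x| ≤ |g i x| + |(∑ j ∈ S.tl x, g j x) / (S.val x : ℝ)| := abs_sub _ _
      _ ≤ _ := by linarith
  apply S.no_pos hZS hBdd one_pos
  intro i
  -- the tile condition
  have hsv := S.sum_val i
  have hCN : S.C i ⊆ S.N i := S.C_sub i
  have hsplit : ∀ F : ℂ → ℕ, ∑ x ∈ S.N i, F x = F (S.lab i 0) + F (S.lab i 1) + F (S.lab i 2) +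
      ∑ x ∈ S.N i \ S.C i, F x := by
    intro F
    rw [← Finset.sum_sdiff hCN, add_comm]
    congr 1
    have hC : S.C i = {S.lab i 0, S.lab i 1, S.lab i 2} := by
      ext x
      rw [S.C_eq]
      simp
    obtain ⟨h01, h02, h12⟩ := S.CNT_ne i
    rw [hC, Finset.sum_insert (by simp [h01, h02]), Finset.sum_insert (by simp [h12]),
      Finset.sum_singleton, add_assoc]
  have hge : ∀ x ∈ S.N i, 1 ≤ S.val x - 2 := by
    intro x hx
    have := S.val_ge hx
    omega
  have hs1 := hsplit (fun x => S.val x - 2)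
  rw [hsv] at hs1
  have hfl := chkT_flat hT (fun x => S.val x - 2) (S.N i \ S.C i)
    (fun x hx => hge x (Finset.mem_sdiff.1 hx).1) (by omega)
  have hco := chkT_corner hT (hge _ (S.lab_mem i 0)) (hge _ (S.lab_mem i 1))
    (hge _ (S.lab_mem i 2)) hs1.symm
  -- the prices of the tile
  have hpr : (1000 * (n : ℝ) + 1) ≤ ∑ x ∈ S.N i, price S A i x := by
    have e1 : ∑ x ∈ S.N i, price S A i x = price S A i (S.lab i 0) + price S A i (S.lab i 1) +
        price S A i (S.lab i 2) + ∑ x ∈ S.N i \ S.C i, price S A i x := by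
      rw [← Finset.sum_sdiff hCN, add_comm]
      congr 1
      have hC : S.C i = {S.lab i 0, S.lab i 1, S.lab i 2} := by
        ext x
        rw [S.C_eq]
        simp
      obtain ⟨h01, h02, h12⟩ := S.CNT_ne i
      rw [hC, Finset.sum_insert (by simp [h01, h02]), Finset.sum_insert (by simp [h12]),
        Finset.sum_singleton, add_assoc]
    obtain ⟨h01, h02, h12⟩ := S.CNT_ne i
    have c0 : price S A i (S.lab i 0) = pr A 0 (S.val (S.lab i 0) - 2) := by
      unfold price
      rw [if_pos rfl, if_neg h01.symm, if_neg h02.symm,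
        if_neg (not_not.2 ((S.C_eq i _).2 (Or.inl rfl)))]
      ring
    have c1 : price S A i (S.lab i 1) = pr A 1 (S.val (S.lab i 1) - 2) := by
      unfold price
      rw [if_neg h01, if_pos rfl, if_neg h12.symm,
        if_neg (not_not.2 ((S.C_eq i _).2 (Or.inr (Or.inl rfl))))]
      ring
    have c2 : price S A i (S.lab i 2) = pr A 2 (S.val (S.lab i 2) - 2) := by
      unfold price
      rw [if_neg h02, if_neg h12, if_pos rfl,
        if_neg (not_not.2 ((S.C_eq i _).2 (Or.inr (Or.inr rfl))))]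
      ring
    have c3 : ∑ x ∈ S.N i \ S.C i, price S A i x =
        ((∑ x ∈ S.N i \ S.C i, pr A 3 (S.val x - 2) : ℕ) : ℝ) := by
      rw [Nat.cast_sum]
      apply Finset.sum_congr rfl
      intro x hx
      have hx' := (Finset.mem_sdiff.1 hx).2
      have h0 : S.lab i 0 ≠ x := fun h => hx' ((S.C_eq i x).2 (Or.inl h.symm))
      have h1 : S.lab i 1 ≠ x := fun h => hx' ((S.C_eq i x).2 (Or.inr (Or.inl h.symm)))
      have h2 : S.lab i 2 ≠ x := fun h => hx' ((S.C_eq i x).2 (Or.inr (Or.inr h.symm)))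
      unfold price
      rw [if_neg h0, if_neg h1, if_neg h2, if_pos hx']
      ring
    rw [e1, c0, c1, c2, c3]
    have h : 1000 * n + 1 ≤ pr A 0 (S.val (S.lab i 0) - 2) + pr A 1 (S.val (S.lab i 1) - 2) +
        pr A 2 (S.val (S.lab i 2) - 2) + ∑ x ∈ S.N i \ S.C i, pr A 3 (S.val x - 2) := by
      omega
    exact_mod_cast h
  have hg1 : 1 ≤ ∑ x ∈ S.N i, g i x := by
    have e : ∑ x ∈ S.N i, g i x = ∑ x ∈ S.N i, price S A i x -
        1000 * ∑ x ∈ S.N i, ((S.val x : ℝ) - 2) := by
      rw [Finset.mul_sum, ← Finset.sum_sub_distrib]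
    rw [e, S.sum_val_real i]
    linarith
  have hφ1 : ∑ x ∈ S.N i, g i x ≤ ∑ x ∈ S.N i, φ i x := by
    apply Finset.sum_le_sum
    intro x hx
    have h1 := hsum i x hx
    have h2 := hval i x hx
    have h3 : (∑ j ∈ S.tl x, g j x) / (S.val x : ℝ) ≤ 0 := div_nonpos_of_nonpos_of_nonneg h1
      (by linarith)
    simp only [hφ]
    linarith
  linarith

end Pool.Agent.NNc
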