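import Pool.Agent.NNc.Ang11
import Pool.Agent.NNc.Ang13
import Pool.Agent.NNc.Ang15

/-!
# The triangles which remain after the angle level, n = 11, 13, 15

`ang11`, `ang13`, `ang15`: the triangle is proportional to one of the shapes in `PL n`, or its angles
are distinct, satisfy one linear relation `u` in `UL n` and all classes of nodes are on the direction `u`.
-/

namespace Pool.Agent.NNc

open Pool.Agent.NNb

/-- the class `[c0, c1, c2, f]` satisfies the angle equation of the triangle `p0 : p1 : p2` -/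
def tP (n p0 p1 p2 c0 c1 c2 f : ℕ) : Bool :=
  cond (Nat.ble (c0 + c1 + c2 + f) n)
    (Nat.beq (c0 * p0 + c1 * p1 + c2 * p2) ((2 - f) * (p0 + p1 + p2))) false

/-- the classes of valence `≤ n` of the triangle with angles proportional to `p0, p1, p2` -/
def wP (n p0 p1 p2 : ℕ) : List (List ℕ) :=
  (List.range 2).flatMap fun f => (List.range (n + 1)).flatMap fun c0 =>
    (List.range (n + 1 - c0)).flatMap fun c1 => (List.range (n + 1 - c0 - c1)).flatMap fun c2 =>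
      cond (tP n p0 p1 p2 c0 c1 c2 f) [[c0, c1, c2, f]] []

/-- the relation of the class `[c0, c1, c2, f]` is parallel to `u` -/
def tU (n : ℕ) (u0 u1 u2 : ℤ) (c0 c1 c2 f : ℕ) : Bool :=
  cond (Nat.ble (c0 + c1 + c2 + f) n)
    (decide (((c0 : ℤ) - (2 - f : ℕ)) * u1 = ((c1 : ℤ) - (2 - f : ℕ)) * u0 ∧
      ((c0 : ℤ) - (2 - f : ℕ)) * u2 = ((c2 : ℤ) - (2 - f : ℕ)) * u0 ∧
      ((c1 : ℤ) - (2 - f : ℕ)) * u2 = ((c2 : ℤ) - (2 - f : ℕ)) * u1)) false

/-- the classes of valence `≤ n` whose relation is a multiple of `u` -/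
def wU (n : ℕ) (u0 u1 u2 : ℤ) : List (List ℕ) :=
  (List.range 2).flatMap fun f => (List.range (n + 1)).flatMap fun c0 =>
    (List.range (n + 1 - c0)).flatMap fun c1 => (List.range (n + 1 - c0 - c1)).flatMap fun c2 =>
      cond (tU n u0 u1 u2 c0 c1 c2 f) [[c0, c1, c2, f]] []

theorem mem_w {n c0 c1 c2 f : ℕ} (t : ℕ → ℕ → ℕ → ℕ → Bool) (hf : f ≤ 1)
    (hv : c0 + c1 + c2 + f ≤ n) (ht : t c0 c1 c2 f = true) :
    [c0, c1, c2, f] ∈ (List.range 2).flatMap fun f => (List.range (n + 1)).flatMap fun c0 =>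
      (List.range (n + 1 - c0)).flatMap fun c1 => (List.range (n + 1 - c0 - c1)).flatMap fun c2 =>
        cond (t c0 c1 c2 f) [[c0, c1, c2, f]] [] := by
  rw [List.mem_flatMap]
  refine ⟨f, List.mem_range.2 (by omega), ?_⟩
  rw [List.mem_flatMap]
  refine ⟨c0, List.mem_range.2 (by omega), ?_⟩
  rw [List.mem_flatMap]
  refine ⟨c1, List.mem_range.2 (by omega), ?_⟩
  rw [List.mem_flatMap]
  refine ⟨c2, List.mem_range.2 (by omega), ?_⟩
  rw [ht]
  exact List.mem_singleton.2 rfl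

/-- remaining directions, `n = 11` -/
def UL11 : List (ℤ × ℤ × ℤ) := [(0, 2, -1), (1, 1, -1), (1, 2, -2), (2, -2, 1), (2, -1, 0), (2, 0, -1), (2, 1, -2),
   (2, 2, -1)]

/-- remaining shapes, `n = 11` -/
def PL11 : List (ℕ × ℕ × ℕ) :=
  [(1, 1, 2), (1, 1, 4), (1, 2, 2), (1, 2, 3), (1, 2, 4), (1, 2, 5), (1, 2, 6), (1, 2, 7),
   (1, 2, 8), (1, 2, 9), (1, 2, 10), (1, 2, 11), (1, 2, 12), (1, 2, 13), (1, 2, 14),
   (1, 2, 15), (1, 2, 16), (1, 2, 17), (1, 3, 4), (1, 3, 6), (1, 3, 8), (1, 4, 5), (1, 4, 6),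
   (1, 4, 8), (1, 4, 9), (1, 4, 10), (1, 5, 6), (1, 5, 8), (1, 5, 10), (1, 5, 12), (1, 6, 7),
   (1, 6, 10), (1, 6, 12), (1, 6, 14), (1, 7, 8), (1, 7, 12), (1, 7, 14), (1, 7, 16),
   (1, 8, 9), (1, 8, 14), (1, 8, 16), (1, 8, 18), (1, 9, 16), (2, 2, 3), (2, 3, 4), (2, 3, 5),
   (2, 3, 6), (2, 3, 7), (2, 3, 8), (2, 3, 10), (2, 4, 5), (2, 4, 7), (2, 4, 9), (2, 4, 11),
   (2, 4, 13), (2, 4, 15), (2, 5, 6), (2, 5, 7), (2, 5, 10), (2, 5, 14), (2, 6, 7), (2, 7, 8),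
   (2, 7, 9), (2, 7, 10), (2, 7, 14), (2, 7, 18), (2, 8, 9), (2, 9, 10), (2, 9, 14),
   (2, 10, 11), (2, 11, 12), (2, 12, 13), (2, 13, 14), (2, 14, 15), (2, 15, 16), (2, 16, 17),
   (3, 4, 5), (3, 4, 6), (3, 4, 7), (3, 4, 8), (3, 4, 14), (3, 5, 6), (3, 5, 8), (3, 5, 10),
   (3, 5, 16), (3, 7, 8), (3, 7, 10), (3, 7, 14), (3, 7, 20), (3, 8, 10), (3, 8, 16),
   (3, 10, 14), (3, 11, 16), (4, 5, 6), (4, 5, 7), (4, 5, 8), (4, 5, 9), (4, 5, 10),
   (4, 5, 18), (4, 6, 7), (4, 7, 9), (4, 7, 11), (4, 7, 14), (4, 9, 10), (4, 9, 11),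
   (4, 11, 13), (4, 11, 14), (4, 13, 15), (4, 15, 17), (4, 17, 19), (5, 6, 8), (5, 6, 10),
   (5, 6, 12), (5, 6, 22), (5, 7, 8), (5, 7, 14), (5, 8, 9), (5, 8, 16), (5, 11, 12),
   (5, 12, 14), (6, 7, 10), (6, 7, 14), (6, 8, 11), (6, 10, 11), (6, 10, 13), (6, 11, 14),
   (6, 13, 14), (6, 13, 16), (6, 14, 17), (7, 8, 10)]

/-- remaining directions, `n = 13` -/
def UL13 : List (ℤ × ℤ × ℤ) := [(1, 1, -1), (2, 2, -1)]

/-- remaining shapes, `n = 13` -/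
def PL13 : List (ℕ × ℕ × ℕ) :=
  [(1, 1, 2), (1, 1, 4), (1, 2, 2), (1, 2, 3), (1, 2, 4), (1, 2, 5), (1, 2, 6), (1, 3, 4),
   (1, 3, 8), (1, 4, 5), (1, 4, 6), (1, 4, 9), (1, 4, 10), (1, 5, 6), (1, 5, 12), (1, 6, 7),
   (1, 6, 14), (1, 7, 8), (1, 7, 16), (1, 8, 9), (1, 8, 18), (1, 9, 10), (1, 9, 20),
   (1, 10, 11), (1, 10, 22), (2, 3, 4), (2, 3, 5), (2, 3, 7), (2, 3, 8), (2, 3, 10), (2, 4, 5),
   (2, 5, 6), (2, 5, 7), (2, 5, 9), (2, 5, 14), (2, 6, 7), (2, 7, 9), (2, 7, 18), (2, 9, 11),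
   (2, 9, 22), (3, 4, 7), (3, 4, 10), (3, 4, 11), (3, 4, 14), (3, 5, 8), (3, 5, 16),
   (3, 7, 10), (3, 7, 20), (3, 8, 11), (3, 8, 22), (4, 5, 9), (4, 5, 13), (4, 5, 18),
   (4, 7, 11), (4, 7, 22), (4, 9, 13), (5, 6, 22), (6, 7, 26)]

/-- remaining directions, `n = 15` -/
def UL15 : List (ℤ × ℤ × ℤ) := [(2, 2, -1)]

/-- remaining shapes, `n = 15` -/
def PL15 : List (ℕ × ℕ × ℕ) :=
  [(1, 1, 4), (1, 2, 3), (1, 2, 4), (1, 2, 5), (1, 2, 6), (1, 3, 4), (1, 3, 8), (1, 4, 5),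
   (1, 4, 6), (1, 4, 10), (1, 5, 12), (1, 6, 14), (1, 7, 16), (1, 8, 18), (1, 9, 20),
   (1, 10, 22), (1, 11, 24), (1, 12, 26), (2, 3, 10), (2, 5, 14), (2, 7, 18), (2, 9, 22),
   (2, 11, 26), (3, 4, 14), (3, 5, 16), (3, 7, 20), (3, 8, 22), (3, 10, 26), (3, 11, 28),
   (4, 5, 18), (4, 7, 22), (4, 9, 26), (5, 6, 22), (5, 7, 24), (5, 8, 26), (6, 7, 26)]

/-- the marked directions are in the list -/
def chkU (nd D : ℕ) (U : List (ℤ × ℤ × ℤ)) : Bool :=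
  allB nd fun i => cond (Nat.beq (dj D i) 255)
    (U.any fun u => decide ((dx D i 0 : ℤ) - 32 = u.1 ∧ (dx D i 1 : ℤ) - 32 = u.2.1 ∧
      (dx D i 2 : ℤ) - 32 = u.2.2)) true

/-- the marked shapes are in the list -/
def chkP (ns P : ℕ) (L : List (ℕ × ℕ × ℕ)) : Bool :=
  allB ns fun s => cond (Nat.beq (sx P s 3) 255)
    (L.any fun p => cond (Nat.beq (sx P s 0) p.1)
      (cond (Nat.beq (sx P s 1) p.2.1) (Nat.beq (sx P s 2) p.2.2) false) false) true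

/-- isosceles members of a family are in the list of shapes -/
def chkI (U : List (ℤ × ℤ × ℤ)) (L : List (ℕ × ℕ × ℕ)) : Bool :=
  U.all fun u =>
    -- `θ 0 = θ 1`: `(u0 + u1) θ 0 + u2 θ 2 = 0`
    (cond (decide ((u.1 + u.2.1) * u.2.2 < 0))
      (L.any fun p => decide (p.1 = p.2.1 ∧ 0 < p.1 ∧
        (u.1 + u.2.1) * p.1 + u.2.2 * p.2.2 = 0)) true) &&
    (cond (decide (u.1 + u.2.1 = 0 ∧ u.2.2 = 0)) false true) &&
    -- `θ 1 = θ 2`: `u0 θ 0 + (u1 + u2) θ 1 = 0`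
    (cond (decide ((u.2.1 + u.2.2) * u.1 < 0))
      (L.any fun p => decide (p.2.1 = p.2.2 ∧ 0 < p.2.1 ∧
        u.1 * p.1 + (u.2.1 + u.2.2) * p.2.1 = 0)) true) &&
    (cond (decide (u.2.1 + u.2.2 = 0 ∧ u.1 = 0)) false true)

/-- The result of the angle level. -/
def AngRes {ι : Type} {n : ℕ} (S : Sys3 ι n) (U : List (ℤ × ℤ × ℤ)) (L : List (ℕ × ℕ × ℕ)) : Prop :=
  (∃ u ∈ U, S.θ 0 < S.θ 1 ∧ S.θ 1 < S.θ 2 ∧
    (u.1 : ℝ) * S.θ 0 + (u.2.1 : ℝ) * S.θ 1 + (u.2.2 : ℝ) * S.θ 2 = 0 ∧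
    ∀ t x, x ∈ S.N t → [S.cnt 0 x, S.cnt 1 x, S.cnt 2 x, S.fl x] ∈ wU n u.1 u.2.1 u.2.2) ∨
  (∃ p ∈ L, 0 < p.1 ∧ S.θ 0 * (p.1 + p.2.1 + p.2.2 : ℕ) = Real.pi * (p.1 : ℕ) ∧
    S.θ 1 * (p.1 + p.2.1 + p.2.2 : ℕ) = Real.pi * (p.2.1 : ℕ) ∧
    S.θ 2 * (p.1 + p.2.1 + p.2.2 : ℕ) = Real.pi * (p.2.2 : ℕ) ∧
    ∀ t x, x ∈ S.N t → [S.cnt 0 x, S.cnt 1 x, S.cnt 2 x, S.fl x] ∈ wP n p.1 p.2.1 p.2.2)

theorem chkU_spec {nd D : ℕ} {U : List (ℤ × ℤ × ℤ)} (h : chkU nd D U = true) {i : ℕ} (hi : i < nd)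
    (hm : dj D i = 255) : ∃ u ∈ U, (dx D i 0 : ℤ) - 32 = u.1 ∧ (dx D i 1 : ℤ) - 32 = u.2.1 ∧
      (dx D i 2 : ℤ) - 32 = u.2.2 := by
  have h1 := allB_spec h i hi
  rw [hm] at h1
  have h2 := cond_true_right h1 rfl
  rw [List.any_eq_true] at h2
  obtain ⟨u, hu, hu'⟩ := h2
  exact ⟨u, hu, of_decide_eq_true hu'⟩

theorem chkP_spec {ns P : ℕ} {L : List (ℕ × ℕ × ℕ)} (h : chkP ns P L = true) {s : ℕ} (hs : s < ns)
    (hm : sx P s 3 = 255) : ∃ p ∈ L, sx P s 0 = p.1 ∧ sx P s 1 = p.2.1 ∧ sx P s 2 = p.2.2 := by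
  have h1 := allB_spec h s hs
  rw [hm] at h1
  have h2 := cond_true_right h1 rfl
  rw [List.any_eq_true] at h2
  obtain ⟨p, hp, hp'⟩ := h2
  obtain ⟨a, hp''⟩ := cond_false_right hp'
  obtain ⟨b, c⟩ := cond_false_right hp''
  exact ⟨p, hp, Nat.eq_of_beq_eq_true a, Nat.eq_of_beq_eq_true b, Nat.eq_of_beq_eq_true c⟩

theorem ratio_of {t0 t1 t2 s : ℝ} {p0 p1 p2 : ℕ} (hs : t0 + t1 + t2 = s) (hp : 0 < p0)
    (h1 : t0 * p1 = t1 * p0) (h2 : t0 * p2 = t2 * p0) :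
    t0 * (p0 + p1 + p2 : ℕ) = s * (p0 : ℕ) ∧ t1 * (p0 + p1 + p2 : ℕ) = s * (p1 : ℕ) ∧
      t2 * (p0 + p1 + p2 : ℕ) = s * (p2 : ℕ) := by
  have hp' : (p0 : ℝ) ≠ 0 := by exact_mod_cast hp.ne'
  have e0 : t0 * (p0 + p1 + p2 : ℕ) = s * (p0 : ℕ) := by
    push_cast
    rw [← hs]
    linear_combination h1 + h2
  refine ⟨e0, ?_, ?_⟩
  · apply mul_right_cancel₀ hp'
    linear_combination (-((p0 + p1 + p2 : ℕ) : ℝ)) * h1 + (p1 : ℝ) * e0
  · apply mul_right_cancel₀ hp'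
    linear_combination (-((p0 + p1 + p2 : ℕ) : ℝ)) * h2 + (p2 : ℝ) * e0

variable {ι : Type} {n : ℕ} (S : Sys3 ι n)

theorem cls_eq {t : ι} {x : ℂ} (hx : x ∈ S.N t) :
    (S.cnt 0 x : ℝ) * S.θ 0 + S.cnt 1 x * S.θ 1 + S.cnt 2 x * S.θ 2 =
      ((2 - S.fl x : ℕ) : ℝ) * (S.θ 0 + S.θ 1 + S.θ 2) := by
  have h1 := S.ang_cnt hx
  have h2 := S.fl_le hx
  rw [S.θ_sum, Nat.cast_sub (by omega)]
  push_cast
  linarith

theorem cls_le {t : ι} {x : ℂ} (hx : x ∈ S.N t) :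
    S.cnt 0 x + S.cnt 1 x + S.cnt 2 x + S.fl x ≤ n := by
  classical
  have h1 := S.val_cnt x
  have h2 : S.val x ≤ n := by
    have h3 := S.sum_val t
    have h4 : S.val x - 2 + ∑ y ∈ (S.N t).erase x, (S.val y - 2) = n := by
      refine Eq.trans ?_ h3
      exact Finset.add_sum_erase _ (fun y => S.val y - 2) hx
    have h5 : 2 ≤ ∑ y ∈ (S.N t).erase x, (S.val y - 2) := by
      have h6 : ∑ y ∈ (S.N t).erase x, 1 ≤ ∑ y ∈ (S.N t).erase x, (S.val y - 2) := by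
        apply Finset.sum_le_sum
        intro y hy
        have := S.val_ge (Finset.mem_of_mem_erase hy)
        omega
      rw [Finset.sum_const, smul_eq_mul, mul_one, Finset.card_erase_of_mem hx] at h6
      have := S.card_ge t
      omega
    omega
  omega

/-- the classes of a triangle of known shape -/
theorem mem_wP {p0 p1 p2 : ℕ} (h1 : S.θ 0 * p1 = S.θ 1 * p0) (h2 : S.θ 0 * p2 = S.θ 2 * p0)
    {t : ι} {x : ℂ} (hx : x ∈ S.N t) :
    [S.cnt 0 x, S.cnt 1 x, S.cnt 2 x, S.fl x] ∈ wP n p0 p1 p2 := by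
  apply mem_w (tP n p0 p1 p2) (S.fl_le hx) (cls_le S hx)
  unfold tP
  rw [Nat.ble_eq_true_of_le (cls_le S hx)]
  have h := cls_eq S hx
  have hp := S.θ_pos 0
  have hkey : S.cnt 0 x * p0 + S.cnt 1 x * p1 + S.cnt 2 x * p2 =
      (2 - S.fl x) * (p0 + p1 + p2) := by
    have : S.θ 0 * ((S.cnt 0 x : ℝ) * p0 + S.cnt 1 x * p1 + S.cnt 2 x * p2) =
        S.θ 0 * (((2 - S.fl x : ℕ) : ℝ) * (p0 + p1 + p2)) := by
      linear_combination (p0 : ℝ) * h + ((S.cnt 1 x : ℝ) - ((2 - S.fl x : ℕ) : ℝ)) * h1 +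
        ((S.cnt 2 x : ℝ) - ((2 - S.fl x : ℕ) : ℝ)) * h2
    have := mul_left_cancel₀ hp.ne' this
    exact_mod_cast this
  rw [hkey]
  exact Nat.beq_refl _

theorem mem_wU {u0 u1 u2 : ℤ} {D i : ℕ} (e0 : (dx D i 0 : ℤ) - 32 = u0)
    (e1 : (dx D i 1 : ℤ) - 32 = u1) (e2 : (dx D i 2 : ℤ) - 32 = u2) {t : ι} {x : ℂ}
    (hx : x ∈ S.N t) (hp : Par (S.cnt 0 x) (S.cnt 1 x) (S.cnt 2 x) (2 - S.fl x) D i) :
    [S.cnt 0 x, S.cnt 1 x, S.cnt 2 x, S.fl x] ∈ wU n u0 u1 u2 := by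
  apply mem_w (tU n u0 u1 u2) (S.fl_le hx) (cls_le S hx)
  unfold tU
  rw [Nat.ble_eq_true_of_le (cls_le S hx)]
  obtain ⟨p01, p02, p12⟩ := hp
  rw [e0, e1] at p01
  rw [e0, e2] at p02
  rw [e1, e2] at p12
  exact decide_eq_true ⟨p01, p02, p12⟩

theorem ratio_res {U : List (ℤ × ℤ × ℤ)} {L : List (ℕ × ℕ × ℕ)} {p : ℕ × ℕ × ℕ} (hp : p ∈ L)
    (h0 : 0 < p.1) (h1 : S.θ 0 * p.2.1 = S.θ 1 * p.1) (h2 : S.θ 0 * p.2.2 = S.θ 2 * p.1) :
    AngRes S U L := by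
  refine Or.inr ⟨p, hp, h0, ?_⟩
  obtain ⟨a, b, c⟩ := ratio_of S.θ_sum h0 h1 h2
  exact ⟨a, b, c, fun t x hx => mem_wP S h1 h2 hx⟩

/-- **Angle level**: assembly of the finite checks. -/
theorem angRes {nf nd ns F D P H : ℕ} {U : List (ℤ × ℤ × ℤ)} {L : List (ℕ × ℕ × ℕ)}
    (hnf : 0 < nf)
    (hT : allB nf (fun j => chkT n (fn F j)) = true)
    (hR : chkRel n nd D = true)
    (hD : chkDir n nd nf D F = true)
    (hP : chkPairs nd ns D P H = true)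
    (hS : chkShapes n ns nf P F = true)
    (h0 : chkN (fn F 0) 2 2 2 0 = true) (h0' : chkN (fn F 0) 1 1 1 1 = true)
    (hU : chkU nd D U = true) (hL : chkP ns P L = true) (hI : chkI U L = true) :
    AngRes S U L := by
  rcases classify S hnf hT hR hD hP hS h0 h0' with ⟨i, hi, hm, ho, hall⟩ | ⟨s, hs, hm, hsh⟩
  · obtain ⟨u, hu, e0, e1, e2⟩ := chkU_spec hU hi hm
    have hrel : (u.1 : ℝ) * S.θ 0 + (u.2.1 : ℝ) * S.θ 1 + (u.2.2 : ℝ) * S.θ 2 = 0 := by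
      rw [← e0, ← e1, ← e2]
      push_cast
      exact ho
    have hI' := (List.all_eq_true.1 hI) u hu
    rw [Bool.and_eq_true, Bool.and_eq_true, Bool.and_eq_true] at hI'
    obtain ⟨⟨⟨i1, i2⟩, i3⟩, i4⟩ := hI'
    have t0 := S.θ_pos 0
    have t1 := S.θ_pos 1
    have t2 := S.θ_pos 2
    rcases eq_or_lt_of_le S.θ_le01 with h01 | h01
    · -- `θ 0 = θ 1`
      have hr : ((u.1 + u.2.1 : ℤ) : ℝ) * S.θ 0 + (u.2.2 : ℝ) * S.θ 2 = 0 := by
        push_cast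
        rw [← h01] at hrel
        linarith
      by_cases hneg : (u.1 + u.2.1) * u.2.2 < 0
      · have h3 := cond_true_right i1 (decide_eq_true hneg)
        rw [List.any_eq_true] at h3
        obtain ⟨p, hp, hp'⟩ := h3
        obtain ⟨q1, q2, q3⟩ := of_decide_eq_true hp'
        have hu2 : (u.2.2 : ℝ) ≠ 0 := by
          intro h
          have : u.2.2 = 0 := by exact_mod_cast h
          rw [this, mul_zero] at hneg
          exact lt_irrefl _ hneg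
        have q3' : ((u.1 + u.2.1 : ℤ) : ℝ) * (p.1 : ℝ) + (u.2.2 : ℝ) * (p.2.2 : ℝ) = 0 := by
          exact_mod_cast q3
        apply ratio_res S hp q2
        · rw [← q1, h01]
        · apply mul_left_cancel₀ hu2
          linear_combination S.θ 0 * q3' - (p.1 : ℝ) * hr
      · exfalso
        have hnz : ¬ (u.1 + u.2.1 = 0 ∧ u.2.2 = 0) := by
          intro h
          rw [decide_eq_true h] at i2
          exact absurd i2 (by simp)
        push Not at hneg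
        have hneg' : (0 : ℝ) ≤ ((u.1 + u.2.1 : ℤ) : ℝ) * (u.2.2 : ℝ) := by exact_mod_cast hneg
        have a1 : ((u.1 + u.2.1 : ℤ) : ℝ) * (((u.1 + u.2.1 : ℤ) : ℝ) * S.θ 0) ≤ 0 := by
          have : ((u.1 + u.2.1 : ℤ) : ℝ) * (((u.1 + u.2.1 : ℤ) : ℝ) * S.θ 0) =
              -((((u.1 + u.2.1 : ℤ) : ℝ) * (u.2.2 : ℝ)) * S.θ 2) := by
            linear_combination ((u.1 + u.2.1 : ℤ) : ℝ) * hr
          rw [this]
          have := mul_nonneg hneg' t2.le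
          linarith
        have a2 : ((u.1 + u.2.1 : ℤ) : ℝ) = 0 := by
          have a3 : ((u.1 + u.2.1 : ℤ) : ℝ) * ((u.1 + u.2.1 : ℤ) : ℝ) ≤ 0 := by
            have : (((u.1 + u.2.1 : ℤ) : ℝ) * ((u.1 + u.2.1 : ℤ) : ℝ)) * S.θ 0 ≤ 0 * S.θ 0 := by
              rw [zero_mul]
              linarith
            exact le_of_mul_le_mul_right this t0
          exact mul_self_eq_zero.1 (le_antisymm a3 (mul_self_nonneg _))
        have a4 : u.1 + u.2.1 = 0 := by exact_mod_cast a2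
        rw [a2, zero_mul, zero_add] at hr
        have a5 : (u.2.2 : ℝ) = 0 := by
          rcases mul_eq_zero.1 hr with h | h
          · exact h
          · exact absurd h t2.ne'
        exact hnz ⟨a4, by exact_mod_cast a5⟩
    · rcases eq_or_lt_of_le S.θ_le12 with h12 | h12
      · -- `θ 1 = θ 2`
        have hr : (u.1 : ℝ) * S.θ 0 + ((u.2.1 + u.2.2 : ℤ) : ℝ) * S.θ 1 = 0 := by
          push_cast
          rw [← h12] at hrel
          linarith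
        by_cases hneg : (u.2.1 + u.2.2) * u.1 < 0
        · have h3 := cond_true_right i3 (decide_eq_true hneg)
          rw [List.any_eq_true] at h3
          obtain ⟨p, hp, hp'⟩ := h3
          obtain ⟨q1, q2, q3⟩ := of_decide_eq_true hp'
          have hu2 : ((u.2.1 + u.2.2 : ℤ) : ℝ) ≠ 0 := by
            intro h
            have : u.2.1 + u.2.2 = 0 := by exact_mod_cast h
            rw [this, zero_mul] at hneg
            exact lt_irrefl _ hneg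
          have hu1 : (u.1 : ℝ) ≠ 0 := by
            intro h
            have : u.1 = 0 := by exact_mod_cast h
            rw [this, mul_zero] at hneg
            exact lt_irrefl _ hneg
          have q3' : (u.1 : ℝ) * (p.1 : ℝ) + ((u.2.1 + u.2.2 : ℤ) : ℝ) * (p.2.1 : ℝ) = 0 := by
            exact_mod_cast q3
          have hp0 : 0 < p.1 := by
            rcases Nat.eq_zero_or_pos p.1 with h | h
            · exfalso
              rw [h] at q3'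
              have : ((u.2.1 + u.2.2 : ℤ) : ℝ) * (p.2.1 : ℝ) = 0 := by
                simpa using q3'
              rcases mul_eq_zero.1 this with h' | h'
              · exact hu2 h'
              · have : p.2.1 = 0 := by exact_mod_cast h'
                omega
            · exact h
          have hq : S.θ 0 * p.2.1 = S.θ 1 * p.1 := by
            apply mul_left_cancel₀ hu2
            linear_combination S.θ 0 * q3' - (p.1 : ℝ) * hr
          apply ratio_res S hp hp0 hq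
          rw [← q1, ← h12]
          exact hq
        · exfalso
          have hnz : ¬ (u.2.1 + u.2.2 = 0 ∧ u.1 = 0) := by
            intro h
            rw [decide_eq_true h] at i4
            exact absurd i4 (by simp)
          push Not at hneg
          have hneg' : (0 : ℝ) ≤ ((u.2.1 + u.2.2 : ℤ) : ℝ) * (u.1 : ℝ) := by exact_mod_cast hneg
          have a1 : ((u.2.1 + u.2.2 : ℤ) : ℝ) * (((u.2.1 + u.2.2 : ℤ) : ℝ) * S.θ 1) ≤ 0 := by
            have : ((u.2.1 + u.2.2 : ℤ) : ℝ) * (((u.2.1 + u.2.2 : ℤ) : ℝ) * S.θ 1) =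
                -((((u.2.1 + u.2.2 : ℤ) : ℝ) * (u.1 : ℝ)) * S.θ 0) := by
              linear_combination ((u.2.1 + u.2.2 : ℤ) : ℝ) * hr
            rw [this]
            have := mul_nonneg hneg' t0.le
            linarith
          have a2 : ((u.2.1 + u.2.2 : ℤ) : ℝ) = 0 := by
            have a3 : ((u.2.1 + u.2.2 : ℤ) : ℝ) * ((u.2.1 + u.2.2 : ℤ) : ℝ) ≤ 0 := by
              have : (((u.2.1 + u.2.2 : ℤ) : ℝ) * ((u.2.1 + u.2.2 : ℤ) : ℝ)) * S.θ 1 ≤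
                  0 * S.θ 1 := by
                rw [zero_mul]
                linarith
              exact le_of_mul_le_mul_right this t1
            exact mul_self_eq_zero.1 (le_antisymm a3 (mul_self_nonneg _))
          have a4 : u.2.1 + u.2.2 = 0 := by exact_mod_cast a2
          rw [a2, zero_mul, add_zero] at hr
          have a5 : (u.1 : ℝ) = 0 := by
            rcases mul_eq_zero.1 hr with h | h
            · exact h
            · exact absurd h t0.ne'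
          exact hnz ⟨a4, by exact_mod_cast a5⟩
      · exact Or.inl ⟨u, hu, h01, h12, hrel, fun t x hx => mem_wU S e0 e1 e2 hx (hall t x hx)⟩
  · obtain ⟨p, hp, e0, e1, e2⟩ := chkP_spec hL hs hm
    obtain ⟨h1, h2⟩ := hsh
    rw [e0, e1] at h1
    rw [e0, e2] at h2
    have k1 := allB_spec hS s hs
    obtain ⟨a0, _⟩ := cond_false_right k1
    have b0 := Nat.le_of_ble_eq_true a0
    rw [e0] at b0
    exact ratio_res S hp (by omega) h1 h2

theorem ang11 {ι : Type} (S : Sys3 ι 11) : AngRes S UL11 PL11 :=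
  angRes S (nf := 28) (nd := 134) (ns := 1321) (by norm_num) T11 R11 N11 Q11 S11 Z11 Z11'
    (by decide +kernel) (by decide +kernel) (by decide +kernel)

theorem ang13 {ι : Type} (S : Sys3 ι 13) : AngRes S UL13 PL13 :=
  angRes S (nf := 55) (nd := 188) (ns := 2678) (by norm_num) T13 R13 N13 Q13 S13 Z13 Z13'
    (by decide +kernel) (by decide +kernel) (by decide +kernel)

theorem ang15 {ι : Type} (S : Sys3 ι 15) : AngRes S UL15 PL15 :=
  angRes S (nf := 83) (nd := 249) (ns := 4770) (by norm_num) T15 R15 N15 Q15 S15 Z15 Z15'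
    (by decide +kernel) (by decide +kernel) (by decide +kernel)

end Pool.Agent.NNc
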