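import Pool.Agent.NNc.AngChk

/-!
# The angles of a triangle which tiles with `n` neighbours: classification modulo a finite check

A node with `c k` corners of label `k` and `f` flat tiles gives the relation
`∑ (c k - e) θ k = 0`, `e = 2 - f`.  All relations of nodes of valence `≤ n` are multiples of the
directions in the table `D` (entries shifted by `32`), two different directions determine the triangle
up to similarity (table `P` of shapes, `H` = index of the shape for each pair of directions); every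
direction and every shape which is not marked by `255` has a price table (table `F`) which excludes it.
-/

namespace Pool.Agent.NNc

open Pool.Agent.NNb

/-- entry `k` of the direction `i`, shifted by `32` -/
def dx (D i k : ℕ) : ℕ := (D >>> (32 * i + 6 * k)) % 64

/-- index of the price table of the direction `i` -/
def dj (D i : ℕ) : ℕ := (D >>> (32 * i + 18)) % 16384

/-- entry `k` of the shape `i`; for `k = 3` the index of its price table -/
def sx (P i k : ℕ) : ℕ := (P >>> (32 * i + 8 * k)) % 256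

/-- index of the shape of the directions `j < i` -/
def hx (H i j : ℕ) : ℕ := (H >>> (13 * (i * (i - 1) / 2 + j))) % 8192

/-- price table number `j` -/
def fn (F j : ℕ) : ℕ := F >>> (1600 * j)

/-- one component of `(c - e) ∥ (x - 32)` -/
def parab (ca cb e xa xb : ℕ) : Bool :=
  Nat.beq (ca * xb + 32 * cb + e * xa) (cb * xa + 32 * ca + e * xb)

/-- `(c - e) ∥ (x - 32)` -/
def par3 (c0 c1 c2 e x0 x1 x2 : ℕ) : Bool :=
  cond (parab c0 c1 e x0 x1) (cond (parab c0 c2 e x0 x2) (parab c1 c2 e x1 x2) false) false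

/-- the relation has no solution `0 < θ 0 ≤ θ 1 ≤ θ 2` -/
def notadm (c0 c1 c2 e : ℕ) : Bool :=
  cond (cond (Nat.ble (3 * e + 1) (c0 + c1 + c2))
    (cond (Nat.ble (2 * e) (c1 + c2)) (Nat.ble e c2) false) false) true
    (cond (Nat.ble (c0 + c1 + c2 + 1) (3 * e))
    (cond (Nat.ble (c1 + c2) (2 * e)) (Nat.ble c2 e) false) false)

/-- every class of valence `≤ n` is trivial, impossible or on a direction of the table -/
def chkRel (n nd D : ℕ) : Bool :=
  allB 2 fun f => allB (n + 1) fun c0 => allB (n + 1 - c0) fun c1 => allB (n + 1 - c0 - c1) fun c2 =>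
    cond (Nat.ble (c0 + c1 + c2 + f) n)
      (cond (cond (Nat.beq c0 (2 - f)) (cond (Nat.beq c1 (2 - f)) (Nat.beq c2 (2 - f)) false) false)
        true
        (cond (notadm c0 c1 c2 (2 - f)) true
          (anyB nd fun i => par3 c0 c1 c2 (2 - f) (dx D i 0) (dx D i 1) (dx D i 2))))
      true

/-- all classes on a direction satisfy the node condition -/
def chkLine (n A x0 x1 x2 : ℕ) : Bool :=
  allB 2 fun f => allB (n + 1) fun c0 => allB (n + 1 - c0) fun c1 =>
    cond (parab c0 c1 (2 - f) x0 x1)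
      (allB (n + 1 - c0 - c1) fun c2 =>
        cond (Nat.ble (c0 + c1 + c2 + f) n)
          (cond (parab c0 c2 (2 - f) x0 x2)
            (cond (parab c1 c2 (2 - f) x1 x2) (chkN A c0 c1 c2 f) true) true)
          true)
      true

/-- all directions which are not marked are excluded -/
def chkDir (n nd nf D F : ℕ) : Bool :=
  allB nd fun i => cond (Nat.beq (dj D i) 255) true
    (cond (Nat.ble (dj D i + 1) nf)
      (chkLine n (fn F (dj D i)) (dx D i 0) (dx D i 1) (dx D i 2)) false)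

/-- `0 < c 0 ≤ c 1 ≤ c 2` for `c = P - M` -/
def spB (P0 M0 P1 M1 P2 M2 : ℕ) : Bool :=
  cond (Nat.ble (M0 + 1) P0) (cond (Nat.ble (P0 + M1) (P1 + M0)) (Nat.ble (P1 + M2) (P2 + M1)) false)
    false

/-- `c ∥ p` for `c = P - M` -/
def ppB (P0 M0 P1 M1 P2 M2 p0 p1 p2 : ℕ) : Bool :=
  cond (Nat.beq (P0 * p1 + M1 * p0) (P1 * p0 + M0 * p1))
    (Nat.beq (P0 * p2 + M2 * p0) (P2 * p0 + M0 * p2)) false

/-- the check for a pair of directions with cross product `P - M` -/
def prB (P0 M0 P1 M1 P2 M2 s ns P : ℕ) : Bool :=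
  cond (cond (spB P0 M0 P1 M1 P2 M2) true (spB M0 P0 M1 P1 M2 P2))
    (cond (Nat.ble (s + 1) ns)
      (ppB P0 M0 P1 M1 P2 M2 (sx P s 0) (sx P s 1) (sx P s 2)) false)
    (cond (Nat.beq P0 M0) (cond (Nat.beq P1 M1) (cond (Nat.beq P2 M2) false true) true) true)

/-- the cross product of two directions `a - 32`, `b - 32` -/
def crB (a0 a1 a2 b0 b1 b2 s ns P : ℕ) : Bool :=
  prB (a1 * b2 + 32 * a2 + 32 * b1) (a2 * b1 + 32 * a1 + 32 * b2)
    (a2 * b0 + 32 * a0 + 32 * b2) (a0 * b2 + 32 * a2 + 32 * b0)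
    (a0 * b1 + 32 * a1 + 32 * b0) (a1 * b0 + 32 * a0 + 32 * b1) s ns P

/-- all pairs of directions -/
def chkPairs (nd ns D P H : ℕ) : Bool :=
  allB nd fun i => allB i fun j =>
    crB (dx D j 0) (dx D j 1) (dx D j 2) (dx D i 0) (dx D i 1) (dx D i 2) (hx H i j) ns P

/-- all classes of the triangle with angles proportional to `p0, p1, p2` satisfy the node
condition -/
def chkShape (n A p0 p1 p2 : ℕ) : Bool :=
  allB 2 fun f => allB ((2 - f) * (p0 + p1 + p2) / p2 + 1) fun c2 =>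
    allB (((2 - f) * (p0 + p1 + p2) - c2 * p2) / p1 + 1) fun c1 =>
      cond (Nat.beq (((2 - f) * (p0 + p1 + p2) - c2 * p2 - c1 * p1) % p0) 0)
        (cond (Nat.ble (((2 - f) * (p0 + p1 + p2) - c2 * p2 - c1 * p1) / p0 + c1 + c2 + f) n)
          (chkN A (((2 - f) * (p0 + p1 + p2) - c2 * p2 - c1 * p1) / p0) c1 c2 f) true) true

/-- all shapes which are not marked are excluded -/
def chkShapes (n ns nf P F : ℕ) : Bool :=
  allB ns fun i => cond (Nat.ble 1 (sx P i 0)) (cond (Nat.ble (sx P i 0) (sx P i 1))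
    (cond (Nat.ble (sx P i 1) (sx P i 2))
      (cond (Nat.beq (sx P i 3) 255) true
        (cond (Nat.ble (sx P i 3 + 1) nf)
          (chkShape n (fn F (sx P i 3)) (sx P i 0) (sx P i 1) (sx P i 2)) false))
      false) false) false

/-! ### Soundness -/

theorem parab_iff {ca cb e xa xb : ℕ} : parab ca cb e xa xb = true ↔
    ((ca : ℤ) - e) * ((xb : ℤ) - 32) = ((cb : ℤ) - e) * ((xa : ℤ) - 32) := by
  unfold parab
  constructor
  · intro h
    have h' := Nat.eq_of_beq_eq_true h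
    have h'' : ((ca * xb + 32 * cb + e * xa : ℕ) : ℤ) = ((cb * xa + 32 * ca + e * xb : ℕ) : ℤ) := by
      exact_mod_cast h'
    push_cast at h''
    linarith
  · intro h
    have h' : ((ca * xb + 32 * cb + e * xa : ℕ) : ℤ) = ((cb * xa + 32 * ca + e * xb : ℕ) : ℤ) := by
      push_cast
      linarith
    have h'' : ca * xb + 32 * cb + e * xa = cb * xa + 32 * ca + e * xb := by exact_mod_cast h'
    rw [h'']
    exact Nat.beq_refl _

/-- parallel to a direction -/
def Par (c0 c1 c2 e : ℕ) (D i : ℕ) : Prop :=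
  ((c0 : ℤ) - e) * ((dx D i 1 : ℤ) - 32) = ((c1 : ℤ) - e) * ((dx D i 0 : ℤ) - 32) ∧
  ((c0 : ℤ) - e) * ((dx D i 2 : ℤ) - 32) = ((c2 : ℤ) - e) * ((dx D i 0 : ℤ) - 32) ∧
  ((c1 : ℤ) - e) * ((dx D i 2 : ℤ) - 32) = ((c2 : ℤ) - e) * ((dx D i 1 : ℤ) - 32)

theorem par3_iff {c0 c1 c2 e D i : ℕ} :
    par3 c0 c1 c2 e (dx D i 0) (dx D i 1) (dx D i 2) = true ↔ Par c0 c1 c2 e D i := by
  unfold par3 Par
  rw [← parab_iff, ← parab_iff, ← parab_iff]
  cases parab c0 c1 e (dx D i 0) (dx D i 1) <;> cases parab c0 c2 e (dx D i 0) (dx D i 2) <;>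
    cases parab c1 c2 e (dx D i 1) (dx D i 2) <;> simp

/-- the data of a triangle and its classes -/
structure Tri3 (t0 t1 t2 : ℝ) : Prop where
  pos : 0 < t0
  le01 : t0 ≤ t1
  le12 : t1 ≤ t2

theorem notadm_false {t0 t1 t2 : ℝ} (T : Tri3 t0 t1 t2) {c0 c1 c2 e : ℕ}
    (h : (c0 : ℝ) * t0 + c1 * t1 + c2 * t2 = e * (t0 + t1 + t2))
    (hn : notadm c0 c1 c2 e = true) : False := by
  have hp := T.pos
  have h1 := T.le01
  have h2 := T.le12
  have key : ((c0 : ℝ) + c1 + c2 - 3 * e) * t0 + ((c1 : ℝ) + c2 - 2 * e) * (t1 - t0) +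
      ((c2 : ℝ) - e) * (t2 - t1) = 0 := by linarith
  unfold notadm at hn
  cases ha : cond (Nat.ble (3 * e + 1) (c0 + c1 + c2))
    (cond (Nat.ble (2 * e) (c1 + c2)) (Nat.ble e c2) false) false with
  | true =>
    obtain ⟨a1, a2⟩ := cond_false_right ha
    obtain ⟨a2, a3⟩ := cond_false_right a2
    have b1 : 3 * e + 1 ≤ c0 + c1 + c2 := Nat.le_of_ble_eq_true a1
    have b2 : 2 * e ≤ c1 + c2 := Nat.le_of_ble_eq_true a2
    have b3 : e ≤ c2 := Nat.le_of_ble_eq_true a3
    have d1 : (3 * (e : ℝ) + 1) ≤ c0 + c1 + c2 := by exact_mod_cast b1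
    have d2 : 2 * (e : ℝ) ≤ c1 + c2 := by exact_mod_cast b2
    have d3 : (e : ℝ) ≤ c2 := by exact_mod_cast b3
    have m1 : 0 < ((c0 : ℝ) + c1 + c2 - 3 * e) * t0 := mul_pos (by linarith) hp
    have m2 : 0 ≤ ((c1 : ℝ) + c2 - 2 * e) * (t1 - t0) := mul_nonneg (by linarith) (by linarith)
    have m3 : 0 ≤ ((c2 : ℝ) - e) * (t2 - t1) := mul_nonneg (by linarith) (by linarith)
    linarith
  | false =>
    rw [ha] at hn
    obtain ⟨a1, a2⟩ := cond_false_right hn
    obtain ⟨a2, a3⟩ := cond_false_right a2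
    have b1 : c0 + c1 + c2 + 1 ≤ 3 * e := Nat.le_of_ble_eq_true a1
    have b2 : c1 + c2 ≤ 2 * e := Nat.le_of_ble_eq_true a2
    have b3 : c2 ≤ e := Nat.le_of_ble_eq_true a3
    have d1 : (c0 : ℝ) + c1 + c2 + 1 ≤ 3 * e := by exact_mod_cast b1
    have d2 : (c1 : ℝ) + c2 ≤ 2 * e := by exact_mod_cast b2
    have d3 : (c2 : ℝ) ≤ e := by exact_mod_cast b3
    have m1 : ((c0 : ℝ) + c1 + c2 - 3 * e) * t0 < 0 := mul_neg_of_neg_of_pos (by linarith) hp
    have m2 : ((c1 : ℝ) + c2 - 2 * e) * (t1 - t0) ≤ 0 :=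
      mul_nonpos_of_nonpos_of_nonneg (by linarith) (by linarith)
    have m3 : ((c2 : ℝ) - e) * (t2 - t1) ≤ 0 :=
      mul_nonpos_of_nonpos_of_nonneg (by linarith) (by linarith)
    linarith

theorem rel_dir {t0 t1 t2 : ℝ} (T : Tri3 t0 t1 t2) {n nd D : ℕ} (hR : chkRel n nd D = true)
    {c0 c1 c2 f : ℕ} (hf : f ≤ 1) (hv : c0 + c1 + c2 + f ≤ n)
    (h : (c0 : ℝ) * t0 + c1 * t1 + c2 * t2 = ((2 - f : ℕ) : ℝ) * (t0 + t1 + t2)) :
    (c0 = 2 - f ∧ c1 = 2 - f ∧ c2 = 2 - f) ∨ ∃ i < nd, Par c0 c1 c2 (2 - f) D i := by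
  have h1 := allB_spec (allB_spec (allB_spec (allB_spec hR f (by omega)) c0 (by omega)) c1
    (by omega)) c2 (by omega)
  have h2 := cond_true_right h1 (Nat.ble_eq_true_of_le hv)
  cases ha : cond (Nat.beq c0 (2 - f)) (cond (Nat.beq c1 (2 - f)) (Nat.beq c2 (2 - f)) false)
    false with
  | true =>
    left
    obtain ⟨a1, a2⟩ := cond_false_right ha
    obtain ⟨a2, a3⟩ := cond_false_right a2
    exact ⟨Nat.eq_of_beq_eq_true a1, Nat.eq_of_beq_eq_true a2, Nat.eq_of_beq_eq_true a3⟩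
  | false =>
    right
    rw [ha] at h2
    change cond (notadm c0 c1 c2 (2 - f)) true _ = true at h2
    cases hb : notadm c0 c1 c2 (2 - f) with
    | true => exact (notadm_false T h hb).elim
    | false =>
      rw [hb] at h2
      obtain ⟨i, hi, hi'⟩ := anyB_spec h2
      exact ⟨i, hi, par3_iff.1 hi'⟩

theorem line_N {n A D i : ℕ} (hL : chkLine n A (dx D i 0) (dx D i 1) (dx D i 2) = true)
    {c0 c1 c2 f : ℕ} (hf : f ≤ 1) (hv : c0 + c1 + c2 + f ≤ n) (hp : Par c0 c1 c2 (2 - f) D i) :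
    chkN A c0 c1 c2 f = true := by
  obtain ⟨p01, p02, p12⟩ := hp
  have h1 := allB_spec (allB_spec (allB_spec hL f (by omega)) c0 (by omega)) c1 (by omega)
  have h2 := allB_spec (cond_true_right h1 (parab_iff.2 p01)) c2 (by omega)
  have h3 := cond_true_right h2 (Nat.ble_eq_true_of_le hv)
  exact cond_true_right (cond_true_right h3 (parab_iff.2 p02)) (parab_iff.2 p12)

/-- the direction `i` is orthogonal to the angles -/
def Orth (t0 t1 t2 : ℝ) (D i : ℕ) : Prop :=
  ((dx D i 0 : ℝ) - 32) * t0 + ((dx D i 1 : ℝ) - 32) * t1 + ((dx D i 2 : ℝ) - 32) * t2 = 0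

theorem orth_of_par {t0 t1 t2 : ℝ} {c0 c1 c2 e D i : ℕ} (hp : Par c0 c1 c2 e D i)
    (h : (c0 : ℝ) * t0 + c1 * t1 + c2 * t2 = (e : ℝ) * (t0 + t1 + t2))
    (hne : ¬ (c0 = e ∧ c1 = e ∧ c2 = e)) : Orth t0 t1 t2 D i := by
  obtain ⟨p01, p02, p12⟩ := hp
  have q01 : ((c0 : ℝ) - e) * ((dx D i 1 : ℝ) - 32) = ((c1 : ℝ) - e) * ((dx D i 0 : ℝ) - 32) := by
    exact_mod_cast p01
  have q02 : ((c0 : ℝ) - e) * ((dx D i 2 : ℝ) - 32) = ((c2 : ℝ) - e) * ((dx D i 0 : ℝ) - 32) := by
    exact_mod_cast p02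
  have q12 : ((c1 : ℝ) - e) * ((dx D i 2 : ℝ) - 32) = ((c2 : ℝ) - e) * ((dx D i 1 : ℝ) - 32) := by
    exact_mod_cast p12
  unfold Orth
  set d0 := (dx D i 0 : ℝ) - 32
  set d1 := (dx D i 1 : ℝ) - 32
  set d2 := (dx D i 2 : ℝ) - 32
  set r0 := (c0 : ℝ) - e with hr0
  set r1 := (c1 : ℝ) - e with hr1
  set r2 := (c2 : ℝ) - e with hr2
  have hr : r0 * t0 + r1 * t1 + r2 * t2 = 0 := by rw [hr0, hr1, hr2]; linarith
  by_cases h0 : r0 = 0
  · by_cases h1 : r1 = 0
    · by_cases h2 : r2 = 0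
      · exfalso
        apply hne
        refine ⟨?_, ?_, ?_⟩
        · have : (c0 : ℝ) = e := by linarith
          exact_mod_cast this
        · have : (c1 : ℝ) = e := by linarith
          exact_mod_cast this
        · have : (c2 : ℝ) = e := by linarith
          exact_mod_cast this
      · have : r2 * (d0 * t0 + d1 * t1 + d2 * t2) = 0 := by
          have : r2 * (d0 * t0 + d1 * t1 + d2 * t2) = d2 * (r0 * t0 + r1 * t1 + r2 * t2) := by
            linear_combination (-t0) * q02 - t1 * q12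
          rw [this, hr, mul_zero]
        exact (mul_eq_zero.1 this).resolve_left h2
    · have : r1 * (d0 * t0 + d1 * t1 + d2 * t2) = 0 := by
        have : r1 * (d0 * t0 + d1 * t1 + d2 * t2) = d1 * (r0 * t0 + r1 * t1 + r2 * t2) := by
          linear_combination (-t0) * q01 + t2 * q12
        rw [this, hr, mul_zero]
      exact (mul_eq_zero.1 this).resolve_left h1
  · have : r0 * (d0 * t0 + d1 * t1 + d2 * t2) = 0 := by
      have : r0 * (d0 * t0 + d1 * t1 + d2 * t2) = d0 * (r0 * t0 + r1 * t1 + r2 * t2) := by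
        linear_combination t1 * q01 + t2 * q02
      rw [this, hr, mul_zero]
    exact (mul_eq_zero.1 this).resolve_left h0

/-- the angles are proportional to the shape `s` -/
def Shp (t0 t1 t2 : ℝ) (P s : ℕ) : Prop :=
  t0 * sx P s 1 = t1 * sx P s 0 ∧ t0 * sx P s 2 = t2 * sx P s 0

theorem prB_spec {t0 t1 t2 : ℝ} (T : Tri3 t0 t1 t2) {P0 M0 P1 M1 P2 M2 s ns P : ℕ}
    (h : prB P0 M0 P1 M1 P2 M2 s ns P = true)
    (h1 : ((P0 : ℝ) - M0) * t1 = ((P1 : ℝ) - M1) * t0)
    (h2 : ((P0 : ℝ) - M0) * t2 = ((P2 : ℝ) - M2) * t0)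
    (h3 : ((P1 : ℝ) - M1) * t2 = ((P2 : ℝ) - M2) * t1) :
    s < ns ∧ Shp t0 t1 t2 P s := by
  have hp := T.pos
  have l1 := T.le01
  have l2 := T.le12
  unfold prB at h
  have par : ppB P0 M0 P1 M1 P2 M2 (sx P s 0) (sx P s 1) (sx P s 2) = true →
      (P0 : ℝ) - M0 ≠ 0 → Shp t0 t1 t2 P s := by
    intro hpp hne
    obtain ⟨a1, a2⟩ := cond_false_right hpp
    have b1 := Nat.eq_of_beq_eq_true a1
    have b2 := Nat.eq_of_beq_eq_true a2
    have d1 : (P0 : ℝ) * sx P s 1 + M1 * sx P s 0 = P1 * sx P s 0 + M0 * sx P s 1 := by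
      exact_mod_cast b1
    have d2 : (P0 : ℝ) * sx P s 2 + M2 * sx P s 0 = P2 * sx P s 0 + M0 * sx P s 2 := by
      exact_mod_cast b2
    constructor
    · apply mul_left_cancel₀ hne
      linear_combination t0 * d1 - (sx P s 0 : ℝ) * h1
    · apply mul_left_cancel₀ hne
      linear_combination t0 * d2 - (sx P s 0 : ℝ) * h2
  rcases lt_trichotomy ((P0 : ℝ) - M0) 0 with hc | hc | hc
  · -- negative
    have g1 : (P1 : ℝ) - M1 ≤ P0 - M0 := by
      have : ((P1 : ℝ) - M1) * t0 ≤ (P0 - M0) * t0 := by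
        rw [← h1]
        nlinarith
      exact le_of_mul_le_mul_right this hp
    have g2 : (P2 : ℝ) - M2 ≤ P1 - M1 := by
      have ht1 : 0 < t1 := by linarith
      have : ((P2 : ℝ) - M2) * t1 ≤ (P1 - M1) * t1 := by
        rw [← h3]
        nlinarith
      exact le_of_mul_le_mul_right this ht1
    have sp : spB M0 P0 M1 P1 M2 P2 = true := by
      unfold spB
      have a1 : P0 + 1 ≤ M0 := by
        have : (P0 : ℝ) < M0 := by linarith
        have : P0 < M0 := by exact_mod_cast this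
        omega
      have a2 : M0 + P1 ≤ M1 + P0 := by
        have : (M0 : ℝ) + P1 ≤ M1 + P0 := by linarith
        exact_mod_cast this
      have a3 : M1 + P2 ≤ M2 + P1 := by
        have : (M1 : ℝ) + P2 ≤ M2 + P1 := by linarith
        exact_mod_cast this
      rw [Nat.ble_eq_true_of_le a1, Nat.ble_eq_true_of_le a2, Nat.ble_eq_true_of_le a3]
      rfl
    rw [sp] at h
    have h' : cond (Nat.ble (s + 1) ns)
      (ppB P0 M0 P1 M1 P2 M2 (sx P s 0) (sx P s 1) (sx P s 2)) false = true := by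
      cases hh : spB P0 M0 P1 M1 P2 M2 <;> rw [hh] at h <;> exact h
    obtain ⟨u1, u2⟩ := cond_false_right h'
    have := Nat.le_of_ble_eq_true u1
    exact ⟨by omega, par u2 hc.ne⟩
  · -- zero
    exfalso
    rw [hc, zero_mul] at h1 h2
    have z1 : (P1 : ℝ) - M1 = 0 := by
      rcases mul_eq_zero.1 h1.symm with h | h
      · exact h
      · exact absurd h hp.ne'
    have z2 : (P2 : ℝ) - M2 = 0 := by
      rcases mul_eq_zero.1 h2.symm with h | h
      · exact h
      · exact absurd h hp.ne'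
    have e0 : P0 = M0 := by
      have : (P0 : ℝ) = M0 := by linarith
      exact_mod_cast this
    have e1 : P1 = M1 := by
      have : (P1 : ℝ) = M1 := by linarith
      exact_mod_cast this
    have e2 : P2 = M2 := by
      have : (P2 : ℝ) = M2 := by linarith
      exact_mod_cast this
    subst e0 e1 e2
    have n1 : spB P0 P0 P1 P1 P2 P2 = false := by
      unfold spB
      have : Nat.ble (P0 + 1) P0 = false := by
        cases hh : Nat.ble (P0 + 1) P0
        · rfl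
        · exact absurd (Nat.le_of_ble_eq_true hh) (by omega)
      rw [this]
      rfl
    rw [n1, Nat.beq_refl, Nat.beq_refl, Nat.beq_refl] at h
    exact absurd h (by simp)
  · -- positive
    have g1 : (P0 : ℝ) - M0 ≤ P1 - M1 := by
      have : ((P0 : ℝ) - M0) * t0 ≤ (P1 - M1) * t0 := by
        rw [← h1]
        nlinarith
      exact le_of_mul_le_mul_right this hp
    have g2 : (P1 : ℝ) - M1 ≤ P2 - M2 := by
      have ht1 : 0 < t1 := by linarith
      have : ((P1 : ℝ) - M1) * t1 ≤ (P2 - M2) * t1 := by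
        rw [← h3]
        nlinarith
      exact le_of_mul_le_mul_right this ht1
    have sp : spB P0 M0 P1 M1 P2 M2 = true := by
      unfold spB
      have a1 : M0 + 1 ≤ P0 := by
        have : (M0 : ℝ) < P0 := by linarith
        have : M0 < P0 := by exact_mod_cast this
        omega
      have a2 : P0 + M1 ≤ P1 + M0 := by
        have : (P0 : ℝ) + M1 ≤ P1 + M0 := by linarith
        exact_mod_cast this
      have a3 : P1 + M2 ≤ P2 + M1 := by
        have : (P1 : ℝ) + M2 ≤ P2 + M1 := by linarith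
        exact_mod_cast this
      rw [Nat.ble_eq_true_of_le a1, Nat.ble_eq_true_of_le a2, Nat.ble_eq_true_of_le a3]
      rfl
    rw [sp] at h
    obtain ⟨u1, u2⟩ := cond_false_right h
    have := Nat.le_of_ble_eq_true u1
    exact ⟨by omega, par u2 hc.ne'⟩

theorem crB_spec {t0 t1 t2 : ℝ} (T : Tri3 t0 t1 t2) {a0 a1 a2 b0 b1 b2 s ns P : ℕ}
    (h : crB a0 a1 a2 b0 b1 b2 s ns P = true)
    (ha : ((a0 : ℝ) - 32) * t0 + ((a1 : ℝ) - 32) * t1 + ((a2 : ℝ) - 32) * t2 = 0)
    (hb : ((b0 : ℝ) - 32) * t0 + ((b1 : ℝ) - 32) * t1 + ((b2 : ℝ) - 32) * t2 = 0) :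
    s < ns ∧ Shp t0 t1 t2 P s := by
  apply prB_spec T h
  · push_cast
    linear_combination ((b2 : ℝ) - 32) * ha - ((a2 : ℝ) - 32) * hb
  · push_cast
    linear_combination (-((b1 : ℝ) - 32)) * ha + ((a1 : ℝ) - 32) * hb
  · push_cast
    linear_combination ((b0 : ℝ) - 32) * ha - ((a0 : ℝ) - 32) * hb

theorem pair_shape {t0 t1 t2 : ℝ} (T : Tri3 t0 t1 t2) {nd ns D P H : ℕ}
    (hP : chkPairs nd ns D P H = true) {i j : ℕ} (hi : i < nd) (hj : j < nd) (hij : i ≠ j)
    (oi : Orth t0 t1 t2 D i) (oj : Orth t0 t1 t2 D j) : ∃ s < ns, Shp t0 t1 t2 P s := by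
  rcases lt_or_gt_of_ne hij with hlt | hlt
  · have h1 := allB_spec (allB_spec hP j hj) i hlt
    exact ⟨_, crB_spec T h1 oi oj⟩
  · have h1 := allB_spec (allB_spec hP i hi) j hlt
    exact ⟨_, crB_spec T h1 oj oi⟩

theorem shape_N {t0 t1 t2 : ℝ} (T : Tri3 t0 t1 t2) {n A P s : ℕ} (hs : Shp t0 t1 t2 P s)
    (h0 : 1 ≤ sx P s 0) (h01 : sx P s 0 ≤ sx P s 1) (h12 : sx P s 1 ≤ sx P s 2)
    (hC : chkShape n A (sx P s 0) (sx P s 1) (sx P s 2) = true)
    {c0 c1 c2 f : ℕ} (hf : f ≤ 1) (hv : c0 + c1 + c2 + f ≤ n)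
    (h : (c0 : ℝ) * t0 + c1 * t1 + c2 * t2 = ((2 - f : ℕ) : ℝ) * (t0 + t1 + t2)) :
    chkN A c0 c1 c2 f = true := by
  obtain ⟨s1, s2⟩ := hs
  have hp := T.pos
  generalize sx P s 0 = p0 at *
  generalize sx P s 1 = p1 at *
  generalize sx P s 2 = p2 at *
  have hkey : c0 * p0 + c1 * p1 + c2 * p2 = (2 - f) * (p0 + p1 + p2) := by
    have : t0 * ((c0 : ℝ) * p0 + c1 * p1 + c2 * p2) = t0 * (((2 - f : ℕ) : ℝ) * (p0 + p1 + p2)) := by
      linear_combination (p0 : ℝ) * h + ((c1 : ℝ) - ((2 - f : ℕ) : ℝ)) * s1 +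
        ((c2 : ℝ) - ((2 - f : ℕ) : ℝ)) * s2
    have := mul_left_cancel₀ hp.ne' this
    exact_mod_cast this
  set q := (2 - f) * (p0 + p1 + p2) with hq
  have hc2 : c2 < q / p2 + 1 := by
    have : c2 ≤ q / p2 := by
      rw [Nat.le_div_iff_mul_le (by omega)]
      omega
    omega
  have hc1 : c1 < (q - c2 * p2) / p1 + 1 := by
    have : c1 ≤ (q - c2 * p2) / p1 := by
      rw [Nat.le_div_iff_mul_le (by omega)]
      omega
    omega
  have h1 := allB_spec (allB_spec (allB_spec hC f (by omega)) c2 hc2) c1 hc1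
  have hr : (q - c2 * p2 - c1 * p1) = c0 * p0 := by omega
  rw [← hq, hr, Nat.mul_mod_left, Nat.mul_div_cancel _ (by omega : 0 < p0)] at h1
  have h2 := cond_true_right h1 (Nat.beq_refl 0)
  exact cond_true_right h2 (Nat.ble_eq_true_of_le hv)

/-- **Classification of the angles**, modulo the finite checks: either all relations of nodes are
multiples of one marked direction, or the triangle has a marked shape. -/
theorem classify {ι : Type} {n : ℕ} (S : Sys3 ι n) {nf nd ns F D P H : ℕ} (hnf : 0 < nf)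
    (hT : allB nf (fun j => chkT n (fn F j)) = true)
    (hR : chkRel n nd D = true)
    (hD : chkDir n nd nf D F = true)
    (hP : chkPairs nd ns D P H = true)
    (hS : chkShapes n ns nf P F = true)
    (h0 : chkN (fn F 0) 2 2 2 0 = true) (h0' : chkN (fn F 0) 1 1 1 1 = true) :
    (∃ i < nd, dj D i = 255 ∧ Orth (S.θ 0) (S.θ 1) (S.θ 2) D i ∧ ∀ t x, x ∈ S.N t →
      Par (S.cnt 0 x) (S.cnt 1 x) (S.cnt 2 x) (2 - S.fl x) D i) ∨
    (∃ s < ns, sx P s 3 = 255 ∧ Shp (S.θ 0) (S.θ 1) (S.θ 2) P s) := by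
  classical
  have T : Tri3 (S.θ 0) (S.θ 1) (S.θ 2) := ⟨S.θ_pos 0, S.θ_le01, S.θ_le12⟩
  have hang : ∀ t x, x ∈ S.N t → (S.cnt 0 x : ℝ) * S.θ 0 + S.cnt 1 x * S.θ 1 + S.cnt 2 x * S.θ 2 =
      ((2 - S.fl x : ℕ) : ℝ) * (S.θ 0 + S.θ 1 + S.θ 2) := by
    intro t x hx
    have h1 := S.ang_cnt hx
    have h2 := S.fl_le hx
    rw [S.θ_sum, Nat.cast_sub (by omega)]
    push_cast
    linarith
  have hv : ∀ t x, x ∈ S.N t → S.cnt 0 x + S.cnt 1 x + S.cnt 2 x + S.fl x ≤ n := by
    intro t x hx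
    have h1 := S.val_cnt x
    have h2 : S.val x ≤ n := by
      -- the tile `t` has at least two further nodes
      have h3 := S.sum_val t
      have h4 : S.val x - 2 + ∑ y ∈ (S.N t).erase x, (S.val y - 2) = n := by
        refine Eq.trans ?_ h3
        exact Finset.add_sum_erase _ (fun y => S.val y - 2) hx
      have h5 : 2 ≤ ∑ y ∈ (S.N t).erase x, (S.val y - 2) := by
        have h6 : ∑ y ∈ (S.N t).erase x, 1 ≤ ∑ y ∈ (S.N t).erase x, (S.val y - 2) := by
          apply Finset.sum_le_sum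
          intro y hy
          have := S.val_ge (Finset.mem_of_mem_erase hy)
          omega
        rw [Finset.sum_const, smul_eq_mul, mul_one, Finset.card_erase_of_mem hx] at h6
        have := S.card_ge t
        omega
      omega
    omega
  -- the trivial classes
  have htriv : ∀ t x, x ∈ S.N t → S.cnt 0 x = 2 - S.fl x ∧ S.cnt 1 x = 2 - S.fl x ∧
      S.cnt 2 x = 2 - S.fl x → chkN (fn F 0) (S.cnt 0 x) (S.cnt 1 x) (S.cnt 2 x) (S.fl x) = true := by
    intro t x hx hc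
    have h2 := S.fl_le hx
    rw [hc.1, hc.2.1, hc.2.2]
    rcases Nat.le_one_iff_eq_zero_or_eq_one.1 h2 with h | h
    · rw [h]; exact h0
    · rw [h]; exact h0'
  -- an excluded price table has a node which violates it
  have viol : ∀ j < nf, ∃ t x, x ∈ S.N t ∧
      ¬ chkN (fn F j) (S.cnt 0 x) (S.cnt 1 x) (S.cnt 2 x) (S.fl x) = true := by
    intro j hj
    by_contra hcon
    push Not at hcon
    exact kill S (fn F j) (allB_spec hT j hj) hcon
  -- from a marked or unmarked direction to a second one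
  have second : ∀ i < nd, (∃ t x, x ∈ S.N t ∧
      ¬ Par (S.cnt 0 x) (S.cnt 1 x) (S.cnt 2 x) (2 - S.fl x) D i) →
      Orth (S.θ 0) (S.θ 1) (S.θ 2) D i → ∃ s < ns, Shp (S.θ 0) (S.θ 1) (S.θ 2) P s := by
    rintro i hi ⟨t, x, hx, hnp⟩ ho
    rcases rel_dir T hR (S.fl_le hx) (hv t x hx) (hang t x hx) with hc | ⟨j, hj, hpj⟩
    · exfalso
      apply hnp
      rw [hc.1, hc.2.1, hc.2.2]
      refine ⟨?_, ?_, ?_⟩ <;> ring
    · have hne : i ≠ j := by
        rintro rfl
        exact hnp hpj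
      have hnt : ¬ (S.cnt 0 x = 2 - S.fl x ∧ S.cnt 1 x = 2 - S.fl x ∧ S.cnt 2 x = 2 - S.fl x) := by
        intro hc
        apply hnp
        rw [hc.1, hc.2.1, hc.2.2]
        refine ⟨?_, ?_, ?_⟩ <;> ring
      exact pair_shape T hP hi hj hne ho (orth_of_par hpj (hang t x hx) hnt)
  -- the first direction
  obtain ⟨t, x, hx, hnx⟩ := viol 0 hnf
  rcases rel_dir T hR (S.fl_le hx) (hv t x hx) (hang t x hx) with hc | ⟨i, hi, hpi⟩
  · exact absurd (htriv t x hx hc) hnx
  have hnt : ¬ (S.cnt 0 x = 2 - S.fl x ∧ S.cnt 1 x = 2 - S.fl x ∧ S.cnt 2 x = 2 - S.fl x) :=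
    fun hc => hnx (htriv t x hx hc)
  have hoi := orth_of_par hpi (hang t x hx) hnt
  have hshape : (∃ s < ns, Shp (S.θ 0) (S.θ 1) (S.θ 2) P s) →
      ∃ s < ns, sx P s 3 = 255 ∧ Shp (S.θ 0) (S.θ 1) (S.θ 2) P s := by
    rintro ⟨s, hs, hsh⟩
    refine ⟨s, hs, ?_, hsh⟩
    have k1 := allB_spec hS s hs
    obtain ⟨a0, k2⟩ := cond_false_right k1
    obtain ⟨a1, k3⟩ := cond_false_right k2
    obtain ⟨a2, k4⟩ := cond_false_right k3
    have b0 := Nat.le_of_ble_eq_true a0
    have b1 := Nat.le_of_ble_eq_true a1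
    have b2 := Nat.le_of_ble_eq_true a2
    cases hm : Nat.beq (sx P s 3) 255 with
    | true => exact Nat.eq_of_beq_eq_true hm
    | false =>
      exfalso
      rw [hm] at k4
      obtain ⟨a3, k5⟩ := cond_false_right k4
      have b3 := Nat.le_of_ble_eq_true a3
      obtain ⟨t', x', hx', hn'⟩ := viol (sx P s 3) (by omega)
      exact hn' (shape_N T hsh b0 b1 b2 k5 (S.fl_le hx') (hv t' x' hx') (hang t' x' hx'))
  by_cases hall : ∀ t x, x ∈ S.N t →
      Par (S.cnt 0 x) (S.cnt 1 x) (S.cnt 2 x) (2 - S.fl x) D i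
  · -- rank one
    have k1 := allB_spec hD i hi
    cases hm : Nat.beq (dj D i) 255 with
    | true => exact Or.inl ⟨i, hi, Nat.eq_of_beq_eq_true hm, hoi, hall⟩
    | false =>
      exfalso
      rw [hm] at k1
      obtain ⟨a3, k5⟩ := cond_false_right k1
      have b3 := Nat.le_of_ble_eq_true a3
      obtain ⟨t', x', hx', hn'⟩ := viol (dj D i) (by omega)
      exact hn' (line_N k5 (S.fl_le hx') (hv t' x' hx') (hall t' x' hx'))
  · push Not at hall
    obtain ⟨t', x', hx', hn'⟩ := hall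
    exact Or.inr (hshape (second i hi ⟨t', x', hx', hn'⟩ hoi))

end Pool.Agent.NNc
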