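import Mathlib

/-!
Module DIH (pure combinatorics).  The orbit of a product of two fixed point free involutions.

`σ`, `τ` are involutions without fixed points on the finite set `s`, and the fibres of `π` on `s` are the
pairs `{a, τ a}`.  Starting with `a` the sequence `a, στ a, (στ)^2 a, …` is periodic
(`σ ∘ τ` is injective on the finite set `s`); let `L` be one period (`List.iterate`, or
`(List.range p).map (fun t => (σ ∘ τ)^[t] a)`, `p = Function.minimalPeriod`).  `π` is injective on `L`: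
otherwise (as fibres are `{b, τ b}`) `(στ)^t a = τ a` for some `t` (shift: `(στ)⁻¹ = τσ`).
`t = 2 u`: `e = (στ)^u a` satisfies `e = τ e`;  `t = 2 u + 1`: `στ e = τ e` with `e = (στ)^u a`
(use `(τσ)^u τ a = τ (στ)^u a`).  Both are impossible.
-/

namespace Pool.Agent.NNc

open Function in
private theorem DIH_abs {S : Type} (f g t : S → S) (hgf : ∀ b, g (f b) = b) (h0 : ∀ b, b ≠ t b)
    (h1 : ∀ b, f b ≠ t b) (h2 : ∀ b, g (t b) = t (f b)) (n : ℕ) : ∀ b, f^[n] b ≠ t b := by
  induction n using Nat.twoStepInduction with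
  | zero => exact h0
  | one => exact h1
  | more n ih _ =>
    intro b hb
    refine ih (f b) ?_
    have h3 : f^[n + 2] b = f (f^[n] (f b)) := by
      rw [Function.iterate_succ_apply', Function.iterate_succ_apply]
    rw [h3] at hb
    rw [← h2, ← hb, hgf]

open Function in
private theorem DIH_sub {S β : Type} [Finite S] (σ τ : S → S) (π : S → β)
    (hσ : ∀ a, σ (σ a) = a) (hτ : ∀ a, τ (τ a) = a)
    (hσ' : ∀ a, σ a ≠ a) (hτ' : ∀ a, τ a ≠ a)
    (hπ : ∀ a b, π a = π b → b = a ∨ b = τ a) (a : S) : ∃ L : List S, L.head? = some a ∧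
    L.IsChain (fun a b => b = σ (τ a)) ∧ (∀ e, L.getLast? = some e → σ (τ e) = a) ∧
    (L.map π).Nodup ∧ (∀ e ∈ L, σ (τ e) ∈ L) ∧ (∀ e ∈ L, τ (σ e) ∈ L) := by
  set f : S → S := fun x => σ (τ x) with hf
  have hgf : ∀ b, τ (σ (f b)) = b := fun b => by rw [hf]; simp only [hσ, hτ]
  have hli : LeftInverse (fun x => τ (σ x)) f := hgf
  have hinj : Injective f := hli.injective
  have hp : 0 < minimalPeriod f a := minimalPeriod_pos_of_mem_periodicPts (hinj.mem_periodicPts a)
  have hper : f^[minimalPeriod f a] a = a := isPeriodicPt_minimalPeriod f a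
  have habs := DIH_abs f (fun x => τ (σ x)) τ hgf (fun b => (hτ' b).symm) (fun b => hσ' (τ b))
    (fun b => rfl)
  obtain ⟨p, hpp⟩ : ∃ p, minimalPeriod f a = p + 1 := ⟨minimalPeriod f a - 1, by omega⟩
  have hlt : ∀ i j, i < j → j < p + 1 → π (f^[i] a) ≠ π (f^[j] a) := by
    intro i j hij hj h
    obtain ⟨t, rfl⟩ : ∃ t, j = i + t := ⟨j - i, by omega⟩
    have h3 : f^[i + t] a = f^[t] (f^[i] a) := by rw [add_comm, iterate_add_apply]
    rw [h3] at h
    rcases hπ _ _ h with h4 | h4
    · have h5 : f^[t] a = a := by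
        have h6 : f^[i] (f^[t] a) = f^[i] a := by
          rw [← iterate_add_apply, add_comm, iterate_add_apply]
          rw [add_comm i t, iterate_add_apply] at h3
          exact h4
        exact (hinj.iterate i) h6
      have h7 : minimalPeriod f a ≤ t := IsPeriodicPt.minimalPeriod_le (by omega) h5
      omega
    · exact habs t _ h4
  refine ⟨(List.range (p + 1)).map (fun t => f^[t] a), ?_, ?_, ?_, ?_, ?_, ?_⟩
  · rw [List.range_succ_eq_map]
    rfl
  · rw [List.isChain_map, List.isChain_range_succ]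
    intro i hi
    exact iterate_succ_apply' f i a
  · intro e he
    rw [List.range_succ, List.map_append, List.map_cons, List.map_nil,
      List.getLast?_append] at he
    simp only [List.getLast?_singleton, Option.some_or, Option.some.injEq] at he
    rw [← he]
    show f (f^[p] a) = a
    rw [← iterate_succ_apply' f p a]
    rw [hpp] at hper
    exact hper
  · rw [List.map_map]
    refine List.Nodup.map_on ?_ List.nodup_range
    intro i hi j hj hij
    rw [List.mem_range] at hi hj
    rcases lt_trichotomy i j with h | h | h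
    · exact absurd hij (hlt i j h hj)
    · exact h
    · exact absurd hij.symm (hlt j i h hi)
  · intro e he
    rw [List.mem_map] at he ⊢
    obtain ⟨i, hi, rfl⟩ := he
    rw [List.mem_range] at hi
    by_cases h : i = p
    · refine ⟨0, List.mem_range.2 (by omega), ?_⟩
      rw [hpp, iterate_succ_apply'] at hper
      rw [h]
      exact hper.symm
    · refine ⟨i + 1, List.mem_range.2 (by omega), ?_⟩
      exact iterate_succ_apply' f i a
  · intro e he
    rw [List.mem_map] at he ⊢
    obtain ⟨i, hi, rfl⟩ := he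
    rw [List.mem_range] at hi
    rcases i with _ | i
    · refine ⟨p, List.mem_range.2 (by omega), ?_⟩
      rw [hpp, iterate_succ_apply'] at hper
      show f^[p] a = τ (σ a)
      rw [← hgf (f^[p] a), hper]
    · refine ⟨i, List.mem_range.2 (by omega), ?_⟩
      show f^[i] a = τ (σ (f^[i + 1] a))
      rw [iterate_succ_apply', hgf]

theorem dihedral {α β : Type} (σ τ : α → α) (π : α → β) (s : Finset α)
    (hσs : ∀ a ∈ s, σ a ∈ s) (hτs : ∀ a ∈ s, τ a ∈ s)
    (hσ : ∀ a ∈ s, σ (σ a) = a) (hτ : ∀ a ∈ s, τ (τ a) = a)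
    (hσ' : ∀ a ∈ s, σ a ≠ a) (hτ' : ∀ a ∈ s, τ a ≠ a)
    (hπ : ∀ a ∈ s, ∀ b ∈ s, π a = π b → b = a ∨ b = τ a) (hπτ : ∀ a ∈ s, π (τ a) = π a)
    (a : α) (ha : a ∈ s) : ∃ L : List α, L.head? = some a ∧
    L.IsChain (fun a b => b = σ (τ a)) ∧ (∀ e, L.getLast? = some e → σ (τ e) = a) ∧
    (∀ e ∈ L, e ∈ s) ∧ (L.map π).Nodup ∧
    (∀ e ∈ L, σ (τ e) ∈ L) ∧ (∀ e ∈ L, τ (σ e) ∈ L) := by
  let σ' : {x // x ∈ s} → {x // x ∈ s} := fun x => ⟨σ x.1, hσs x.1 x.2⟩
  let τ' : {x // x ∈ s} → {x // x ∈ s} := fun x => ⟨τ x.1, hτs x.1 x.2⟩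
  obtain ⟨L, h1, h2, h3, h4, h5, h6⟩ := DIH_sub σ' τ' (fun x => π x.1)
    (fun x => Subtype.ext (hσ x.1 x.2)) (fun x => Subtype.ext (hτ x.1 x.2))
    (fun x h => hσ' x.1 x.2 (congrArg Subtype.val h)) (fun x h => hτ' x.1 x.2 (congrArg Subtype.val h))
    (fun x y h => by
      rcases hπ x.1 x.2 y.1 y.2 h with h | h
      · exact Or.inl (Subtype.ext h)
      · exact Or.inr (Subtype.ext h)) ⟨a, ha⟩
  refine ⟨L.map Subtype.val, ?_, ?_, ?_, ?_, ?_, ?_, ?_⟩
  · rw [List.head?_map, h1]
    rfl
  · rw [List.isChain_map]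
    refine h2.imp ?_
    intro x y h
    rw [h]
  · intro e he
    rw [List.getLast?_map] at he
    rcases hL : L.getLast? with _ | x
    · rw [hL] at he
      cases he
    · rw [hL] at he
      simp only [Option.map_some, Option.some.injEq] at he
      rw [← he]
      exact congrArg Subtype.val (h3 x hL)
  · intro e he
    obtain ⟨x, hx, rfl⟩ := List.mem_map.1 he
    exact x.2
  · rw [List.map_map]
    exact h4
  · intro e he
    obtain ⟨x, hx, rfl⟩ := List.mem_map.1 he
    exact List.mem_map.2 ⟨_, h5 x hx, rfl⟩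
  · intro e he
    obtain ⟨x, hx, rfl⟩ := List.mem_map.1 he
    exact List.mem_map.2 ⟨_, h6 x hx, rfl⟩

end Pool.Agent.NNc
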