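import Pool.Agent.NNc.Dart
import Pool.Agent.NNc.Dih

/-!
Module STAR.  The closed star of a node.

Apply `dihedral` to the finite set `s` of the darts at the node `x = d.nd`
(finite: image of `(S.tl x) ×ˢ …`; e.g. the darts are determined by tile and far node, the tile is in
`S.tl x`, the far node in `S.N tile`), `σ = swp`, `τ = nxt`, `π = tile`.
`hπ` is `Dart.eq_or_nxt`.  The set `A` of the tiles of the list is closed under sharing another node:
if `i ∈ A`, `j ∈ S.tl x`, `y ≠ x`, `y ∈ N i`, `y ∈ N j`, `j ≠ i`, then `(i, x, y)` is a dart `f`; the list contains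
`e` with tile `i`, and `f = e` or `f = nxt e` (`eq_or_nxt`); `(j, x, y) = swp f`.  If `f = nxt e` then
`swp f = swp (nxt e) ∈ L`; if `f = e`, then `nxt (swp e) ∈ L` has the tile `j`.  So `A = S.tl x` (field `link`).
-/

namespace Pool.Agent.NNc

open Pool.Agent.NNb

namespace SysP

variable {ι : Type} {m n : ℕ} (S : SysP ι m n)

theorem STAR_fin (x : ℂ) : {e : S.Dart | e.nd = x}.Finite := by
  classical
  have hinj : Set.InjOn (fun e : S.Dart => (e.tile, e.far)) {e : S.Dart | e.nd = x} := by
    intro a ha b hb hab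
    have ha' : a.nd = x := ha
    have hb' : b.nd = x := hb
    have hab' := Prod.mk.inj hab
    exact Dart.ext hab'.1 (ha'.trans hb'.symm) hab'.2
  apply Set.Finite.of_finite_image _ hinj
  apply Set.Finite.subset
    ((S.tl x ×ˢ ((S.tl x).biUnion S.N) : Finset (ι × ℂ)).finite_toSet)
  rintro ⟨i, y⟩ ⟨e, he, hey⟩
  have he' : e.nd = x := he
  have hey' := Prod.mk.inj hey
  have hx : e.nd ∈ S.N e.tile := e.part.1
  have hy : e.far ∈ S.N e.tile := e.part.2.1
  rw [he', hey'.1] at hx
  rw [hey'.1, hey'.2] at hy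
  rw [Finset.mem_coe, Finset.mem_product, Finset.mem_biUnion]
  have hi : i ∈ S.tl x := (S.mem_tl i x).2 hx
  exact ⟨hi, i, hi, hy⟩

theorem exists_star (d : S.Dart) : ∃ L : List S.Dart, L.head? = some d ∧
    L.IsChain (fun a b => b = a.nxt.swp) ∧ (∀ e, L.getLast? = some e → e.nxt.swp = d) ∧
    (∀ e ∈ L, e.nd = d.nd) ∧ (L.map Dart.tile).Nodup ∧
    ∀ j, j ∈ L.map Dart.tile ↔ j ∈ S.tl d.nd := by
  classical
  obtain ⟨L, h1, h2, h3, h4, h5, h6, h7⟩ := dihedral (σ := Dart.swp) (τ := Dart.nxt)
    (π := Dart.tile) (S.STAR_fin d.nd).toFinset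
    (fun a ha => by
      rw [Set.Finite.mem_toFinset] at ha ⊢
      exact (Dart.nd_swp a).trans ha)
    (fun a ha => by
      rw [Set.Finite.mem_toFinset] at ha ⊢
      exact (Dart.nd_nxt a).trans ha)
    (fun a _ => a.swp_swp) (fun a _ => a.nxt_nxt)
    (fun a _ h => a.tile_swp (congrArg Dart.tile h))
    (fun a _ h => a.far_nxt (congrArg Dart.far h))
    (fun a ha b hb hab => by
      rw [Set.Finite.mem_toFinset] at ha hb
      exact Dart.eq_or_nxt hab.symm (hb.trans ha.symm))
    (fun a _ => rfl) d (by rw [Set.Finite.mem_toFinset]; rfl)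
  have h4' : ∀ e ∈ L, e.nd = d.nd := by
    intro e he
    have := h4 e he
    rw [Set.Finite.mem_toFinset] at this
    exact this
  refine ⟨L, h1, h2, h3, h4', h5, ?_⟩
  have hdL : d ∈ L := List.mem_of_mem_head? h1
  have hA : (L.map Dart.tile).toFinset = S.tl d.nd := by
    apply S.link d.nd
    · intro j hj
      rw [List.mem_toFinset, List.mem_map] at hj
      obtain ⟨e, he, rfl⟩ := hj
      rw [S.mem_tl]
      have := e.part.1
      rwa [h4' e he] at this
    · exact ⟨d.tile, by rw [List.mem_toFinset]; exact List.mem_map_of_mem hdL⟩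
    · rintro i hi j hj ⟨y, hy, hyi, hyj⟩
      rw [List.mem_toFinset] at hi ⊢
      rw [List.mem_map] at hi
      obtain ⟨e, he, rfl⟩ := hi
      by_cases hij : j = e.tile
      · rw [hij]
        exact List.mem_map_of_mem he
      · have hxj : d.nd ∈ S.N j := (S.mem_tl j d.nd).1 hj
        have hxi : d.nd ∈ S.N e.tile := by
          have := e.part.1
          rwa [h4' e he] at this
        have hp : Part S.N e.tile d.nd y := ⟨hxi, hyi, hy.symm, j, hij, hxj, hyj⟩
        have hq : Part S.N j d.nd y := ⟨hxj, hyj, hy.symm, e.tile, Ne.symm hij, hxi, hyi⟩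
        have hqs : Dart.mk hq = (Dart.mk hp).swp :=
          Dart.eq_swp (d := Dart.mk hp) (e := Dart.mk hq) hij rfl rfl
        have hjt : j = (Dart.mk hp).swp.tile := by
          rw [← hqs]
          rfl
        rcases Dart.eq_or_nxt (d := e) (e := Dart.mk hp) rfl (h4' e he).symm with h | h
        · rw [hjt, h]
          have := h7 e he
          exact List.mem_map.2 ⟨_, this, rfl⟩
        · rw [hjt, h]
          exact List.mem_map.2 ⟨_, h6 e he, rfl⟩
  intro j
  rw [← hA, List.mem_toFinset]

end SysP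

end Pool.Agent.NNc
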