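import Pool.Agent.NNc.Dart
import Pool.Agent.NNc.Star

/-!
Module CLSF.  Facts about the class of a node.

`cls_flat_le`: the angles at `x` add up to `2 π` (`S.ang_node`), two flat tiles give `2 π`
(`S.ang_flat`) and there is a tile with a corner at `x` (`S.corner`, `S.ang_corner`).
`cls_sum`: the filters of `S.tl x` by the label partition it (`lbl_eq`, `lbl_m`).
`cls_get`: entry `c` of `cls x` = number of tiles of `S.tl x` with label `c`.
`flat_one`: the two tiles are distinct and both flat at the node, contradiction to `cls_flat_le`.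
`star_count`: `List.countP` over a list with distinct tiles = card of the filter.
-/

namespace Pool.Agent.NNc

open Pool.Agent.NNb

namespace SysP

variable {ι : Type} {m n : ℕ} (S : SysP ι m n)

open Classical in
theorem cls_get (x : ℂ) (c : ℕ) (hc : c ≤ m) :
    (S.cls x).getD c 0 = ((S.tl x).filter (fun i => S.lbl i x = c)).card := by
  rcases Nat.lt_or_ge c m with h | h
  · unfold cls
    rw [List.getD_append _ _ _ _ (by simpa using h)]
    rw [List.getD_eq_getElem _ _ (by simpa using h)]
    rw [List.getElem_map, List.getElem_range]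
    congr 1
    apply Finset.filter_congr
    intro i _
    exact (S.lbl_eq i x h).symm
  · have hcm : c = m := le_antisymm hc h
    subst hcm
    unfold cls
    rw [List.getD_append_right _ _ _ _ (by simp)]
    simp only [List.length_map, List.length_range, Nat.sub_self, List.getD_cons_zero]
    congr 1
    apply Finset.filter_congr
    intro i _
    exact (S.lbl_m i x).symm

theorem CLSF_maps (x : ℂ) (j : ι) : S.lbl j x ∈ Finset.range (m + 1) := by
  rw [Finset.mem_range]
  exact Nat.lt_succ_of_le (S.lbl_le j x)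

theorem CLSF_sum_range (x : ℂ) :
    (S.cls x).sum = ∑ c ∈ Finset.range (m + 1), (S.cls x).getD c 0 := by
  rw [Finset.sum_range_succ]
  have h1 : ∀ c ∈ Finset.range m, (S.cls x).getD c 0 =
      (open Classical in ((S.tl x).filter (fun i => x = S.lab i c)).card) := by
    intro c hc
    rw [Finset.mem_range] at hc
    unfold cls
    rw [List.getD_append _ _ _ _ (by simpa using hc)]
    rw [List.getD_eq_getElem _ _ (by simpa using hc)]
    rw [List.getElem_map, List.getElem_range]
  rw [Finset.sum_congr rfl h1]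
  have h2 : (S.cls x).getD m 0 = (open Classical in ((S.tl x).filter (fun i => x ∉ S.C i)).card) := by
    unfold cls
    rw [List.getD_append_right _ _ _ _ (by simp)]
    simp only [List.length_map, List.length_range, Nat.sub_self, List.getD_cons_zero]
  rw [h2]
  unfold cls
  rw [List.sum_append, List.sum_singleton]
  rfl

theorem cls_sum (x : ℂ) : (S.cls x).sum = S.val x := by
  classical
  rw [S.CLSF_sum_range x]
  have h := Finset.card_eq_sum_card_fiberwise (s := S.tl x) (t := Finset.range (m + 1))
    (f := fun j => S.lbl j x) (fun j _ => S.CLSF_maps x j)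
  unfold Sys.val
  rw [h]
  apply Finset.sum_congr rfl
  intro c hc
  rw [S.cls_get x c (Nat.lt_succ_iff.1 (Finset.mem_range.1 hc))]

theorem cls_flat_le {i : ι} {x : ℂ} (hx : x ∈ S.N i) : (S.cls x).getD m 0 ≤ 1 := by
  classical
  rw [S.cls_get x m le_rfl]
  by_contra hcon
  push Not at hcon
  obtain ⟨a, ha, b, hb, hab⟩ := Finset.one_lt_card.1 hcon
  rw [Finset.mem_filter] at ha hb
  obtain ⟨k, hk⟩ := S.corner i x hx
  have hkt : k ∈ S.tl x := (S.mem_tl k x).2 (S.C_sub k hk)
  have haC := (S.lbl_m a x).1 ha.2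
  have hbC := (S.lbl_m b x).1 hb.2
  have hak : a ≠ k := fun h => haC (h ▸ hk)
  have hbk : b ≠ k := fun h => hbC (h ▸ hk)
  have hsub : ({a, b, k} : Finset ι) ⊆ S.tl x := by
    intro j hj
    simp only [Finset.mem_insert, Finset.mem_singleton] at hj
    rcases hj with rfl | rfl | rfl
    · exact ha.1
    · exact hb.1
    · exact hkt
  have h1 : ∑ j ∈ ({a, b, k} : Finset ι), S.ang j x ≤ ∑ j ∈ S.tl x, S.ang j x :=
    Finset.sum_le_sum_of_subset_of_nonneg hsub
      (fun j hj _ => (S.ang_pos ((S.mem_tl j x).1 hj)).le)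
  rw [S.ang_node i x hx, Finset.sum_insert (by simp [hab, hak]), Finset.sum_pair hbk,
    S.ang_flat a x ((S.mem_tl a x).1 ha.1) haC, S.ang_flat b x ((S.mem_tl b x).1 hb.1) hbC] at h1
  have h2 := (S.ang_corner k x hk).1
  linarith

theorem flat_one (d : S.Dart) (h : S.lbl d.tile d.nd = m) : S.lbl d.swp.tile d.nd < m := by
  classical
  refine lt_of_le_of_ne (S.lbl_le _ _) (fun h2 => ?_)
  have hN : d.nd ∈ S.N d.tile := d.part.1
  have hN2 : d.nd ∈ S.N d.swp.tile := by
    have := d.swp.part.1
    rwa [Dart.nd_swp] at this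
  have h1 := S.cls_flat_le hN
  rw [S.cls_get _ m le_rfl] at h1
  have h3 := Finset.card_le_one.1 h1 d.tile
    (Finset.mem_filter.2 ⟨(S.mem_tl _ _).2 hN, h⟩) d.swp.tile
    (Finset.mem_filter.2 ⟨(S.mem_tl _ _).2 hN2, h2⟩)
  exact d.tile_swp h3.symm

theorem star_count (x : ℂ) (L : List S.Dart) (h1 : ∀ e ∈ L, e.nd = x)
    (h2 : (L.map Dart.tile).Nodup) (h3 : ∀ j, j ∈ L.map Dart.tile ↔ j ∈ S.tl x) (c : ℕ)
    (hc : c ≤ m) : L.countP (fun e => S.lbl e.tile e.nd = c) = (S.cls x).getD c 0 := by
  classical
  rw [S.cls_get x c hc]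
  have e1 : L.countP (fun e => S.lbl e.tile e.nd = c) =
      (L.map Dart.tile).countP (fun j => S.lbl j x = c) := by
    rw [List.countP_map]
    apply List.countP_congr
    intro e he
    simp [h1 e he]
  have e2 : (L.map Dart.tile).toFinset = S.tl x := by
    ext j
    rw [List.mem_toFinset]
    exact h3 j
  have e3 : (L.map Dart.tile).toFinset.filter (fun j => S.lbl j x = c) =
      ((L.map Dart.tile).filter (fun j => decide (S.lbl j x = c))).toFinset := by
    ext j
    simp
  rw [e1, ← e2, e3, List.toFinset_card_of_nodup (h2.filter _), List.countP_eq_length_filter]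

/-- the angle equation of a class -/
theorem cls_ang {i : ι} {x : ℂ} (hx : x ∈ S.N i) (th : ℕ → ℝ)
    (hth : ∀ j k, k < m → S.ang j (S.lab j k) = th k) :
    ∑ k ∈ Finset.range m, ((S.cls x).getD k 0 : ℝ) * th k + ((S.cls x).getD m 0 : ℝ) * Real.pi =
      2 * Real.pi := by
  classical
  rw [← S.ang_node i x hx]
  rw [← Finset.sum_fiberwise_of_maps_to (s := S.tl x) (t := Finset.range (m + 1))
    (g := fun j => S.lbl j x) (fun j _ => S.CLSF_maps x j), Finset.sum_range_succ]
  congr 1
  · apply Finset.sum_congr rfl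
    intro k hk
    rw [Finset.mem_range] at hk
    rw [S.cls_get x k hk.le]
    rw [Finset.sum_congr rfl (g := fun _ => th k), Finset.sum_const, nsmul_eq_mul]
    intro j hj
    rw [Finset.mem_filter] at hj
    rw [(S.lbl_eq j x hk).1 hj.2]
    exact hth j k hk
  · rw [S.cls_get x m le_rfl]
    rw [Finset.sum_congr rfl (g := fun _ => Real.pi), Finset.sum_const, nsmul_eq_mul]
    intro j hj
    rw [Finset.mem_filter] at hj
    exact S.ang_flat j x ((S.mem_tl j x).1 hj.1) ((S.lbl_m j x).1 hj.2)

end SysP

end Pool.Agent.NNc
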