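import Pool.Agent.NNc.Piece

/-!
Module PIECES.  The pieces of a side fit its length.
-/

namespace Pool.Agent.NNc

open Pool.Agent.NNb

namespace SysP

variable {ι : Type} {m n : ℕ} (S : SysP ι m n)

/-- the piece which a dart cuts out of the side of the tile on the other side -/
noncomputable def piece (d : S.Dart) : ℕ × Bool :=
  (S.sd d.swp, decide (S.lbl d.swp.tile d.nd < m ∧ S.lbl d.swp.tile d.far < m))

theorem fits_list (L : List S.Dart) :
    Fits S.len (L.map S.piece) ((L.map (fun d => dist d.nd d.far)).sum) := by
  induction L with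
  | nil => exact rfl
  | cons d L ih =>
    rw [List.map_cons, List.map_cons, List.sum_cons]
    refine ⟨dist d.nd d.far, dist_pos.2 d.nd_ne_far, ?_, ?_, ?_⟩
    · intro h
      have h' := of_decide_eq_true h
      exact S.dist_full d.swp h'.1 h'.2
    · intro h
      have h' := of_decide_eq_false h
      refine S.dist_lt d.swp ?_
      have h1 := S.lbl_le d.swp.tile d.swp.nd
      have h2 := S.lbl_le d.swp.tile d.swp.far
      by_contra hcon
      push Not at hcon
      exact h' ⟨lt_of_le_of_ne h1 hcon.1, lt_of_le_of_ne h2 hcon.2⟩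
    · rw [add_sub_cancel_left]
      exact ih

theorem fits_side (k : ℕ) (L : List S.Dart)
    (hL : (L.map (fun d => dist d.nd d.far)).sum = S.len k) :
    Fits S.len (L.map S.piece) (S.len k) := by
  rw [← hL]
  exact S.fits_list L

end SysP

/-! ## consequences of `Fits` -/

/-- the sum of the lengths of the full pieces -/
def sumF (len : ℕ → ℝ) (l : List (ℕ × Bool)) : ℝ :=
  (l.map (fun p => if p.2 = true then len p.1 else 0)).sum

/-- the sum of the lengths of all pieces (as whole sides) -/
def sumA (len : ℕ → ℝ) (l : List (ℕ × Bool)) : ℝ := (l.map (fun p => len p.1)).sum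

theorem fits_bounds (len : ℕ → ℝ) (l : List (ℕ × Bool)) (s : ℝ) (h : Fits len l s) :
    sumF len l ≤ s ∧ s ≤ sumA len l ∧
    ((∃ p ∈ l, p.2 = false) → sumF len l < s ∧ s < sumA len l) := by
  induction l generalizing s with
  | nil =>
    have h' : s = 0 := h
    simp [sumF, sumA, h']
  | cons p l ih =>
    obtain ⟨b, f⟩ := p
    obtain ⟨t, h0, h1, h2, h3⟩ := h
    obtain ⟨i1, i2, i3⟩ := ih _ h3
    have e1 : sumF len ((b, f) :: l) = (if f = true then len b else 0) + sumF len l := by
      simp [sumF]
    have e2 : sumA len ((b, f) :: l) = len b + sumA len l := by simp [sumA]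
    rw [e1, e2]
    cases f with
    | true =>
      have ht := h1 rfl
      simp only [if_true]
      refine ⟨by linarith, by linarith, ?_⟩
      rintro ⟨p, hp, hpf⟩
      have hp' : p ∈ l := by
        rcases List.mem_cons.1 hp with h | h
        · rw [h] at hpf; exact absurd hpf (by simp)
        · exact h
      obtain ⟨j1, j2⟩ := i3 ⟨p, hp', hpf⟩
      constructor <;> linarith
    | false =>
      have ht := h2 rfl
      simp only [Bool.false_eq_true, if_false]
      refine ⟨by linarith, by linarith, fun _ => ⟨by linarith, by linarith⟩⟩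

theorem fits_full (len : ℕ → ℝ) (l : List (ℕ × Bool)) (s : ℝ) (h : Fits len l s)
    (hf : ∀ p ∈ l, p.2 = true) : s = sumF len l := by
  induction l generalizing s with
  | nil =>
    have h' : s = 0 := h
    simp [sumF, h']
  | cons p l ih =>
    obtain ⟨b, f⟩ := p
    obtain ⟨t, h0, h1, h2, h3⟩ := h
    have hb : f = true := hf (b, f) List.mem_cons_self
    have h4 := ih _ h3 (fun p hp => hf p (List.mem_cons_of_mem _ hp))
    have e1 : sumF len ((b, f) :: l) = (if f = true then len b else 0) + sumF len l := by
      simp [sumF]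
    rw [e1, if_pos hb]
    linarith [h1 hb]

end Pool.Agent.NNc
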