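import Pool.Agent.NNc.Fw
import Pool.Agent.NNb.SumVal

/-!
Module SUMP.  The sum over the nodes of a tile as a sum over its sides.

Every node `x` of the tile `i` is the near node of exactly one dart with `dir = true`
(two darts by `Dart.eq_or_nxt`, `S.part`; exactly one of them has `dir = true` by `dir_nxt`).
So `∑ x ∈ N i, g x = ∑ k < m, ∑ d ∈ L k, g d.nd` (`Finset.sum_bij`/`List.sum_toFinset` …), where `L k`
lists (without repetition) the darts of the tile on the side `k` with `dir = true`.
With `g x = val x - 2` this is `S.sum_val i` (SumVal.lean).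
-/

namespace Pool.Agent.NNc

open Pool.Agent.NNb

namespace SysP

variable {ι : Type} {m n : ℕ} (S : SysP ι m n)

theorem sum_sides (i : ι) (L : ℕ → List S.Dart) (h1 : ∀ k, k < m → (L k).Nodup)
    (h2 : ∀ k, k < m → ∀ d, d ∈ L k ↔ d.tile = i ∧ S.sd d = k ∧ S.dir d = true) (g : ℂ → ℕ) :
    ∑ k ∈ Finset.range m, ((L k).map (fun d => g d.nd)).sum = ∑ x ∈ S.N i, g x := by
  classical
  have e1 : ∀ k ∈ Finset.range m, ((L k).map (fun d => g d.nd)).sum =
      ∑ d ∈ (L k).toFinset, g d.nd := by
    intro k hk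
    rw [List.sum_toFinset _ (h1 k (Finset.mem_range.1 hk))]
  rw [Finset.sum_congr rfl e1, ← Finset.sum_biUnion]
  · refine Finset.sum_bij (fun d _ => d.nd) ?_ ?_ ?_ ?_
    · intro d hd
      obtain ⟨k, hk, hd⟩ := Finset.mem_biUnion.1 hd
      rw [List.mem_toFinset, h2 k (Finset.mem_range.1 hk)] at hd
      rw [← hd.1]
      exact d.part.1
    · intro d hd e he hde
      obtain ⟨k, hk, hd⟩ := Finset.mem_biUnion.1 hd
      rw [List.mem_toFinset, h2 k (Finset.mem_range.1 hk)] at hd
      obtain ⟨l, hl, he⟩ := Finset.mem_biUnion.1 he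
      rw [List.mem_toFinset, h2 l (Finset.mem_range.1 hl)] at he
      rcases Dart.eq_or_nxt (d := d) (e := e) (he.1.trans hd.1.symm) hde.symm with h | h
      · exact h.symm
      · have h3 := S.dir_nxt d
        rw [← h, he.2.2, hd.2.2] at h3
        cases h3
    · intro x hx
      obtain ⟨y, z, -, hy, -, -⟩ := S.part i x hx
      have key : ∀ d : S.Dart, d.tile = i → S.dir d = true →
          d ∈ (Finset.range m).biUnion (fun k => (L k).toFinset) := by
        intro d hd hdir
        refine Finset.mem_biUnion.2 ⟨S.sd d, Finset.mem_range.2 (S.sd_lt d), ?_⟩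
        rw [List.mem_toFinset, h2 _ (S.sd_lt d)]
        exact ⟨hd, rfl, hdir⟩
      by_cases h : S.dir (Dart.mk hy) = true
      · exact ⟨Dart.mk hy, key _ rfl h, rfl⟩
      · refine ⟨(Dart.mk hy).nxt, key _ rfl ?_, rfl⟩
        rw [S.dir_nxt, Bool.eq_false_iff.2 h]
        rfl
    · intro d hd
      rfl
  · intro k hk l hl hkl
    rw [Finset.mem_coe, Finset.mem_range] at hk hl
    rw [Function.onFun, Finset.disjoint_left]
    intro d hd he
    rw [List.mem_toFinset, h2 k hk] at hd
    rw [List.mem_toFinset, h2 l hl] at he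
    exact hkl (hd.2.1.symm.trans he.2.1)

end SysP

end Pool.Agent.NNc
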