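import Pool.Agent.NNc.SideL
import Pool.Agent.NNc.Star
import Pool.Agent.NNc.ClsF
import Pool.Agent.NNc.PieceS
import Pool.Agent.NNc.SumP

/-!
# MP_4b6a99_co: the labelled tiling of a `SysP`
-/

namespace Pool.Agent.NNc

open Pool.Agent.NNb

namespace SysP

variable {ι : Type} {m n : ℕ}

/-- MAIN THEOREM OF M5 -/
theorem exists_LTil (S : SysP ι m n) (sh : Shape) (hm : sh.m = m) (hn : sh.n = n)
    (hW : ∀ i x, x ∈ S.N i → S.cls x ∈ sh.W)
    (hrk1 : ∀ k l, k < m → l < m → S.len k = S.len l → sh.rk k = sh.rk l)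
    (hrk2 : ∀ k l, k < m → l < m → S.len k < S.len l → sh.rk k < sh.rk l)
    (hok : ∀ k (l : List (ℕ × Bool)), k < m → l ≠ [] → (∀ p ∈ l, p.1 < m) →
      Fits S.len l (S.len k) → sh.ok k l = true) :
    Nonempty (LTil sh) := by
  classical
  subst hm
  subst hn
  have hm3 := S.m_ge
  choose sd hsd using S.exists_side
  refine ⟨{
    D := S.Dart
    ι := ι
    ν := ℂ
    ne := ?_
    tile := Dart.tile
    nd := Dart.nd
    rev := Dart.rev
    swp := Dart.swp
    nxt := Dart.nxt
    cls := S.cls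
    lb := fun d => S.lbl d.tile d.nd
    sd := S.sd
    dir := S.dir
    rev_rev := Dart.rev_rev
    swp_swp := Dart.swp_swp
    nxt_nxt := Dart.nxt_nxt
    rev_swp := Dart.rev_swp
    tile_rev := fun d => rfl
    tile_nxt := fun d => rfl
    tile_swp := Dart.tile_swp
    nd_swp := fun d => rfl
    nd_nxt := fun d => rfl
    nd_rev := fun d h => d.nd_ne_far h.symm
    lb_eq := fun d e h1 h2 => by rw [h1, h2]
    lb_le := fun d => S.lbl_le _ _
    sd_lt := S.sd_lt
    sd_rev := S.sd_rev
    dir_rev := S.dir_rev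
    dir_nxt := S.dir_nxt
    sd_corner := S.sd_corner
    sd_flat := S.sd_flat
    flat_one := S.flat_one
    cls_mem := fun d => hW d.tile d.nd d.part.1
    rk_eq := fun d h1 h2 h3 h4 =>
      hrk1 _ _ (S.sd_lt d) (S.sd_lt _) (S.len_eq d h1 h2 h3 h4)
    rk_lt := fun d h1 h2 h3 =>
      hrk2 _ _ (S.sd_lt d) (S.sd_lt _) (S.len_lt d h1 h2 h3)
    side := fun i k => if h : k < sh.m then sd i k h else []
    side_ne := ?_
    side_mem := ?_
    side_nodup := ?_
    side_chain := ?_
    side_lb := ?_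
    side_last := ?_
    side_ok := ?_
    sum := ?_
    star := ?_ }⟩
  · obtain ⟨i⟩ := S.toSys.nonempty
    have hc : 0 < (S.C i).card := by rw [S.C_card]; omega
    obtain ⟨x, hx⟩ := Finset.card_pos.1 hc
    obtain ⟨y, z, _, hy, _, _⟩ := S.part i x (S.C_sub i hx)
    exact ⟨Dart.mk hy⟩
  · intro i k hk
    rw [dif_pos hk]
    exact (hsd i k hk).1
  · intro i k hk
    rw [dif_pos hk]
    exact (hsd i k hk).2.2.1
  · intro i k hk
    rw [dif_pos hk]
    exact (hsd i k hk).2.1
  · intro i k hk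
    rw [dif_pos hk]
    exact (hsd i k hk).2.2.2.1
  · intro i k hk d L hL
    rw [dif_pos hk] at hL
    obtain ⟨h1, h2⟩ := (hsd i k hk).2.2.2.2.1 d L hL
    have hmem : ∀ e ∈ d :: L, e.tile = i := fun e he =>
      (((hsd i k hk).2.2.1 e).1 (by rw [hL]; exact he)).1
    refine ⟨?_, ?_⟩
    · show S.lbl d.tile d.nd = k
      rw [S.lbl_eq _ _ hk, hmem d List.mem_cons_self]
      exact h1
    · intro e he
      show S.lbl e.tile e.nd = sh.m
      rw [S.lbl_m, hmem e (List.mem_cons_of_mem _ he)]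
      exact h2 e he
  · intro i k hk d hd
    rw [dif_pos hk] at hd
    have hmem : d ∈ sd i k hk := List.mem_of_getLast? hd
    obtain ⟨ht, hs, hdir⟩ := ((hsd i k hk).2.2.1 d).1 hmem
    have hfar := (hsd i k hk).2.2.2.2.2.1 d hd
    have hk' : (k + 1) % sh.m < sh.m := Nat.mod_lt _ (by omega)
    refine ⟨?_, ?_⟩
    · show S.lbl d.tile d.far = (k + 1) % sh.m
      rw [S.lbl_eq _ _ hk', ht, hfar, S.lab_mod]
    · rw [dif_pos hk']
      rcases hL : sd i ((k + 1) % sh.m) hk' with _ | ⟨e, L⟩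
      · exact absurd hL (hsd i _ hk').1
      · have he := ((hsd i _ hk').2.2.1 e).1 (by rw [hL]; exact List.mem_cons_self)
        have hend := ((hsd i _ hk').2.2.2.2.1 e L hL).1
        rw [List.head?_cons]
        congr 1
        refine Dart.eq_nxt (d := d.rev) (e := e) ?_ ?_ ?_
        · rw [he.1, Dart.tile_rev, ht]
        · rw [hend, Dart.nd_rev, hfar, S.lab_mod]
        · intro hf
          have : e = d.rev := Dart.ext (by rw [he.1, Dart.tile_rev, ht])
            (by rw [hend, Dart.nd_rev, hfar, S.lab_mod]) hf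
          have h1 := he.2.2
          rw [this, S.dir_rev, hdir] at h1
          exact absurd h1 (by decide)
  · intro i k hk
    rw [dif_pos hk]
    have h1 : (sd i k hk) ≠ [] := (hsd i k hk).1
    refine hok k _ hk (by simpa using h1) ?_ (S.fits_side k (sd i k hk) (hsd i k hk).2.2.2.2.2.2)
    intro p hp
    obtain ⟨d, _, rfl⟩ := List.mem_map.1 hp
    exact S.sd_lt _
  · intro i
    have h := S.sum_sides i (fun k => if h : k < sh.m then sd i k h else [])
      (fun k hk => by
        simp only [dif_pos hk]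
        exact (hsd i k hk).2.1)
      (fun k hk d => by
        simp only [dif_pos hk]
        exact (hsd i k hk).2.2.1 d)
      (fun x => (S.cls x).sum - 2)
    rw [h]
    refine Eq.trans ?_ (S.toSys.sum_val i)
    refine Finset.sum_congr rfl (fun x _ => ?_)
    rw [S.cls_sum]
  · intro d
    obtain ⟨L, h1, h2, h3, h4, h5, h6⟩ := S.exists_star d
    exact ⟨L, h1, h2, h3, h4, h5, fun c hc => S.star_count d.nd L h4 h5 h6 c hc⟩

end SysP

end Pool.Agent.NNc
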