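import Pool.Agent.NNc.SysP
import Pool.Agent.NNb.Val

/-!
# MP_4b6a99_co: the darts of a `SysP` and their labels (definitions and basic laws)
-/

namespace Pool.Agent.NNc

open Pool.Agent.NNb

namespace SysP

variable {ι : Type} {m n : ℕ} (S : SysP ι m n)

/-- the side `k` of the tile `i` -/
def seg (i : ι) (k : ℕ) : Set ℂ := segment ℝ (S.lab i k) (S.lab i (k + 1))

/-- darts: a tile, a node on it, and a partner of the node on this tile -/
def Dart : Type := {p : ι × ℂ × ℂ // Part S.N p.1 p.2.1 p.2.2}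

namespace Dart

variable {S}

/-- the dart `(i, x, y)` -/
def mk {i : ι} {x y : ℂ} (h : Part S.N i x y) : S.Dart := ⟨(i, x, y), h⟩
/-- the tile of a dart -/
def tile (d : S.Dart) : ι := d.1.1
/-- the near node of a dart -/
def nd (d : S.Dart) : ℂ := d.1.2.1
/-- the far node of a dart -/
def far (d : S.Dart) : ℂ := d.1.2.2

@[simp] theorem tile_mk {i : ι} {x y : ℂ} (h : Part S.N i x y) : (mk h).tile = i := rfl
@[simp] theorem nd_mk {i : ι} {x y : ℂ} (h : Part S.N i x y) : (mk h).nd = x := rfl
@[simp] theorem far_mk {i : ι} {x y : ℂ} (h : Part S.N i x y) : (mk h).far = y := rfl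

theorem part (d : S.Dart) : Part S.N d.tile d.nd d.far := d.2

theorem ext {d e : S.Dart} (h1 : d.tile = e.tile) (h2 : d.nd = e.nd) (h3 : d.far = e.far) :
    d = e := Subtype.ext (Prod.ext h1 (Prod.ext h2 h3))

/-- the same edge, seen from the other end -/
def rev (d : S.Dart) : S.Dart := mk (S.part_symm d.part)

@[simp] theorem tile_rev (d : S.Dart) : d.rev.tile = d.tile := rfl
@[simp] theorem nd_rev (d : S.Dart) : d.rev.nd = d.far := rfl
@[simp] theorem far_rev (d : S.Dart) : d.rev.far = d.nd := rfl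

theorem part_other_tile {i : ι} {x y : ℂ} (h : Part S.N i x y) : ∃ j, j ≠ i ∧ Part S.N j x y := by
  obtain ⟨hx, hy, hne, j, hj, hxj, hyj⟩ := h
  exact ⟨j, hj, hxj, hyj, hne, i, hj.symm, hx, hy⟩

/-- the same edge, seen from the tile on the other side -/
noncomputable def swp (d : S.Dart) : S.Dart := mk (part_other_tile d.part).choose_spec.2

theorem tile_swp (d : S.Dart) : d.swp.tile ≠ d.tile := (part_other_tile d.part).choose_spec.1
@[simp] theorem nd_swp (d : S.Dart) : d.swp.nd = d.nd := rfl
@[simp] theorem far_swp (d : S.Dart) : d.swp.far = d.far := rfl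

theorem part_other_node {i : ι} {x y : ℂ} (h : Part S.N i x y) : ∃ z, z ≠ y ∧ Part S.N i x z := by
  obtain ⟨u, v, huv, hu, hv, -⟩ := S.part i x h.1
  by_cases hy : u = y
  · exact ⟨v, fun hv' => huv (hy.trans hv'.symm), hv⟩
  · exact ⟨u, hy, hu⟩

/-- the other edge of the tile at the near node -/
noncomputable def nxt (d : S.Dart) : S.Dart := mk (part_other_node d.part).choose_spec.2

@[simp] theorem tile_nxt (d : S.Dart) : d.nxt.tile = d.tile := rfl
@[simp] theorem nd_nxt (d : S.Dart) : d.nxt.nd = d.nd := rfl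
theorem far_nxt (d : S.Dart) : d.nxt.far ≠ d.far := (part_other_node d.part).choose_spec.1

theorem nd_ne_far (d : S.Dart) : d.nd ≠ d.far := d.part.2.2.1

/-- a dart with the same edge on another tile is `swp d` -/
theorem eq_swp {d e : S.Dart} (h1 : e.tile ≠ d.tile) (h2 : e.nd = d.nd) (h3 : e.far = d.far) :
    e = d.swp := by
  refine ext ?_ h2 h3
  have hd := d.part
  have he := e.part
  have hs := d.swp.part
  rw [h2, h3] at he
  rw [nd_swp, far_swp] at hs
  rcases S.edge d.nd d.far e.tile d.tile d.swp.tile d.nd_ne_far he.1 he.2.1 hd.1 hd.2.1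
    hs.1 hs.2.1 with h | h | h
  · exact absurd h h1
  · exact absurd h.symm d.tile_swp
  · exact h

/-- another dart with the same tile and the same node is `nxt d` -/
theorem eq_nxt {d e : S.Dart} (h1 : e.tile = d.tile) (h2 : e.nd = d.nd) (h3 : e.far ≠ d.far) :
    e = d.nxt := by
  refine ext h1 h2 ?_
  have hd := d.part
  have he := e.part
  have hs := d.nxt.part
  have hf := d.far_nxt
  rw [h1, h2] at he
  rw [tile_nxt, nd_nxt] at hs
  obtain ⟨u, v, huv, hu, hv, hall⟩ := S.part d.tile d.nd hd.1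
  rcases hall _ hd with a | a <;> rcases hall _ he with b | b <;> rcases hall _ hs with c | c <;>
    first
      | (exact b.trans c.symm)
      | (exact absurd (b.trans a.symm) h3)
      | (exact absurd (c.trans a.symm) hf)

theorem rev_rev (d : S.Dart) : d.rev.rev = d := rfl
theorem swp_swp (d : S.Dart) : d.swp.swp = d :=
  (eq_swp (d := d.swp) (e := d) (fun h => d.tile_swp h.symm) rfl rfl).symm
theorem nxt_nxt (d : S.Dart) : d.nxt.nxt = d :=
  (eq_nxt (d := d.nxt) (e := d) rfl rfl (fun h => d.far_nxt h.symm)).symm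
theorem rev_swp (d : S.Dart) : d.swp.rev = d.rev.swp :=
  eq_swp (fun h => d.tile_swp h) rfl rfl

theorem eq_or_nxt {d e : S.Dart} (h1 : e.tile = d.tile) (h2 : e.nd = d.nd) : e = d ∨ e = d.nxt := by
  by_cases h : e.far = d.far
  · exact Or.inl (ext h1 h2 h)
  · exact Or.inr (eq_nxt h1 h2 h)

end Dart

/-! ## labels -/

open Classical in
/-- the label of the tile `i` at the node `x` -/
noncomputable def lbl (i : ι) (x : ℂ) : ℕ :=
  if h : ∃ k, k < m ∧ x = S.lab i k then Nat.find h else m

theorem lbl_le (i : ι) (x : ℂ) : S.lbl i x ≤ m := by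
  unfold lbl
  split_ifs with h
  · exact (Nat.find_spec h).1.le
  · exact le_rfl

theorem lbl_eq (i : ι) (x : ℂ) {k : ℕ} (hk : k < m) : S.lbl i x = k ↔ x = S.lab i k := by
  unfold lbl
  split_ifs with h
  · have h1 := Nat.find_spec h
    constructor
    · intro h2
      rw [h2] at h1
      exact h1.2
    · intro h2
      exact S.lab_inj i _ _ h1.1 hk (h1.2.symm.trans h2)
  · constructor
    · intro h2
      exact absurd h2.symm hk.ne
    · intro h2
      exact absurd ⟨k, hk, h2⟩ h

theorem lbl_lt (i : ι) (x : ℂ) : S.lbl i x < m ↔ x ∈ S.C i := by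
  rw [S.lab_C]
  constructor
  · intro h
    exact ⟨_, h, (S.lbl_eq i x h).1 rfl⟩
  · rintro ⟨k, hk, h⟩
    rw [(S.lbl_eq i x hk).2 h]
    exact hk

theorem lbl_m (i : ι) (x : ℂ) : S.lbl i x = m ↔ x ∉ S.C i := by
  rw [← S.lbl_lt]
  have := S.lbl_le i x
  omega

theorem exists_sd (d : S.Dart) : ∃ k, k < m ∧ d.nd ∈ S.seg d.tile k ∧ d.far ∈ S.seg d.tile k :=
  S.same_side _ _ _ d.part

open Classical in
/-- the side of a dart -/
noncomputable def sd (d : S.Dart) : ℕ := Nat.find (S.exists_sd d)

theorem sd_lt (d : S.Dart) : S.sd d < m := by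
  classical
  exact (Nat.find_spec (S.exists_sd d)).1
theorem nd_mem (d : S.Dart) : d.nd ∈ S.seg d.tile (S.sd d) := by
  classical
  exact (Nat.find_spec (S.exists_sd d)).2.1
theorem far_mem (d : S.Dart) : d.far ∈ S.seg d.tile (S.sd d) := by
  classical
  exact (Nat.find_spec (S.exists_sd d)).2.2

open Classical in
/-- the direction of a dart -/
noncomputable def dir (d : S.Dart) : Bool :=
  decide (dist (S.lab d.tile (S.sd d)) d.nd < dist (S.lab d.tile (S.sd d)) d.far)

end SysP

end Pool.Agent.NNc
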