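import Pool.Agent.NNb.FPhi
import Pool.Agent.NNb.Disch

/-!
Module M0 of the `n = 11, 13, 15` project: polygons with at least five corners, `n ≥ 11`.

Every tile has `s ≥ 5` nodes; by `f_le` `f ≤ 2/3 - s/6 + 1/(n - s + 3)`, for `s = 5`:
`-1/6 + 1/(n-2) ≤ -1/6 + 1/9 = -1/18`; for `s = 6`: `-1/3 + 1/8`; for `s ≥ 7` (`s ≤ n`):
`≤ 1 - s/6 ≤ -1/6`.  Apply `no_neg_f'`.
-/

namespace Pool.Agent.NNb

namespace Sys

variable {ι ν : Type} {m n : ℕ}

theorem no5e (S : Sys ι ν m n) (hm : 5 ≤ m) (hn : 11 ≤ n) : False := by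
  apply S.no_neg_f' (c := 1 / 18) (by norm_num)
  intro i
  have h1 := S.card_ge i
  have h2 := S.card_le i
  have h3 := S.f_le i (by omega)
  have hnR : (11 : ℝ) ≤ n := by exact_mod_cast hn
  have hsn : ((S.N i).card : ℝ) ≤ n := by exact_mod_cast h2
  have hcases : (S.N i).card = 5 ∨ (S.N i).card = 6 ∨ 7 ≤ (S.N i).card := by omega
  rcases hcases with h | h | h
  · rw [h] at h3
    have h4 : (1 : ℝ) / ((n : ℝ) - (5 : ℕ) + 3) ≤ 1 / 9 := by
      apply one_div_le_one_div_of_le (by norm_num)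
      push_cast
      linarith
    push_cast at h3 h4
    linarith
  · rw [h] at h3
    have h4 : (1 : ℝ) / ((n : ℝ) - (6 : ℕ) + 3) ≤ 1 / 8 := by
      apply one_div_le_one_div_of_le (by norm_num)
      push_cast
      linarith
    push_cast at h3 h4
    linarith
  · have h7 : (7 : ℝ) ≤ (S.N i).card := by exact_mod_cast h
    have h4 : (1 : ℝ) / ((n : ℝ) - (S.N i).card + 3) ≤ 1 / 3 := by
      apply one_div_le_one_div_of_le (by norm_num)
      linarith
    linarith

end Sys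

end Pool.Agent.NNb
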