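import Pool.Agent.NNc.TriFin
import Pool.Agent.NNc.No5
import Pool.Agent.NNb.Main2
import Pool.Agent.NNq.Main

/-!
# Final assembly

`keqone_fin`: if the records of the engine are dead for `n = 11, 13, 15`, then `n` is one of the nine
known values.
-/

namespace Pool.Agent.NNc

open Pool.Agent.NNb

/-- all records for `n` (lists `U`, `L`) are dead -/
def Dead (n : ℕ) (U : List (ℤ × ℤ × ℤ)) (L : List (ℕ × ℕ × ℕ)) : Prop :=
  (∀ u ∈ U, ∃ ok, OkU u ok ∧ IsEmpty (LTil (shU n u ok))) ∧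
    (∀ p ∈ L, ∃ ok, OkP p ok ∧ IsEmpty (LTil (shP n p ok)))

theorem no_tri {ι : Type} {n : ℕ} (t : CTil ι n) (hm : t.m = 3) {U : List (ℤ × ℤ × ℤ)}
    {L : List (ℕ × ℕ × ℕ)} (hA : ∀ S : Sys3 ι n, AngRes S U L) (hD : Dead n U L) : False := by
  obtain ⟨S, hl⟩ := exists_sys3_link t hm
  exact tri_dead S hl (hA S) hD.1 hD.2

theorem keqone_fin (h11 : Dead 11 UL11 PL11) (h13 : Dead 13 UL13 PL13) (h15 : Dead 15 UL15 PL15)
    (n : ℕ) (h : KEqOne n) : n ∈ ({6, 7, 8, 9, 10, 12, 14, 16, 21} : Finset ℕ) := by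
  have h2 := keqone_bound2 n h
  obtain ⟨ι, ⟨t⟩⟩ := exists_ctil h
  have h3 := t.three_le_m
  have hne : n ≠ 11 ∧ n ≠ 13 ∧ n ≠ 15 := by
    rcases Nat.lt_or_ge t.m 4 with hm | hm
    · have hm3 : t.m = 3 := by omega
      refine ⟨?_, ?_, ?_⟩
      · rintro rfl; exact no_tri t hm3 ang11 h11
      · rintro rfl; exact no_tri t hm3 ang13 h13
      · rintro rfl; exact no_tri t hm3 ang15 h15
    · rcases Nat.lt_or_ge t.m 5 with hm' | hm'
      · have hm4 : t.m = 4 := by omega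
        refine ⟨?_, ?_, ?_⟩
        · intro hn; exact (t.toSys 4 hm4).no4e (Or.inl hn)
        · intro hn; exact (t.toSys 4 hm4).no4e (Or.inr hn)
        · intro hn; exact (t.toSys 4 hm4).no4 (by omega)
      · refine ⟨?_, ?_, ?_⟩ <;> intro hn <;>
          exact (t.toSys t.m rfl).no5e hm' (by omega)
  simp only [Finset.mem_insert, Finset.mem_singleton]
  omega

end Pool.Agent.NNc
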