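import Pool.Agent.NNc.Dart

/-!
Module FW1.  Positions on a side.

Write points of `seg i k` as `lab i k + t • (lab i (k+1) - lab i k)`, `0 ≤ t ≤ 1`; then
`dist (lab i k) x = t * len k`, and `len k > 0` (`lab_inj`, `lab_mod`, `m ≥ 3`).
`seg_pos`: two points of a side with the same distance from `lab i k` are equal.
`seg_le`, `seg_end`: distances are at most `len k`, with equality only for the end `lab i (k + 1)`.
`seg_between`: `x`, `z`, `y` on the side with increasing distances: `z` is on the segment `x y`; and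
the distance is additive.
`no_between`: if `z` is a node of `i` inside the segment `x y`, `x, y` partners on `i` (with the common
tile `j ≠ i`): `Part S.N j x y`, so `x`, `y` are on a common side of `j` (`same_side`), hence so is `z`
(convexity), and `z ∈ N j` (`side_mem`); contradiction to `S.three`.
`sd_unique`: two different sides have at most one common point (`side_inter`).
-/

namespace Pool.Agent.NNc

open Pool.Agent.NNb

namespace SysP


private theorem FW1_par {a b x : ℂ} (hx : x ∈ segment ℝ a b) :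
    ∃ t : ℝ, 0 ≤ t ∧ t ≤ 1 ∧ x = a + t • (b - a) := by
  rw [segment_eq_image'] at hx
  obtain ⟨t, ht, rfl⟩ := hx
  exact ⟨t, ht.1, ht.2, rfl⟩

private theorem FW1_mem {a b : ℂ} {t : ℝ} (h0 : 0 ≤ t) (h1 : t ≤ 1) :
    a + t • (b - a) ∈ segment ℝ a b := by
  rw [segment_eq_image']
  exact ⟨t, ⟨h0, h1⟩, rfl⟩

private theorem FW1_dist {a b : ℂ} {t : ℝ} (h0 : 0 ≤ t) :
    dist a (a + t • (b - a)) = t * dist a b := by
  rw [dist_eq_norm, dist_eq_norm]
  have h : a - (a + t • (b - a)) = t • (a - b) := by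
    simp only [smul_sub]
    ring
  rw [h, norm_smul, Real.norm_eq_abs, abs_of_nonneg h0]

private theorem FW1_pp {a b : ℂ} {s t : ℝ} (h : s ≤ t) :
    dist (a + s • (b - a)) (a + t • (b - a)) = t * dist a b - s * dist a b := by
  rw [dist_eq_norm, dist_eq_norm]
  have h1 : a + s • (b - a) - (a + t • (b - a)) = (t - s) • (a - b) := by
    simp only [smul_sub, sub_smul]
    ring
  rw [h1, norm_smul, Real.norm_eq_abs, abs_of_nonneg (sub_nonneg.2 h)]
  ring

private theorem FW1_mod {m k l : ℕ} (hm : 3 ≤ m) (hk : k < m) (hl : l < m)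
    (h1 : l = (k + 1) % m) (h2 : k = (l + 1) % m) : False := by
  rcases Nat.lt_or_ge (k + 1) m with h | h
  · rw [Nat.mod_eq_of_lt h] at h1
    rcases Nat.lt_or_ge (l + 1) m with h' | h'
    · rw [Nat.mod_eq_of_lt h'] at h2
      omega
    · have h3 : l + 1 = m := by omega
      rw [h3, Nat.mod_self] at h2
      omega
  · have h3 : k + 1 = m := by omega
    rw [h3, Nat.mod_self] at h1
    rw [h1, Nat.mod_eq_of_lt (by omega)] at h2
    omega

variable {ι : Type} {m n : ℕ} (S : SysP ι m n)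

theorem lab_ne (i : ι) (k : ℕ) : S.lab i k ≠ S.lab i (k + 1) := by
  intro h
  have hm := S.m_ge
  rw [← S.lab_mod i k, ← S.lab_mod i (k + 1)] at h
  have h1 := S.lab_inj i _ _ (Nat.mod_lt _ (by omega)) (Nat.mod_lt _ (by omega)) h
  have h2 : ¬ (k + 1 ≡ k [MOD m]) := by
    intro h3
    have h4 : m ∣ (k + 1) - k := (Nat.modEq_iff_dvd' (by omega)).1 h3.symm
    rw [Nat.add_sub_cancel_left] at h4
    have h5 := Nat.le_of_dvd one_pos h4
    omega
  exact h2 h1.symm

theorem len_pos (k : ℕ) (hk : k < m) (i : ι) : 0 < S.len k := by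
  rw [← S.dist_lab i k hk]
  exact dist_pos.2 (S.lab_ne i k)

theorem seg_pos {i : ι} {k : ℕ} {x y : ℂ} (hx : x ∈ S.seg i k)
    (hy : y ∈ S.seg i k) (h : dist (S.lab i k) x = dist (S.lab i k) y) : x = y := by
  obtain ⟨s, hs0, hs1, rfl⟩ := FW1_par hx
  obtain ⟨t, ht0, ht1, rfl⟩ := FW1_par hy
  rw [FW1_dist hs0, FW1_dist ht0] at h
  have h1 := mul_right_cancel₀ (dist_pos.2 (S.lab_ne i k)).ne' h
  rw [h1]

theorem seg_le {i : ι} {k : ℕ} (hk : k < m) {x : ℂ} (hx : x ∈ S.seg i k) :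
    dist (S.lab i k) x ≤ S.len k := by
  obtain ⟨s, hs0, hs1, rfl⟩ := FW1_par hx
  rw [FW1_dist hs0, S.dist_lab i k hk]
  exact mul_le_of_le_one_left (S.len_pos k hk i).le hs1

theorem seg_end {i : ι} {k : ℕ} (hk : k < m) {x : ℂ} (hx : x ∈ S.seg i k)
    (h : dist (S.lab i k) x = S.len k) : x = S.lab i (k + 1) := by
  obtain ⟨s, hs0, hs1, rfl⟩ := FW1_par hx
  rw [FW1_dist hs0, S.dist_lab i k hk] at h
  have h1 : s = 1 := by
    have h2 := (S.len_pos k hk i).ne'
    field_simp at h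
    exact h
  rw [h1, one_smul]
  ring

theorem seg_between {i : ι} {k : ℕ} {x y z : ℂ} (hx : x ∈ S.seg i k)
    (hy : y ∈ S.seg i k) (hz : z ∈ S.seg i k) (h1 : dist (S.lab i k) x ≤ dist (S.lab i k) z)
    (h2 : dist (S.lab i k) z ≤ dist (S.lab i k) y) : z ∈ segment ℝ x y := by
  obtain ⟨r, hr0, hr1, rfl⟩ := FW1_par hx
  obtain ⟨s, hs0, hs1, rfl⟩ := FW1_par hy
  obtain ⟨t, ht0, ht1, rfl⟩ := FW1_par hz
  rw [FW1_dist hr0, FW1_dist ht0] at h1
  rw [FW1_dist hs0, FW1_dist ht0] at h2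
  have hL := dist_pos.2 (S.lab_ne i k)
  have h1' := le_of_mul_le_mul_right h1 hL
  have h2' := le_of_mul_le_mul_right h2 hL
  rcases eq_or_lt_of_le (h1'.trans h2') with h | h
  · have h3 : t = r := le_antisymm (h2'.trans h.symm.le) h1'
    rw [h3]
    exact left_mem_segment ℝ _ _
  · rw [segment_eq_image']
    refine ⟨(t - r) / (s - r), ⟨div_nonneg (by linarith) (by linarith),
      (div_le_one (by linarith)).2 (by linarith)⟩, ?_⟩
    have h3 : s - r ≠ 0 := by linarith
    have h4 : (S.lab i k + s • (S.lab i (k + 1) - S.lab i k)) -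
        (S.lab i k + r • (S.lab i (k + 1) - S.lab i k)) = (s - r) • (S.lab i (k + 1) - S.lab i k) := by
      rw [sub_smul]
      ring
    show S.lab i k + r • (S.lab i (k + 1) - S.lab i k) + ((t - r) / (s - r)) •
      ((S.lab i k + s • (S.lab i (k + 1) - S.lab i k)) -
        (S.lab i k + r • (S.lab i (k + 1) - S.lab i k))) = _
    rw [h4, smul_smul, div_mul_cancel₀ _ h3, sub_smul]
    ring

theorem seg_dist {i : ι} {k : ℕ} {x y : ℂ} (hx : x ∈ S.seg i k)
    (hy : y ∈ S.seg i k) (h1 : dist (S.lab i k) x ≤ dist (S.lab i k) y) :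
    dist x y = dist (S.lab i k) y - dist (S.lab i k) x := by
  obtain ⟨r, hr0, hr1, rfl⟩ := FW1_par hx
  obtain ⟨s, hs0, hs1, rfl⟩ := FW1_par hy
  rw [FW1_dist hr0, FW1_dist hs0] at h1
  have hL := dist_pos.2 (S.lab_ne i k)
  have h1' := le_of_mul_le_mul_right h1 hL
  rw [FW1_pp h1', FW1_dist hr0, FW1_dist hs0]

/-- a point of the segment from `x` to the end of the side is farther than `x` -/
theorem seg_fwd {i : ι} {k : ℕ} {x y : ℂ} (hx : x ∈ S.seg i k)
    (hy : y ∈ segment ℝ x (S.lab i (k + 1))) :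
    y ∈ S.seg i k ∧ dist (S.lab i k) x ≤ dist (S.lab i k) y := by
  obtain ⟨r, hr0, hr1, rfl⟩ := FW1_par hx
  obtain ⟨u, hu0, hu1, rfl⟩ := FW1_par hy
  have h : S.lab i k + r • (S.lab i (k + 1) - S.lab i k) + u • (S.lab i (k + 1) -
      (S.lab i k + r • (S.lab i (k + 1) - S.lab i k))) =
      S.lab i k + (r + u * (1 - r)) • (S.lab i (k + 1) - S.lab i k) := by
    simp only [Complex.real_smul]
    push_cast
    ring
  have h0 : 0 ≤ r + u * (1 - r) := add_nonneg hr0 (mul_nonneg hu0 (by linarith))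
  rw [h]
  refine ⟨FW1_mem h0 (by nlinarith), ?_⟩
  rw [FW1_dist hr0, FW1_dist h0]
  refine mul_le_mul_of_nonneg_right ?_ dist_nonneg
  have := mul_nonneg hu0 (sub_nonneg.2 hr1)
  linarith

/-- a point of the segment from `x` to the start of the side is nearer than `x` -/
theorem seg_bwd {i : ι} {k : ℕ} {x y : ℂ} (hx : x ∈ S.seg i k)
    (hy : y ∈ segment ℝ x (S.lab i k)) :
    y ∈ S.seg i k ∧ dist (S.lab i k) y ≤ dist (S.lab i k) x := by
  obtain ⟨r, hr0, hr1, rfl⟩ := FW1_par hx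
  obtain ⟨u, hu0, hu1, rfl⟩ := FW1_par hy
  have h : S.lab i k + r • (S.lab i (k + 1) - S.lab i k) + u • (S.lab i k -
      (S.lab i k + r • (S.lab i (k + 1) - S.lab i k))) =
      S.lab i k + (r * (1 - u)) • (S.lab i (k + 1) - S.lab i k) := by
    simp only [Complex.real_smul]
    push_cast
    ring
  have h0 : 0 ≤ r * (1 - u) := mul_nonneg hr0 (by linarith)
  rw [h]
  refine ⟨FW1_mem h0 (by nlinarith), ?_⟩
  rw [FW1_dist hr0, FW1_dist h0]
  refine mul_le_mul_of_nonneg_right ?_ dist_nonneg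
  nlinarith

/-- no node of a tile lies strictly between two partners -/
theorem no_between {i : ι} {x y z : ℂ} (h : Part S.N i x y) (hz : z ∈ S.N i)
    (hs : z ∈ segment ℝ x y) : z = x ∨ z = y := by
  obtain ⟨hx, hy, hne, j, hj, hxj, hyj⟩ := h
  have hp : Part S.N j x y := ⟨hxj, hyj, hne, i, hj.symm, hx, hy⟩
  obtain ⟨k, hk, hxk, hyk⟩ := S.same_side j x y hp
  have hzk : z ∈ segment ℝ (S.lab j k) (S.lab j (k + 1)) :=
    (convex_segment _ _).segment_subset hxk hyk hs
  have hzj : z ∈ S.N j := S.side_mem j i k z hk hz hzk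
  rcases S.three i j x y z hj.symm hx hy hz hxj hyj hzj with h | h | h
  · exact absurd h hne
  · exact Or.inr h.symm
  · exact Or.inl h.symm

/-- the side of a dart is unique -/
theorem sd_unique (d : S.Dart) {k : ℕ} (hk : k < m) (h1 : d.nd ∈ S.seg d.tile k)
    (h2 : d.far ∈ S.seg d.tile k) : S.sd d = k := by
  by_contra hne
  have hm := S.m_ge
  have hk' := S.sd_lt d
  rcases S.side_inter d.tile (S.sd d) k d.nd hk' hk hne (S.nd_mem d) h1 with a | a <;>
    rcases S.side_inter d.tile (S.sd d) k d.far hk' hk hne (S.far_mem d) h2 with b | b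
  · exact d.nd_ne_far (a.2.trans b.2.symm)
  · exact FW1_mod hm hk' hk a.1 b.1
  · exact FW1_mod hm hk' hk b.1 a.1
  · exact d.nd_ne_far (a.2.trans b.2.symm)

theorem sd_rev (d : S.Dart) : S.sd d.rev = S.sd d := by
  exact S.sd_unique d.rev (S.sd_lt d) (S.far_mem d) (S.nd_mem d)

theorem dir_rev (d : S.Dart) : S.dir d.rev = !S.dir d := by
  unfold dir
  rw [S.sd_rev d, Dart.tile_rev, Dart.nd_rev, Dart.far_rev]
  have h : dist (S.lab d.tile (S.sd d)) d.nd ≠ dist (S.lab d.tile (S.sd d)) d.far := by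
    intro h
    exact d.nd_ne_far (S.seg_pos (S.nd_mem d) (S.far_mem d) h)
  rcases lt_or_gt_of_ne h with h1 | h1
  · rw [decide_eq_false (not_lt.2 h1.le), decide_eq_true h1]
    rfl
  · rw [decide_eq_true h1, decide_eq_false (not_lt.2 h1.le)]
    rfl

end SysP

end Pool.Agent.NNc
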