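import Pool.Agent.NNc.Fw1

/-!
Module FW2.  Forward and backward darts: which of the two edges at a node goes forward.

`dir_nxt`: let `x = d.nd`, `y = d.far`, `z = d.nxt.far`.  If both darts are on the same side `k` of the tile
and in the same direction, then `y` is between `x` and `z` or `z` between `x` and `y` (`seg_between`),
contradiction to `no_between`.  If they are on different sides `k ≠ l`, then by `side_inter` (say)
`l = (k + 1) % m` and `x = lab i l = lab i (k + 1)` (`lab_mod`), so `(x, y)` is backward on the side `k`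
(`seg_le`, `seg_end`) and `(x, z)` is forward on the side `l`.
`sd_corner`: for `x = lab i c` (`lbl_eq`) both `seg i c` and `seg i ((c + m - 1) % m)` contain `x`; the side
`k = sd d` contains `x`, so (`side_inter` with `k` and `c`) `k = c`, or `x = lab i k` (then `k = c` by
`lab_inj`), or `c = (k + 1) % m`, i.e. `k = (c + m - 1) % m`.
For `k = c` the dart is forward (`dist (lab i c) x = 0`), for `k = (c + m - 1) % m` backward
(`x = lab i (k + 1)` is the far end: `seg_le`, `seg_end`).
`sd_flat`: for a node `x` which is not a corner (`lbl_m`, `lab_C`) the side `k` with `x ∈ seg i k` is unique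
(`side_inter`).
-/

namespace Pool.Agent.NNc

open Pool.Agent.NNb

namespace SysP

variable {ι : Type} {m n : ℕ} (S : SysP ι m n)

private theorem FW2_start (d : S.Dart) (h : d.nd = S.lab d.tile (S.sd d)) : S.dir d = true := by
  unfold dir
  rw [← h, dist_self]
  exact decide_eq_true (dist_pos.2 d.nd_ne_far)

private theorem FW2_end (d : S.Dart) (h : d.nd = S.lab d.tile (S.sd d + 1)) :
    S.dir d = false := by
  unfold dir
  refine decide_eq_false (not_lt.2 ?_)
  rw [h, S.dist_lab _ _ (S.sd_lt d)]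
  exact S.seg_le (S.sd_lt d) (S.far_mem d)

private theorem FW2_lab_succ {i : ι} {k l : ℕ} (h : l = (k + 1) % m) : S.lab i l = S.lab i (k + 1) := by
  rw [h, S.lab_mod]

private theorem FW2_same {i : ι} {k : ℕ} {x y z : ℂ} (hy : Part S.N i x y) (hz : Part S.N i x z)
    (hyz : y ≠ z) (mx : x ∈ S.seg i k) (my : y ∈ S.seg i k) (mz : z ∈ S.seg i k)
    (h1 : dist (S.lab i k) x < dist (S.lab i k) y) (h2 : dist (S.lab i k) x < dist (S.lab i k) z) :
    False := by
  rcases le_total (dist (S.lab i k) y) (dist (S.lab i k) z) with h | h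
  · rcases S.no_between hz hy.2.1 (S.seg_between mx mz my h1.le h) with a | a
    · exact hy.2.2.1 a.symm
    · exact hyz a
  · rcases S.no_between hy hz.2.1 (S.seg_between mx my mz h2.le h) with a | a
    · exact hz.2.2.1 a.symm
    · exact hyz a.symm

private theorem FW2_same' {i : ι} {k : ℕ} {x y z : ℂ} (hy : Part S.N i x y) (hz : Part S.N i x z)
    (hyz : y ≠ z) (mx : x ∈ S.seg i k) (my : y ∈ S.seg i k) (mz : z ∈ S.seg i k)
    (h1 : dist (S.lab i k) y < dist (S.lab i k) x) (h2 : dist (S.lab i k) z < dist (S.lab i k) x) :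
    False := by
  rcases le_total (dist (S.lab i k) y) (dist (S.lab i k) z) with h | h
  · rcases S.no_between hy hz.2.1
      (segment_symm ℝ y x ▸ S.seg_between my mx mz h h2.le) with a | a
    · exact hz.2.2.1 a.symm
    · exact hyz a.symm
  · rcases S.no_between hz hy.2.1
      (segment_symm ℝ z x ▸ S.seg_between mz mx my h h1.le) with a | a
    · exact hy.2.2.1 a.symm
    · exact hyz a


theorem dir_nxt (d : S.Dart) : S.dir d.nxt = !S.dir d := by
  have hm := S.m_ge
  have hx1 := S.nd_mem d
  have hx2 := S.nd_mem d.nxt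
  rw [Dart.tile_nxt, Dart.nd_nxt] at hx2
  by_cases hkl : S.sd d = S.sd d.nxt
  · have hy := S.far_mem d
    have hz := S.far_mem d.nxt
    rw [Dart.tile_nxt, ← hkl] at hz
    have hab : dist (S.lab d.tile (S.sd d)) d.nd ≠ dist (S.lab d.tile (S.sd d)) d.far :=
      fun h => d.nd_ne_far (S.seg_pos hx1 hy h)
    have hac : dist (S.lab d.tile (S.sd d)) d.nd ≠ dist (S.lab d.tile (S.sd d)) d.nxt.far :=
      fun h => d.nxt.nd_ne_far (S.seg_pos hx1 hz h)
    have hp := d.part
    have hq := d.nxt.part
    rw [Dart.tile_nxt, Dart.nd_nxt] at hq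
    unfold dir
    rw [Dart.tile_nxt, Dart.nd_nxt, ← hkl]
    rcases lt_or_gt_of_ne hab with h1 | h1 <;> rcases lt_or_gt_of_ne hac with h2 | h2
    · exact (FW2_same S hp hq (Ne.symm d.far_nxt) hx1 hy hz h1 h2).elim
    · rw [decide_eq_true h1, decide_eq_false (not_lt.2 h2.le)]
      rfl
    · rw [decide_eq_false (not_lt.2 h1.le), decide_eq_true h2]
      rfl
    · exact (FW2_same' S hp hq (Ne.symm d.far_nxt) hx1 hy hz h1 h2).elim
  · rcases S.side_inter d.tile (S.sd d) (S.sd d.nxt) d.nd (S.sd_lt d) (S.sd_lt d.nxt) hkl hx1 hx2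
      with h | h
    · rw [FW2_start S d.nxt h.2, FW2_end S d (h.2.trans (FW2_lab_succ S h.1))]
      rfl
    · rw [FW2_end S d.nxt (h.2.trans (FW2_lab_succ S h.1)), FW2_start S d h.2]
      rfl

theorem sd_corner (d : S.Dart) (h : S.lbl d.tile d.nd < m) :
    S.sd d = if S.dir d then S.lbl d.tile d.nd else (S.lbl d.tile d.nd + m - 1) % m := by
  have hm := S.m_ge
  have hx := (S.lbl_eq d.tile d.nd h).1 rfl
  have hk := S.sd_lt d
  by_cases hkc : S.sd d = S.lbl d.tile d.nd
  · rw [FW2_start S d (by rw [hkc]; exact hx), if_pos rfl]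
    exact hkc
  · have hs : d.nd ∈ S.seg d.tile (S.lbl d.tile d.nd) := by
      unfold seg
      rw [← hx]
      exact left_mem_segment ℝ _ _
    rcases S.side_inter d.tile (S.sd d) (S.lbl d.tile d.nd) d.nd hk h hkc (S.nd_mem d) hs
      with a | a
    · rw [FW2_end S d (a.2.trans (FW2_lab_succ S a.1)), if_neg (by decide)]
      have h1 := a.1
      rcases Nat.lt_or_ge (S.sd d + 1) m with h2 | h2
      · rw [Nat.mod_eq_of_lt h2] at h1
        rw [h1]
        have h3 : S.sd d + 1 + m - 1 = S.sd d + m := by omega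
        rw [h3, Nat.add_mod_right, Nat.mod_eq_of_lt hk]
      · have h3 : S.sd d + 1 = m := by omega
        rw [h3, Nat.mod_self] at h1
        rw [h1]
        have h4 : 0 + m - 1 = S.sd d := by omega
        rw [h4, Nat.mod_eq_of_lt hk]
    · exact absurd (S.lab_inj d.tile _ _ hk h (a.2.symm.trans hx)) hkc

theorem sd_flat (d : S.Dart) (h : S.lbl d.tile d.nd = m) : S.sd d.nxt = S.sd d := by
  have hx := (S.lbl_m d.tile d.nd).1 h
  by_contra hne
  have hx2 := S.nd_mem d.nxt
  rw [Dart.tile_nxt, Dart.nd_nxt] at hx2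
  rcases S.side_inter d.tile (S.sd d.nxt) (S.sd d) d.nd (S.sd_lt d.nxt) (S.sd_lt d) hne hx2
    (S.nd_mem d) with a | a
  · exact hx ((S.lab_C _ _).2 ⟨_, S.sd_lt d, a.2⟩)
  · exact hx ((S.lab_C _ _).2 ⟨_, S.sd_lt d.nxt, a.2⟩)

end SysP

end Pool.Agent.NNc
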