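import Mathlib

/-!
# MP_4b6a99_co, n = 11, 13, 15: labelled tilings, the interface between geometry and the engine

A *dart* is a triple `d = (i, x, y)`: `i` a tile, `x` and `y` partners on `i` (consecutive nodes
on the boundary of `i`).  `x` is the near node of `d`, `y` its far node.
* `rev d = (i, y, x)`,
* `swp d = (j, x, y)`, `j` the tile on the other side of the edge `x y`,
* `nxt d = (i, x, y')`, `y'` the other partner of `x` on `i`.

The tiles are congruent `m`-gons with corners `0, …, m - 1` in cyclic order;
the side `k` is the side from the corner `k` to the corner `k + 1` (mod `m`).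

Labels of a dart `d = (i, x, y)`:
* `lb d` = the label of the tile `i` at the near node `x`: `k < m` if `x` is the corner `k` of `i`,
  `m` if `x` lies inside a side of `i` (a flat node of `i`);
* `sd d` = the side of `i` on which `x` and `y` lie;
* `dir d` = `true` iff going from `x` to `y` is going from the corner `sd d` to the corner
  `sd d + 1`;
* `cls x` = the class of the node `x`: the list of length `m + 1` of the numbers of tiles
  whose corner `0`, …, `m - 1` is at `x`, and the number (`≤ 1`) of tiles which are flat at `x`.
-/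

namespace Pool.Agent.NNc

/-- The data of a shape for the engine. -/
structure Shape where
  /-- number of corners -/
  m : ℕ
  /-- number of neighbours -/
  n : ℕ
  /-- the allowed classes of nodes -/
  W : List (List ℕ)
  /-- ranks of the sides (equal ranks iff equal lengths, smaller rank iff shorter) -/
  rk : ℕ → ℕ
  /-- `ok k l`: the side `k` may be composed of the pieces `l`, in the direction from the corner
  `k` to the corner `k + 1`; a piece `(b, full)` lies on the side `b` of the tile on the other
  side of the edge, and it is this whole side iff `full = true` -/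
  ok : ℕ → List (ℕ × Bool) → Bool

/-- A labelled tiling. -/
structure LTil (sh : Shape) where
  /-- darts -/
  D : Type
  /-- tiles -/
  ι : Type
  /-- nodes -/
  ν : Type
  ne : Nonempty D
  tile : D → ι
  nd : D → ν
  rev : D → D
  swp : D → D
  nxt : D → D
  cls : ν → List ℕ
  lb : D → ℕ
  sd : D → ℕ
  dir : D → Bool
  rev_rev : ∀ d, rev (rev d) = d
  swp_swp : ∀ d, swp (swp d) = d
  nxt_nxt : ∀ d, nxt (nxt d) = d
  rev_swp : ∀ d, rev (swp d) = swp (rev d)
  tile_rev : ∀ d, tile (rev d) = tile d
  tile_nxt : ∀ d, tile (nxt d) = tile d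
  tile_swp : ∀ d, tile (swp d) ≠ tile d
  nd_swp : ∀ d, nd (swp d) = nd d
  nd_nxt : ∀ d, nd (nxt d) = nd d
  nd_rev : ∀ d, nd (rev d) ≠ nd d
  /-- the label depends on the tile and the node only -/
  lb_eq : ∀ d e, tile d = tile e → nd d = nd e → lb d = lb e
  lb_le : ∀ d, lb d ≤ sh.m
  sd_lt : ∀ d, sd d < sh.m
  sd_rev : ∀ d, sd (rev d) = sd d
  dir_rev : ∀ d, dir (rev d) = !dir d
  dir_nxt : ∀ d, dir (nxt d) = !dir d
  /-- the two sides at the corner `k` are `k` (going away from it in the direction `true`)
  and `k - 1` -/
  sd_corner : ∀ d, lb d < sh.m → sd d = if dir d then lb d else (lb d + sh.m - 1) % sh.m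
  /-- at a flat node both edges lie on the same side -/
  sd_flat : ∀ d, lb d = sh.m → sd (nxt d) = sd d
  /-- at most one tile is flat at a node -/
  flat_one : ∀ d, lb d = sh.m → lb (swp d) < sh.m
  cls_mem : ∀ d, cls (nd d) ∈ sh.W
  /-- side rule (i): an edge which is a whole side on both tiles -/
  rk_eq : ∀ d, lb d < sh.m → lb (rev d) < sh.m → lb (swp d) < sh.m → lb (rev (swp d)) < sh.m →
    sh.rk (sd d) = sh.rk (sd (swp d))
  /-- side rule (i'): an edge which is a whole side on the tile of `d`, but not on the other -/
  rk_lt : ∀ d, lb d < sh.m → lb (rev d) < sh.m → (lb (swp d) = sh.m ∨ lb (rev (swp d)) = sh.m) →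
    sh.rk (sd d) < sh.rk (sd (swp d))
  /-- `side i k` = the darts `(i, x, y)` on the side `k` in the direction `true`, in order -/
  side : ι → ℕ → List D
  side_ne : ∀ i k, k < sh.m → side i k ≠ []
  side_mem : ∀ i k, k < sh.m → ∀ d, d ∈ side i k ↔ tile d = i ∧ sd d = k ∧ dir d = true
  side_nodup : ∀ i k, k < sh.m → (side i k).Nodup
  side_chain : ∀ i k, k < sh.m → (side i k).IsChain (fun a b => b = nxt (rev a))
  /-- the first dart of the side `k` starts at the corner `k`, all others at flat nodes -/
  side_lb : ∀ i k, k < sh.m → ∀ d L, side i k = d :: L → lb d = k ∧ ∀ e ∈ L, lb e = sh.m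
  /-- the last dart of the side `k` ends at the corner `k + 1`, where the side `k + 1` starts -/
  side_last : ∀ i k, k < sh.m → ∀ d, (side i k).getLast? = some d →
    lb (rev d) = (k + 1) % sh.m ∧ (side i ((k + 1) % sh.m)).head? = some (nxt (rev d))
  /-- side rule (ii): the pieces of a side -/
  side_ok : ∀ i k, k < sh.m → sh.ok k ((side i k).map (fun d => (sd (swp d),
    decide (lb (swp d) < sh.m ∧ lb (rev (swp d)) < sh.m)))) = true
  /-- every tile has `n` neighbours -/
  sum : ∀ i, ∑ k ∈ Finset.range sh.m,
    ((side i k).map (fun d => (cls (nd d)).sum - 2)).sum = sh.n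
  /-- the closed star of a node, starting with any dart there; the entries of the list are the
  darts `d_0 = d`, `d_(t+1) = swp (nxt d_t)`, one for every tile at the node -/
  star : ∀ d, ∃ L : List D, L.head? = some d ∧ L.IsChain (fun a b => b = swp (nxt a)) ∧
    (∀ e, L.getLast? = some e → swp (nxt e) = d) ∧ (∀ e ∈ L, nd e = nd d) ∧
    (L.map tile).Nodup ∧
    ∀ c, c ≤ sh.m → L.countP (fun e => lb e = c) = (cls (nd d)).getD c 0

end Pool.Agent.NNc
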