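import Pool.Agent.NNb.SysA

/-!
Module LINKC.  The tiles at a node form one cycle.
-/

namespace Pool.Agent.NNc

open Pool.Agent.NNb Set

variable {ι : Type} {n : ℕ}

theorem LINKC_ne {S : Set ℂ} (h : IsPoly S) (x : ℂ) : ∃ z ∈ S, z ≠ x := by
  by_contra hcon
  push Not at hcon
  have h1 : S ⊆ {x} := fun z hz => hcon z hz
  have h2 : interior S ⊆ interior {x} := interior_mono h1
  rw [interior_singleton] at h2
  obtain ⟨z, hz⟩ := h.2
  exact h2 hz

theorem link_aux (t : CTil ι n) (x : ℂ) (A : Finset ι) (hA : A ⊆ t.tl x) (hne : A.Nonempty)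
    (hcl : ∀ i ∈ A, ∀ j ∈ t.tl x, (∃ y, y ≠ x ∧ y ∈ t.N i ∧ y ∈ t.N j) → j ∈ A) :
    A = t.tl x := by
  classical
  by_contra hAne
  obtain ⟨k0, hk0, hk0A⟩ : ∃ k, k ∈ t.tl x ∧ k ∉ A := by
    by_contra hcon
    push Not at hcon
    exact hAne (Finset.Subset.antisymm hA hcon)
  have hx : ∀ i ∈ t.tl x, x ∈ t.T i := fun i hi => ((t.mem_N i x).1 ((t.mem_tl i x).1 hi)).2
  have hnode : IsNode t.T x := ((t.mem_N k0 x).1 ((t.mem_tl k0 x).1 hk0)).1
  set B : Finset ι := t.tl x \ A with hB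
  set U : Set ℂ := ⋃ i ∈ (A : Set ι), dcone (t.T i) x with hU
  set V : Set ℂ := ⋃ i ∈ (B : Set ι), dcone (t.T i) x with hV
  have hUc : IsClosed U := A.finite_toSet.isClosed_biUnion
    (fun i hi => (t.polyT i).dcone_closed (hx i (hA hi)))
  have hVc : IsClosed V := B.finite_toSet.isClosed_biUnion
    (fun i hi => (t.polyT i).dcone_closed (hx i (Finset.mem_sdiff.1 hi).1))
  have hcov : ({0}ᶜ : Set ℂ) ⊆ U ∪ V := by
    intro v _
    obtain ⟨i, hi, hv⟩ := t.cones_cover x v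
    have hit : i ∈ t.tl x := (t.mem_tl i x).2 ((t.mem_N i x).2 ⟨hnode, hi⟩)
    by_cases hiA : i ∈ A
    · exact Or.inl (mem_biUnion (show i ∈ (A : Set ι) from hiA) hv)
    · exact Or.inr (mem_biUnion (show i ∈ (B : Set ι) from
        Finset.mem_coe.2 (Finset.mem_sdiff.2 ⟨hit, hiA⟩)) hv)
  have hconn : IsPreconnected ({0}ᶜ : Set ℂ) :=
    (isConnected_compl_singleton_of_one_lt_rank
      (by rw [Complex.rank_real_complex]; exact Nat.one_lt_ofNat) 0).isPreconnected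
  have hne1 : (({0}ᶜ : Set ℂ) ∩ U).Nonempty := by
    obtain ⟨i, hi⟩ := hne
    obtain ⟨z, hz, hzx⟩ := LINKC_ne (t.polyT i) x
    exact ⟨z - x, fun h => hzx (sub_eq_zero.1 h),
      mem_biUnion (show i ∈ (A : Set ι) from hi) (sub_mem_dcone hz)⟩
  have hne2 : (({0}ᶜ : Set ℂ) ∩ V).Nonempty := by
    obtain ⟨z, hz, hzx⟩ := LINKC_ne (t.polyT k0) x
    exact ⟨z - x, fun h => hzx (sub_eq_zero.1 h),
      mem_biUnion (show k0 ∈ (B : Set ι) from
        Finset.mem_coe.2 (Finset.mem_sdiff.2 ⟨hk0, hk0A⟩)) (sub_mem_dcone hz)⟩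
  obtain ⟨v, hv0, hvU, hvV⟩ := isPreconnected_closed_iff.1 hconn U V hUc hVc hcov hne1 hne2
  obtain ⟨j, hjA, hvj⟩ := mem_iUnion₂.1 hvU
  obtain ⟨k, hkB, hvk⟩ := mem_iUnion₂.1 hvV
  have hjA' : j ∈ A := hjA
  have hkt : k ∈ t.tl x := (Finset.mem_sdiff.1 hkB).1
  have hkA : k ∉ A := (Finset.mem_sdiff.1 hkB).2
  have hjk : j ≠ k := fun h => hkA (h ▸ hjA')
  have hxj := hx j (hA hjA')
  have hxk := hx k hkt
  have hv0' : v ≠ 0 := hv0
  obtain ⟨a, ha, haj⟩ := hvj
  obtain ⟨b, hb, hbk⟩ := hvk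
  have hc : 0 < min a b := lt_min ha hb
  have hcj : x + (min a b) • v ∈ t.T j :=
    ray_convex (t.polyT j).convex hxj hc.le (min_le_left _ _) haj
  have hck : x + (min a b) • v ∈ t.T k :=
    ray_convex (t.polyT k).convex hxk hc.le (min_le_right _ _) hbk
  have hxne : ∀ c : ℝ, 0 < c → x ≠ x + c • v := by
    intro c hc h
    have h0 : c • v = 0 := by
      have h' : x + 0 = x + c • v := by rw [add_zero]; exact h
      exact (add_left_cancel h').symm
    rcases smul_eq_zero.mp h0 with h0 | h0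
    · exact hc.ne' h0
    · exact hv0' h0
  have hbd : BDir (t.T j) x v := by
    have h := pair_bdir (t.polyT j) (t.polyT k) (t.disj j k hjk) (hxne _ hc) hxj hxk hcj hck
    rw [add_sub_cancel_left] at h
    exact BDir.of_smul hc h
  obtain ⟨s, hs, hsn, hsj, ⟨l, hlj, hxl, hsl⟩, -⟩ := t.partner_dir hxj hbd
  -- a point of the open segment which lies in `T k`
  have hd : 0 < min (min a b) (s / 2) := lt_min hc (half_pos hs)
  have hds : min (min a b) (s / 2) < s :=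
    lt_of_le_of_lt (min_le_right _ _) (half_lt_self hs)
  have hzk : x + (min (min a b) (s / 2)) • v ∈ t.T k :=
    ray_convex (t.polyT k).convex hxk hd.le (min_le_left _ _) hck
  have hopen := mem_openSegment_ray (x := x) (e := v) hd hds
  have h3 := (t.third hlj.symm (hxne s hs) hxj hxl hsj hsl hopen).1 k hzk
  rcases h3 with h | h
  · exact hjk h.symm
  · apply hkA
    apply hcl j hjA' k hkt
    refine ⟨x + s • v, (hxne s hs).symm, (t.mem_N j _).2 ⟨hsn, hsj⟩, (t.mem_N k _).2 ⟨hsn, ?_⟩⟩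
    rw [h]
    exact hsl

end Pool.Agent.NNc
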