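import Pool.Agent.NNc.LTil

/-!
# The bridge from labelled tilings by triangles to the checker (M6)

`DT` = the type of a dart (all local data, with the colours of the two tiles at its edge),
`T.ty d` = the type of the dart `d`, `T.P x y` = some dart `d` in the direction `false` has the type
`x` and `nxt d` has the type `y` (so `(x, y)` is the sector of a tile at a node, `x` the dart which
goes back, `y` the dart which goes forward).

* `T.exists_P`: there is a sector.
* `T.secOK_of_P`: all local facts about a sector.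
* `T.tile_walk`: every sector lies on the closed walk around its tile.
* `T.star_walk`: every sector lies on the closed star of its node, starting with any label.

Colour of a tile: 12 bits; bit `k`: the neighbour across the side `k` at the corner `k` is flat
there; bit `3 + k`: the neighbour across the side `k - 1` at the corner `k` is flat there;
bit `6 + k`: the side `k` is one edge; bit `9 + k`: the node at the corner `k` has odd valence.
-/

namespace Pool.Agent.NNc

/-- The type of a dart: classes of the near and the far node, side, labels of the tile at the near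
and the far node, side and labels of the tile across, the two directions, the two colours. -/
structure DT where
  w : List ℕ
  w' : List ℕ
  k : ℕ
  la : ℕ
  la' : ℕ
  b : ℕ
  lb : ℕ
  lb' : ℕ
  dr : Bool
  dr' : Bool
  c : ℕ
  c' : ℕ
deriving DecidableEq

namespace DT

/-- the type of the reversed dart -/
def rev (x : DT) : DT :=
  ⟨x.w', x.w, x.k, x.la', x.la, x.b, x.lb', x.lb, !x.dr, !x.dr', x.c, x.c'⟩

/-- the type of the dart across -/
def swp (x : DT) : DT :=
  ⟨x.w, x.w', x.b, x.lb, x.lb', x.k, x.la, x.la', x.dr', x.dr, x.c', x.c⟩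

/-- the facts at one end on one tile -/
def loc (x : DT) : Bool :=
  decide (x.k < 3) && decide (x.la ≤ 3) &&
  decide (x.la < 3 → x.k = if x.dr then x.la else (x.la + 2) % 3) &&
  decide (x.la = 3 → x.lb < 3) &&
  (List.range 4).all (fun c => decide ([x.la, x.lb].count c ≤ x.w.getD c 0)) &&
  (x.c.testBit (6 + x.k) == decide (x.la < 3 ∧ x.la' < 3)) &&
  decide (x.la < 3 → x.c.testBit (if x.dr then x.la else 3 + x.la) = decide (x.lb = 3)) &&
  decide (x.la < 3 → x.c.testBit (9 + x.la) = decide (x.w.sum % 2 = 1))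

/-- an edge which is a full side of the tile -/
def full (x : DT) : Bool := decide (x.la < 3 ∧ x.la' < 3)

/-- all facts about one dart -/
def typOK (sh : Shape) (x : DT) : Bool :=
  decide (x.w ∈ sh.W) && decide (x.w' ∈ sh.W) && x.loc && x.rev.loc && x.swp.loc && x.swp.rev.loc &&
  decide (x.full = true → x.swp.full = true → sh.rk x.k = sh.rk x.b) &&
  decide (x.full = true → x.swp.full = false → sh.rk x.k < sh.rk x.b) &&
  decide (x.full = false → x.swp.full = true → sh.rk x.b < sh.rk x.k)

end DT

/-- all local facts about a sector -/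
def secOK (sh : Shape) (x y : DT) : Bool :=
  x.typOK sh && y.typOK sh && decide (y.w = x.w) && decide (y.la = x.la) && decide (y.c = x.c) &&
  decide (x.dr = false) && decide (y.dr = true) && decide (x.la = 3 → y.k = x.k) &&
  (List.range 4).all (fun c => decide ([x.la, x.lb, y.lb].count c ≤ x.w.getD c 0)) &&
  decide ((x.w.sum - 2) + (x.w'.sum - 2) + (y.w'.sum - 2) ≤ sh.n)

/-- the closed walk around a tile: `l k` = the sectors at the nodes of the side `k` without its last
node -/
structure TileW (sh : Shape) (P : DT → DT → Prop) (l : ℕ → List (DT × DT)) : Prop where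
  ne : ∀ k < 3, l k ≠ []
  mem : ∀ k < 3, ∀ p ∈ l k, P p.1 p.2
  side : ∀ k < 3, ∀ p ∈ l k, p.2.k = k
  first : ∀ k < 3, ∀ p, (l k).head? = some p → p.1.la = k
  rest : ∀ k < 3, ∀ p ∈ (l k).tail, p.1.la = 3
  chain : ∀ k < 3, (l k).IsChain (fun p q => q.1 = p.2.rev)
  link : ∀ k < 3, ∀ p q, (l k).getLast? = some p → (l ((k + 1) % 3)).head? = some q →
    q.1 = p.2.rev
  sum : ((l 0).map (fun p => p.1.w.sum - 2)).sum + ((l 1).map (fun p => p.1.w.sum - 2)).sum +
    ((l 2).map (fun p => p.1.w.sum - 2)).sum = sh.n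
  ok : ∀ k < 3, sh.ok k ((l k).map (fun p => (p.2.b, p.2.swp.full))) = true

/-- the closed star of a node; `u` = the type of the entering dart, `v` = the type of the leaving
dart of every tile at the node -/
structure StarW (P : DT → DT → Prop) (w : List ℕ) (l : List (DT × DT)) : Prop where
  ne : l ≠ []
  mem : ∀ p ∈ l, P p.1 p.2 ∨ P p.2 p.1
  cls : ∀ p ∈ l, p.1.w = w
  chain : l.IsChain (fun p q => q.1 = p.2.swp)
  link : ∀ p q, l.getLast? = some p → l.head? = some q → q.1 = p.2.swp
  cnt : ∀ c < 4, l.countP (fun p => p.1.la = c) = w.getD c 0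
  len : l.length = w.sum

namespace LTil

variable {sh : Shape} (T : LTil sh)

/-- the first dart of a side -/
noncomputable def hd (i : T.ι) (k : ℕ) : T.D :=
  if h : k < sh.m then (T.side i k).head (T.side_ne i k h) else Classical.choice T.ne

/-- the features of a tile -/
noncomputable def ft (i : T.ι) (j : Fin 12) : Bool :=
  if j.val < 3 then decide (T.lb (T.swp (T.hd i j.val)) = 3)
  else if j.val < 6 then decide (T.lb (T.swp (T.nxt (T.hd i (j.val - 3)))) = 3)
  else if j.val < 9 then decide (T.lb (T.rev (T.hd i (j.val - 6))) < 3)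
  else decide ((T.cls (T.nd (T.hd i (j.val - 9)))).sum % 2 = 1)

/-- the colour of a tile -/
noncomputable def col (i : T.ι) : ℕ := Nat.ofBits (T.ft i)

/-- the type of a dart -/
noncomputable def ty (d : T.D) : DT where
  w := T.cls (T.nd d)
  w' := T.cls (T.nd (T.rev d))
  k := T.sd d
  la := T.lb d
  la' := T.lb (T.rev d)
  b := T.sd (T.swp d)
  lb := T.lb (T.swp d)
  lb' := T.lb (T.swp (T.rev d))
  dr := T.dir d
  dr' := T.dir (T.swp d)
  c := T.col (T.tile d)
  c' := T.col (T.tile (T.swp d))

/-- the sectors -/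
def P (x y : DT) : Prop := ∃ d, T.dir d = false ∧ x = T.ty d ∧ y = T.ty (T.nxt d)

theorem tile_swp_rev (d : T.D) : T.tile (T.swp (T.rev d)) = T.tile (T.swp d) := by
  rw [← T.rev_swp, T.tile_rev]

theorem sd_swp_rev (d : T.D) : T.sd (T.swp (T.rev d)) = T.sd (T.swp d) := by
  rw [← T.rev_swp, T.sd_rev]

theorem dir_swp_rev (d : T.D) : T.dir (T.swp (T.rev d)) = !T.dir (T.swp d) := by
  rw [← T.rev_swp, T.dir_rev]

theorem ty_rev (d : T.D) : T.ty (T.rev d) = (T.ty d).rev := by
  unfold ty DT.rev
  simp only [T.rev_rev, T.sd_rev, T.dir_rev, T.tile_rev, T.tile_swp_rev, T.sd_swp_rev,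
    T.dir_swp_rev]

theorem ty_swp (d : T.D) : T.ty (T.swp d) = (T.ty d).swp := by
  unfold ty DT.swp
  simp only [T.swp_swp, T.nd_swp, T.rev_swp]

theorem exists_P : ∃ x y, T.P x y := by
  obtain ⟨d⟩ := T.ne
  cases h : T.dir d with
  | false => exact ⟨_, _, d, h, rfl, rfl⟩
  | true => exact ⟨_, _, T.rev d, by rw [T.dir_rev, h]; rfl, rfl, rfl⟩

section three

variable (h3 : sh.m = 3)
include h3

theorem sd_lt3 (d : T.D) : T.sd d < 3 := by
  have := T.sd_lt d
  omega

theorem lb_le3 (d : T.D) : T.lb d ≤ 3 := by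
  have := T.lb_le d
  omega

theorem sd_corner3 (d : T.D) (h : T.lb d < 3) :
    T.sd d = if T.dir d then T.lb d else (T.lb d + 2) % 3 := by
  have := T.sd_corner d (by omega)
  rw [this, h3]
  split <;> omega

theorem hd_mem (i : T.ι) (k : ℕ) (hk : k < 3) : T.hd i k ∈ T.side i k := by
  unfold hd
  rw [dif_pos (by omega)]
  exact List.head_mem _

theorem side_eq (i : T.ι) (k : ℕ) (hk : k < 3) : ∃ L, T.side i k = T.hd i k :: L := by
  unfold hd
  rw [dif_pos (by omega)]
  exact ⟨(T.side i k).tail, (List.cons_head_tail _).symm⟩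

theorem lb_hd (i : T.ι) (k : ℕ) (hk : k < 3) : T.lb (T.hd i k) = k := by
  obtain ⟨L, hL⟩ := T.side_eq h3 i k hk
  exact (T.side_lb i k (by omega) _ L hL).1

theorem hd_props (i : T.ι) (k : ℕ) (hk : k < 3) :
    T.tile (T.hd i k) = i ∧ T.sd (T.hd i k) = k ∧ T.dir (T.hd i k) = true :=
  (T.side_mem i k (by omega) _).1 (T.hd_mem h3 i k hk)

theorem eq_hd_of_mem (i : T.ι) (k : ℕ) (hk : k < 3) (d : T.D) (hd : d ∈ T.side i k)
    (hl : T.lb d < 3) : d = T.hd i k := by
  obtain ⟨L, hL⟩ := T.side_eq h3 i k hk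
  have h := (T.side_lb i k (by omega) _ L hL).2
  rw [hL, List.mem_cons] at hd
  rcases hd with hd | hd
  · exact hd
  · have := h d hd
    omega

theorem eq_hd (d : T.D) (hdir : T.dir d = true) (hl : T.lb d < 3) :
    d = T.hd (T.tile d) (T.lb d) := by
  have hs := T.sd_corner3 h3 d hl
  rw [hdir, if_pos rfl] at hs
  apply T.eq_hd_of_mem h3 _ _ hl _ _ hl
  exact (T.side_mem _ _ (by omega) d).2 ⟨rfl, hs, hdir⟩

theorem eq_nxt_hd (d : T.D) (hdir : T.dir d = false) (hl : T.lb d < 3) :
    d = T.nxt (T.hd (T.tile d) (T.lb d)) := by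
  have e1 : T.lb (T.nxt d) = T.lb d := T.lb_eq _ _ (T.tile_nxt d) (T.nd_nxt d)
  have h := T.eq_hd h3 (T.nxt d) (by rw [T.dir_nxt, hdir]; rfl) (by omega)
  rw [e1, T.tile_nxt] at h
  rw [← h, T.nxt_nxt]

theorem full_hd (i : T.ι) (k : ℕ) (hk : k < 3) (d : T.D) (hd : d ∈ T.side i k) :
    (T.lb d < 3 ∧ T.lb (T.rev d) < 3) ↔ T.lb (T.rev (T.hd i k)) < 3 := by
  constructor
  · rintro ⟨h1, h2⟩
    rwa [← T.eq_hd_of_mem h3 i k hk d hd h1]
  · intro h
    obtain ⟨L, hL⟩ := T.side_eq h3 i k hk
    have hlb := (T.side_lb i k (by omega) _ L hL)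
    cases L with
    | nil =>
      rw [hL, List.mem_singleton] at hd
      subst hd
      exact ⟨by omega, h⟩
    | cons e L =>
      exfalso
      have hc := T.side_chain i k (by omega)
      rw [hL, List.isChain_cons_cons] at hc
      have e1 : T.lb e = 3 := by
        have := hlb.2 e (List.mem_cons_self)
        omega
      have e2 : T.lb e = T.lb (T.rev (T.hd i k)) := by
        rw [hc.1]
        exact T.lb_eq _ _ (T.tile_nxt _) (T.nd_nxt _)
      omega

theorem bit_s (d : T.D) : (T.col (T.tile d)).testBit (6 + T.sd d) =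
    decide (T.lb d < 3 ∧ T.lb (T.rev d) < 3) := by
  have hs := T.sd_lt3 h3 d
  unfold col
  rw [Nat.testBit_ofBits_lt _ _ (by omega)]
  unfold ft
  simp only
  rw [if_neg (by omega), if_neg (by omega), if_pos (by omega)]
  have e : 6 + T.sd d - 6 = T.sd d := by omega
  rw [e]
  apply decide_eq_decide.2
  cases hdir : T.dir d with
  | true =>
    exact (T.full_hd h3 _ _ hs d ((T.side_mem _ _ (by omega) d).2 ⟨rfl, rfl, hdir⟩)).symm
  | false =>
    have := T.full_hd h3 (T.tile d) (T.sd d) hs (T.rev d)
      ((T.side_mem _ _ (by omega) _).2 ⟨T.tile_rev d, T.sd_rev d, by rw [T.dir_rev, hdir]; rfl⟩)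
    rw [T.rev_rev] at this
    rw [← this, and_comm]

theorem bit_pm (d : T.D) (hl : T.lb d < 3) :
    (T.col (T.tile d)).testBit (if T.dir d then T.lb d else 3 + T.lb d) =
    decide (T.lb (T.swp d) = 3) := by
  unfold col
  cases hdir : T.dir d with
  | true =>
    rw [if_pos rfl, Nat.testBit_ofBits_lt _ _ (by omega)]
    unfold ft
    simp only
    rw [if_pos hl, ← T.eq_hd h3 d hdir hl]
  | false =>
    rw [if_neg (by simp), Nat.testBit_ofBits_lt _ _ (by omega)]
    unfold ft
    simp only
    rw [if_neg (by omega), if_pos (by omega)]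
    have e : 3 + T.lb d - 3 = T.lb d := by omega
    rw [e, ← T.eq_nxt_hd h3 d hdir hl]

theorem bit_v (d : T.D) (hl : T.lb d < 3) :
    (T.col (T.tile d)).testBit (9 + T.lb d) = decide ((T.cls (T.nd d)).sum % 2 = 1) := by
  unfold col
  rw [Nat.testBit_ofBits_lt _ _ (by omega)]
  unfold ft
  simp only
  rw [if_neg (by omega), if_neg (by omega), if_neg (by omega)]
  have e : 9 + T.lb d - 9 = T.lb d := by omega
  rw [e]
  cases hdir : T.dir d with
  | true => rw [← T.eq_hd h3 d hdir hl]
  | false =>
    have h := T.eq_nxt_hd h3 d hdir hl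
    have : T.nd d = T.nd (T.hd (T.tile d) (T.lb d)) := by
      conv_lhs => rw [h]
      exact T.nd_nxt _
    rw [this]

end three

end LTil

end Pool.Agent.NNc
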