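import Pool.Agent.NNc.Occ

/-!
# The bridge from labelled tilings by triangles to the checker (M6): walks
-/

namespace Pool.Agent.NNc

namespace LTil

variable {sh : Shape} (T : LTil sh)

/-- the classes have the form `[a, b, c, f]` and valence at least `3` -/
def WOK (sh : Shape) : Prop := ∀ w ∈ sh.W, w.length = 4 ∧ 3 ≤ w.sum

theorem ty_nxt_w (d : T.D) : T.cls (T.nd (T.nxt d)) = T.cls (T.nd d) := by rw [T.nd_nxt]

theorem lb_nxt (d : T.D) : T.lb (T.nxt d) = T.lb d := T.lb_eq _ _ (T.tile_nxt d) (T.nd_nxt d)

/-! ### The star -/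

theorem chain_iter {α : Type} (g : α → α) : ∀ (L : List α) (d : α), L.head? = some d →
    L.IsChain (fun a b => b = g a) → ∀ t (ht : t < L.length), L[t] = g^[t] d := by
  intro L
  induction L with
  | nil => intro d h; simp at h
  | cons a L ih =>
    intro d h hc t ht
    rw [List.head?_cons, Option.some.injEq] at h
    subst h
    cases t with
    | zero => rfl
    | succ t =>
      cases L with
      | nil => simp at ht
      | cons b L =>
        rw [List.isChain_cons_cons] at hc
        have := ih b rfl hc.2 t (by simpa using ht)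
        rw [List.getElem_cons_succ, this, hc.1, ← Function.iterate_succ_apply]

/-- one step around a node -/
def g (d : T.D) : T.D := T.swp (T.nxt d)

theorem sum_countP (L : List T.D) (hL : ∀ e ∈ L, T.lb e ≤ 3) :
    L.length = L.countP (fun e => T.lb e = 0) + L.countP (fun e => T.lb e = 1) +
      L.countP (fun e => T.lb e = 2) + L.countP (fun e => T.lb e = 3) := by
  induction L with
  | nil => rfl
  | cons a L ih =>
    have ih' := ih (fun e he => hL e (List.mem_cons_of_mem _ he))
    have ha := hL a List.mem_cons_self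
    rw [List.length_cons, ih']
    rw [List.countP_cons, List.countP_cons, List.countP_cons, List.countP_cons]
    have h4 : T.lb a = 0 ∨ T.lb a = 1 ∨ T.lb a = 2 ∨ T.lb a = 3 := by omega
    rcases h4 with h | h | h | h <;> simp [h] <;> omega

theorem getD_sum (w : List ℕ) (hw : w.length = 4) :
    w.sum = w.getD 0 0 + w.getD 1 0 + w.getD 2 0 + w.getD 3 0 := by
  match w, hw with
  | [a, b, c, f], _ => simp; ring

section three

variable (h3 : sh.m = 3) (hW : WOK sh)
include h3

theorem star_cnt (L : List T.D) (d : T.D)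
    (h : ∀ c, c ≤ sh.m → L.countP (fun e => T.lb e = c) = (T.cls (T.nd d)).getD c 0)
    (hW : WOK sh) : L.length = (T.cls (T.nd d)).sum := by
  rw [T.sum_countP L (fun e _ => T.lb_le3 h3 e), getD_sum _ (hW _ (T.cls_mem d)).1,
    h 0 (by omega), h 1 (by omega), h 2 (by omega), h 3 (by omega)]

include hW

theorem g_iter (d : T.D) : T.g^[(T.cls (T.nd d)).sum] d = d := by
  obtain ⟨L, h1, h2, h4, h5, h6, h7⟩ := T.star d
  have hl := T.star_cnt h3 L d h7 hW
  have hv := (hW _ (T.cls_mem d)).2
  have hne : L ≠ [] := by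
    intro h
    rw [h] at hl
    simp at hl
    omega
  have hit := chain_iter T.g L d h1 h2
  have hlast : L.getLast? = some (T.g^[L.length - 1] d) := by
    rw [List.getLast?_eq_getLast_of_ne_nil hne, List.getLast_eq_getElem]
    rw [hit _ (by have := List.length_pos_iff.2 hne; omega)]
  have := h4 _ hlast
  rw [← hl]
  have e : L.length = (L.length - 1) + 1 := by omega
  rw [e, Function.iterate_succ_apply']
  exact this

/-- the star as a list: nearly the field `star` -/
theorem star_mem (d e : T.D) (L L' : List T.D) (hv : L.length = (T.cls (T.nd d)).sum)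
    (hv' : L'.length = (T.cls (T.nd d)).sum)
    (h1 : L.head? = some d) (h2 : L.IsChain (fun a b => b = T.swp (T.nxt a)))
    (h1' : L'.head? = some e) (h2' : L'.IsChain (fun a b => b = T.swp (T.nxt a)))
    (he : e ∈ L) : d ∈ L' := by
  obtain ⟨j, hj, hje⟩ := List.mem_iff_getElem.1 he
  rw [chain_iter T.g L d h1 h2] at hje
  rcases Nat.eq_zero_or_pos j with h0 | h0
  · subst h0
    rw [Function.iterate_zero, id] at hje
    rw [hje]
    exact List.mem_of_mem_head? h1'
  · have ht : L.length - j < L'.length := by omega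
    have := chain_iter T.g L' e h1' h2' (L.length - j) ht
    rw [← hje, ← Function.iterate_add_apply] at this
    have e1 : L.length - j + j = (T.cls (T.nd d)).sum := by omega
    rw [e1, T.g_iter h3 hW] at this
    rw [← this]
    exact List.getElem_mem _

theorem star_walk (x y : DT) (hP : T.P x y) (s : ℕ) (hs : s < 4) (hc : 0 < x.w.getD s 0) :
    ∃ l, StarW T.P x.w l ∧ ((x, y) ∈ l ∨ (y, x) ∈ l) ∧ ∃ p, l.head? = some p ∧ p.1.la = s := by
  obtain ⟨d, hdir, rfl, rfl⟩ := hP
  have hc' : 0 < (T.cls (T.nd d)).getD s 0 := hc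
  obtain ⟨L, h1, h2, h4, h5, h6, h7⟩ := T.star d
  rw [← h7 s (by omega), List.countP_pos_iff] at hc'
  obtain ⟨e, heL, hes⟩ := hc'
  have hes' : T.lb e = s := of_decide_eq_true hes
  have hnd : T.nd e = T.nd d := h5 e heL
  obtain ⟨L', h1', h2', h4', h5', h6', h7'⟩ := T.star e
  have hl := T.star_cnt h3 L d h7 hW
  have hl' := T.star_cnt h3 L' e h7' hW
  rw [hnd] at hl' h7'
  have hdL : d ∈ L' := T.star_mem h3 hW d e L L' hl hl' h1 h2 h1' h2' heL
  have hne : L' ≠ [] := by
    intro h
    rw [h] at hdL
    simp at hdL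
  refine ⟨L'.map (fun e => (T.ty e, T.ty (T.nxt e))), ?_, ?_, ?_⟩
  · constructor
    · simpa using hne
    · intro p hp
      rw [List.mem_map] at hp
      obtain ⟨f, hf, rfl⟩ := hp
      cases hfd : T.dir f with
      | false => exact Or.inl ⟨f, hfd, rfl, rfl⟩
      | true =>
        refine Or.inr ⟨T.nxt f, by rw [T.dir_nxt, hfd]; rfl, rfl, ?_⟩
        rw [T.nxt_nxt]
    · intro p hp
      rw [List.mem_map] at hp
      obtain ⟨f, hf, rfl⟩ := hp
      show T.cls (T.nd f) = T.cls (T.nd d)
      rw [h5' f hf, hnd]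
    · rw [List.isChain_map]
      refine List.IsChain.imp ?_ h2'
      intro a b hab
      show T.ty b = (T.ty (T.nxt a)).swp
      rw [← T.ty_swp, hab]
    · intro p q hp hq
      rw [List.getLast?_map, Option.map_eq_some_iff] at hp
      obtain ⟨a, ha, rfl⟩ := hp
      rw [List.head?_map, h1', Option.map_some, Option.some.injEq] at hq
      subst hq
      show T.ty e = (T.ty (T.nxt a)).swp
      rw [← T.ty_swp, h4' a ha]
    · intro c hc4
      rw [List.countP_map]
      exact h7' c (by omega)
    · rw [List.length_map]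
      exact hl'
  · cases hfd : T.dir d with
    | false =>
      left
      rw [List.mem_map]
      exact ⟨d, hdL, rfl⟩
    | true => rw [hdir] at hfd; exact absurd hfd (by simp)
  · refine ⟨(T.ty e, T.ty (T.nxt e)), ?_, hes'⟩
    rw [List.head?_map, h1']
    rfl

end three

/-! ### The walk around a tile -/

section three2

variable (h3 : sh.m = 3)
include h3

theorem tile_walk (x y : DT) (hP : T.P x y) :
    ∃ l, TileW sh T.P l ∧ ∃ k < 3, (x, y) ∈ l k := by
  obtain ⟨d, hdir, rfl, rfl⟩ := hP
  refine ⟨fun k => (T.side (T.tile d) k).map (fun e => (T.ty (T.nxt e), T.ty e)), ?_, ?_⟩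
  · constructor
    · intro k hk
      simpa using T.side_ne (T.tile d) k (by omega)
    · intro k hk p hp
      rw [List.mem_map] at hp
      obtain ⟨e, he, rfl⟩ := hp
      have := (T.side_mem _ _ (by omega) e).1 he
      refine ⟨T.nxt e, by rw [T.dir_nxt, this.2.2]; rfl, rfl, ?_⟩
      rw [T.nxt_nxt]
    · intro k hk p hp
      rw [List.mem_map] at hp
      obtain ⟨e, he, rfl⟩ := hp
      exact ((T.side_mem _ _ (by omega) e).1 he).2.1
    · intro k hk p hp
      obtain ⟨L, hL⟩ := T.side_eq h3 (T.tile d) k hk
      rw [hL, List.map_cons, List.head?_cons, Option.some.injEq] at hp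
      subst hp
      show T.lb (T.nxt (T.hd (T.tile d) k)) = k
      rw [T.lb_nxt, T.lb_hd h3 _ _ hk]
    · intro k hk p hp
      obtain ⟨L, hL⟩ := T.side_eq h3 (T.tile d) k hk
      rw [hL, List.map_cons, List.tail_cons, List.mem_map] at hp
      obtain ⟨e, he, rfl⟩ := hp
      have := (T.side_lb _ k (by omega) _ L hL).2 e he
      show T.lb (T.nxt e) = 3
      rw [T.lb_nxt]
      omega
    · intro k hk
      rw [List.isChain_map]
      refine List.IsChain.imp ?_ (T.side_chain _ k (by omega))
      intro a b hab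
      show T.ty (T.nxt b) = (T.ty a).rev
      rw [← T.ty_rev, hab, T.nxt_nxt]
    · intro k hk p q hp hq
      rw [List.getLast?_map, Option.map_eq_some_iff] at hp
      obtain ⟨a, ha, rfl⟩ := hp
      have hl := (T.side_last _ k (by omega) a ha).2
      rw [h3] at hl
      rw [List.head?_map, hl, Option.map_some, Option.some.injEq] at hq
      subst hq
      show T.ty (T.nxt (T.nxt (T.rev a))) = (T.ty a).rev
      rw [← T.ty_rev, T.nxt_nxt]
    · have := T.sum (T.tile d)
      rw [h3, Finset.sum_range_succ, Finset.sum_range_succ, Finset.sum_range_succ,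
        Finset.sum_range_zero, zero_add] at this
      rw [← this]
      simp only [List.map_map]
      have e : ((fun p : DT × DT => p.1.w.sum - 2) ∘ fun e => (T.ty (T.nxt e), T.ty e)) =
          (fun e => (T.cls (T.nd e)).sum - 2) := by
        funext e
        show (T.cls (T.nd (T.nxt e))).sum - 2 = _
        rw [T.nd_nxt]
      rw [e]
    · intro k hk
      have := T.side_ok (T.tile d) k (by omega)
      rw [h3] at this
      rw [← this, List.map_map]
      congr 1
      apply List.map_congr_left
      intro e he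
      show (T.sd (T.swp e), decide (T.lb (T.swp e) < 3 ∧ T.lb (T.swp (T.rev e)) < 3)) = _
      rw [T.rev_swp]
  · refine ⟨T.sd (T.nxt d), T.sd_lt3 h3 _, ?_⟩
    rw [List.mem_map]
    refine ⟨T.nxt d, (T.side_mem _ _ (by have := T.sd_lt3 h3 (T.nxt d); omega) _).2
      ⟨T.tile_nxt d, rfl, by rw [T.dir_nxt, hdir]; rfl⟩, ?_⟩
    rw [T.nxt_nxt]

end three2

end LTil

end Pool.Agent.NNc
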