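import Pool.Agent.NNc.Occ2

/-!
# The bridge from labelled tilings by triangles to the checker (M6): local facts
-/

namespace Pool.Agent.NNc

namespace LTil

variable {sh : Shape} (T : LTil sh)

section three

variable (h3 : sh.m = 3) (hW : WOK sh)
include h3 hW

/-- the labels of a tile and its two neighbours at a node -/
theorem triple (d : T.D) (c : ℕ) (hc : c < 4) :
    [T.lb d, T.lb (T.swp d), T.lb (T.swp (T.nxt d))].count c ≤ (T.cls (T.nd d)).getD c 0 := by
  obtain ⟨L, h1, h2, h4, h5, h6, h7⟩ := T.star d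
  have hl := T.star_cnt h3 L d h7 hW
  have hv := (hW _ (T.cls_mem d)).2
  rw [← h7 c (by omega)]
  match L, hl, h1, h2, h4 with
  | [], hl, _, _, _ => simp at hl; omega
  | [a], hl, _, _, _ => simp at hl; omega
  | a :: b :: M, hl, h1, h2, h4 =>
    have hM : M ≠ [] := by
      intro h
      rw [h] at hl
      simp at hl
      omega
    rw [List.head?_cons, Option.some.injEq] at h1
    subst h1
    rw [List.isChain_cons_cons] at h2
    have hlast := h4 (M.getLast hM) (by
      rw [List.getLast?_eq_getLast_of_ne_nil (by simp)]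
      simp [List.getLast_cons hM])
    have e1 : T.lb (M.getLast hM) = T.lb (T.swp a) := by
      rw [← hlast, T.swp_swp, T.lb_nxt]
    have e2 : T.lb b = T.lb (T.swp (T.nxt a)) := by rw [h2.1]
    have hsub : [a, b, M.getLast hM].Sublist (a :: b :: M) := by
      refine List.Sublist.cons_cons _ (List.Sublist.cons_cons _ ?_)
      exact List.singleton_sublist.2 (List.getLast_mem hM)
    have := hsub.countP_le (p := fun e => decide (T.lb e = c))
    refine le_trans (le_of_eq ?_) this
    rw [← e1, ← e2]
    simp only [List.count_cons, List.countP_cons, List.count_nil, List.countP_nil, beq_iff_eq,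
      decide_eq_true_eq]
    omega

theorem loc_ty (d : T.D) : (T.ty d).loc = true := by
  have hk := T.sd_lt3 h3 d
  have hl := T.lb_le3 h3 d
  unfold DT.loc
  simp only [Bool.and_eq_true]
  refine ⟨⟨⟨⟨⟨⟨⟨?_, ?_⟩, ?_⟩, ?_⟩, ?_⟩, ?_⟩, ?_⟩, ?_⟩
  · exact decide_eq_true hk
  · exact decide_eq_true hl
  · exact decide_eq_true (fun h => T.sd_corner3 h3 d h)
  · refine decide_eq_true (fun h => ?_)
    have h' : T.lb d = 3 := h
    have := T.flat_one d (by omega)
    show T.lb (T.swp d) < 3
    omega
  · rw [List.all_eq_true]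
    intro c hc
    rw [List.mem_range] at hc
    refine decide_eq_true (le_trans ?_ (T.triple h3 hW d c hc))
    show [T.lb d, T.lb (T.swp d)].count c ≤ _
    exact List.Sublist.count_le _ (by simp)
  · rw [beq_iff_eq]
    exact T.bit_s h3 d
  · exact decide_eq_true (fun h => T.bit_pm h3 d h)
  · exact decide_eq_true (fun h => T.bit_v h3 d h)

theorem typOK_ty (d : T.D) : (T.ty d).typOK sh = true := by
  have e1 : (T.ty d).rev.loc = true := by rw [← T.ty_rev]; exact T.loc_ty h3 hW _
  have e2 : (T.ty d).swp.loc = true := by rw [← T.ty_swp]; exact T.loc_ty h3 hW _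
  have e3 : (T.ty d).swp.rev.loc = true := by
    rw [← T.ty_swp, ← T.ty_rev]; exact T.loc_ty h3 hW _
  have hf : (T.ty d).full = true ↔ (T.lb d < 3 ∧ T.lb (T.rev d) < 3) := by
    unfold DT.full
    rw [decide_eq_true_eq]
    rfl
  have hf' : (T.ty d).swp.full = true ↔ (T.lb (T.swp d) < 3 ∧ T.lb (T.rev (T.swp d)) < 3) := by
    unfold DT.full
    rw [decide_eq_true_eq, T.rev_swp]
    rfl
  have g1 := T.lb_le3 h3 d
  have g2 := T.lb_le3 h3 (T.rev d)
  have g3 := T.lb_le3 h3 (T.swp d)
  have g4 := T.lb_le3 h3 (T.rev (T.swp d))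
  unfold DT.typOK
  simp only [Bool.and_eq_true]
  refine ⟨⟨⟨⟨⟨⟨⟨⟨?_, ?_⟩, T.loc_ty h3 hW d⟩, e1⟩, e2⟩, e3⟩, ?_⟩, ?_⟩, ?_⟩
  · exact decide_eq_true (T.cls_mem d)
  · exact decide_eq_true (T.cls_mem (T.rev d))
  · refine decide_eq_true (fun h h' => ?_)
    rw [hf] at h
    rw [hf'] at h'
    exact T.rk_eq d (by omega) (by omega) (by omega) (by omega)
  · refine decide_eq_true (fun h h' => ?_)
    rw [hf] at h
    rw [← Bool.not_eq_true, hf'] at h'
    exact T.rk_lt d (by omega) (by omega) (by omega)
  · refine decide_eq_true (fun h h' => ?_)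
    rw [hf'] at h'
    rw [← Bool.not_eq_true, hf] at h
    have := T.rk_lt (T.swp d) (by omega) (by omega) (by
      rw [T.swp_swp]
      omega)
    rw [T.swp_swp] at this
    exact this

end three

/-! ### The bound for the three nodes of a sector -/

theorem cyc_cons {α : Type} (r : α → α → Prop) (C : List α) (hne : C ≠ []) (hc : C.IsChain r)
    (hl : ∀ p q, C.getLast? = some p → C.head? = some q → r p q) (d : α) (hd : d ∈ C) :
    ∃ R, (d :: R).Perm C ∧ (d :: (R ++ [d])).IsChain r := by
  have hC : Cycle.Chain r (C : Cycle α) := by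
    cases C with
    | nil => exact absurd rfl hne
    | cons a l =>
      rw [Cycle.chain_coe_cons, ← List.cons_append]
      rw [List.isChain_append]
      refine ⟨hc, List.isChain_singleton _, ?_⟩
      intro x hx y hy
      rw [List.head?_cons, Option.mem_some_iff] at hy
      subst hy
      exact hl x _ hx rfl
  obtain ⟨s, t, rfl⟩ := List.mem_iff_append.1 hd
  have hrot : ((s ++ d :: t : List α) : Cycle α) = ((d :: (t ++ s) : List α) : Cycle α) := by
    rw [Cycle.coe_eq_coe]
    have := List.isRotated_append (l := s) (l' := d :: t)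
    rwa [List.cons_append] at this
  rw [hrot, Cycle.chain_coe_cons] at hC
  refine ⟨t ++ s, ?_, hC⟩
  rw [← List.cons_append]
  exact List.perm_append_comm

section three

variable (h3 : sh.m = 3)
include h3

theorem three_nodes (e : T.D) (he : T.dir e = true) :
    ((T.cls (T.nd e)).sum - 2) + ((T.cls (T.nd (T.rev (T.nxt e)))).sum - 2) +
      ((T.cls (T.nd (T.rev e))).sum - 2) ≤ sh.n := by
  obtain ⟨L0, hL0⟩ := T.side_eq h3 (T.tile e) 0 (by omega)
  obtain ⟨L1, hL1⟩ := T.side_eq h3 (T.tile e) 1 (by omega)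
  obtain ⟨L2, hL2⟩ := T.side_eq h3 (T.tile e) 2 (by omega)
  set r : T.D → T.D → Prop := fun a b => b = T.nxt (T.rev a) with hr
  set C := T.side (T.tile e) 0 ++ (T.side (T.tile e) 1 ++ T.side (T.tile e) 2) with hC
  have c0 := T.side_chain (T.tile e) 0 (by omega)
  have c1 := T.side_chain (T.tile e) 1 (by omega)
  have c2 := T.side_chain (T.tile e) 2 (by omega)
  have l0 := fun a ha => (T.side_last (T.tile e) 0 (by omega) a ha).2
  have l1 := fun a ha => (T.side_last (T.tile e) 1 (by omega) a ha).2
  have l2 := fun a ha => (T.side_last (T.tile e) 2 (by omega) a ha).2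
  rw [h3] at l0 l1 l2
  norm_num at l0 l1 l2
  have hne : C ≠ [] := by rw [hC, hL0]; simp
  have hch : C.IsChain r := by
    rw [hC, List.isChain_append, List.isChain_append]
    refine ⟨c0, ⟨c1, c2, ?_⟩, ?_⟩
    · intro x hx y hy
      rw [l1 x hx, Option.mem_some_iff] at hy
      exact hy.symm
    · intro x hx y hy
      rw [List.head?_append_of_ne_nil _ (by rw [hL1]; simp), l0 x hx, Option.mem_some_iff] at hy
      exact hy.symm
  have hlast : ∀ p q, C.getLast? = some p → C.head? = some q → r p q := by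
    intro p q hp hq
    rw [hC, List.getLast?_append_of_ne_nil _ (by rw [hL1]; simp),
      List.getLast?_append_of_ne_nil _ (by rw [hL2]; simp)] at hp
    rw [hC, List.head?_append_of_ne_nil _ (by rw [hL0]; simp), l2 p hp, Option.some.injEq] at hq
    exact hq.symm
  have hmem : e ∈ C := by
    have hs := T.sd_lt3 h3 e
    have := (T.side_mem (T.tile e) (T.sd e) (by omega) e).2 ⟨rfl, rfl, he⟩
    rw [hC, List.mem_append, List.mem_append]
    have h4 : T.sd e = 0 ∨ T.sd e = 1 ∨ T.sd e = 2 := by omega
    rcases h4 with h | h | h <;> rw [h] at this <;> tauto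
  obtain ⟨R, hperm, hR⟩ := cyc_cons r C hne hch hlast e hmem
  set f : T.D → ℕ := fun a => (T.cls (T.nd a)).sum - 2 with hf
  have hsum : (C.map f).sum = sh.n := by
    have := T.sum (T.tile e)
    rw [h3, Finset.sum_range_succ, Finset.sum_range_succ, Finset.sum_range_succ,
      Finset.sum_range_zero, zero_add] at this
    rw [← this, hC, List.map_append, List.map_append, List.sum_append, List.sum_append, add_assoc]
  have hsum2 : ((e :: R).map f).sum = sh.n := by
    rw [(hperm.map f).sum_eq, hsum]
  have hlen : 3 ≤ (e :: R).length := by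
    rw [hperm.length_eq, hC, hL0, hL1, hL2]
    simp only [List.length_append, List.length_cons]
    omega
  match R, hlen, hR, hsum2 with
  | [], hlen, _, _ => simp at hlen
  | [a], hlen, _, _ => simp at hlen
  | a :: b :: M, _, hR, hsum2 =>
    rw [List.cons_append, List.isChain_cons_cons] at hR
    have ha : T.cls (T.nd a) = T.cls (T.nd (T.rev e)) := by
      have : a = T.nxt (T.rev e) := hR.1
      rw [this, T.nd_nxt]
    set z := (b :: M).getLast (by simp) with hz
    have hz' : T.cls (T.nd z) = T.cls (T.nd (T.rev (T.nxt e))) := by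
      have h5 := hR.2
      rw [← List.cons_append, List.isChain_append] at h5
      have h6 := h5.2.2 z (by
        rw [List.getLast?_cons_cons, List.getLast?_eq_getLast_of_ne_nil (by simp)]
        rfl) e (by rw [List.head?_cons]; rfl)
      have h7 : e = T.nxt (T.rev z) := h6
      rw [h7, T.nxt_nxt, T.rev_rev]
    have h8 : (a :: b :: M).Perm (a :: z :: (b :: M).dropLast) := by
      refine List.Perm.cons _ ?_
      conv_lhs => rw [← List.dropLast_append_getLast (l := b :: M) (by simp)]
      rw [← hz]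
      exact (List.perm_append_singleton _ _)
    have h9 : ((a :: b :: M).map f).sum = f a + (f z + ((b :: M).dropLast.map f).sum) := by
      rw [(h8.map f).sum_eq]
      simp only [List.map_cons, List.sum_cons]
    rw [List.map_cons, List.sum_cons, h9] at hsum2
    have e1 : f a = (T.cls (T.nd (T.rev e))).sum - 2 := by rw [hf]; simp only; rw [ha]
    have e2 : f z = (T.cls (T.nd (T.rev (T.nxt e)))).sum - 2 := by rw [hf]; simp only; rw [hz']
    have e3 : f e = (T.cls (T.nd e)).sum - 2 := rfl
    omega

end three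

section three

variable (h3 : sh.m = 3) (hW : WOK sh)
include h3 hW

theorem secOK_of_P (x y : DT) (hP : T.P x y) : secOK sh x y = true := by
  obtain ⟨d, hdir, rfl, rfl⟩ := hP
  unfold secOK
  simp only [Bool.and_eq_true]
  refine ⟨⟨⟨⟨⟨⟨⟨⟨⟨T.typOK_ty h3 hW _, T.typOK_ty h3 hW _⟩, ?_⟩, ?_⟩, ?_⟩, ?_⟩, ?_⟩, ?_⟩, ?_⟩, ?_⟩
  · exact decide_eq_true (T.ty_nxt_w d)
  · exact decide_eq_true (T.lb_nxt d)
  · refine decide_eq_true ?_
    show T.col (T.tile (T.nxt d)) = T.col (T.tile d)
    rw [T.tile_nxt]
  · exact decide_eq_true hdir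
  · refine decide_eq_true ?_
    show T.dir (T.nxt d) = true
    rw [T.dir_nxt, hdir]
    rfl
  · exact decide_eq_true (fun h => T.sd_flat d (by rw [h3]; exact h))
  · rw [List.all_eq_true]
    intro c hc
    rw [List.mem_range] at hc
    exact decide_eq_true (T.triple h3 hW d c hc)
  · refine decide_eq_true ?_
    have := T.three_nodes h3 (T.nxt d) (by rw [T.dir_nxt, hdir]; rfl)
    rw [T.nxt_nxt, T.nd_nxt] at this
    exact this

end three

end LTil

/-- What the checker consumes. -/
structure OccS (sh : Shape) where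
  P : DT → DT → Prop
  ne : ∃ x y, P x y
  legal : ∀ x y, P x y → secOK sh x y = true
  tile : ∀ x y, P x y → ∃ l, TileW sh P l ∧ ∃ k < 3, (x, y) ∈ l k
  star : ∀ x y, P x y → ∀ s < 4, 0 < x.w.getD s 0 →
    ∃ l, StarW P x.w l ∧ ((x, y) ∈ l ∨ (y, x) ∈ l) ∧ ∃ p, l.head? = some p ∧ p.1.la = s

/-- M6: a labelled tiling gives the data for the checker. -/
def LTil.occ {sh : Shape} (T : LTil sh) (h3 : sh.m = 3) (hW : LTil.WOK sh) : OccS sh where
  P := T.P
  ne := T.exists_P
  legal := T.secOK_of_P h3 hW
  tile := T.tile_walk h3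
  star := T.star_walk h3 hW

end Pool.Agent.NNc
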