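import Pool.Agent.NNc.Occ3

/-!
# The bridge from labelled tilings by triangles to the checker (M6): the local side rule

At a flat node `x` inside the side `k` of a tile there are two pieces of this side, one before and
one after the node.  `first` (`last`) = the piece before (after) the node ends at a corner.
-/

namespace Pool.Agent.NNc

/-- the local rule at a flat node, for a sector -/
def flatR (R : ℕ → Bool → Bool → ℕ × Bool → ℕ × Bool → Bool) (x y : DT) : Bool :=
  decide (x.la = 3 → R x.k (decide (x.la' < 3)) (decide (y.la' < 3)) (x.b, x.swp.full)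
    (y.b, y.swp.full) = true)

/-- `R` is a consequence of the side rule -/
def LocOf (sh : Shape) (R : ℕ → Bool → Bool → ℕ × Bool → ℕ × Bool → Bool) : Prop :=
  ∀ k l1 a b l2, sh.ok k (l1 ++ a :: b :: l2) = true → R k l1.isEmpty l2.isEmpty a b = true

theorem exists_pred {α : Type} (L : List α) (h e : α) (hh : L.head? = some h) (he : e ∈ L)
    (hne : e ≠ h) : ∃ l1 a l2, L = l1 ++ a :: e :: l2 := by
  obtain ⟨s, t, rfl⟩ := List.mem_iff_append.1 he
  have hs : s ≠ [] := by
    rintro rfl
    rw [List.nil_append, List.head?_cons, Option.some.injEq] at hh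
    exact hne hh
  refine ⟨s.dropLast, s.getLast hs, t, ?_⟩
  conv_lhs => rw [← List.dropLast_append_getLast hs]
  rw [List.append_assoc]
  rfl

namespace LTil

variable {sh : Shape} (T : LTil sh)

section three

variable (h3 : sh.m = 3)
include h3

theorem flat_of_P {R : ℕ → Bool → Bool → ℕ × Bool → ℕ × Bool → Bool} (hR : LocOf sh R)
    (x y : DT) (hP : T.P x y) : flatR R x y = true := by
  obtain ⟨d, hdir, rfl, rfl⟩ := hP
  refine decide_eq_true (fun hla => ?_)
  have hl : T.lb d = 3 := hla
  set e := T.nxt d with he
  have hde : d = T.nxt e := by rw [he, T.nxt_nxt]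
  have hedir : T.dir e = true := by rw [he, T.dir_nxt, hdir]; rfl
  have hel : T.lb e = 3 := by rw [he, T.lb_nxt, hl]
  have hs := T.sd_lt3 h3 e
  have hsd : T.sd e = T.sd d := T.sd_flat d (by omega)
  have hmem : e ∈ T.side (T.tile e) (T.sd e) :=
    (T.side_mem _ _ (by omega) e).2 ⟨rfl, rfl, hedir⟩
  obtain ⟨L, hL⟩ := T.side_eq h3 (T.tile e) (T.sd e) hs
  have hlb := T.side_lb _ _ (by omega) _ L hL
  have hne : e ≠ T.hd (T.tile e) (T.sd e) := by
    intro h
    have := hlb.1
    rw [← h] at this
    omega
  obtain ⟨l1, a, l2, hl12⟩ := exists_pred _ _ e (by rw [hL]; rfl) hmem hne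
  have hch := T.side_chain (T.tile e) (T.sd e) (by omega)
  rw [hl12, List.isChain_append] at hch
  have hch1 := hch.2.1
  rw [List.isChain_cons_cons] at hch1
  have hda : d = T.rev a := by rw [hde, hch1.1, T.nxt_nxt]
  -- the rule
  have hok := T.side_ok (T.tile e) (T.sd e) (by omega)
  rw [hl12, List.map_append, List.map_cons, List.map_cons] at hok
  have hr := hR _ _ _ _ _ hok
  rw [List.isEmpty_map, List.isEmpty_map] at hr
  -- first
  have hfi : decide ((T.ty d).la' < 3) = l1.isEmpty := by
    have e1 : (T.ty d).la' = T.lb a := by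
      show T.lb (T.rev d) = _
      rw [hda, T.rev_rev]
    rw [e1]
    cases l1 with
    | nil =>
      rw [hL, List.nil_append, List.cons.injEq] at hl12
      have h1 := hlb.1
      rw [hl12.1] at h1
      simp only [List.isEmpty_nil, decide_eq_true_eq]
      omega
    | cons c l1 =>
      rw [hL, List.cons_append, List.cons.injEq] at hl12
      have h1 := hlb.2 a (by rw [hl12.2]; simp)
      simp only [List.isEmpty_cons, decide_eq_false_iff_not, not_lt]
      omega
  have hla' : decide ((T.ty e).la' < 3) = l2.isEmpty := by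
    have e1 : (T.ty e).la' = T.lb (T.rev e) := rfl
    rw [e1]
    cases l2 with
    | nil =>
      have hlast := (T.side_last (T.tile e) (T.sd e) (by omega) e (by
        rw [hl12, List.getLast?_append_of_ne_nil _ (by simp)]; rfl)).1
      simp only [List.isEmpty_nil, decide_eq_true_eq]
      rw [hlast, h3]
      omega
    | cons c l2 =>
      have hc2 := hch1.2
      rw [List.isChain_cons_cons] at hc2
      have h1 : T.lb c = 3 := by
        have : c ∈ L := by
          cases l1 with
          | nil => 
            rw [hL, List.nil_append, List.cons.injEq] at hl12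
            rw [hl12.2]; simp
          | cons c' l1 =>
            rw [hL, List.cons_append, List.cons.injEq] at hl12
            rw [hl12.2]; simp
        have := hlb.2 c this
        omega
      have h2 : T.lb (T.rev e) = T.lb c := by
        rw [hc2.1, T.lb_nxt]
      simp only [List.isEmpty_cons, decide_eq_false_iff_not, not_lt]
      omega
  rw [hfi, hla']
  have e3 : ((T.ty d).b, (T.ty d).swp.full) = (T.sd (T.swp a),
      decide (T.lb (T.swp a) < sh.m ∧ T.lb (T.rev (T.swp a)) < sh.m)) := by
    refine Prod.ext ?_ ?_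
    · show T.sd (T.swp d) = _
      rw [hda, T.sd_swp_rev]
    · show decide (T.lb (T.swp d) < 3 ∧ T.lb (T.swp (T.rev d)) < 3) = _
      rw [hda, T.rev_rev, ← T.rev_swp, h3]
      exact decide_eq_decide.2 and_comm
  have e4 : ((T.ty e).b, (T.ty e).swp.full) = (T.sd (T.swp e),
      decide (T.lb (T.swp e) < sh.m ∧ T.lb (T.rev (T.swp e)) < sh.m)) := by
    refine Prod.ext rfl ?_
    show decide (T.lb (T.swp e) < 3 ∧ T.lb (T.swp (T.rev e)) < 3) = _
    rw [T.rev_swp, h3]
  rw [e3, e4]
  have e5 : (T.ty d).k = T.sd e := hsd.symm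
  rw [e5]
  exact hr

end three

end LTil

/-- What the checker consumes, with the local side rule. -/
structure OccL (sh : Shape) (R : ℕ → Bool → Bool → ℕ × Bool → ℕ × Bool → Bool) extends OccS sh where
  flat : ∀ x y, P x y → flatR R x y = true

/-- M6: a labelled tiling gives the data for the checker. -/
def LTil.occL {sh : Shape} (T : LTil sh) (h3 : sh.m = 3) (hW : LTil.WOK sh)
    {R : ℕ → Bool → Bool → ℕ × Bool → ℕ × Bool → Bool} (hR : LocOf sh R) : OccL sh R where
  toOccS := T.occ h3 hW
  flat := T.flat_of_P h3 hR

end Pool.Agent.NNc
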