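import Pool.Agent.NNc.OkTab

/-!
# The local side rule

`locOK neg zero pos k fst lst x y`: the rule for two adjacent pieces `x`, `y` on the side `k`; `fst`: `x` is
the first piece, `lst`: `y` is the last piece; `neg k`, `zero k`, `pos k`: the number
`2 * (shortest side) - (side k)` may be negative, zero, positive.
`okL neg zero pos`: all pairs of adjacent pieces satisfy the local rule (`okL_iff`).
`okP_loc`: the rule is true for the triangle `p` if a finite check succeeds.
`okU_loc`: the rule with `neg`, `zero`, `pos` all true is true for all triangles.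
-/

namespace Pool.Agent.NNc

open Pool.Agent.NNb

/-- the local rule for the adjacent pieces `x`, `y` on the side `k` -/
def locOK (neg zero pos : ℕ → Bool) (k : ℕ) (fst lst : Bool) (x y : ℕ × Bool) : Bool :=
  bif x.2 && y.2 then
    x.1.beq 1 && (y.1.beq 1 && ((!k.beq 1) && (neg k || (zero k && (fst && lst)))))
  else (!(fst && (lst && (x.1.beq 1 && y.1.beq 1)))) || pos k

/-- the local rule for all adjacent pieces; `fst`: the head of the list is the first piece -/
def okLg (neg zero pos : ℕ → Bool) (k : ℕ) : Bool → List (ℕ × Bool) → Bool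
  | _, [] => true
  | _, [_] => true
  | fst, x :: y :: l => locOK neg zero pos k fst l.isEmpty x y && okLg neg zero pos k false (y :: l)

/-- the local side rule -/
def okL (neg zero pos : ℕ → Bool) (k : ℕ) (l : List (ℕ × Bool)) : Bool :=
  okLg neg zero pos k true l

theorem okLg_iff (neg zero pos : ℕ → Bool) (k : ℕ) (l : List (ℕ × Bool)) : ∀ fst : Bool,
    okLg neg zero pos k fst l = true ↔ ∀ (i : ℕ) (h : i + 1 < l.length),
      locOK neg zero pos k (fst && decide (i = 0)) (decide (i + 2 = l.length))
        (l[i]'(Nat.lt_of_succ_lt h)) (l[i + 1]'h) = true := by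
  induction l with
  | nil =>
    intro fst
    simp [okLg]
  | cons x l ih =>
    intro fst
    cases l with
    | nil => simp [okLg]
    | cons y l =>
      rw [okLg, Bool.and_eq_true, ih false]
      constructor
      · rintro ⟨h1, h2⟩ i h
        cases i with
        | zero =>
          have e : decide (0 + 2 = (x :: y :: l).length) = l.isEmpty := by
            cases l <;> simp
          rw [e]
          simpa using h1
        | succ i =>
          have h3 := h2 i (by simpa using h)
          simpa using h3
      · intro h
        refine ⟨?_, fun i hi => ?_⟩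
        · have h1 := h 0 (by simp)
          have e : decide (0 + 2 = (x :: y :: l).length) = l.isEmpty := by
            cases l <;> simp
          rw [e] at h1
          simpa using h1
        · have h1 := h (i + 1) (by simpa using hi)
          simpa using h1

/-- what the local side rule says -/
theorem okL_iff (neg zero pos : ℕ → Bool) (k : ℕ) (l : List (ℕ × Bool)) :
    okL neg zero pos k l = true ↔ ∀ (i : ℕ) (h : i + 1 < l.length),
      locOK neg zero pos k (decide (i = 0)) (decide (i + 2 = l.length))
        (l[i]'(Nat.lt_of_succ_lt h)) (l[i + 1]'h) = true := by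
  have h := okLg_iff neg zero pos k l true
  unfold okL
  simpa only [Bool.true_and] using h

/-- what the local rule needs about the lengths -/
structure LLen (len : ℕ → ℝ) (neg zero pos : ℕ → Bool) : Prop where
  pair : ∀ b c k, b < 3 → c < 3 → k < 3 → len b + len c ≤ len k → b = 1 ∧ c = 1 ∧ k ≠ 1
  neg_of : ∀ k, k < 3 → len 1 + len 1 < len k → neg k = true
  zero_of : ∀ k, k < 3 → len 1 + len 1 = len k → zero k = true
  pos_of : ∀ k, k < 3 → len k < len 1 + len 1 → pos k = true

theorem okLg_of {len : ℕ → ℝ} {neg zero pos : ℕ → Bool} (H : LLen len neg zero pos) {k : ℕ}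
    (hk : k < 3) (l : List (ℕ × Bool)) : ∀ (fst : Bool) (u s : ℝ), (∀ p ∈ l, p.1 < 3) →
    Fits len l s → u + s = len k → 0 ≤ u → (fst = true → u = 0) → (fst = false → 0 < u) →
    okLg neg zero pos k fst l = true := by
  induction l with
  | nil =>
    intro fst u s _ _ _ _ _ _
    rfl
  | cons x l ih =>
    intro fst u s hlt hf hus hu hu1 hu2
    cases l with
    | nil => rfl
    | cons y l =>
      obtain ⟨b, f⟩ := x
      obtain ⟨c, g⟩ := y
      have hb : b < 3 := hlt (b, f) List.mem_cons_self
      have hc : c < 3 := hlt (c, g) (List.mem_cons_of_mem _ List.mem_cons_self)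
      obtain ⟨t, h0, h1, h2, h4⟩ := hf
      have h4' := h4
      obtain ⟨t', h0', h1', h2', h3⟩ := h4'
      obtain ⟨hs1, hs2⟩ := fits_nonneg len l _ h3
      rw [okLg, Bool.and_eq_true]
      constructor
      · have htk : u + t + t' ≤ len k := by linarith
        have hsum : u + t + t' + (s - t - t') = len k := by linarith
        unfold locOK
        by_cases hfg : (f && g) = true
        · rw [show ((b, f).2 && (c, g).2) = true from hfg, cond_true]
          rw [Bool.and_eq_true] at hfg
          have e1 : t = len b := h1 hfg.1
          have e2 : t' = len c := h1' hfg.2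
          obtain ⟨p1, p2, p3⟩ := H.pair b c k hb hc hk (by linarith)
          subst p1 p2
          have k1 : (Nat.beq k 1) = false := by
            rw [← Bool.not_eq_true, Nat.beq_eq]
            exact p3
          show (Nat.beq 1 1 && (Nat.beq 1 1 && ((!Nat.beq k 1) &&
            (neg k || (zero k && (fst && l.isEmpty)))))) = true
          rw [k1]
          show (neg k || (zero k && (fst && l.isEmpty))) = true
          rcases lt_or_eq_of_le (show len 1 + len 1 ≤ len k by linarith) with hlt' | heq
          · rw [H.neg_of k hk hlt', Bool.true_or]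
          · have hz := H.zero_of k hk heq
            have hfst : fst = true := by
              cases fst with
              | true => rfl
              | false =>
                have := hu2 rfl
                linarith
            have hl : l.isEmpty = true := by
              cases l with
              | nil => rfl
              | cons z l =>
                have := hs2 (by simp)
                linarith
            rw [hz, hfst, hl]
            simp
        · rw [Bool.not_eq_true] at hfg
          rw [show ((b, f).2 && (c, g).2) = false from hfg, cond_false]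
          by_cases hh : (fst && (l.isEmpty && (Nat.beq b 1 && Nat.beq c 1))) = true
          · simp only [Bool.and_eq_true] at hh
            obtain ⟨g1, g2, g3, g4⟩ := hh
            have g3' : b = 1 := Nat.eq_of_beq_eq_true g3
            have g4' : c = 1 := Nat.eq_of_beq_eq_true g4
            have g5 : l = [] := List.isEmpty_iff.1 g2
            have g6 : u = 0 := hu1 g1
            subst g5 g3' g4'
            have h3' : s - t - t' = 0 := h3
            have ht : t ≤ len 1 := by
              cases f with
              | true => exact (h1 rfl).le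
              | false => exact (h2 rfl).le
            have ht' : t' ≤ len 1 := by
              cases g with
              | true => exact (h1' rfl).le
              | false => exact (h2' rfl).le
            have hlt' : t + t' < len 1 + len 1 := by
              cases f with
              | false =>
                have := h2 rfl
                linarith
              | true =>
                cases g with
                | false =>
                  have := h2' rfl
                  linarith
                | true => simp at hfg
            have : pos k = true := H.pos_of k hk (by linarith)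
            rw [this, Bool.or_true]
          · rw [Bool.not_eq_true] at hh
            show ((!(fst && (l.isEmpty && (Nat.beq b 1 && Nat.beq c 1)))) || pos k) = true
            rw [hh]
            rfl
      · exact ih false (u + t) (s - t) (fun p hp => hlt p (List.mem_cons_of_mem _ hp)) h4
          (by linarith) (by linarith) (fun h => absurd h (by simp)) (fun _ => by linarith)

theorem okL_okLen {len : ℕ → ℝ} {neg zero pos : ℕ → Bool} (H : LLen len neg zero pos) :
    OkLen len (okL neg zero pos) := by
  intro k l hk _ hlt hf
  exact okLg_of H hk l true 0 (len k) hlt hf (zero_add _) le_rfl (fun _ => rfl)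
    (fun h => absurd h (by simp))

/-- the local rule, all signs possible, is true for all triangles -/
theorem okU_loc (u : ℤ × ℤ × ℤ) :
    OkU u (okL (fun _ => true) (fun _ => true) (fun _ => true)) := by
  intro ι n S _ _ _
  apply okL_okLen
  refine ⟨?_, fun _ _ _ => rfl, fun _ _ _ => rfl, fun _ _ _ => rfl⟩
  intro b c k hb hc hk h
  obtain ⟨h1, h2, h3, -, -⟩ := lenT_pair S b c k hb hc hk h
  exact ⟨h1, h2, h3⟩

/-- a lower bound of `1000000 * sin (π a / q)` -/
def loS (a q : ℕ) : ℕ :=
  let a' := if 2 * a ≤ q then a else q - a
  if 2 * a' = q then 1000000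
  else if 6 * a' = q then 500000
  else
    let A := 31415926 * a'
    let B := 10000000 * q
    (1000000 * (39916800 * (A * B ^ 10) + 332640 * (A ^ 5 * B ^ 6) + 110 * (A ^ 9 * B ^ 2)) -
      1000000 * (6652800 * (A ^ 3 * B ^ 8) + 7920 * (A ^ 7 * B ^ 4) + A ^ 11)) /
      (39916800 * B ^ 11)

/-- an upper bound of `1000000 * sin (π a / q)` -/
def hiS (a q : ℕ) : ℕ :=
  let a' := if 2 * a ≤ q then a else q - a
  if 2 * a' = q then 1000000
  else if 6 * a' = q then 500000
  else
    let A := 31415927 * a'
    let B := 10000000 * q
    (1000000 * (6227020800 * (A * B ^ 12) + 51891840 * (A ^ 5 * B ^ 8) +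
      17160 * (A ^ 9 * B ^ 4) + A ^ 13) -
      1000000 * (1037836800 * (A ^ 3 * B ^ 10) + 1235520 * (A ^ 7 * B ^ 6) +
      156 * (A ^ 11 * B ^ 2))) / (6227020800 * B ^ 13) + 1

/-- the angle (numerator) opposite to the side `k` -/
def angO (p : ℕ × ℕ × ℕ) (k : ℕ) : ℕ := if k = 0 then p.2.2 else if k = 1 then p.1 else p.2.1

/-- the check for the local rule of the triangle `p` -/
def chkLoc (p : ℕ × ℕ × ℕ) (neg zero pos : ℕ → Bool) : Bool :=
  let q := p.1 + p.2.1 + p.2.2
  let l1 := loS p.1 q
  let h1 := hiS p.1 q
  chkSin 1000000 p.1 q l1 h1 &&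
  (List.range 3).all fun k =>
    let a := angO p k
    let l := loS a q
    let h := hiS a q
    chkSin 1000000 a q l h &&
    ((neg k || decide (h ≤ 2 * l1)) && ((zero k || (decide (h < 2 * l1) || decide (2 * h1 < l))) &&
      (pos k || decide (2 * h1 ≤ l))))

theorem okP_loc {p : ℕ × ℕ × ℕ} {neg zero pos : ℕ → Bool} (h : chkLoc p neg zero pos = true) :
    OkP p (okL neg zero pos) := by
  intro ι n S h0 h1 h2
  apply okL_okLen
  unfold chkLoc at h
  rw [Bool.and_eq_true] at h
  obtain ⟨c1, c2⟩ := h
  have hq0 : 0 < p.1 + p.2.1 + p.2.2 := by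
    unfold chkSin at c1
    rw [Bool.and_eq_true, Bool.and_eq_true] at c1
    have := of_decide_eq_true c1.1.1
    omega
  have hq : (0 : ℝ) < ((p.1 + p.2.1 + p.2.2 : ℕ) : ℝ) := by exact_mod_cast hq0
  have hang : ∀ k, k < 3 → S.θ (Fin.ofNat 3 (k + 2)) =
      Real.pi * (angO p k : ℕ) / (p.1 + p.2.1 + p.2.2 : ℕ) := by
    intro k hk
    rw [eq_div_iff hq.ne']
    interval_cases k
    · exact h2
    · exact h0
    · exact h1
  have e1 : angO p 1 = p.1 := rfl
  have hc0 : (0 : ℝ) < S.ρ / 1000000 := by
    have := S.ρ_pos
    positivity
  have key : ∀ k, k < 3 → chkSin 1000000 (angO p k) (p.1 + p.2.1 + p.2.2)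
      (loS (angO p k) (p.1 + p.2.1 + p.2.2)) (hiS (angO p k) (p.1 + p.2.1 + p.2.2)) = true →
      S.ρ / 1000000 * (loS (angO p k) (p.1 + p.2.1 + p.2.2) : ℕ) ≤ lenT S k ∧
        lenT S k ≤ S.ρ / 1000000 * (hiS (angO p k) (p.1 + p.2.1 + p.2.2) : ℕ) := by
    intro k hk h
    obtain ⟨g1, g2⟩ := chkSin_spec _ _ _ _ _ h
    have e : lenT S k = S.ρ / 1000000 * (1000000 * Real.sin (Real.pi * (angO p k : ℕ) /
        (p.1 + p.2.1 + p.2.2 : ℕ))) := by
      unfold lenT
      rw [hang k hk]
      ring
    rw [e]
    push_cast at g1 g2 ⊢
    exact ⟨mul_le_mul_of_nonneg_left g1 hc0.le, mul_le_mul_of_nonneg_left g2 hc0.le⟩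
  obtain ⟨a1, a2⟩ := key 1 (by norm_num) c1
  rw [e1] at a1 a2
  have hall : ∀ k, k < 3 → _ := fun k hk => (List.all_eq_true.1 c2) k (List.mem_range.2 hk)
  refine ⟨?_, ?_, ?_, ?_⟩
  · intro b c k hb hc hk h
    obtain ⟨g1, g2, g3, -, -⟩ := lenT_pair S b c k hb hc hk h
    exact ⟨g1, g2, g3⟩
  · intro k hk hlt
    have h3 := hall k hk
    simp only [Bool.and_eq_true, Bool.or_eq_true, decide_eq_true_eq] at h3
    obtain ⟨b1, b2, -, -⟩ := h3
    rcases b2 with b2 | b2
    · exact b2
    · exfalso
      obtain ⟨-, a3⟩ := key k hk b1
      have b3 : ((hiS (angO p k) (p.1 + p.2.1 + p.2.2) : ℕ) : ℝ) ≤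
          2 * (loS p.1 (p.1 + p.2.1 + p.2.2) : ℕ) := by exact_mod_cast b2
      have b4 := mul_le_mul_of_nonneg_left b3 hc0.le
      linarith
  · intro k hk heq
    have h3 := hall k hk
    simp only [Bool.and_eq_true, Bool.or_eq_true, decide_eq_true_eq] at h3
    obtain ⟨b1, -, b2, -⟩ := h3
    obtain ⟨a3, a4⟩ := key k hk b1
    rcases b2 with b2 | b2 | b2
    · exact b2
    · exfalso
      have b3 : ((hiS (angO p k) (p.1 + p.2.1 + p.2.2) : ℕ) : ℝ) <
          2 * (loS p.1 (p.1 + p.2.1 + p.2.2) : ℕ) := by exact_mod_cast b2
      have b4 := mul_lt_mul_of_pos_left b3 hc0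
      linarith
    · exfalso
      have b3 : 2 * ((hiS p.1 (p.1 + p.2.1 + p.2.2) : ℕ) : ℝ) <
          (loS (angO p k) (p.1 + p.2.1 + p.2.2) : ℕ) := by exact_mod_cast b2
      have b4 := mul_lt_mul_of_pos_left b3 hc0
      linarith
  · intro k hk hlt
    have h3 := hall k hk
    simp only [Bool.and_eq_true, Bool.or_eq_true, decide_eq_true_eq] at h3
    obtain ⟨b1, -, -, b2⟩ := h3
    obtain ⟨a3, -⟩ := key k hk b1
    rcases b2 with b2 | b2
    · exact b2
    · exfalso
      have b3 : 2 * ((hiS p.1 (p.1 + p.2.1 + p.2.2) : ℕ) : ℝ) ≤
          (loS (angO p k) (p.1 + p.2.1 + p.2.2) : ℕ) := by exact_mod_cast b2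
      have b4 := mul_le_mul_of_nonneg_left b3 hc0.le
      linarith

end Pool.Agent.NNc
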