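import Pool.Agent.NNc.Occ4
import Pool.Agent.NNc.OkL

/-!
# The bridge from labelled tilings by triangles to the checker (M6): records with `okL`
-/

namespace Pool.Agent.NNc

theorem locOf_okL {sh : Shape} {neg zero pos : ℕ → Bool} (h : sh.ok = okL neg zero pos) :
    LocOf sh (locOK neg zero pos) := by
  intro k l1 a b l2 hok
  rw [h, okL_iff] at hok
  have hlen : (l1 ++ a :: b :: l2).length = l1.length + (l2.length + 2) := by
    rw [List.length_append]
    rfl
  have := hok l1.length (by omega)
  rw [List.getElem_append_right (by omega), List.getElem_append_right (by omega)] at this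
  have e1 : decide (l1.length = 0) = l1.isEmpty := by cases l1 <;> simp
  have e2 : decide (l1.length + 2 = (l1 ++ a :: b :: l2).length) = l2.isEmpty := by
    rw [hlen]
    cases l2 <;> simp
  rw [e1, e2] at this
  simpa using this

/-- the record of the triangle `p`, local side rule -/
def LTil.occP {n : ℕ} {p : ℕ × ℕ × ℕ} {neg zero pos : ℕ → Bool}
    (T : LTil (shP n p (okL neg zero pos))) (hW : LTil.WOK (shP n p (okL neg zero pos))) :
    OccL (shP n p (okL neg zero pos)) (locOK neg zero pos) :=
  T.occL rfl hW (locOf_okL rfl)

/-- the record of a family, local side rule -/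
def LTil.occU {n : ℕ} {u : ℤ × ℤ × ℤ} {neg zero pos : ℕ → Bool}
    (T : LTil (shU n u (okL neg zero pos))) (hW : LTil.WOK (shU n u (okL neg zero pos))) :
    OccL (shU n u (okL neg zero pos)) (locOK neg zero pos) :=
  T.occL rfl hW (locOf_okL rfl)

end Pool.Agent.NNc
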