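import Pool.Agent.NNc.Occ4

/-!
# The bridge to the checker: cyclic lists, minimal time, closure

`TileC sh P t L`: the closed walk around a tile as one cyclic list starting at the corner `t`.
`StarC P w s l`: the closed star of a node, starting with a backward dart of a tile with the label `s`.
`OccS.tileC`, `OccS.starC`: every sector lies on such lists.
`OccS.minT`: if no sector of time `u < T` lies on such a list with all times `≥ u` (`TileC` for even `u`,
`StarC` for odd `u`), then all sectors have time `≥ T`.
-/

namespace Pool.Agent.NNc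

variable {sh : Shape}

/-- the closed walk around a tile as one cyclic list, starting at the corner `t` -/
structure TileC (sh : Shape) (P : DT → DT → Prop) (t : ℕ) (L : List (DT × DT)) : Prop where
  ne : L ≠ []
  mem : ∀ p ∈ L, P p.1 p.2
  chain : L.IsChain (fun p q => q.1 = p.2.rev)
  link : ∀ p q, L.getLast? = some p → L.head? = some q → q.1 = p.2.rev
  first : ∀ p, L.head? = some p → p.1.la = t
  rest : ∀ p ∈ L.tail, p.1.la ≠ t
  sum : (L.map (fun p => p.1.w.sum - 2)).sum = sh.n

/-- the closed star of a node, starting with a backward dart of a tile with the label `s` -/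
structure StarC (P : DT → DT → Prop) (w : List ℕ) (s : ℕ) (l : List (DT × DT)) : Prop extends
    StarW P w l where
  first : ∀ p, l.head? = some p → p.1.la = s
  back : ∀ p, l.head? = some p → P p.1 p.2

/-- the time of the sector `p`, in any orientation -/
def tS (tau : DT → DT → ℕ) (p : DT × DT) : ℕ := if p.1.dr then tau p.2 p.1 else tau p.1 p.2

/-- `x` occurs -/
def Occr (P : DT → DT → Prop) (x : DT) : Prop := ∃ y, P x y ∨ P y x

theorem DT.swp_swp (x : DT) : x.swp.swp = x := rfl

theorem DT.rev_rev (x : DT) : x.rev.rev = x := by
  cases x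
  simp [DT.rev]

/-- reading a list of three parts -/
theorem head_app {α : Type} (a b : List α) (ha : a ≠ []) : (a ++ b).head? = a.head? :=
  List.head?_append_of_ne_nil _ ha

theorem last_app {α : Type} (a b : List α) (hb : b ≠ []) : (a ++ b).getLast? = b.getLast? :=
  List.getLast?_append_of_ne_nil _ hb

namespace OccS

variable (O : OccS sh)

theorem dr1 {x y : DT} (h : O.P x y) : x.dr = false := by
  have := O.legal x y h
  unfold secOK at this
  simp only [Bool.and_eq_true, decide_eq_true_eq] at this
  exact this.1.1.1.1.2

theorem dr2 {x y : DT} (h : O.P x y) : y.dr = true := by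
  have := O.legal x y h
  unfold secOK at this
  simp only [Bool.and_eq_true, decide_eq_true_eq] at this
  exact this.1.1.1.2

theorem weq {x y : DT} (h : O.P x y) : y.w = x.w := by
  have := O.legal x y h
  unfold secOK at this
  simp only [Bool.and_eq_true, decide_eq_true_eq] at this
  exact this.1.1.1.1.1.1.1.2

theorem laeq {x y : DT} (h : O.P x y) : y.la = x.la := by
  have := O.legal x y h
  unfold secOK at this
  simp only [Bool.and_eq_true, decide_eq_true_eq] at this
  exact this.1.1.1.1.1.1.2

theorem ceq {x y : DT} (h : O.P x y) : y.c = x.c := by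
  have := O.legal x y h
  unfold secOK at this
  simp only [Bool.and_eq_true, decide_eq_true_eq] at this
  exact this.1.1.1.1.1.2

theorem typ1 {x y : DT} (h : O.P x y) : x.typOK sh = true := by
  have := O.legal x y h
  unfold secOK at this
  simp only [Bool.and_eq_true, decide_eq_true_eq] at this
  exact this.1.1.1.1.1.1.1.1.1

theorem typ2 {x y : DT} (h : O.P x y) : y.typOK sh = true := by
  have := O.legal x y h
  unfold secOK at this
  simp only [Bool.and_eq_true, decide_eq_true_eq] at this
  exact this.1.1.1.1.1.1.1.1.2

theorem cnt3 {x y : DT} (h : O.P x y) (c : ℕ) (hc : c < 4) :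
    [x.la, x.lb, y.lb].count c ≤ x.w.getD c 0 := by
  have := O.legal x y h
  unfold secOK at this
  simp only [Bool.and_eq_true] at this
  have h2 := this.1.2
  rw [List.all_eq_true] at h2
  exact of_decide_eq_true (h2 c (List.mem_range.2 hc))

theorem la_le {x y : DT} (h : O.P x y) : x.la ≤ 3 := by
  have := O.typ1 h
  unfold DT.typOK at this
  simp only [Bool.and_eq_true] at this
  have h2 := this.1.1.1.1.1.1.2
  unfold DT.loc at h2
  simp only [Bool.and_eq_true, decide_eq_true_eq] at h2
  exact h2.1.1.1.1.1.1.2

theorem w_mem {x y : DT} (h : O.P x y) : x.w ∈ sh.W := by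
  have := O.typ1 h
  unfold DT.typOK at this
  simp only [Bool.and_eq_true, decide_eq_true_eq] at this
  exact this.1.1.1.1.1.1.1.1

/-- the own label occurs at the node -/
theorem la_pos {x y : DT} (h : O.P x y) : 0 < x.w.getD x.la 0 := by
  have h1 := O.la_le h
  have h2 := O.cnt3 h x.la (by omega)
  have h3 : 0 < [x.la, x.lb, y.lb].count x.la := by
    rw [List.count_pos_iff]
    simp
  omega

theorem tS_of {tau : DT → DT → ℕ} {x y : DT} (h : O.P x y) : tS tau (x, y) = tau x y := by
  unfold tS
  rw [O.dr1 h]
  rfl

theorem tS_of' {tau : DT → DT → ℕ} {x y : DT} (h : O.P x y) : tS tau (y, x) = tau x y := by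
  unfold tS
  rw [O.dr2 h]
  rfl

/-! ### The walk around a tile as one cyclic list -/

theorem tileC {x y : DT} (h : O.P x y) {t : ℕ} (ht : t < 3) :
    ∃ L, TileC sh O.P t L ∧ (x, y) ∈ L := by
  obtain ⟨l, hl, k, hk, hmem⟩ := O.tile x y h
  have e1 : (t + 1) % 3 < 3 := Nat.mod_lt _ (by norm_num)
  have e2 : (t + 2) % 3 < 3 := Nat.mod_lt _ (by norm_num)
  have n0 := hl.ne t ht
  have n1 := hl.ne _ e1
  have n2 := hl.ne _ e2
  have l0 := hl.link t ht
  have l1 := hl.link _ e1
  have l2 := hl.link _ e2
  have q1 : ((t + 1) % 3 + 1) % 3 = (t + 2) % 3 := by omega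
  have q2 : ((t + 2) % 3 + 1) % 3 = t := by omega
  rw [q1] at l1
  rw [q2] at l2
  have n12 : l ((t + 1) % 3) ++ l ((t + 2) % 3) ≠ [] := by simp [n1]
  refine ⟨l t ++ (l ((t + 1) % 3) ++ l ((t + 2) % 3)), ?_, ?_⟩
  · constructor
    · simp [n0]
    · intro p hp
      rw [List.mem_append, List.mem_append] at hp
      rcases hp with hp | hp | hp
      · exact hl.mem _ ht p hp
      · exact hl.mem _ e1 p hp
      · exact hl.mem _ e2 p hp
    · rw [List.isChain_append, List.isChain_append]
      refine ⟨hl.chain t ht, ⟨hl.chain _ e1, hl.chain _ e2, ?_⟩, ?_⟩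
      · intro p hp q hq
        exact l1 p q hp hq
      · intro p hp q hq
        rw [head_app _ _ n1] at hq
        exact l0 p q hp hq
    · intro p q hp hq
      rw [last_app _ _ n12, last_app _ _ n2] at hp
      rw [head_app _ _ n0] at hq
      exact l2 p q hp hq
    · intro p hp
      rw [head_app _ _ n0] at hp
      exact hl.first t ht p hp
    · intro p hp
      have hp' : p ∈ (l t).tail ∨ p ∈ l ((t + 1) % 3) ∨ p ∈ l ((t + 2) % 3) := by
        cases hlt : l t with
        | nil => exact absurd hlt n0
        | cons a M =>
          rw [hlt, List.cons_append, List.tail_cons, List.mem_append, List.mem_append] at hp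
          exact hp
      have key : ∀ j < 3, j ≠ t → ∀ p ∈ l j, p.1.la ≠ t := by
        intro j hj hjt p hp
        cases hlj : l j with
        | nil => rw [hlj] at hp; simp at hp
        | cons a M =>
          rw [hlj, List.mem_cons] at hp
          rcases hp with rfl | hp
          · have := hl.first j hj p (by rw [hlj]; rfl)
            omega
          · have := hl.rest j hj p (by rw [hlj]; exact hp)
            omega
      rcases hp' with hp | hp | hp
      · have := hl.rest t ht p hp
        omega
      · exact key _ e1 (by omega) p hp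
      · exact key _ e2 (by omega) p hp
    · have hs := hl.sum
      rw [List.map_append, List.map_append, List.sum_append, List.sum_append]
      interval_cases t
      · norm_num
        omega
      · norm_num
        omega
      · norm_num
        omega
  · rw [List.mem_append, List.mem_append]
    have : k = t ∨ k = (t + 1) % 3 ∨ k = (t + 2) % 3 := by omega
    rcases this with rfl | rfl | rfl
    · exact Or.inl hmem
    · exact Or.inr (Or.inl hmem)
    · exact Or.inr (Or.inr hmem)

/-! ### The star, starting with a backward dart -/

/-- the other orientation of a sector -/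
def fl (p : DT × DT) : DT × DT := (p.2, p.1)

theorem starC {x y : DT} (h : O.P x y) {s : ℕ} (hs : s < 4) (hc : 0 < x.w.getD s 0) :
    ∃ l, StarC O.P x.w s l ∧ ((x, y) ∈ l ∨ (y, x) ∈ l) := by
  obtain ⟨l, hl, hmem, p, hp, hps⟩ := O.star x y h s hs hc
  cases hll : l with
  | nil => exact absurd hll hl.ne
  | cons a r =>
    have hpa : a = p := by
      rw [hll, List.head?_cons, Option.some.injEq] at hp
      exact hp
    subst hpa
    rcases hl.mem a (by rw [hll]; simp) with hP | hP
    · refine ⟨l, ⟨hl, ?_, ?_⟩, hmem⟩
      · intro q hq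
        rw [hp, Option.some.injEq] at hq
        rw [← hq]
        exact hps
      · intro q hq
        rw [hp, Option.some.injEq] at hq
        rw [← hq]
        exact hP
    · subst hll
      have hch := hl.chain
      have hlk := hl.link
      -- the reversed list
      refine ⟨fl a :: r.reverse.map fl, ⟨⟨by simp, ?_, ?_, ?_, ?_, ?_, ?_⟩, ?_, ?_⟩, ?_⟩
      · intro q hq
        rw [List.mem_cons, List.mem_map] at hq
        rcases hq with rfl | ⟨q', hq', rfl⟩
        · exact Or.inl hP
        · have := hl.mem q' (List.mem_cons_of_mem _ (List.mem_reverse.1 hq'))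
          exact this.symm
      · intro q hq
        rw [List.mem_cons, List.mem_map] at hq
        have key : ∀ q' ∈ a :: r, q'.2.w = x.w := by
          intro q' hq'
          have h1 := hl.cls q' hq'
          rcases hl.mem q' hq' with h2 | h2
          · rw [O.weq h2, h1]
          · rw [← O.weq h2, h1]
        rcases hq with rfl | ⟨q', hq', rfl⟩
        · exact key a List.mem_cons_self
        · exact key q' (List.mem_cons_of_mem _ (List.mem_reverse.1 hq'))
      · rw [List.isChain_cons]
        constructor
        · intro q hq
          rw [List.head?_map, List.head?_reverse, Option.mem_def, Option.map_eq_some_iff] at hq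
          obtain ⟨z, hz, rfl⟩ := hq
          show z.2 = a.1.swp
          have hz' : (a :: r).getLast? = some z := by
            cases r with
            | nil => simp at hz
            | cons b r => rw [List.getLast?_cons_cons]; exact hz
          have := hlk z a hz' rfl
          rw [this, DT.swp_swp]
        · rw [List.isChain_map, List.isChain_reverse]
          have h2 : r.IsChain (fun p q : DT × DT => q.1 = p.2.swp) := by
            cases r with
            | nil => exact List.isChain_nil
            | cons b r =>
              rw [List.isChain_cons_cons] at hch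
              exact hch.2
          refine List.IsChain.imp ?_ h2
          intro u v huv
          show u.2 = v.1.swp
          rw [huv, DT.swp_swp]
      · intro q q' hq hq'
        rw [List.head?_cons, Option.some.injEq] at hq'
        subst hq'
        show a.2 = q.2.swp
        cases r with
        | nil =>
          have : q = fl a := by simpa using hq.symm
          rw [this]
          show a.2 = a.1.swp
          rw [hlk a a rfl rfl, DT.swp_swp]
        | cons b r =>
          rw [List.isChain_cons_cons] at hch
          have : q = fl b := by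
            have h3 : (fl a :: (b :: r).reverse.map fl).getLast? = some (fl b) := by
              rw [List.reverse_cons, List.map_append, ← List.cons_append,
                List.getLast?_append_of_ne_nil _ (by simp)]
              rfl
            rw [h3, Option.some.injEq] at hq
            exact hq.symm
          rw [this]
          show a.2 = b.1.swp
          rw [hch.1, DT.swp_swp]
      · intro c hc4
        rw [← hl.cnt c hc4]
        have key : ∀ q' ∈ a :: r, (fl q').1.la = q'.1.la := by
          intro q' hq'
          show q'.2.la = q'.1.la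
          rcases hl.mem q' hq' with h2 | h2
          · exact O.laeq h2
          · exact (O.laeq h2).symm
        have e1 : fl a :: r.reverse.map fl = (a :: r.reverse).map fl := rfl
        rw [e1, List.countP_map]
        have e2 : (a :: r.reverse).Perm (a :: r) := List.Perm.cons _ (List.reverse_perm r)
        rw [← e2.countP_eq]
        apply List.countP_congr
        intro q hq
        have := key q (e2.mem_iff.1 hq)
        simp only [Function.comp_apply, this]
      · have := hl.len
        rw [List.length_cons] at this ⊢
        rw [List.length_map, List.length_reverse]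
        exact this
      · intro q hq
        rw [List.head?_cons, Option.some.injEq] at hq
        rw [← hq]
        show a.2.la = s
        rw [← hps]
        exact (O.laeq hP).symm
      · intro q hq
        rw [List.head?_cons, Option.some.injEq] at hq
        rw [← hq]
        exact hP
      · have key : ∀ q, q ∈ a :: r → fl q ∈ fl a :: r.reverse.map fl := by
          intro q hq
          rw [List.mem_cons] at hq
          rcases hq with rfl | hq
          · exact List.mem_cons_self
          · exact List.mem_cons_of_mem _ (List.mem_map_of_mem (List.mem_reverse.2 hq))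
        rcases hmem with hm | hm
        · exact Or.inr (key _ hm)
        · exact Or.inl (key _ hm)

/-! ### Minimal time -/

theorem minT (tau : DT → DT → ℕ) (T : ℕ) (t : ℕ) (ht3 : t < 3) (s : List ℕ → ℕ)
    (hs4 : ∀ w ∈ sh.W, s w < 4 ∧ 0 < w.getD (s w) 0)
    (ht : ∀ u < T, u % 2 = 0 → ∀ L, TileC sh O.P t L → (∀ p ∈ L, u ≤ tau p.1 p.2) →
      ∀ p ∈ L, tau p.1 p.2 ≠ u)
    (hs : ∀ u < T, u % 2 = 1 → ∀ w ∈ sh.W, ∀ l, StarC O.P w (s w) l →
      (∀ p ∈ l, u ≤ tS tau p) → ∀ p ∈ l, tS tau p ≠ u) :
    ∀ x y, O.P x y → T ≤ tau x y := by
  have key : ∀ u ≤ T, ∀ x y, O.P x y → u ≤ tau x y := by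
    intro u
    induction u with
    | zero => intro _ x y _; exact Nat.zero_le _
    | succ u ih =>
      intro hu x y hP
      have ih' := ih (by omega)
      have h1 := ih' x y hP
      have h2 : tau x y ≠ u := by
        rcases Nat.mod_two_eq_zero_or_one u with h0 | h0
        · obtain ⟨L, hL, hmem⟩ := O.tileC hP ht3
          exact ht u (by omega) h0 L hL (fun p hp => ih' _ _ (hL.mem p hp)) _ hmem
        · have hw := O.w_mem hP
          obtain ⟨l, hl, hmem⟩ := O.starC hP (hs4 _ hw).1 (hs4 _ hw).2
          have h3 := hs u (by omega) h0 x.w hw l hl (fun p hp => by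
            obtain ⟨p1, p2⟩ := p
            rcases hl.mem _ hp with h4 | h4
            · rw [O.tS_of h4]; exact ih' _ _ h4
            · rw [O.tS_of' h4]; exact ih' _ _ h4)
          rcases hmem with hm | hm
          · have := h3 _ hm
            rwa [O.tS_of hP] at this
          · have := h3 _ hm
            rwa [O.tS_of' hP] at this
      omega
  exact key T le_rfl

/-! ### Closure -/

theorem cyc_succ {α : Type} (r : α → α → Prop) (C : List α) (hne : C ≠ []) (hc : C.IsChain r)
    (hl : ∀ p q, C.getLast? = some p → C.head? = some q → r p q) (d : α) (hd : d ∈ C) :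
    (∃ e ∈ C, r d e) ∧ ∃ e ∈ C, r e d := by
  obtain ⟨R, hperm, hR⟩ := LTil.cyc_cons r C hne hc hl d hd
  constructor
  · cases R with
    | nil =>
      rw [List.nil_append, List.isChain_cons_cons] at hR
      exact ⟨d, hd, hR.1⟩
    | cons b R =>
      rw [List.cons_append, List.isChain_cons_cons] at hR
      exact ⟨b, hperm.mem_iff.1 (by simp), hR.1⟩
  · rw [← List.cons_append, List.isChain_append] at hR
    have h1 : (d :: R) ≠ [] := by simp
    refine ⟨(d :: R).getLast h1, hperm.mem_iff.1 (List.getLast_mem h1), ?_⟩
    exact hR.2.2 _ (by rw [List.getLast?_eq_getLast_of_ne_nil h1]; rfl) d rfl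

/-- the next and the previous sector of the tile -/
theorem next {x y : DT} (h : O.P x y) : (∃ z, O.P y.rev z) ∧ ∃ z, O.P z x.rev := by
  obtain ⟨L, hL, hmem⟩ := O.tileC h (show 0 < 3 by norm_num)
  obtain ⟨⟨e, he, h1⟩, ⟨f, hf, h2⟩⟩ := cyc_succ _ L hL.ne hL.chain hL.link (x, y) hmem
  constructor
  · refine ⟨e.2, ?_⟩
    have := hL.mem e he
    rw [h1] at this
    exact this
  · refine ⟨f.1, ?_⟩
    have := hL.mem f hf
    have h3 : x.rev = f.2 := by
      have h4 : x = f.2.rev := h2
      rw [h4, DT.rev_rev]
    rw [h3]
    exact this

theorem occ_rev {x : DT} (h : Occr O.P x) : Occr O.P x.rev := by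
  obtain ⟨y, h | h⟩ := h
  · obtain ⟨z, hz⟩ := (O.next h).2
    exact ⟨z, Or.inr hz⟩
  · obtain ⟨z, hz⟩ := (O.next h).1
    exact ⟨z, Or.inl hz⟩

theorem occ_swp {x : DT} (h : Occr O.P x) : Occr O.P x.swp := by
  obtain ⟨y, h⟩ := h
  have key : ∃ l, StarW O.P x.w l ∧ ((x, y) ∈ l ∨ (y, x) ∈ l) := by
    rcases h with h | h
    · obtain ⟨l, hl, hm⟩ := O.starC h (by have := O.la_le h; omega) (O.la_pos h)
      exact ⟨l, hl.toStarW, hm⟩
    · obtain ⟨l, hl, hm⟩ := O.starC h (by have := O.la_le h; omega) (O.la_pos h)
      refine ⟨l, ?_, hm.symm⟩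
      rw [O.weq h]
      exact hl.toStarW
  obtain ⟨l, hl, hm⟩ := key
  rcases hm with hm | hm
  · obtain ⟨-, ⟨f, hf, h2⟩⟩ := cyc_succ _ l hl.ne hl.chain hl.link _ hm
    have h3 : x.swp = f.2 := by
      have h4 : x = f.2.swp := h2
      rw [h4, DT.swp_swp]
    rw [h3]
    exact ⟨f.1, (hl.mem f hf).symm⟩
  · obtain ⟨⟨f, hf, h2⟩, -⟩ := cyc_succ _ l hl.ne hl.chain hl.link _ hm
    have h3 : x.swp = f.1 := h2.symm
    rw [h3]
    exact ⟨f.2, hl.mem f hf⟩

/-! ### Two flat neighbours at a corner -/

theorem c_rev (x : DT) : x.rev.c = x.c := rfl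

/-- the colour is constant along a walk around the tile -/
theorem c_const {t : ℕ} {L : List (DT × DT)} (hL : TileC sh O.P t L) (p q : DT × DT)
    (hp : p ∈ L) (hq : q ∈ L) : p.1.c = q.1.c := by
  have key : ∀ (M : List (DT × DT)), (∀ p ∈ M, O.P p.1 p.2) →
      M.IsChain (fun p q => q.1 = p.2.rev) → ∀ a, M.head? = some a → ∀ q ∈ M, q.1.c = a.1.c := by
    intro M
    induction M with
    | nil => intro _ _ a ha; simp at ha
    | cons b M ih =>
      intro hm hc a ha q hq
      rw [List.head?_cons, Option.some.injEq] at ha
      subst ha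
      rw [List.mem_cons] at hq
      rcases hq with rfl | hq
      · rfl
      · cases M with
        | nil => simp at hq
        | cons e M =>
          rw [List.isChain_cons_cons] at hc
          rw [ih (fun p hp => hm p (List.mem_cons_of_mem _ hp)) hc.2 e rfl q hq, hc.1, c_rev]
          exact O.ceq (hm b List.mem_cons_self)
  cases hh : L.head? with
  | none =>
    rw [List.head?_eq_none_iff] at hh
    exact absurd hh hL.ne
  | some a =>
    rw [key L hL.mem hL.chain a hh p hp, key L hL.mem hL.chain a hh q hq]

theorem pm (hF : ∀ w ∈ sh.W, w.getD 3 0 ≤ 1) {x y : DT} (h : O.P x y) {k : ℕ} (hk : k < 3) :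
    ¬ (x.c.testBit k = true ∧ x.c.testBit (3 + k) = true) := by
  rintro ⟨h1, h2⟩
  obtain ⟨L, hL, hmem⟩ := O.tileC h hk
  cases hh : L.head? with
  | none =>
    rw [List.head?_eq_none_iff] at hh
    exact hL.ne hh
  | some a =>
    have haL : a ∈ L := List.mem_of_mem_head? hh
    have hP := hL.mem a haL
    have hla := hL.first a hh
    have hc := O.c_const hL (x, y) a hmem haL
    have hc' : x.c = a.1.c := hc
    have t1 := O.typ1 hP
    have t2 := O.typ2 hP
    unfold DT.typOK at t1 t2
    simp only [Bool.and_eq_true] at t1 t2
    have s1 := t1.1.1.1.1.1.1.2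
    have s2 := t2.1.1.1.1.1.1.2
    unfold DT.loc at s1 s2
    simp only [Bool.and_eq_true, decide_eq_true_eq] at s1 s2
    have r1 := s1.1.2 (by omega)
    have r2 := s2.1.2 (by rw [O.laeq hP]; omega)
    rw [O.dr1 hP, if_neg (by simp), hla, ← hc', h2] at r1
    rw [O.dr2 hP, if_pos rfl, O.laeq hP, hla, O.ceq hP, ← hc', h1] at r2
    have r1' : a.1.lb = 3 := by
      have := r1.symm
      rwa [decide_eq_true_eq] at this
    have r2' : a.2.lb = 3 := by
      have := r2.symm
      rwa [decide_eq_true_eq] at this
    have h5 := O.cnt3 hP 3 (by norm_num)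
    have h6 := hF _ (O.w_mem hP)
    rw [r1', r2'] at h5
    have h7 : 2 ≤ [a.1.la, 3, 3].count 3 := by
      simp [List.count_cons]
    omega

end OccS

end Pool.Agent.NNc
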