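import Pool.Agent.NNc.Occ5
import Pool.Agent.NNc.Occ6

/-!
# The records as consumed by the engine

`deadP`, `deadU`: what the engine has to prove for one record.
-/

namespace Pool.Agent.NNc

/-- the classes have four entries and valence at least `3`, at most one flat tile -/
def wokB (W : List (List ℕ)) : Bool :=
  W.all fun w => Nat.beq w.length 4 && (Nat.ble 3 w.sum && Nat.ble (w.getD 3 0) 1)

theorem wok_of {sh : Shape} (h : wokB sh.W = true) : LTil.WOK sh := by
  intro w hw
  unfold wokB at h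
  rw [List.all_eq_true] at h
  have := h w hw
  simp only [Bool.and_eq_true, Nat.beq_eq, Nat.ble_eq] at this
  exact ⟨this.1, this.2.1⟩

theorem flat_of {sh : Shape} (h : wokB sh.W = true) : ∀ w ∈ sh.W, w.getD 3 0 ≤ 1 := by
  intro w hw
  unfold wokB at h
  rw [List.all_eq_true] at h
  have := h w hw
  simp only [Bool.and_eq_true, Nat.beq_eq, Nat.ble_eq] at this
  exact this.2.2

/-- the record of a triangle: side rule from three masks -/
def recP (n : ℕ) (p : ℕ × ℕ × ℕ) (a b c : ℕ) : Shape := shP n p (okL a.testBit b.testBit c.testBit)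

/-- the record of a family: weak side rule -/
def recU (n : ℕ) (u : ℤ × ℤ × ℤ) : Shape :=
  shU n u (okL (fun _ => true) (fun _ => true) (fun _ => true))

theorem deadP {n : ℕ} {p : ℕ × ℕ × ℕ} (a b c : ℕ)
    (h1 : chkLoc p a.testBit b.testBit c.testBit = true) (h2 : wokB (recP n p a b c).W = true)
    (h3 : OccL (recP n p a b c) (locOK a.testBit b.testBit c.testBit) → False) :
    ∃ ok, OkP p ok ∧ IsEmpty (LTil (shP n p ok)) :=
  ⟨_, okP_loc h1, ⟨fun T => h3 (T.occP (wok_of (sh := recP n p a b c) h2))⟩⟩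

theorem deadU {n : ℕ} {u : ℤ × ℤ × ℤ} (h2 : wokB (recU n u).W = true)
    (h3 : OccL (recU n u) (locOK (fun _ => true) (fun _ => true) (fun _ => true)) → False) :
    ∃ ok, OkU u ok ∧ IsEmpty (LTil (shU n u ok)) :=
  ⟨_, okU_loc u, ⟨fun T => h3 (T.occU (wok_of (sh := recU n u) h2))⟩⟩

end Pool.Agent.NNc
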