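import Pool.Agent.NNc.OkTab

/-!
# Side rules of the rational triangles: tables (generated)
-/

namespace Pool.Agent.NNc

/-- the exact side rule of the triangle (1, 1, 2) -/
def sd_1_1_2 : STab where
  lo := [1000000, 707105, 707105]
  hi := [1000000, 707108, 707108]
  A := [5, 3, 3]
  T :=
    [[[1, 2, 1, 3, 1, 3], [1, 5, 1, 4, 1, 4], [5, 5, 5, 5, 5, 5], [4, 5, 4, 5, 4, 5],
    [4, 5, 4, 5, 4, 5], [5, 5, 5, 5, 5, 5]], [[1, 3, 1, 2, 1, 2], [1, 3, 1, 3, 1, 3],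
    [3, 3, 3, 3, 3, 3], [3, 3, 3, 3, 3, 3]], [[1, 3, 1, 2, 1, 2], [1, 3, 1, 3, 1, 3],
    [3, 3, 3, 3, 3, 3], [3, 3, 3, 3, 3, 3]]]
  fin :=
    [[false, true, true, false, true], [false, true, true], [false, true, true]]
  lab :=
    [[⟨0, 1, 0, 0, false⟩, ⟨0, 0, 1, 1, false⟩, ⟨1000000, 1000001, 0, 1, true⟩,
    ⟨707105, 707109, 0, 1, false⟩, ⟨707105, 0, 1, 2, false⟩], [⟨0, 1, 0, 0, false⟩,
    ⟨0, 0, 1, 1, false⟩, ⟨707105, 707109, 0, 1, true⟩], [⟨0, 1, 0, 0, false⟩,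
    ⟨0, 0, 1, 1, false⟩, ⟨707105, 707109, 0, 1, true⟩]]

theorem sd_1_1_2_ok : OkP (1, 1, 2) sd_1_1_2.ok := STab.okP (by decide +kernel)

/-- the exact side rule of the triangle (1, 1, 4) -/
def sd_1_1_4 : STab where
  lo := [866024, 500000, 500000]
  hi := [866027, 500000, 500000]
  A := [5, 3, 3]
  T :=
    [[[1, 2, 1, 3, 1, 3], [1, 5, 1, 4, 1, 4], [5, 5, 5, 5, 5, 5], [4, 5, 4, 5, 4, 5],
    [4, 5, 4, 5, 4, 5], [5, 5, 5, 5, 5, 5]], [[1, 3, 1, 2, 1, 2], [1, 3, 1, 3, 1, 3],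
    [3, 3, 3, 3, 3, 3], [3, 3, 3, 3, 3, 3]], [[1, 3, 1, 2, 1, 2], [1, 3, 1, 3, 1, 3],
    [3, 3, 3, 3, 3, 3], [3, 3, 3, 3, 3, 3]]]
  fin :=
    [[false, true, true, false, true], [false, true, true], [false, true, true]]
  lab :=
    [[⟨0, 1, 0, 0, false⟩, ⟨0, 0, 1, 1, false⟩, ⟨866024, 866028, 0, 1, true⟩,
    ⟨500000, 500001, 0, 1, false⟩, ⟨500000, 0, 1, 2, false⟩], [⟨0, 1, 0, 0, false⟩,
    ⟨0, 0, 1, 1, false⟩, ⟨500000, 500001, 0, 1, true⟩], [⟨0, 1, 0, 0, false⟩,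
    ⟨0, 0, 1, 1, false⟩, ⟨500000, 500001, 0, 1, true⟩]]

theorem sd_1_1_4_ok : OkP (1, 1, 4) sd_1_1_4.ok := STab.okP (by decide +kernel)

/-- the exact side rule of the triangle (1, 2, 2) -/
def sd_1_2_2 : STab where
  lo := [951055, 587784, 951055]
  hi := [951058, 587787, 951058]
  A := [5, 3, 5]
  T :=
    [[[1, 2, 1, 3, 1, 2], [1, 5, 1, 4, 1, 5], [5, 5, 5, 5, 5, 5], [4, 5, 4, 5, 4, 5],
    [4, 5, 4, 5, 4, 5], [5, 5, 5, 5, 5, 5]], [[1, 3, 1, 2, 1, 3], [1, 3, 1, 3, 1, 3],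
    [3, 3, 3, 3, 3, 3], [3, 3, 3, 3, 3, 3]], [[1, 2, 1, 3, 1, 2], [1, 5, 1, 4, 1, 5],
    [5, 5, 5, 5, 5, 5], [4, 5, 4, 5, 4, 5], [4, 5, 4, 5, 4, 5], [5, 5, 5, 5, 5, 5]]]
  fin :=
    [[false, true, true, false, true], [false, true, true], [false, true, true, false, true]]
  lab :=
    [[⟨0, 1, 0, 0, false⟩, ⟨0, 0, 1, 1, false⟩, ⟨951055, 951059, 0, 1, true⟩,
    ⟨587784, 587788, 0, 1, false⟩, ⟨587784, 0, 1, 2, false⟩], [⟨0, 1, 0, 0, false⟩,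
    ⟨0, 0, 1, 1, false⟩, ⟨587784, 587788, 0, 1, true⟩], [⟨0, 1, 0, 0, false⟩,
    ⟨0, 0, 1, 1, false⟩, ⟨951055, 951059, 0, 1, true⟩, ⟨587784, 587788, 0, 1, false⟩,
    ⟨587784, 0, 1, 2, false⟩]]

theorem sd_1_2_2_ok : OkP (1, 2, 2) sd_1_2_2.ok := STab.okP (by decide +kernel)

/-- the exact side rule of the triangle (1, 2, 3) -/
def sd_1_2_3 : STab where
  lo := [1000000, 500000, 866024]
  hi := [1000000, 500000, 866027]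
  A := [9, 4, 6]
  T :=
    [[[1, 2, 3, 4, 1, 5], [6, 9, 6, 7, 6, 7], [9, 9, 9, 9, 9, 9], [6, 9, 1, 8, 6, 7],
    [7, 9, 8, 2, 7, 9], [7, 9, 7, 9, 7, 9], [6, 9, 6, 7, 6, 7], [7, 9, 7, 9, 7, 9],
    [7, 9, 7, 9, 7, 9], [9, 9, 9, 9, 9, 9]], [[1, 4, 2, 3, 1, 4], [1, 4, 1, 4, 1, 4],
    [1, 4, 1, 4, 1, 4], [4, 4, 4, 4, 4, 4], [4, 4, 4, 4, 4, 4]], [[1, 6, 2, 3, 1, 4],
    [1, 6, 1, 5, 1, 6], [1, 6, 1, 5, 1, 6], [5, 6, 5, 6, 5, 6], [6, 6, 6, 6, 6, 6],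
    [5, 6, 5, 6, 5, 6], [6, 6, 6, 6, 6, 6]]]
  fin :=
    [[false, false, true, false, false, false, true, true, false], [false, true, false, true],
    [false, true, false, false, true, true]]
  lab :=
    [[⟨0, 1, 0, 0, false⟩, ⟨0, 1000001, 1, 1, false⟩, ⟨1000000, 1000001, 0, 1, false⟩,
    ⟨0, 500001, 1, 1, false⟩, ⟨500000, 500001, 0, 1, false⟩, ⟨866024, 866028, 0, 1, false⟩,
    ⟨0, 0, 1, 1, false⟩, ⟨500000, 0, 1, 2, false⟩, ⟨500000, 1000001, 1, 2, false⟩],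
    [⟨0, 1, 0, 0, false⟩, ⟨0, 0, 1, 1, false⟩, ⟨0, 500001, 1, 1, false⟩,
    ⟨500000, 500001, 0, 1, true⟩], [⟨0, 1, 0, 0, false⟩, ⟨0, 0, 1, 1, false⟩,
    ⟨0, 500001, 1, 1, false⟩, ⟨500000, 500001, 0, 1, false⟩, ⟨866024, 866028, 0, 1, true⟩,
    ⟨500000, 0, 1, 2, false⟩]]

theorem sd_1_2_3_ok : OkP (1, 2, 3) sd_1_2_3.ok := STab.okP (by decide +kernel)

/-- the exact side rule of the triangle (1, 2, 4) -/
def sd_1_2_4 : STab where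
  lo := [974926, 433882, 781830]
  hi := [974929, 433885, 781833]
  A := [7, 3, 5]
  T :=
    [[[1, 2, 1, 3, 1, 4], [1, 7, 1, 5, 1, 6], [7, 7, 7, 7, 7, 7], [5, 7, 5, 4, 5, 7],
    [6, 7, 6, 7, 6, 7], [5, 7, 5, 6, 5, 7], [6, 7, 6, 7, 6, 7], [7, 7, 7, 7, 7, 7]],
    [[1, 3, 1, 2, 1, 3], [1, 3, 1, 3, 1, 3], [3, 3, 3, 3, 3, 3], [3, 3, 3, 3, 3, 3]],
    [[1, 5, 1, 2, 1, 3], [1, 5, 1, 4, 1, 5], [4, 5, 4, 5, 4, 5], [5, 5, 5, 5, 5, 5],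
    [4, 5, 4, 5, 4, 5], [5, 5, 5, 5, 5, 5]]]
  fin :=
    [[false, true, true, false, false, true, true], [false, true, true],
    [false, true, false, true, true]]
  lab :=
    [[⟨0, 1, 0, 0, false⟩, ⟨0, 0, 1, 1, false⟩, ⟨974926, 974930, 0, 1, true⟩,
    ⟨433882, 433886, 0, 1, false⟩, ⟨781830, 867771, 0, 1, false⟩, ⟨433882, 0, 1, 2, false⟩,
    ⟨781830, 0, 1, 2, false⟩], [⟨0, 1, 0, 0, false⟩, ⟨0, 0, 1, 1, false⟩,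
    ⟨433882, 433886, 0, 1, true⟩], [⟨0, 1, 0, 0, false⟩, ⟨0, 0, 1, 1, false⟩,
    ⟨433882, 433886, 0, 1, false⟩, ⟨781830, 781834, 0, 1, true⟩, ⟨433882, 0, 1, 2, false⟩]]

theorem sd_1_2_4_ok : OkP (1, 2, 4) sd_1_2_4.ok := STab.okP (by decide +kernel)

/-- the exact side rule of the triangle (1, 2, 5) -/
def sd_1_2_5 : STab where
  lo := [923878, 382682, 707105]
  hi := [923881, 382685, 707108]
  A := [7, 3, 5]
  T :=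
    [[[1, 2, 1, 3, 1, 4], [1, 7, 1, 5, 1, 6], [7, 7, 7, 7, 7, 7], [5, 7, 5, 4, 5, 7],
    [6, 7, 6, 7, 6, 7], [5, 7, 5, 6, 5, 7], [6, 7, 6, 7, 6, 7], [7, 7, 7, 7, 7, 7]],
    [[1, 3, 1, 2, 1, 3], [1, 3, 1, 3, 1, 3], [3, 3, 3, 3, 3, 3], [3, 3, 3, 3, 3, 3]],
    [[1, 5, 1, 2, 1, 3], [1, 5, 1, 4, 1, 5], [4, 5, 4, 5, 4, 5], [5, 5, 5, 5, 5, 5],
    [4, 5, 4, 5, 4, 5], [5, 5, 5, 5, 5, 5]]]
  fin :=
    [[false, true, true, false, false, true, true], [false, true, true],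
    [false, true, false, true, true]]
  lab :=
    [[⟨0, 1, 0, 0, false⟩, ⟨0, 0, 1, 1, false⟩, ⟨923878, 923882, 0, 1, true⟩,
    ⟨382682, 382686, 0, 1, false⟩, ⟨707105, 765371, 0, 1, false⟩, ⟨382682, 0, 1, 2, false⟩,
    ⟨707105, 0, 1, 2, false⟩], [⟨0, 1, 0, 0, false⟩, ⟨0, 0, 1, 1, false⟩,
    ⟨382682, 382686, 0, 1, true⟩], [⟨0, 1, 0, 0, false⟩, ⟨0, 0, 1, 1, false⟩,
    ⟨382682, 382686, 0, 1, false⟩, ⟨707105, 707109, 0, 1, true⟩, ⟨382682, 0, 1, 2, false⟩]]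

theorem sd_1_2_5_ok : OkP (1, 2, 5) sd_1_2_5.ok := STab.okP (by decide +kernel)

/-- the exact side rule of the triangle (1, 2, 6) -/
def sd_1_2_6 : STab where
  lo := [866024, 342019, 642786]
  hi := [866027, 342022, 642789]
  A := [7, 3, 5]
  T :=
    [[[1, 2, 1, 3, 1, 4], [1, 7, 1, 5, 1, 6], [7, 7, 7, 7, 7, 7], [5, 7, 5, 4, 5, 7],
    [6, 7, 6, 7, 6, 7], [5, 7, 5, 6, 5, 7], [6, 7, 6, 7, 6, 7], [7, 7, 7, 7, 7, 7]],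
    [[1, 3, 1, 2, 1, 3], [1, 3, 1, 3, 1, 3], [3, 3, 3, 3, 3, 3], [3, 3, 3, 3, 3, 3]],
    [[1, 5, 1, 2, 1, 3], [1, 5, 1, 4, 1, 5], [4, 5, 4, 5, 4, 5], [5, 5, 5, 5, 5, 5],
    [4, 5, 4, 5, 4, 5], [5, 5, 5, 5, 5, 5]]]
  fin :=
    [[false, true, true, false, false, true, true], [false, true, true],
    [false, true, false, true, true]]
  lab :=
    [[⟨0, 1, 0, 0, false⟩, ⟨0, 0, 1, 1, false⟩, ⟨866024, 866028, 0, 1, true⟩,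
    ⟨342019, 342023, 0, 1, false⟩, ⟨642786, 684045, 0, 1, false⟩, ⟨342019, 0, 1, 2, false⟩,
    ⟨642786, 0, 1, 2, false⟩], [⟨0, 1, 0, 0, false⟩, ⟨0, 0, 1, 1, false⟩,
    ⟨342019, 342023, 0, 1, true⟩], [⟨0, 1, 0, 0, false⟩, ⟨0, 0, 1, 1, false⟩,
    ⟨342019, 342023, 0, 1, false⟩, ⟨642786, 642790, 0, 1, true⟩, ⟨342019, 0, 1, 2, false⟩]]

theorem sd_1_2_6_ok : OkP (1, 2, 6) sd_1_2_6.ok := STab.okP (by decide +kernel)

/-- the exact side rule of the triangle (1, 2, 7) -/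
def sd_1_2_7 : STab where
  lo := [809015, 309015, 587784]
  hi := [809018, 309018, 587787]
  A := [7, 3, 5]
  T :=
    [[[1, 2, 1, 3, 1, 4], [1, 7, 1, 5, 1, 6], [7, 7, 7, 7, 7, 7], [5, 7, 5, 4, 5, 7],
    [6, 7, 6, 7, 6, 7], [5, 7, 5, 6, 5, 7], [6, 7, 6, 7, 6, 7], [7, 7, 7, 7, 7, 7]],
    [[1, 3, 1, 2, 1, 3], [1, 3, 1, 3, 1, 3], [3, 3, 3, 3, 3, 3], [3, 3, 3, 3, 3, 3]],
    [[1, 5, 1, 2, 1, 3], [1, 5, 1, 4, 1, 5], [4, 5, 4, 5, 4, 5], [5, 5, 5, 5, 5, 5],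
    [4, 5, 4, 5, 4, 5], [5, 5, 5, 5, 5, 5]]]
  fin :=
    [[false, true, true, false, false, true, true], [false, true, true],
    [false, true, false, true, true]]
  lab :=
    [[⟨0, 1, 0, 0, false⟩, ⟨0, 0, 1, 1, false⟩, ⟨809015, 809019, 0, 1, true⟩,
    ⟨309015, 309019, 0, 1, false⟩, ⟨587784, 618037, 0, 1, false⟩, ⟨309015, 0, 1, 2, false⟩,
    ⟨587784, 0, 1, 2, false⟩], [⟨0, 1, 0, 0, false⟩, ⟨0, 0, 1, 1, false⟩,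
    ⟨309015, 309019, 0, 1, true⟩], [⟨0, 1, 0, 0, false⟩, ⟨0, 0, 1, 1, false⟩,
    ⟨309015, 309019, 0, 1, false⟩, ⟨587784, 587788, 0, 1, true⟩, ⟨309015, 0, 1, 2, false⟩]]

theorem sd_1_2_7_ok : OkP (1, 2, 7) sd_1_2_7.ok := STab.okP (by decide +kernel)

/-- the exact side rule of the triangle (1, 2, 8) -/
def sd_1_2_8 : STab where
  lo := [755748, 281731, 540639]
  hi := [755751, 281734, 540642]
  A := [7, 3, 5]
  T :=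
    [[[1, 2, 1, 3, 1, 4], [1, 7, 1, 5, 1, 6], [7, 7, 7, 7, 7, 7], [5, 7, 5, 4, 5, 7],
    [6, 7, 6, 7, 6, 7], [5, 7, 5, 6, 5, 7], [6, 7, 6, 7, 6, 7], [7, 7, 7, 7, 7, 7]],
    [[1, 3, 1, 2, 1, 3], [1, 3, 1, 3, 1, 3], [3, 3, 3, 3, 3, 3], [3, 3, 3, 3, 3, 3]],
    [[1, 5, 1, 2, 1, 3], [1, 5, 1, 4, 1, 5], [4, 5, 4, 5, 4, 5], [5, 5, 5, 5, 5, 5],
    [4, 5, 4, 5, 4, 5], [5, 5, 5, 5, 5, 5]]]
  fin :=
    [[false, true, true, false, false, true, true], [false, true, true],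
    [false, true, false, true, true]]
  lab :=
    [[⟨0, 1, 0, 0, false⟩, ⟨0, 0, 1, 1, false⟩, ⟨755748, 755752, 0, 1, true⟩,
    ⟨281731, 281735, 0, 1, false⟩, ⟨540639, 563469, 0, 1, false⟩, ⟨281731, 0, 1, 2, false⟩,
    ⟨540639, 0, 1, 2, false⟩], [⟨0, 1, 0, 0, false⟩, ⟨0, 0, 1, 1, false⟩,
    ⟨281731, 281735, 0, 1, true⟩], [⟨0, 1, 0, 0, false⟩, ⟨0, 0, 1, 1, false⟩,
    ⟨281731, 281735, 0, 1, false⟩, ⟨540639, 540643, 0, 1, true⟩, ⟨281731, 0, 1, 2, false⟩]]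

theorem sd_1_2_8_ok : OkP (1, 2, 8) sd_1_2_8.ok := STab.okP (by decide +kernel)

/-- the exact side rule of the triangle (1, 2, 9) -/
def sd_1_2_9 : STab where
  lo := [707105, 258818, 500000]
  hi := [707108, 258821, 500000]
  A := [7, 3, 5]
  T :=
    [[[1, 2, 1, 3, 1, 4], [1, 7, 1, 5, 1, 6], [7, 7, 7, 7, 7, 7], [5, 7, 5, 4, 5, 7],
    [6, 7, 6, 7, 6, 7], [5, 7, 5, 6, 5, 7], [6, 7, 6, 7, 6, 7], [7, 7, 7, 7, 7, 7]],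
    [[1, 3, 1, 2, 1, 3], [1, 3, 1, 3, 1, 3], [3, 3, 3, 3, 3, 3], [3, 3, 3, 3, 3, 3]],
    [[1, 5, 1, 2, 1, 3], [1, 5, 1, 4, 1, 5], [4, 5, 4, 5, 4, 5], [5, 5, 5, 5, 5, 5],
    [4, 5, 4, 5, 4, 5], [5, 5, 5, 5, 5, 5]]]
  fin :=
    [[false, true, true, false, false, true, true], [false, true, true],
    [false, true, false, true, true]]
  lab :=
    [[⟨0, 1, 0, 0, false⟩, ⟨0, 0, 1, 1, false⟩, ⟨707105, 707109, 0, 1, true⟩,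
    ⟨258818, 258822, 0, 1, false⟩, ⟨500000, 517643, 0, 1, false⟩, ⟨258818, 0, 1, 2, false⟩,
    ⟨500000, 0, 1, 2, false⟩], [⟨0, 1, 0, 0, false⟩, ⟨0, 0, 1, 1, false⟩,
    ⟨258818, 258822, 0, 1, true⟩], [⟨0, 1, 0, 0, false⟩, ⟨0, 0, 1, 1, false⟩,
    ⟨258818, 258822, 0, 1, false⟩, ⟨500000, 500001, 0, 1, true⟩, ⟨258818, 0, 1, 2, false⟩]]

theorem sd_1_2_9_ok : OkP (1, 2, 9) sd_1_2_9.ok := STab.okP (by decide +kernel)

/-- the exact side rule of the triangle (1, 2, 10) -/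
def sd_1_2_10 : STab where
  lo := [663121, 239314, 464722]
  hi := [663124, 239317, 464725]
  A := [7, 3, 5]
  T :=
    [[[1, 2, 1, 3, 1, 4], [1, 7, 1, 5, 1, 6], [7, 7, 7, 7, 7, 7], [5, 7, 5, 4, 5, 7],
    [6, 7, 6, 7, 6, 7], [5, 7, 5, 6, 5, 7], [6, 7, 6, 7, 6, 7], [7, 7, 7, 7, 7, 7]],
    [[1, 3, 1, 2, 1, 3], [1, 3, 1, 3, 1, 3], [3, 3, 3, 3, 3, 3], [3, 3, 3, 3, 3, 3]],
    [[1, 5, 1, 2, 1, 3], [1, 5, 1, 4, 1, 5], [4, 5, 4, 5, 4, 5], [5, 5, 5, 5, 5, 5],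
    [4, 5, 4, 5, 4, 5], [5, 5, 5, 5, 5, 5]]]
  fin :=
    [[false, true, true, false, false, true, true], [false, true, true],
    [false, true, false, true, true]]
  lab :=
    [[⟨0, 1, 0, 0, false⟩, ⟨0, 0, 1, 1, false⟩, ⟨663121, 663125, 0, 1, true⟩,
    ⟨239314, 239318, 0, 1, false⟩, ⟨464722, 478635, 0, 1, false⟩, ⟨239314, 0, 1, 2, false⟩,
    ⟨464722, 0, 1, 2, false⟩], [⟨0, 1, 0, 0, false⟩, ⟨0, 0, 1, 1, false⟩,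
    ⟨239314, 239318, 0, 1, true⟩], [⟨0, 1, 0, 0, false⟩, ⟨0, 0, 1, 1, false⟩,
    ⟨239314, 239318, 0, 1, false⟩, ⟨464722, 464726, 0, 1, true⟩, ⟨239314, 0, 1, 2, false⟩]]

theorem sd_1_2_10_ok : OkP (1, 2, 10) sd_1_2_10.ok := STab.okP (by decide +kernel)

/-- the exact side rule of the triangle (1, 2, 11) -/
def sd_1_2_11 : STab where
  lo := [623488, 222519, 433882]
  hi := [623491, 222522, 433885]
  A := [7, 3, 5]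
  T :=
    [[[1, 2, 1, 3, 1, 4], [1, 7, 1, 5, 1, 6], [7, 7, 7, 7, 7, 7], [5, 7, 5, 4, 5, 7],
    [6, 7, 6, 7, 6, 7], [5, 7, 5, 6, 5, 7], [6, 7, 6, 7, 6, 7], [7, 7, 7, 7, 7, 7]],
    [[1, 3, 1, 2, 1, 3], [1, 3, 1, 3, 1, 3], [3, 3, 3, 3, 3, 3], [3, 3, 3, 3, 3, 3]],
    [[1, 5, 1, 2, 1, 3], [1, 5, 1, 4, 1, 5], [4, 5, 4, 5, 4, 5], [5, 5, 5, 5, 5, 5],
    [4, 5, 4, 5, 4, 5], [5, 5, 5, 5, 5, 5]]]
  fin :=
    [[false, true, true, false, false, true, true], [false, true, true],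
    [false, true, false, true, true]]
  lab :=
    [[⟨0, 1, 0, 0, false⟩, ⟨0, 0, 1, 1, false⟩, ⟨623488, 623492, 0, 1, true⟩,
    ⟨222519, 222523, 0, 1, false⟩, ⟨433882, 445045, 0, 1, false⟩, ⟨222519, 0, 1, 2, false⟩,
    ⟨433882, 0, 1, 2, false⟩], [⟨0, 1, 0, 0, false⟩, ⟨0, 0, 1, 1, false⟩,
    ⟨222519, 222523, 0, 1, true⟩], [⟨0, 1, 0, 0, false⟩, ⟨0, 0, 1, 1, false⟩,
    ⟨222519, 222523, 0, 1, false⟩, ⟨433882, 433886, 0, 1, true⟩, ⟨222519, 0, 1, 2, false⟩]]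

theorem sd_1_2_11_ok : OkP (1, 2, 11) sd_1_2_11.ok := STab.okP (by decide +kernel)

/-- the exact side rule of the triangle (1, 2, 12) -/
def sd_1_2_12 : STab where
  lo := [587784, 207910, 406735]
  hi := [587787, 207913, 406738]
  A := [7, 3, 5]
  T :=
    [[[1, 2, 1, 3, 1, 4], [1, 7, 1, 5, 1, 6], [7, 7, 7, 7, 7, 7], [5, 7, 5, 4, 5, 7],
    [6, 7, 6, 7, 6, 7], [5, 7, 5, 6, 5, 7], [6, 7, 6, 7, 6, 7], [7, 7, 7, 7, 7, 7]],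
    [[1, 3, 1, 2, 1, 3], [1, 3, 1, 3, 1, 3], [3, 3, 3, 3, 3, 3], [3, 3, 3, 3, 3, 3]],
    [[1, 5, 1, 2, 1, 3], [1, 5, 1, 4, 1, 5], [4, 5, 4, 5, 4, 5], [5, 5, 5, 5, 5, 5],
    [4, 5, 4, 5, 4, 5], [5, 5, 5, 5, 5, 5]]]
  fin :=
    [[false, true, true, false, false, true, true], [false, true, true],
    [false, true, false, true, true]]
  lab :=
    [[⟨0, 1, 0, 0, false⟩, ⟨0, 0, 1, 1, false⟩, ⟨587784, 587788, 0, 1, true⟩,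
    ⟨207910, 207914, 0, 1, false⟩, ⟨406735, 415827, 0, 1, false⟩, ⟨207910, 0, 1, 2, false⟩,
    ⟨406735, 0, 1, 2, false⟩], [⟨0, 1, 0, 0, false⟩, ⟨0, 0, 1, 1, false⟩,
    ⟨207910, 207914, 0, 1, true⟩], [⟨0, 1, 0, 0, false⟩, ⟨0, 0, 1, 1, false⟩,
    ⟨207910, 207914, 0, 1, false⟩, ⟨406735, 406739, 0, 1, true⟩, ⟨207910, 0, 1, 2, false⟩]]

theorem sd_1_2_12_ok : OkP (1, 2, 12) sd_1_2_12.ok := STab.okP (by decide +kernel)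

/-- the exact side rule of the triangle (1, 2, 13) -/
def sd_1_2_13 : STab where
  lo := [555569, 195089, 382682]
  hi := [555572, 195092, 382685]
  A := [7, 3, 5]
  T :=
    [[[1, 2, 1, 3, 1, 4], [1, 7, 1, 5, 1, 6], [7, 7, 7, 7, 7, 7], [5, 7, 5, 4, 5, 7],
    [6, 7, 6, 7, 6, 7], [5, 7, 5, 6, 5, 7], [6, 7, 6, 7, 6, 7], [7, 7, 7, 7, 7, 7]],
    [[1, 3, 1, 2, 1, 3], [1, 3, 1, 3, 1, 3], [3, 3, 3, 3, 3, 3], [3, 3, 3, 3, 3, 3]],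
    [[1, 5, 1, 2, 1, 3], [1, 5, 1, 4, 1, 5], [4, 5, 4, 5, 4, 5], [5, 5, 5, 5, 5, 5],
    [4, 5, 4, 5, 4, 5], [5, 5, 5, 5, 5, 5]]]
  fin :=
    [[false, true, true, false, false, true, true], [false, true, true],
    [false, true, false, true, true]]
  lab :=
    [[⟨0, 1, 0, 0, false⟩, ⟨0, 0, 1, 1, false⟩, ⟨555569, 555573, 0, 1, true⟩,
    ⟨195089, 195093, 0, 1, false⟩, ⟨382682, 390185, 0, 1, false⟩, ⟨195089, 0, 1, 2, false⟩,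
    ⟨382682, 0, 1, 2, false⟩], [⟨0, 1, 0, 0, false⟩, ⟨0, 0, 1, 1, false⟩,
    ⟨195089, 195093, 0, 1, true⟩], [⟨0, 1, 0, 0, false⟩, ⟨0, 0, 1, 1, false⟩,
    ⟨195089, 195093, 0, 1, false⟩, ⟨382682, 382686, 0, 1, true⟩, ⟨195089, 0, 1, 2, false⟩]]

theorem sd_1_2_13_ok : OkP (1, 2, 13) sd_1_2_13.ok := STab.okP (by decide +kernel)

/-- the exact side rule of the triangle (1, 2, 14) -/
def sd_1_2_14 : STab where
  lo := [526431, 183748, 361240]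
  hi := [526434, 183751, 361243]
  A := [7, 3, 5]
  T :=
    [[[1, 2, 1, 3, 1, 4], [1, 7, 1, 5, 1, 6], [7, 7, 7, 7, 7, 7], [5, 7, 5, 4, 5, 7],
    [6, 7, 6, 7, 6, 7], [5, 7, 5, 6, 5, 7], [6, 7, 6, 7, 6, 7], [7, 7, 7, 7, 7, 7]],
    [[1, 3, 1, 2, 1, 3], [1, 3, 1, 3, 1, 3], [3, 3, 3, 3, 3, 3], [3, 3, 3, 3, 3, 3]],
    [[1, 5, 1, 2, 1, 3], [1, 5, 1, 4, 1, 5], [4, 5, 4, 5, 4, 5], [5, 5, 5, 5, 5, 5],
    [4, 5, 4, 5, 4, 5], [5, 5, 5, 5, 5, 5]]]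
  fin :=
    [[false, true, true, false, false, true, true], [false, true, true],
    [false, true, false, true, true]]
  lab :=
    [[⟨0, 1, 0, 0, false⟩, ⟨0, 0, 1, 1, false⟩, ⟨526431, 526435, 0, 1, true⟩,
    ⟨183748, 183752, 0, 1, false⟩, ⟨361240, 367503, 0, 1, false⟩, ⟨183748, 0, 1, 2, false⟩,
    ⟨361240, 0, 1, 2, false⟩], [⟨0, 1, 0, 0, false⟩, ⟨0, 0, 1, 1, false⟩,
    ⟨183748, 183752, 0, 1, true⟩], [⟨0, 1, 0, 0, false⟩, ⟨0, 0, 1, 1, false⟩,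
    ⟨183748, 183752, 0, 1, false⟩, ⟨361240, 361244, 0, 1, true⟩, ⟨183748, 0, 1, 2, false⟩]]

theorem sd_1_2_14_ok : OkP (1, 2, 14) sd_1_2_14.ok := STab.okP (by decide +kernel)

/-- the exact side rule of the triangle (1, 2, 15) -/
def sd_1_2_15 : STab where
  lo := [500000, 173647, 342019]
  hi := [500000, 173650, 342022]
  A := [7, 3, 5]
  T :=
    [[[1, 2, 1, 3, 1, 4], [1, 7, 1, 5, 1, 6], [7, 7, 7, 7, 7, 7], [5, 7, 5, 4, 5, 7],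
    [6, 7, 6, 7, 6, 7], [5, 7, 5, 6, 5, 7], [6, 7, 6, 7, 6, 7], [7, 7, 7, 7, 7, 7]],
    [[1, 3, 1, 2, 1, 3], [1, 3, 1, 3, 1, 3], [3, 3, 3, 3, 3, 3], [3, 3, 3, 3, 3, 3]],
    [[1, 5, 1, 2, 1, 3], [1, 5, 1, 4, 1, 5], [4, 5, 4, 5, 4, 5], [5, 5, 5, 5, 5, 5],
    [4, 5, 4, 5, 4, 5], [5, 5, 5, 5, 5, 5]]]
  fin :=
    [[false, true, true, false, false, true, true], [false, true, true],
    [false, true, false, true, true]]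
  lab :=
    [[⟨0, 1, 0, 0, false⟩, ⟨0, 0, 1, 1, false⟩, ⟨500000, 500001, 0, 1, true⟩,
    ⟨173647, 173651, 0, 1, false⟩, ⟨342019, 347301, 0, 1, false⟩, ⟨173647, 0, 1, 2, false⟩,
    ⟨342019, 0, 1, 2, false⟩], [⟨0, 1, 0, 0, false⟩, ⟨0, 0, 1, 1, false⟩,
    ⟨173647, 173651, 0, 1, true⟩], [⟨0, 1, 0, 0, false⟩, ⟨0, 0, 1, 1, false⟩,
    ⟨173647, 173651, 0, 1, false⟩, ⟨342019, 342023, 0, 1, true⟩, ⟨173647, 0, 1, 2, false⟩]]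

theorem sd_1_2_15_ok : OkP (1, 2, 15) sd_1_2_15.ok := STab.okP (by decide +kernel)

/-- the exact side rule of the triangle (1, 2, 16) -/
def sd_1_2_16 : STab where
  lo := [475946, 164593, 324698]
  hi := [475949, 164596, 324701]
  A := [7, 3, 5]
  T :=
    [[[1, 2, 1, 3, 1, 4], [1, 7, 1, 5, 1, 6], [7, 7, 7, 7, 7, 7], [5, 7, 5, 4, 5, 7],
    [6, 7, 6, 7, 6, 7], [5, 7, 5, 6, 5, 7], [6, 7, 6, 7, 6, 7], [7, 7, 7, 7, 7, 7]],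
    [[1, 3, 1, 2, 1, 3], [1, 3, 1, 3, 1, 3], [3, 3, 3, 3, 3, 3], [3, 3, 3, 3, 3, 3]],
    [[1, 5, 1, 2, 1, 3], [1, 5, 1, 4, 1, 5], [4, 5, 4, 5, 4, 5], [5, 5, 5, 5, 5, 5],
    [4, 5, 4, 5, 4, 5], [5, 5, 5, 5, 5, 5]]]
  fin :=
    [[false, true, true, false, false, true, true], [false, true, true],
    [false, true, false, true, true]]
  lab :=
    [[⟨0, 1, 0, 0, false⟩, ⟨0, 0, 1, 1, false⟩, ⟨475946, 475950, 0, 1, true⟩,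
    ⟨164593, 164597, 0, 1, false⟩, ⟨324698, 329193, 0, 1, false⟩, ⟨164593, 0, 1, 2, false⟩,
    ⟨324698, 0, 1, 2, false⟩], [⟨0, 1, 0, 0, false⟩, ⟨0, 0, 1, 1, false⟩,
    ⟨164593, 164597, 0, 1, true⟩], [⟨0, 1, 0, 0, false⟩, ⟨0, 0, 1, 1, false⟩,
    ⟨164593, 164597, 0, 1, false⟩, ⟨324698, 324702, 0, 1, true⟩, ⟨164593, 0, 1, 2, false⟩]]

theorem sd_1_2_16_ok : OkP (1, 2, 16) sd_1_2_16.ok := STab.okP (by decide +kernel)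

/-- the exact side rule of the triangle (1, 2, 17) -/
def sd_1_2_17 : STab where
  lo := [453989, 156433, 309015]
  hi := [453992, 156436, 309018]
  A := [7, 3, 5]
  T :=
    [[[1, 2, 1, 3, 1, 4], [1, 7, 1, 5, 1, 6], [7, 7, 7, 7, 7, 7], [5, 7, 5, 4, 5, 7],
    [6, 7, 6, 7, 6, 7], [5, 7, 5, 6, 5, 7], [6, 7, 6, 7, 6, 7], [7, 7, 7, 7, 7, 7]],
    [[1, 3, 1, 2, 1, 3], [1, 3, 1, 3, 1, 3], [3, 3, 3, 3, 3, 3], [3, 3, 3, 3, 3, 3]],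
    [[1, 5, 1, 2, 1, 3], [1, 5, 1, 4, 1, 5], [4, 5, 4, 5, 4, 5], [5, 5, 5, 5, 5, 5],
    [4, 5, 4, 5, 4, 5], [5, 5, 5, 5, 5, 5]]]
  fin :=
    [[false, true, true, false, false, true, true], [false, true, true],
    [false, true, false, true, true]]
  lab :=
    [[⟨0, 1, 0, 0, false⟩, ⟨0, 0, 1, 1, false⟩, ⟨453989, 453993, 0, 1, true⟩,
    ⟨156433, 156437, 0, 1, false⟩, ⟨309015, 312873, 0, 1, false⟩, ⟨156433, 0, 1, 2, false⟩,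
    ⟨309015, 0, 1, 2, false⟩], [⟨0, 1, 0, 0, false⟩, ⟨0, 0, 1, 1, false⟩,
    ⟨156433, 156437, 0, 1, true⟩], [⟨0, 1, 0, 0, false⟩, ⟨0, 0, 1, 1, false⟩,
    ⟨156433, 156437, 0, 1, false⟩, ⟨309015, 309019, 0, 1, true⟩, ⟨156433, 0, 1, 2, false⟩]]

theorem sd_1_2_17_ok : OkP (1, 2, 17) sd_1_2_17.ok := STab.okP (by decide +kernel)

/-- the exact side rule of the triangle (1, 3, 4) -/
def sd_1_3_4 : STab where
  lo := [1000000, 382682, 923878]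
  hi := [1000000, 382685, 923881]
  A := [7, 3, 7]
  T :=
    [[[1, 2, 1, 3, 1, 4], [1, 7, 1, 5, 1, 6], [7, 7, 7, 7, 7, 7], [5, 7, 5, 4, 5, 7],
    [6, 7, 6, 7, 6, 7], [5, 7, 5, 6, 5, 7], [6, 7, 6, 7, 6, 7], [7, 7, 7, 7, 7, 7]],
    [[1, 3, 1, 2, 1, 3], [1, 3, 1, 3, 1, 3], [3, 3, 3, 3, 3, 3], [3, 3, 3, 3, 3, 3]],
    [[1, 7, 1, 2, 1, 3], [1, 7, 1, 4, 1, 7], [4, 7, 4, 5, 4, 7], [7, 7, 7, 7, 7, 7],
    [4, 7, 4, 6, 4, 7], [6, 7, 6, 7, 6, 7], [6, 7, 6, 7, 6, 7], [7, 7, 7, 7, 7, 7]]]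
  fin :=
    [[false, true, true, false, false, true, true], [false, true, true],
    [false, true, false, true, true, false, true]]
  lab :=
    [[⟨0, 1, 0, 0, false⟩, ⟨0, 0, 1, 1, false⟩, ⟨1000000, 1000001, 0, 1, true⟩,
    ⟨382682, 382686, 0, 1, false⟩, ⟨765364, 923882, 0, 1, false⟩, ⟨382682, 0, 1, 2, false⟩,
    ⟨765364, 0, 1, 2, false⟩], [⟨0, 1, 0, 0, false⟩, ⟨0, 0, 1, 1, false⟩,
    ⟨382682, 382686, 0, 1, true⟩], [⟨0, 1, 0, 0, false⟩, ⟨0, 0, 1, 1, false⟩,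
    ⟨382682, 382686, 0, 1, false⟩, ⟨923878, 923882, 0, 1, true⟩, ⟨382682, 0, 1, 2, false⟩,
    ⟨765364, 765371, 0, 2, false⟩, ⟨765364, 0, 1, 2, false⟩]]

theorem sd_1_3_4_ok : OkP (1, 3, 4) sd_1_3_4.ok := STab.okP (by decide +kernel)

/-- the exact side rule of the triangle (1, 3, 6) -/
def sd_1_3_6 : STab where
  lo := [951055, 309015, 809015]
  hi := [951058, 309018, 809018]
  A := [9, 3, 7]
  T :=
    [[[1, 2, 1, 3, 1, 4], [1, 9, 1, 5, 1, 6], [9, 9, 9, 9, 9, 9], [5, 9, 5, 7, 5, 9],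
    [6, 9, 6, 9, 6, 9], [5, 9, 5, 8, 5, 9], [6, 9, 6, 9, 6, 9], [8, 9, 8, 4, 8, 9],
    [8, 9, 8, 6, 8, 9], [9, 9, 9, 9, 9, 9]], [[1, 3, 1, 2, 1, 3], [1, 3, 1, 3, 1, 3],
    [3, 3, 3, 3, 3, 3], [3, 3, 3, 3, 3, 3]], [[1, 7, 1, 2, 1, 3], [1, 7, 1, 4, 1, 7],
    [4, 7, 4, 5, 4, 7], [7, 7, 7, 7, 7, 7], [4, 7, 4, 6, 4, 7], [6, 7, 6, 7, 6, 7],
    [6, 7, 6, 7, 6, 7], [7, 7, 7, 7, 7, 7]]]
  fin :=
    [[false, true, true, false, false, true, true, false, true], [false, true, true],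
    [false, true, false, true, true, false, true]]
  lab :=
    [[⟨0, 1, 0, 0, false⟩, ⟨0, 0, 1, 1, false⟩, ⟨951055, 951059, 0, 1, true⟩,
    ⟨309015, 309019, 0, 1, false⟩, ⟨809015, 927055, 0, 1, false⟩, ⟨309015, 0, 1, 2, false⟩,
    ⟨809015, 0, 1, 2, false⟩, ⟨618030, 618037, 0, 2, false⟩, ⟨618030, 0, 1, 2, false⟩],
    [⟨0, 1, 0, 0, false⟩, ⟨0, 0, 1, 1, false⟩, ⟨309015, 309019, 0, 1, true⟩],
    [⟨0, 1, 0, 0, false⟩, ⟨0, 0, 1, 1, false⟩, ⟨309015, 309019, 0, 1, false⟩,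
    ⟨809015, 809019, 0, 1, true⟩, ⟨309015, 0, 1, 2, false⟩, ⟨618030, 618037, 0, 2, false⟩,
    ⟨618030, 0, 1, 2, false⟩]]

theorem sd_1_3_6_ok : OkP (1, 3, 6) sd_1_3_6.ok := STab.okP (by decide +kernel)

/-- the exact side rule of the triangle (1, 3, 8) -/
def sd_1_3_8 : STab where
  lo := [866024, 258818, 707105]
  hi := [866027, 258821, 707108]
  A := [9, 3, 7]
  T :=
    [[[1, 2, 1, 3, 1, 4], [1, 9, 1, 5, 1, 6], [9, 9, 9, 9, 9, 9], [5, 9, 5, 7, 5, 9],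
    [6, 9, 6, 9, 6, 9], [5, 9, 5, 8, 5, 9], [6, 9, 6, 9, 6, 9], [8, 9, 8, 4, 8, 9],
    [8, 9, 8, 6, 8, 9], [9, 9, 9, 9, 9, 9]], [[1, 3, 1, 2, 1, 3], [1, 3, 1, 3, 1, 3],
    [3, 3, 3, 3, 3, 3], [3, 3, 3, 3, 3, 3]], [[1, 7, 1, 2, 1, 3], [1, 7, 1, 4, 1, 7],
    [4, 7, 4, 5, 4, 7], [7, 7, 7, 7, 7, 7], [4, 7, 4, 6, 4, 7], [6, 7, 6, 7, 6, 7],
    [6, 7, 6, 7, 6, 7], [7, 7, 7, 7, 7, 7]]]
  fin :=
    [[false, true, true, false, false, true, true, false, true], [false, true, true],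
    [false, true, false, true, true, false, true]]
  lab :=
    [[⟨0, 1, 0, 0, false⟩, ⟨0, 0, 1, 1, false⟩, ⟨866024, 866028, 0, 1, true⟩,
    ⟨258818, 258822, 0, 1, false⟩, ⟨707105, 776464, 0, 1, false⟩, ⟨258818, 0, 1, 2, false⟩,
    ⟨707105, 0, 1, 2, false⟩, ⟨517636, 517643, 0, 2, false⟩, ⟨517636, 0, 1, 2, false⟩],
    [⟨0, 1, 0, 0, false⟩, ⟨0, 0, 1, 1, false⟩, ⟨258818, 258822, 0, 1, true⟩],
    [⟨0, 1, 0, 0, false⟩, ⟨0, 0, 1, 1, false⟩, ⟨258818, 258822, 0, 1, false⟩,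
    ⟨707105, 707109, 0, 1, true⟩, ⟨258818, 0, 1, 2, false⟩, ⟨517636, 517643, 0, 2, false⟩,
    ⟨517636, 0, 1, 2, false⟩]]

theorem sd_1_3_8_ok : OkP (1, 3, 8) sd_1_3_8.ok := STab.okP (by decide +kernel)

/-- the exact side rule of the triangle (1, 4, 5) -/
def sd_1_4_5 : STab where
  lo := [1000000, 309015, 951055]
  hi := [1000000, 309018, 951058]
  A := [9, 3, 9]
  T :=
    [[[1, 2, 1, 3, 1, 4], [1, 9, 1, 5, 1, 6], [9, 9, 9, 9, 9, 9], [5, 9, 5, 7, 5, 9],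
    [6, 9, 6, 9, 6, 9], [5, 9, 5, 8, 5, 9], [6, 9, 6, 9, 6, 9], [8, 9, 8, 4, 8, 9],
    [8, 9, 8, 6, 8, 9], [9, 9, 9, 9, 9, 9]], [[1, 3, 1, 2, 1, 3], [1, 3, 1, 3, 1, 3],
    [3, 3, 3, 3, 3, 3], [3, 3, 3, 3, 3, 3]], [[1, 9, 1, 2, 1, 3], [1, 9, 1, 4, 1, 9],
    [4, 9, 4, 5, 4, 9], [9, 9, 9, 9, 9, 9], [4, 9, 4, 6, 4, 9], [6, 9, 6, 7, 6, 9],
    [6, 9, 6, 8, 6, 9], [8, 9, 8, 9, 8, 9], [8, 9, 8, 9, 8, 9], [9, 9, 9, 9, 9, 9]]]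
  fin :=
    [[false, true, true, false, false, true, true, false, true], [false, true, true],
    [false, true, false, true, true, false, true, false, true]]
  lab :=
    [[⟨0, 1, 0, 0, false⟩, ⟨0, 0, 1, 1, false⟩, ⟨1000000, 1000001, 0, 1, true⟩,
    ⟨309015, 309019, 0, 1, false⟩, ⟨927045, 951059, 0, 1, false⟩, ⟨309015, 0, 1, 2, false⟩,
    ⟨927045, 0, 1, 2, false⟩, ⟨618030, 618037, 0, 2, false⟩, ⟨618030, 0, 1, 2, false⟩],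
    [⟨0, 1, 0, 0, false⟩, ⟨0, 0, 1, 1, false⟩, ⟨309015, 309019, 0, 1, true⟩],
    [⟨0, 1, 0, 0, false⟩, ⟨0, 0, 1, 1, false⟩, ⟨309015, 309019, 0, 1, false⟩,
    ⟨951055, 951059, 0, 1, true⟩, ⟨309015, 0, 1, 2, false⟩, ⟨618030, 618037, 0, 2, false⟩,
    ⟨618030, 0, 1, 2, false⟩, ⟨927045, 927055, 0, 2, false⟩, ⟨927045, 0, 1, 2, false⟩]]

theorem sd_1_4_5_ok : OkP (1, 4, 5) sd_1_4_5.ok := STab.okP (by decide +kernel)

/-- the exact side rule of the triangle (1, 4, 6) -/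
def sd_1_4_6 : STab where
  lo := [989820, 281731, 909630]
  hi := [989823, 281734, 909633]
  A := [9, 3, 9]
  T :=
    [[[1, 2, 1, 3, 1, 4], [1, 9, 1, 5, 1, 6], [9, 9, 9, 9, 9, 9], [5, 9, 5, 7, 5, 9],
    [6, 9, 6, 9, 6, 9], [5, 9, 5, 8, 5, 9], [6, 9, 6, 9, 6, 9], [8, 9, 8, 4, 8, 9],
    [8, 9, 8, 6, 8, 9], [9, 9, 9, 9, 9, 9]], [[1, 3, 1, 2, 1, 3], [1, 3, 1, 3, 1, 3],
    [3, 3, 3, 3, 3, 3], [3, 3, 3, 3, 3, 3]], [[1, 9, 1, 2, 1, 3], [1, 9, 1, 4, 1, 9],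
    [4, 9, 4, 5, 4, 9], [9, 9, 9, 9, 9, 9], [4, 9, 4, 6, 4, 9], [6, 9, 6, 7, 6, 9],
    [6, 9, 6, 8, 6, 9], [8, 9, 8, 9, 8, 9], [8, 9, 8, 9, 8, 9], [9, 9, 9, 9, 9, 9]]]
  fin :=
    [[false, true, true, false, false, true, true, false, true], [false, true, true],
    [false, true, false, true, true, false, true, false, true]]
  lab :=
    [[⟨0, 1, 0, 0, false⟩, ⟨0, 0, 1, 1, false⟩, ⟨989820, 989824, 0, 1, true⟩,
    ⟨281731, 281735, 0, 1, false⟩, ⟨845193, 909634, 0, 1, false⟩, ⟨281731, 0, 1, 2, false⟩,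
    ⟨845193, 0, 1, 2, false⟩, ⟨563462, 563469, 0, 2, false⟩, ⟨563462, 0, 1, 2, false⟩],
    [⟨0, 1, 0, 0, false⟩, ⟨0, 0, 1, 1, false⟩, ⟨281731, 281735, 0, 1, true⟩],
    [⟨0, 1, 0, 0, false⟩, ⟨0, 0, 1, 1, false⟩, ⟨281731, 281735, 0, 1, false⟩,
    ⟨909630, 909634, 0, 1, true⟩, ⟨281731, 0, 1, 2, false⟩, ⟨563462, 563469, 0, 2, false⟩,
    ⟨563462, 0, 1, 2, false⟩, ⟨845193, 845203, 0, 2, false⟩, ⟨845193, 0, 1, 2, false⟩]]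

theorem sd_1_4_6_ok : OkP (1, 4, 6) sd_1_4_6.ok := STab.okP (by decide +kernel)

/-- the exact side rule of the triangle (1, 4, 8) -/
def sd_1_4_8 : STab where
  lo := [935015, 239314, 822982]
  hi := [935018, 239317, 822985]
  A := [9, 3, 9]
  T :=
    [[[1, 2, 1, 3, 1, 4], [1, 9, 1, 5, 1, 6], [9, 9, 9, 9, 9, 9], [5, 9, 5, 7, 5, 9],
    [6, 9, 6, 9, 6, 9], [5, 9, 5, 8, 5, 9], [6, 9, 6, 9, 6, 9], [8, 9, 8, 4, 8, 9],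
    [8, 9, 8, 6, 8, 9], [9, 9, 9, 9, 9, 9]], [[1, 3, 1, 2, 1, 3], [1, 3, 1, 3, 1, 3],
    [3, 3, 3, 3, 3, 3], [3, 3, 3, 3, 3, 3]], [[1, 9, 1, 2, 1, 3], [1, 9, 1, 4, 1, 9],
    [4, 9, 4, 5, 4, 9], [9, 9, 9, 9, 9, 9], [4, 9, 4, 6, 4, 9], [6, 9, 6, 7, 6, 9],
    [6, 9, 6, 8, 6, 9], [8, 9, 8, 9, 8, 9], [8, 9, 8, 9, 8, 9], [9, 9, 9, 9, 9, 9]]]
  fin :=
    [[false, true, true, false, false, true, true, false, true], [false, true, true],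
    [false, true, false, true, true, false, true, false, true]]
  lab :=
    [[⟨0, 1, 0, 0, false⟩, ⟨0, 0, 1, 1, false⟩, ⟨935015, 935019, 0, 1, true⟩,
    ⟨239314, 239318, 0, 1, false⟩, ⟨717942, 822986, 0, 1, false⟩, ⟨239314, 0, 1, 2, false⟩,
    ⟨717942, 0, 1, 2, false⟩, ⟨478628, 478635, 0, 2, false⟩, ⟨478628, 0, 1, 2, false⟩],
    [⟨0, 1, 0, 0, false⟩, ⟨0, 0, 1, 1, false⟩, ⟨239314, 239318, 0, 1, true⟩],
    [⟨0, 1, 0, 0, false⟩, ⟨0, 0, 1, 1, false⟩, ⟨239314, 239318, 0, 1, false⟩,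
    ⟨822982, 822986, 0, 1, true⟩, ⟨239314, 0, 1, 2, false⟩, ⟨478628, 478635, 0, 2, false⟩,
    ⟨478628, 0, 1, 2, false⟩, ⟨717942, 717952, 0, 2, false⟩, ⟨717942, 0, 1, 2, false⟩]]

theorem sd_1_4_8_ok : OkP (1, 4, 8) sd_1_4_8.ok := STab.okP (by decide +kernel)

/-- the exact side rule of the triangle (1, 4, 9) -/
def sd_1_4_9 : STab where
  lo := [900967, 222519, 781830]
  hi := [900970, 222522, 781833]
  A := [11, 3, 9]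
  T :=
    [[[1, 2, 1, 3, 1, 4], [1, 11, 1, 5, 1, 6], [11, 11, 11, 11, 11, 11], [5, 11, 5, 7, 5, 11],
    [6, 11, 6, 11, 6, 11], [5, 11, 5, 8, 5, 11], [6, 11, 6, 11, 6, 11], [8, 11, 8, 9, 8, 11],
    [8, 11, 8, 10, 8, 11], [10, 11, 10, 4, 10, 11], [10, 11, 10, 6, 10, 11],
    [11, 11, 11, 11, 11, 11]], [[1, 3, 1, 2, 1, 3], [1, 3, 1, 3, 1, 3], [3, 3, 3, 3, 3, 3],
    [3, 3, 3, 3, 3, 3]], [[1, 9, 1, 2, 1, 3], [1, 9, 1, 4, 1, 9], [4, 9, 4, 5, 4, 9],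
    [9, 9, 9, 9, 9, 9], [4, 9, 4, 6, 4, 9], [6, 9, 6, 7, 6, 9], [6, 9, 6, 8, 6, 9],
    [8, 9, 8, 9, 8, 9], [8, 9, 8, 9, 8, 9], [9, 9, 9, 9, 9, 9]]]
  fin :=
    [[false, true, true, false, false, true, true, false, true, false, true],
    [false, true, true], [false, true, false, true, true, false, true, false, true]]
  lab :=
    [[⟨0, 1, 0, 0, false⟩, ⟨0, 0, 1, 1, false⟩, ⟨900967, 900971, 0, 1, true⟩,
    ⟨222519, 222523, 0, 1, false⟩, ⟨781830, 890089, 0, 1, false⟩, ⟨222519, 0, 1, 2, false⟩,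
    ⟨781830, 0, 1, 2, false⟩, ⟨445038, 445045, 0, 2, false⟩, ⟨445038, 0, 1, 2, false⟩,
    ⟨667557, 667567, 0, 2, false⟩, ⟨667557, 0, 1, 2, false⟩], [⟨0, 1, 0, 0, false⟩,
    ⟨0, 0, 1, 1, false⟩, ⟨222519, 222523, 0, 1, true⟩], [⟨0, 1, 0, 0, false⟩,
    ⟨0, 0, 1, 1, false⟩, ⟨222519, 222523, 0, 1, false⟩, ⟨781830, 781834, 0, 1, true⟩,
    ⟨222519, 0, 1, 2, false⟩, ⟨445038, 445045, 0, 2, false⟩, ⟨445038, 0, 1, 2, false⟩,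
    ⟨667557, 667567, 0, 2, false⟩, ⟨667557, 0, 1, 2, false⟩]]

theorem sd_1_4_9_ok : OkP (1, 4, 9) sd_1_4_9.ok := STab.okP (by decide +kernel)

/-- the exact side rule of the triangle (1, 4, 10) -/
def sd_1_4_10 : STab where
  lo := [866024, 207910, 743143]
  hi := [866027, 207913, 743146]
  A := [11, 3, 9]
  T :=
    [[[1, 2, 1, 3, 1, 4], [1, 11, 1, 5, 1, 6], [11, 11, 11, 11, 11, 11], [5, 11, 5, 7, 5, 11],
    [6, 11, 6, 11, 6, 11], [5, 11, 5, 8, 5, 11], [6, 11, 6, 11, 6, 11], [8, 11, 8, 9, 8, 11],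
    [8, 11, 8, 10, 8, 11], [10, 11, 10, 4, 10, 11], [10, 11, 10, 6, 10, 11],
    [11, 11, 11, 11, 11, 11]], [[1, 3, 1, 2, 1, 3], [1, 3, 1, 3, 1, 3], [3, 3, 3, 3, 3, 3],
    [3, 3, 3, 3, 3, 3]], [[1, 9, 1, 2, 1, 3], [1, 9, 1, 4, 1, 9], [4, 9, 4, 5, 4, 9],
    [9, 9, 9, 9, 9, 9], [4, 9, 4, 6, 4, 9], [6, 9, 6, 7, 6, 9], [6, 9, 6, 8, 6, 9],
    [8, 9, 8, 9, 8, 9], [8, 9, 8, 9, 8, 9], [9, 9, 9, 9, 9, 9]]]
  fin :=
    [[false, true, true, false, false, true, true, false, true, false, true],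
    [false, true, true], [false, true, false, true, true, false, true, false, true]]
  lab :=
    [[⟨0, 1, 0, 0, false⟩, ⟨0, 0, 1, 1, false⟩, ⟨866024, 866028, 0, 1, true⟩,
    ⟨207910, 207914, 0, 1, false⟩, ⟨743143, 831653, 0, 1, false⟩, ⟨207910, 0, 1, 2, false⟩,
    ⟨743143, 0, 1, 2, false⟩, ⟨415820, 415827, 0, 2, false⟩, ⟨415820, 0, 1, 2, false⟩,
    ⟨623730, 623740, 0, 2, false⟩, ⟨623730, 0, 1, 2, false⟩], [⟨0, 1, 0, 0, false⟩,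
    ⟨0, 0, 1, 1, false⟩, ⟨207910, 207914, 0, 1, true⟩], [⟨0, 1, 0, 0, false⟩,
    ⟨0, 0, 1, 1, false⟩, ⟨207910, 207914, 0, 1, false⟩, ⟨743143, 743147, 0, 1, true⟩,
    ⟨207910, 0, 1, 2, false⟩, ⟨415820, 415827, 0, 2, false⟩, ⟨415820, 0, 1, 2, false⟩,
    ⟨623730, 623740, 0, 2, false⟩, ⟨623730, 0, 1, 2, false⟩]]

theorem sd_1_4_10_ok : OkP (1, 4, 10) sd_1_4_10.ok := STab.okP (by decide +kernel)

/-- the exact side rule of the triangle (1, 5, 6) -/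
def sd_1_5_6 : STab where
  lo := [1000000, 258818, 965924]
  hi := [1000000, 258821, 965927]
  A := [9, 3, 9]
  T :=
    [[[1, 2, 1, 3, 1, 4], [1, 9, 1, 5, 1, 6], [9, 9, 9, 9, 9, 9], [5, 9, 5, 7, 5, 9],
    [6, 9, 6, 9, 6, 9], [5, 9, 5, 8, 5, 9], [6, 9, 6, 9, 6, 9], [8, 9, 8, 4, 8, 9],
    [8, 9, 8, 6, 8, 9], [9, 9, 9, 9, 9, 9]], [[1, 3, 1, 2, 1, 3], [1, 3, 1, 3, 1, 3],
    [3, 3, 3, 3, 3, 3], [3, 3, 3, 3, 3, 3]], [[1, 9, 1, 2, 1, 3], [1, 9, 1, 4, 1, 9],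
    [4, 9, 4, 5, 4, 9], [9, 9, 9, 9, 9, 9], [4, 9, 4, 6, 4, 9], [6, 9, 6, 7, 6, 9],
    [6, 9, 6, 8, 6, 9], [8, 9, 8, 9, 8, 9], [8, 9, 8, 9, 8, 9], [9, 9, 9, 9, 9, 9]]]
  fin :=
    [[false, true, true, false, false, true, true, false, true], [false, true, true],
    [false, true, false, true, true, false, true, false, true]]
  lab :=
    [[⟨0, 1, 0, 0, false⟩, ⟨0, 0, 1, 1, false⟩, ⟨1000000, 1000001, 0, 1, true⟩,
    ⟨258818, 258822, 0, 1, false⟩, ⟨776454, 965928, 0, 1, false⟩, ⟨258818, 0, 1, 2, false⟩,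
    ⟨776454, 0, 1, 2, false⟩, ⟨517636, 517643, 0, 2, false⟩, ⟨517636, 0, 1, 2, false⟩],
    [⟨0, 1, 0, 0, false⟩, ⟨0, 0, 1, 1, false⟩, ⟨258818, 258822, 0, 1, true⟩],
    [⟨0, 1, 0, 0, false⟩, ⟨0, 0, 1, 1, false⟩, ⟨258818, 258822, 0, 1, false⟩,
    ⟨965924, 965928, 0, 1, true⟩, ⟨258818, 0, 1, 2, false⟩, ⟨517636, 517643, 0, 2, false⟩,
    ⟨517636, 0, 1, 2, false⟩, ⟨776454, 776464, 0, 2, false⟩, ⟨776454, 0, 1, 2, false⟩]]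

theorem sd_1_5_6_ok : OkP (1, 5, 6) sd_1_5_6.ok := STab.okP (by decide +kernel)

/-- the exact side rule of the triangle (1, 5, 8) -/
def sd_1_5_8 : STab where
  lo := [974926, 222519, 900967]
  hi := [974929, 222522, 900970]
  A := [11, 3, 11]
  T :=
    [[[1, 2, 1, 3, 1, 4], [1, 11, 1, 5, 1, 6], [11, 11, 11, 11, 11, 11], [5, 11, 5, 7, 5, 11],
    [6, 11, 6, 11, 6, 11], [5, 11, 5, 8, 5, 11], [6, 11, 6, 11, 6, 11], [8, 11, 8, 9, 8, 11],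
    [8, 11, 8, 10, 8, 11], [10, 11, 10, 4, 10, 11], [10, 11, 10, 6, 10, 11],
    [11, 11, 11, 11, 11, 11]], [[1, 3, 1, 2, 1, 3], [1, 3, 1, 3, 1, 3], [3, 3, 3, 3, 3, 3],
    [3, 3, 3, 3, 3, 3]], [[1, 11, 1, 2, 1, 3], [1, 11, 1, 4, 1, 11], [4, 11, 4, 5, 4, 11],
    [11, 11, 11, 11, 11, 11], [4, 11, 4, 6, 4, 11], [6, 11, 6, 7, 6, 11], [6, 11, 6, 8, 6, 11],
    [8, 11, 8, 9, 8, 11], [8, 11, 8, 10, 8, 11], [10, 11, 10, 11, 10, 11],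
    [10, 11, 10, 11, 10, 11], [11, 11, 11, 11, 11, 11]]]
  fin :=
    [[false, true, true, false, false, true, true, false, true, false, true],
    [false, true, true],
    [false, true, false, true, true, false, true, false, true, false, true]]
  lab :=
    [[⟨0, 1, 0, 0, false⟩, ⟨0, 0, 1, 1, false⟩, ⟨974926, 974930, 0, 1, true⟩,
    ⟨222519, 222523, 0, 1, false⟩, ⟨890076, 900971, 0, 1, false⟩, ⟨222519, 0, 1, 2, false⟩,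
    ⟨890076, 0, 1, 2, false⟩, ⟨445038, 445045, 0, 2, false⟩, ⟨445038, 0, 1, 2, false⟩,
    ⟨667557, 667567, 0, 2, false⟩, ⟨667557, 0, 1, 2, false⟩], [⟨0, 1, 0, 0, false⟩,
    ⟨0, 0, 1, 1, false⟩, ⟨222519, 222523, 0, 1, true⟩], [⟨0, 1, 0, 0, false⟩,
    ⟨0, 0, 1, 1, false⟩, ⟨222519, 222523, 0, 1, false⟩, ⟨900967, 900971, 0, 1, true⟩,
    ⟨222519, 0, 1, 2, false⟩, ⟨445038, 445045, 0, 2, false⟩, ⟨445038, 0, 1, 2, false⟩,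
    ⟨667557, 667567, 0, 2, false⟩, ⟨667557, 0, 1, 2, false⟩, ⟨890076, 890089, 0, 2, false⟩,
    ⟨890076, 0, 1, 2, false⟩]]

theorem sd_1_5_8_ok : OkP (1, 5, 8) sd_1_5_8.ok := STab.okP (by decide +kernel)

/-- the exact side rule of the triangle (1, 5, 10) -/
def sd_1_5_10 : STab where
  lo := [923878, 195089, 831468]
  hi := [923881, 195092, 831471]
  A := [11, 3, 11]
  T :=
    [[[1, 2, 1, 3, 1, 4], [1, 11, 1, 5, 1, 6], [11, 11, 11, 11, 11, 11], [5, 11, 5, 7, 5, 11],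
    [6, 11, 6, 11, 6, 11], [5, 11, 5, 8, 5, 11], [6, 11, 6, 11, 6, 11], [8, 11, 8, 9, 8, 11],
    [8, 11, 8, 10, 8, 11], [10, 11, 10, 4, 10, 11], [10, 11, 10, 6, 10, 11],
    [11, 11, 11, 11, 11, 11]], [[1, 3, 1, 2, 1, 3], [1, 3, 1, 3, 1, 3], [3, 3, 3, 3, 3, 3],
    [3, 3, 3, 3, 3, 3]], [[1, 11, 1, 2, 1, 3], [1, 11, 1, 4, 1, 11], [4, 11, 4, 5, 4, 11],
    [11, 11, 11, 11, 11, 11], [4, 11, 4, 6, 4, 11], [6, 11, 6, 7, 6, 11], [6, 11, 6, 8, 6, 11],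
    [8, 11, 8, 9, 8, 11], [8, 11, 8, 10, 8, 11], [10, 11, 10, 11, 10, 11],
    [10, 11, 10, 11, 10, 11], [11, 11, 11, 11, 11, 11]]]
  fin :=
    [[false, true, true, false, false, true, true, false, true, false, true],
    [false, true, true],
    [false, true, false, true, true, false, true, false, true, false, true]]
  lab :=
    [[⟨0, 1, 0, 0, false⟩, ⟨0, 0, 1, 1, false⟩, ⟨923878, 923882, 0, 1, true⟩,
    ⟨195089, 195093, 0, 1, false⟩, ⟨780356, 831472, 0, 1, false⟩, ⟨195089, 0, 1, 2, false⟩,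
    ⟨780356, 0, 1, 2, false⟩, ⟨390178, 390185, 0, 2, false⟩, ⟨390178, 0, 1, 2, false⟩,
    ⟨585267, 585277, 0, 2, false⟩, ⟨585267, 0, 1, 2, false⟩], [⟨0, 1, 0, 0, false⟩,
    ⟨0, 0, 1, 1, false⟩, ⟨195089, 195093, 0, 1, true⟩], [⟨0, 1, 0, 0, false⟩,
    ⟨0, 0, 1, 1, false⟩, ⟨195089, 195093, 0, 1, false⟩, ⟨831468, 831472, 0, 1, true⟩,
    ⟨195089, 0, 1, 2, false⟩, ⟨390178, 390185, 0, 2, false⟩, ⟨390178, 0, 1, 2, false⟩,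
    ⟨585267, 585277, 0, 2, false⟩, ⟨585267, 0, 1, 2, false⟩, ⟨780356, 780369, 0, 2, false⟩,
    ⟨780356, 0, 1, 2, false⟩]]

theorem sd_1_5_10_ok : OkP (1, 5, 10) sd_1_5_10.ok := STab.okP (by decide +kernel)

/-- the exact side rule of the triangle (1, 5, 12) -/
def sd_1_5_12 : STab where
  lo := [866024, 173647, 766043]
  hi := [866027, 173650, 766046]
  A := [11, 3, 11]
  T :=
    [[[1, 2, 1, 3, 1, 4], [1, 11, 1, 5, 1, 6], [11, 11, 11, 11, 11, 11], [5, 11, 5, 7, 5, 11],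
    [6, 11, 6, 11, 6, 11], [5, 11, 5, 8, 5, 11], [6, 11, 6, 11, 6, 11], [8, 11, 8, 9, 8, 11],
    [8, 11, 8, 10, 8, 11], [10, 11, 10, 4, 10, 11], [10, 11, 10, 6, 10, 11],
    [11, 11, 11, 11, 11, 11]], [[1, 3, 1, 2, 1, 3], [1, 3, 1, 3, 1, 3], [3, 3, 3, 3, 3, 3],
    [3, 3, 3, 3, 3, 3]], [[1, 11, 1, 2, 1, 3], [1, 11, 1, 4, 1, 11], [4, 11, 4, 5, 4, 11],
    [11, 11, 11, 11, 11, 11], [4, 11, 4, 6, 4, 11], [6, 11, 6, 7, 6, 11], [6, 11, 6, 8, 6, 11],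
    [8, 11, 8, 9, 8, 11], [8, 11, 8, 10, 8, 11], [10, 11, 10, 11, 10, 11],
    [10, 11, 10, 11, 10, 11], [11, 11, 11, 11, 11, 11]]]
  fin :=
    [[false, true, true, false, false, true, true, false, true, false, true],
    [false, true, true],
    [false, true, false, true, true, false, true, false, true, false, true]]
  lab :=
    [[⟨0, 1, 0, 0, false⟩, ⟨0, 0, 1, 1, false⟩, ⟨866024, 866028, 0, 1, true⟩,
    ⟨173647, 173651, 0, 1, false⟩, ⟨694588, 766047, 0, 1, false⟩, ⟨173647, 0, 1, 2, false⟩,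
    ⟨694588, 0, 1, 2, false⟩, ⟨347294, 347301, 0, 2, false⟩, ⟨347294, 0, 1, 2, false⟩,
    ⟨520941, 520951, 0, 2, false⟩, ⟨520941, 0, 1, 2, false⟩], [⟨0, 1, 0, 0, false⟩,
    ⟨0, 0, 1, 1, false⟩, ⟨173647, 173651, 0, 1, true⟩], [⟨0, 1, 0, 0, false⟩,
    ⟨0, 0, 1, 1, false⟩, ⟨173647, 173651, 0, 1, false⟩, ⟨766043, 766047, 0, 1, true⟩,
    ⟨173647, 0, 1, 2, false⟩, ⟨347294, 347301, 0, 2, false⟩, ⟨347294, 0, 1, 2, false⟩,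
    ⟨520941, 520951, 0, 2, false⟩, ⟨520941, 0, 1, 2, false⟩, ⟨694588, 694601, 0, 2, false⟩,
    ⟨694588, 0, 1, 2, false⟩]]

theorem sd_1_5_12_ok : OkP (1, 5, 12) sd_1_5_12.ok := STab.okP (by decide +kernel)

/-- the exact side rule of the triangle (1, 6, 7) -/
def sd_1_6_7 : STab where
  lo := [1000000, 222519, 974926]
  hi := [1000000, 222522, 974929]
  A := [11, 3, 11]
  T :=
    [[[1, 2, 1, 3, 1, 4], [1, 11, 1, 5, 1, 6], [11, 11, 11, 11, 11, 11], [5, 11, 5, 7, 5, 11],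
    [6, 11, 6, 11, 6, 11], [5, 11, 5, 8, 5, 11], [6, 11, 6, 11, 6, 11], [8, 11, 8, 9, 8, 11],
    [8, 11, 8, 10, 8, 11], [10, 11, 10, 4, 10, 11], [10, 11, 10, 6, 10, 11],
    [11, 11, 11, 11, 11, 11]], [[1, 3, 1, 2, 1, 3], [1, 3, 1, 3, 1, 3], [3, 3, 3, 3, 3, 3],
    [3, 3, 3, 3, 3, 3]], [[1, 11, 1, 2, 1, 3], [1, 11, 1, 4, 1, 11], [4, 11, 4, 5, 4, 11],
    [11, 11, 11, 11, 11, 11], [4, 11, 4, 6, 4, 11], [6, 11, 6, 7, 6, 11], [6, 11, 6, 8, 6, 11],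
    [8, 11, 8, 9, 8, 11], [8, 11, 8, 10, 8, 11], [10, 11, 10, 11, 10, 11],
    [10, 11, 10, 11, 10, 11], [11, 11, 11, 11, 11, 11]]]
  fin :=
    [[false, true, true, false, false, true, true, false, true, false, true],
    [false, true, true],
    [false, true, false, true, true, false, true, false, true, false, true]]
  lab :=
    [[⟨0, 1, 0, 0, false⟩, ⟨0, 0, 1, 1, false⟩, ⟨1000000, 1000001, 0, 1, true⟩,
    ⟨222519, 222523, 0, 1, false⟩, ⟨890076, 974930, 0, 1, false⟩, ⟨222519, 0, 1, 2, false⟩,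
    ⟨890076, 0, 1, 2, false⟩, ⟨445038, 445045, 0, 2, false⟩, ⟨445038, 0, 1, 2, false⟩,
    ⟨667557, 667567, 0, 2, false⟩, ⟨667557, 0, 1, 2, false⟩], [⟨0, 1, 0, 0, false⟩,
    ⟨0, 0, 1, 1, false⟩, ⟨222519, 222523, 0, 1, true⟩], [⟨0, 1, 0, 0, false⟩,
    ⟨0, 0, 1, 1, false⟩, ⟨222519, 222523, 0, 1, false⟩, ⟨974926, 974930, 0, 1, true⟩,
    ⟨222519, 0, 1, 2, false⟩, ⟨445038, 445045, 0, 2, false⟩, ⟨445038, 0, 1, 2, false⟩,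
    ⟨667557, 667567, 0, 2, false⟩, ⟨667557, 0, 1, 2, false⟩, ⟨890076, 890089, 0, 2, false⟩,
    ⟨890076, 0, 1, 2, false⟩]]

theorem sd_1_6_7_ok : OkP (1, 6, 7) sd_1_6_7.ok := STab.okP (by decide +kernel)

/-- the exact side rule of the triangle (1, 6, 10) -/
def sd_1_6_10 : STab where
  lo := [961824, 183748, 895162]
  hi := [961827, 183751, 895165]
  A := [13, 3, 11]
  T :=
    [[[1, 2, 1, 3, 1, 4], [1, 13, 1, 5, 1, 6], [13, 13, 13, 13, 13, 13], [5, 13, 5, 7, 5, 13],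
    [6, 13, 6, 13, 6, 13], [5, 13, 5, 8, 5, 13], [6, 13, 6, 13, 6, 13], [8, 13, 8, 9, 8, 13],
    [8, 13, 8, 10, 8, 13], [10, 13, 10, 11, 10, 13], [10, 13, 10, 12, 10, 13],
    [12, 13, 12, 4, 12, 13], [12, 13, 12, 6, 12, 13], [13, 13, 13, 13, 13, 13]],
    [[1, 3, 1, 2, 1, 3], [1, 3, 1, 3, 1, 3], [3, 3, 3, 3, 3, 3], [3, 3, 3, 3, 3, 3]],
    [[1, 11, 1, 2, 1, 3], [1, 11, 1, 4, 1, 11], [4, 11, 4, 5, 4, 11], [11, 11, 11, 11, 11, 11],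
    [4, 11, 4, 6, 4, 11], [6, 11, 6, 7, 6, 11], [6, 11, 6, 8, 6, 11], [8, 11, 8, 9, 8, 11],
    [8, 11, 8, 10, 8, 11], [10, 11, 10, 11, 10, 11], [10, 11, 10, 11, 10, 11],
    [11, 11, 11, 11, 11, 11]]]
  fin :=
    [[false, true, true, false, false, true, true, false, true, false, true, false, true],
    [false, true, true],
    [false, true, false, true, true, false, true, false, true, false, true]]
  lab :=
    [[⟨0, 1, 0, 0, false⟩, ⟨0, 0, 1, 1, false⟩, ⟨961824, 961828, 0, 1, true⟩,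
    ⟨183748, 183752, 0, 1, false⟩, ⟨895162, 918756, 0, 1, false⟩, ⟨183748, 0, 1, 2, false⟩,
    ⟨895162, 0, 1, 2, false⟩, ⟨367496, 367503, 0, 2, false⟩, ⟨367496, 0, 1, 2, false⟩,
    ⟨551244, 551254, 0, 2, false⟩, ⟨551244, 0, 1, 2, false⟩, ⟨734992, 735005, 0, 2, false⟩,
    ⟨734992, 0, 1, 2, false⟩], [⟨0, 1, 0, 0, false⟩, ⟨0, 0, 1, 1, false⟩,
    ⟨183748, 183752, 0, 1, true⟩], [⟨0, 1, 0, 0, false⟩, ⟨0, 0, 1, 1, false⟩,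
    ⟨183748, 183752, 0, 1, false⟩, ⟨895162, 895166, 0, 1, true⟩, ⟨183748, 0, 1, 2, false⟩,
    ⟨367496, 367503, 0, 2, false⟩, ⟨367496, 0, 1, 2, false⟩, ⟨551244, 551254, 0, 2, false⟩,
    ⟨551244, 0, 1, 2, false⟩, ⟨734992, 735005, 0, 2, false⟩, ⟨734992, 0, 1, 2, false⟩]]

theorem sd_1_6_10_ok : OkP (1, 6, 10) sd_1_6_10.ok := STab.okP (by decide +kernel)

/-- the exact side rule of the triangle (1, 6, 12) -/
def sd_1_6_12 : STab where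
  lo := [915772, 164593, 837165]
  hi := [915775, 164596, 837168]
  A := [13, 3, 13]
  T :=
    [[[1, 2, 1, 3, 1, 4], [1, 13, 1, 5, 1, 6], [13, 13, 13, 13, 13, 13], [5, 13, 5, 7, 5, 13],
    [6, 13, 6, 13, 6, 13], [5, 13, 5, 8, 5, 13], [6, 13, 6, 13, 6, 13], [8, 13, 8, 9, 8, 13],
    [8, 13, 8, 10, 8, 13], [10, 13, 10, 11, 10, 13], [10, 13, 10, 12, 10, 13],
    [12, 13, 12, 4, 12, 13], [12, 13, 12, 6, 12, 13], [13, 13, 13, 13, 13, 13]],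
    [[1, 3, 1, 2, 1, 3], [1, 3, 1, 3, 1, 3], [3, 3, 3, 3, 3, 3], [3, 3, 3, 3, 3, 3]],
    [[1, 13, 1, 2, 1, 3], [1, 13, 1, 4, 1, 13], [4, 13, 4, 5, 4, 13], [13, 13, 13, 13, 13, 13],
    [4, 13, 4, 6, 4, 13], [6, 13, 6, 7, 6, 13], [6, 13, 6, 8, 6, 13], [8, 13, 8, 9, 8, 13],
    [8, 13, 8, 10, 8, 13], [10, 13, 10, 11, 10, 13], [10, 13, 10, 12, 10, 13],
    [12, 13, 12, 13, 12, 13], [12, 13, 12, 13, 12, 13], [13, 13, 13, 13, 13, 13]]]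
  fin :=
    [[false, true, true, false, false, true, true, false, true, false, true, false, true],
    [false, true, true],
    [false, true, false, true, true, false, true, false, true, false, true, false, true]]
  lab :=
    [[⟨0, 1, 0, 0, false⟩, ⟨0, 0, 1, 1, false⟩, ⟨915772, 915776, 0, 1, true⟩,
    ⟨164593, 164597, 0, 1, false⟩, ⟨822965, 837169, 0, 1, false⟩, ⟨164593, 0, 1, 2, false⟩,
    ⟨822965, 0, 1, 2, false⟩, ⟨329186, 329193, 0, 2, false⟩, ⟨329186, 0, 1, 2, false⟩,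
    ⟨493779, 493789, 0, 2, false⟩, ⟨493779, 0, 1, 2, false⟩, ⟨658372, 658385, 0, 2, false⟩,
    ⟨658372, 0, 1, 2, false⟩], [⟨0, 1, 0, 0, false⟩, ⟨0, 0, 1, 1, false⟩,
    ⟨164593, 164597, 0, 1, true⟩], [⟨0, 1, 0, 0, false⟩, ⟨0, 0, 1, 1, false⟩,
    ⟨164593, 164597, 0, 1, false⟩, ⟨837165, 837169, 0, 1, true⟩, ⟨164593, 0, 1, 2, false⟩,
    ⟨329186, 329193, 0, 2, false⟩, ⟨329186, 0, 1, 2, false⟩, ⟨493779, 493789, 0, 2, false⟩,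
    ⟨493779, 0, 1, 2, false⟩, ⟨658372, 658385, 0, 2, false⟩, ⟨658372, 0, 1, 2, false⟩,
    ⟨822965, 822981, 0, 2, false⟩, ⟨822965, 0, 1, 2, false⟩]]

theorem sd_1_6_12_ok : OkP (1, 6, 12) sd_1_6_12.ok := STab.okP (by decide +kernel)

/-- the exact side rule of the triangle (1, 6, 14) -/
def sd_1_6_14 : STab where
  lo := [866024, 149041, 781830]
  hi := [866027, 149044, 781833]
  A := [13, 3, 13]
  T :=
    [[[1, 2, 1, 3, 1, 4], [1, 13, 1, 5, 1, 6], [13, 13, 13, 13, 13, 13], [5, 13, 5, 7, 5, 13],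
    [6, 13, 6, 13, 6, 13], [5, 13, 5, 8, 5, 13], [6, 13, 6, 13, 6, 13], [8, 13, 8, 9, 8, 13],
    [8, 13, 8, 10, 8, 13], [10, 13, 10, 11, 10, 13], [10, 13, 10, 12, 10, 13],
    [12, 13, 12, 4, 12, 13], [12, 13, 12, 6, 12, 13], [13, 13, 13, 13, 13, 13]],
    [[1, 3, 1, 2, 1, 3], [1, 3, 1, 3, 1, 3], [3, 3, 3, 3, 3, 3], [3, 3, 3, 3, 3, 3]],
    [[1, 13, 1, 2, 1, 3], [1, 13, 1, 4, 1, 13], [4, 13, 4, 5, 4, 13], [13, 13, 13, 13, 13, 13],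
    [4, 13, 4, 6, 4, 13], [6, 13, 6, 7, 6, 13], [6, 13, 6, 8, 6, 13], [8, 13, 8, 9, 8, 13],
    [8, 13, 8, 10, 8, 13], [10, 13, 10, 11, 10, 13], [10, 13, 10, 12, 10, 13],
    [12, 13, 12, 13, 12, 13], [12, 13, 12, 13, 12, 13], [13, 13, 13, 13, 13, 13]]]
  fin :=
    [[false, true, true, false, false, true, true, false, true, false, true, false, true],
    [false, true, true],
    [false, true, false, true, true, false, true, false, true, false, true, false, true]]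
  lab :=
    [[⟨0, 1, 0, 0, false⟩, ⟨0, 0, 1, 1, false⟩, ⟨866024, 866028, 0, 1, true⟩,
    ⟨149041, 149045, 0, 1, false⟩, ⟨745205, 781834, 0, 1, false⟩, ⟨149041, 0, 1, 2, false⟩,
    ⟨745205, 0, 1, 2, false⟩, ⟨298082, 298089, 0, 2, false⟩, ⟨298082, 0, 1, 2, false⟩,
    ⟨447123, 447133, 0, 2, false⟩, ⟨447123, 0, 1, 2, false⟩, ⟨596164, 596177, 0, 2, false⟩,
    ⟨596164, 0, 1, 2, false⟩], [⟨0, 1, 0, 0, false⟩, ⟨0, 0, 1, 1, false⟩,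
    ⟨149041, 149045, 0, 1, true⟩], [⟨0, 1, 0, 0, false⟩, ⟨0, 0, 1, 1, false⟩,
    ⟨149041, 149045, 0, 1, false⟩, ⟨781830, 781834, 0, 1, true⟩, ⟨149041, 0, 1, 2, false⟩,
    ⟨298082, 298089, 0, 2, false⟩, ⟨298082, 0, 1, 2, false⟩, ⟨447123, 447133, 0, 2, false⟩,
    ⟨447123, 0, 1, 2, false⟩, ⟨596164, 596177, 0, 2, false⟩, ⟨596164, 0, 1, 2, false⟩,
    ⟨745205, 745221, 0, 2, false⟩, ⟨745205, 0, 1, 2, false⟩]]

theorem sd_1_6_14_ok : OkP (1, 6, 14) sd_1_6_14.ok := STab.okP (by decide +kernel)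

/-- the exact side rule of the triangle (1, 7, 8) -/
def sd_1_7_8 : STab where
  lo := [1000000, 195089, 980784]
  hi := [1000000, 195092, 980787]
  A := [13, 3, 13]
  T :=
    [[[1, 2, 1, 3, 1, 4], [1, 13, 1, 5, 1, 6], [13, 13, 13, 13, 13, 13], [5, 13, 5, 7, 5, 13],
    [6, 13, 6, 13, 6, 13], [5, 13, 5, 8, 5, 13], [6, 13, 6, 13, 6, 13], [8, 13, 8, 9, 8, 13],
    [8, 13, 8, 10, 8, 13], [10, 13, 10, 11, 10, 13], [10, 13, 10, 12, 10, 13],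
    [12, 13, 12, 4, 12, 13], [12, 13, 12, 6, 12, 13], [13, 13, 13, 13, 13, 13]],
    [[1, 3, 1, 2, 1, 3], [1, 3, 1, 3, 1, 3], [3, 3, 3, 3, 3, 3], [3, 3, 3, 3, 3, 3]],
    [[1, 13, 1, 2, 1, 3], [1, 13, 1, 4, 1, 13], [4, 13, 4, 5, 4, 13], [13, 13, 13, 13, 13, 13],
    [4, 13, 4, 6, 4, 13], [6, 13, 6, 7, 6, 13], [6, 13, 6, 8, 6, 13], [8, 13, 8, 9, 8, 13],
    [8, 13, 8, 10, 8, 13], [10, 13, 10, 11, 10, 13], [10, 13, 10, 12, 10, 13],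
    [12, 13, 12, 13, 12, 13], [12, 13, 12, 13, 12, 13], [13, 13, 13, 13, 13, 13]]]
  fin :=
    [[false, true, true, false, false, true, true, false, true, false, true, false, true],
    [false, true, true],
    [false, true, false, true, true, false, true, false, true, false, true, false, true]]
  lab :=
    [[⟨0, 1, 0, 0, false⟩, ⟨0, 0, 1, 1, false⟩, ⟨1000000, 1000001, 0, 1, true⟩,
    ⟨195089, 195093, 0, 1, false⟩, ⟨975445, 980788, 0, 1, false⟩, ⟨195089, 0, 1, 2, false⟩,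
    ⟨975445, 0, 1, 2, false⟩, ⟨390178, 390185, 0, 2, false⟩, ⟨390178, 0, 1, 2, false⟩,
    ⟨585267, 585277, 0, 2, false⟩, ⟨585267, 0, 1, 2, false⟩, ⟨780356, 780369, 0, 2, false⟩,
    ⟨780356, 0, 1, 2, false⟩], [⟨0, 1, 0, 0, false⟩, ⟨0, 0, 1, 1, false⟩,
    ⟨195089, 195093, 0, 1, true⟩], [⟨0, 1, 0, 0, false⟩, ⟨0, 0, 1, 1, false⟩,
    ⟨195089, 195093, 0, 1, false⟩, ⟨980784, 980788, 0, 1, true⟩, ⟨195089, 0, 1, 2, false⟩,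
    ⟨390178, 390185, 0, 2, false⟩, ⟨390178, 0, 1, 2, false⟩, ⟨585267, 585277, 0, 2, false⟩,
    ⟨585267, 0, 1, 2, false⟩, ⟨780356, 780369, 0, 2, false⟩, ⟨780356, 0, 1, 2, false⟩,
    ⟨975445, 975461, 0, 2, false⟩, ⟨975445, 0, 1, 2, false⟩]]

theorem sd_1_7_8_ok : OkP (1, 7, 8) sd_1_7_8.ok := STab.okP (by decide +kernel)

/-- the exact side rule of the triangle (1, 7, 12) -/
def sd_1_7_12 : STab where
  lo := [951055, 156433, 891005]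
  hi := [951058, 156436, 891008]
  A := [15, 3, 13]
  T :=
    [[[1, 2, 1, 3, 1, 4], [1, 15, 1, 5, 1, 6], [15, 15, 15, 15, 15, 15], [5, 15, 5, 7, 5, 15],
    [6, 15, 6, 15, 6, 15], [5, 15, 5, 8, 5, 15], [6, 15, 6, 15, 6, 15], [8, 15, 8, 9, 8, 15],
    [8, 15, 8, 10, 8, 15], [10, 15, 10, 11, 10, 15], [10, 15, 10, 12, 10, 15],
    [12, 15, 12, 13, 12, 15], [12, 15, 12, 14, 12, 15], [14, 15, 14, 4, 14, 15],
    [14, 15, 14, 6, 14, 15], [15, 15, 15, 15, 15, 15]], [[1, 3, 1, 2, 1, 3],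
    [1, 3, 1, 3, 1, 3], [3, 3, 3, 3, 3, 3], [3, 3, 3, 3, 3, 3]], [[1, 13, 1, 2, 1, 3],
    [1, 13, 1, 4, 1, 13], [4, 13, 4, 5, 4, 13], [13, 13, 13, 13, 13, 13], [4, 13, 4, 6, 4, 13],
    [6, 13, 6, 7, 6, 13], [6, 13, 6, 8, 6, 13], [8, 13, 8, 9, 8, 13], [8, 13, 8, 10, 8, 13],
    [10, 13, 10, 11, 10, 13], [10, 13, 10, 12, 10, 13], [12, 13, 12, 13, 12, 13],
    [12, 13, 12, 13, 12, 13], [13, 13, 13, 13, 13, 13]]]
  fin :=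
    [[false, true, true, false, false, true, true, false, true, false, true, false, true, false, true],
    [false, true, true],
    [false, true, false, true, true, false, true, false, true, false, true, false, true]]
  lab :=
    [[⟨0, 1, 0, 0, false⟩, ⟨0, 0, 1, 1, false⟩, ⟨951055, 951059, 0, 1, true⟩,
    ⟨156433, 156437, 0, 1, false⟩, ⟨891005, 938617, 0, 1, false⟩, ⟨156433, 0, 1, 2, false⟩,
    ⟨891005, 0, 1, 2, false⟩, ⟨312866, 312873, 0, 2, false⟩, ⟨312866, 0, 1, 2, false⟩,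
    ⟨469299, 469309, 0, 2, false⟩, ⟨469299, 0, 1, 2, false⟩, ⟨625732, 625745, 0, 2, false⟩,
    ⟨625732, 0, 1, 2, false⟩, ⟨782165, 782181, 0, 2, false⟩, ⟨782165, 0, 1, 2, false⟩],
    [⟨0, 1, 0, 0, false⟩, ⟨0, 0, 1, 1, false⟩, ⟨156433, 156437, 0, 1, true⟩],
    [⟨0, 1, 0, 0, false⟩, ⟨0, 0, 1, 1, false⟩, ⟨156433, 156437, 0, 1, false⟩,
    ⟨891005, 891009, 0, 1, true⟩, ⟨156433, 0, 1, 2, false⟩, ⟨312866, 312873, 0, 2, false⟩,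
    ⟨312866, 0, 1, 2, false⟩, ⟨469299, 469309, 0, 2, false⟩, ⟨469299, 0, 1, 2, false⟩,
    ⟨625732, 625745, 0, 2, false⟩, ⟨625732, 0, 1, 2, false⟩, ⟨782165, 782181, 0, 2, false⟩,
    ⟨782165, 0, 1, 2, false⟩]]

theorem sd_1_7_12_ok : OkP (1, 7, 12) sd_1_7_12.ok := STab.okP (by decide +kernel)

/-- the exact side rule of the triangle (1, 7, 14) -/
def sd_1_7_14 : STab where
  lo := [909630, 142313, 841252]
  hi := [909633, 142316, 841255]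
  A := [15, 3, 13]
  T :=
    [[[1, 2, 1, 3, 1, 4], [1, 15, 1, 5, 1, 6], [15, 15, 15, 15, 15, 15], [5, 15, 5, 7, 5, 15],
    [6, 15, 6, 15, 6, 15], [5, 15, 5, 8, 5, 15], [6, 15, 6, 15, 6, 15], [8, 15, 8, 9, 8, 15],
    [8, 15, 8, 10, 8, 15], [10, 15, 10, 11, 10, 15], [10, 15, 10, 12, 10, 15],
    [12, 15, 12, 13, 12, 15], [12, 15, 12, 14, 12, 15], [14, 15, 14, 4, 14, 15],
    [14, 15, 14, 6, 14, 15], [15, 15, 15, 15, 15, 15]], [[1, 3, 1, 2, 1, 3],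
    [1, 3, 1, 3, 1, 3], [3, 3, 3, 3, 3, 3], [3, 3, 3, 3, 3, 3]], [[1, 13, 1, 2, 1, 3],
    [1, 13, 1, 4, 1, 13], [4, 13, 4, 5, 4, 13], [13, 13, 13, 13, 13, 13], [4, 13, 4, 6, 4, 13],
    [6, 13, 6, 7, 6, 13], [6, 13, 6, 8, 6, 13], [8, 13, 8, 9, 8, 13], [8, 13, 8, 10, 8, 13],
    [10, 13, 10, 11, 10, 13], [10, 13, 10, 12, 10, 13], [12, 13, 12, 13, 12, 13],
    [12, 13, 12, 13, 12, 13], [13, 13, 13, 13, 13, 13]]]
  fin :=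
    [[false, true, true, false, false, true, true, false, true, false, true, false, true, false, true],
    [false, true, true],
    [false, true, false, true, true, false, true, false, true, false, true, false, true]]
  lab :=
    [[⟨0, 1, 0, 0, false⟩, ⟨0, 0, 1, 1, false⟩, ⟨909630, 909634, 0, 1, true⟩,
    ⟨142313, 142317, 0, 1, false⟩, ⟨841252, 853897, 0, 1, false⟩, ⟨142313, 0, 1, 2, false⟩,
    ⟨841252, 0, 1, 2, false⟩, ⟨284626, 284633, 0, 2, false⟩, ⟨284626, 0, 1, 2, false⟩,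
    ⟨426939, 426949, 0, 2, false⟩, ⟨426939, 0, 1, 2, false⟩, ⟨569252, 569265, 0, 2, false⟩,
    ⟨569252, 0, 1, 2, false⟩, ⟨711565, 711581, 0, 2, false⟩, ⟨711565, 0, 1, 2, false⟩],
    [⟨0, 1, 0, 0, false⟩, ⟨0, 0, 1, 1, false⟩, ⟨142313, 142317, 0, 1, true⟩],
    [⟨0, 1, 0, 0, false⟩, ⟨0, 0, 1, 1, false⟩, ⟨142313, 142317, 0, 1, false⟩,
    ⟨841252, 841256, 0, 1, true⟩, ⟨142313, 0, 1, 2, false⟩, ⟨284626, 284633, 0, 2, false⟩,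
    ⟨284626, 0, 1, 2, false⟩, ⟨426939, 426949, 0, 2, false⟩, ⟨426939, 0, 1, 2, false⟩,
    ⟨569252, 569265, 0, 2, false⟩, ⟨569252, 0, 1, 2, false⟩, ⟨711565, 711581, 0, 2, false⟩,
    ⟨711565, 0, 1, 2, false⟩]]

theorem sd_1_7_14_ok : OkP (1, 7, 14) sd_1_7_14.ok := STab.okP (by decide +kernel)

/-- the exact side rule of the triangle (1, 7, 16) -/
def sd_1_7_16 : STab where
  lo := [866024, 130525, 793352]
  hi := [866027, 130528, 793355]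
  A := [15, 3, 15]
  T :=
    [[[1, 2, 1, 3, 1, 4], [1, 15, 1, 5, 1, 6], [15, 15, 15, 15, 15, 15], [5, 15, 5, 7, 5, 15],
    [6, 15, 6, 15, 6, 15], [5, 15, 5, 8, 5, 15], [6, 15, 6, 15, 6, 15], [8, 15, 8, 9, 8, 15],
    [8, 15, 8, 10, 8, 15], [10, 15, 10, 11, 10, 15], [10, 15, 10, 12, 10, 15],
    [12, 15, 12, 13, 12, 15], [12, 15, 12, 14, 12, 15], [14, 15, 14, 4, 14, 15],
    [14, 15, 14, 6, 14, 15], [15, 15, 15, 15, 15, 15]], [[1, 3, 1, 2, 1, 3],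
    [1, 3, 1, 3, 1, 3], [3, 3, 3, 3, 3, 3], [3, 3, 3, 3, 3, 3]], [[1, 15, 1, 2, 1, 3],
    [1, 15, 1, 4, 1, 15], [4, 15, 4, 5, 4, 15], [15, 15, 15, 15, 15, 15], [4, 15, 4, 6, 4, 15],
    [6, 15, 6, 7, 6, 15], [6, 15, 6, 8, 6, 15], [8, 15, 8, 9, 8, 15], [8, 15, 8, 10, 8, 15],
    [10, 15, 10, 11, 10, 15], [10, 15, 10, 12, 10, 15], [12, 15, 12, 13, 12, 15],
    [12, 15, 12, 14, 12, 15], [14, 15, 14, 15, 14, 15], [14, 15, 14, 15, 14, 15],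
    [15, 15, 15, 15, 15, 15]]]
  fin :=
    [[false, true, true, false, false, true, true, false, true, false, true, false, true, false, true],
    [false, true, true],
    [false, true, false, true, true, false, true, false, true, false, true, false, true, false, true]]
  lab :=
    [[⟨0, 1, 0, 0, false⟩, ⟨0, 0, 1, 1, false⟩, ⟨866024, 866028, 0, 1, true⟩,
    ⟨130525, 130529, 0, 1, false⟩, ⟨783150, 793356, 0, 1, false⟩, ⟨130525, 0, 1, 2, false⟩,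
    ⟨783150, 0, 1, 2, false⟩, ⟨261050, 261057, 0, 2, false⟩, ⟨261050, 0, 1, 2, false⟩,
    ⟨391575, 391585, 0, 2, false⟩, ⟨391575, 0, 1, 2, false⟩, ⟨522100, 522113, 0, 2, false⟩,
    ⟨522100, 0, 1, 2, false⟩, ⟨652625, 652641, 0, 2, false⟩, ⟨652625, 0, 1, 2, false⟩],
    [⟨0, 1, 0, 0, false⟩, ⟨0, 0, 1, 1, false⟩, ⟨130525, 130529, 0, 1, true⟩],
    [⟨0, 1, 0, 0, false⟩, ⟨0, 0, 1, 1, false⟩, ⟨130525, 130529, 0, 1, false⟩,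
    ⟨793352, 793356, 0, 1, true⟩, ⟨130525, 0, 1, 2, false⟩, ⟨261050, 261057, 0, 2, false⟩,
    ⟨261050, 0, 1, 2, false⟩, ⟨391575, 391585, 0, 2, false⟩, ⟨391575, 0, 1, 2, false⟩,
    ⟨522100, 522113, 0, 2, false⟩, ⟨522100, 0, 1, 2, false⟩, ⟨652625, 652641, 0, 2, false⟩,
    ⟨652625, 0, 1, 2, false⟩, ⟨783150, 783169, 0, 2, false⟩, ⟨783150, 0, 1, 2, false⟩]]

theorem sd_1_7_16_ok : OkP (1, 7, 16) sd_1_7_16.ok := STab.okP (by decide +kernel)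

/-- the exact side rule of the triangle (1, 8, 9) -/
def sd_1_8_9 : STab where
  lo := [1000000, 173647, 984806]
  hi := [1000000, 173650, 984809]
  A := [13, 3, 13]
  T :=
    [[[1, 2, 1, 3, 1, 4], [1, 13, 1, 5, 1, 6], [13, 13, 13, 13, 13, 13], [5, 13, 5, 7, 5, 13],
    [6, 13, 6, 13, 6, 13], [5, 13, 5, 8, 5, 13], [6, 13, 6, 13, 6, 13], [8, 13, 8, 9, 8, 13],
    [8, 13, 8, 10, 8, 13], [10, 13, 10, 11, 10, 13], [10, 13, 10, 12, 10, 13],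
    [12, 13, 12, 4, 12, 13], [12, 13, 12, 6, 12, 13], [13, 13, 13, 13, 13, 13]],
    [[1, 3, 1, 2, 1, 3], [1, 3, 1, 3, 1, 3], [3, 3, 3, 3, 3, 3], [3, 3, 3, 3, 3, 3]],
    [[1, 13, 1, 2, 1, 3], [1, 13, 1, 4, 1, 13], [4, 13, 4, 5, 4, 13], [13, 13, 13, 13, 13, 13],
    [4, 13, 4, 6, 4, 13], [6, 13, 6, 7, 6, 13], [6, 13, 6, 8, 6, 13], [8, 13, 8, 9, 8, 13],
    [8, 13, 8, 10, 8, 13], [10, 13, 10, 11, 10, 13], [10, 13, 10, 12, 10, 13],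
    [12, 13, 12, 13, 12, 13], [12, 13, 12, 13, 12, 13], [13, 13, 13, 13, 13, 13]]]
  fin :=
    [[false, true, true, false, false, true, true, false, true, false, true, false, true],
    [false, true, true],
    [false, true, false, true, true, false, true, false, true, false, true, false, true]]
  lab :=
    [[⟨0, 1, 0, 0, false⟩, ⟨0, 0, 1, 1, false⟩, ⟨1000000, 1000001, 0, 1, true⟩,
    ⟨173647, 173651, 0, 1, false⟩, ⟨868235, 984810, 0, 1, false⟩, ⟨173647, 0, 1, 2, false⟩,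
    ⟨868235, 0, 1, 2, false⟩, ⟨347294, 347301, 0, 2, false⟩, ⟨347294, 0, 1, 2, false⟩,
    ⟨520941, 520951, 0, 2, false⟩, ⟨520941, 0, 1, 2, false⟩, ⟨694588, 694601, 0, 2, false⟩,
    ⟨694588, 0, 1, 2, false⟩], [⟨0, 1, 0, 0, false⟩, ⟨0, 0, 1, 1, false⟩,
    ⟨173647, 173651, 0, 1, true⟩], [⟨0, 1, 0, 0, false⟩, ⟨0, 0, 1, 1, false⟩,
    ⟨173647, 173651, 0, 1, false⟩, ⟨984806, 984810, 0, 1, true⟩, ⟨173647, 0, 1, 2, false⟩,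
    ⟨347294, 347301, 0, 2, false⟩, ⟨347294, 0, 1, 2, false⟩, ⟨520941, 520951, 0, 2, false⟩,
    ⟨520941, 0, 1, 2, false⟩, ⟨694588, 694601, 0, 2, false⟩, ⟨694588, 0, 1, 2, false⟩,
    ⟨868235, 868251, 0, 2, false⟩, ⟨868235, 0, 1, 2, false⟩]]

theorem sd_1_8_9_ok : OkP (1, 8, 9) sd_1_8_9.ok := STab.okP (by decide +kernel)

end Pool.Agent.NNc
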