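import Pool.Agent.NNc.OkTab

/-!
# Side rules of the rational triangles: tables (generated)
-/

namespace Pool.Agent.NNc

/-- the exact side rule of the triangle (1, 8, 14) -/
def sd_1_8_14 : STab where
  lo := [942259, 136165, 887884]
  hi := [942262, 136168, 887887]
  A := [15, 3, 15]
  T :=
    [[[1, 2, 1, 3, 1, 4], [1, 15, 1, 5, 1, 6], [15, 15, 15, 15, 15, 15], [5, 15, 5, 7, 5, 15],
    [6, 15, 6, 15, 6, 15], [5, 15, 5, 8, 5, 15], [6, 15, 6, 15, 6, 15], [8, 15, 8, 9, 8, 15],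
    [8, 15, 8, 10, 8, 15], [10, 15, 10, 11, 10, 15], [10, 15, 10, 12, 10, 15],
    [12, 15, 12, 13, 12, 15], [12, 15, 12, 14, 12, 15], [14, 15, 14, 4, 14, 15],
    [14, 15, 14, 6, 14, 15], [15, 15, 15, 15, 15, 15]], [[1, 3, 1, 2, 1, 3],
    [1, 3, 1, 3, 1, 3], [3, 3, 3, 3, 3, 3], [3, 3, 3, 3, 3, 3]], [[1, 15, 1, 2, 1, 3],
    [1, 15, 1, 4, 1, 15], [4, 15, 4, 5, 4, 15], [15, 15, 15, 15, 15, 15], [4, 15, 4, 6, 4, 15],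
    [6, 15, 6, 7, 6, 15], [6, 15, 6, 8, 6, 15], [8, 15, 8, 9, 8, 15], [8, 15, 8, 10, 8, 15],
    [10, 15, 10, 11, 10, 15], [10, 15, 10, 12, 10, 15], [12, 15, 12, 13, 12, 15],
    [12, 15, 12, 14, 12, 15], [14, 15, 14, 15, 14, 15], [14, 15, 14, 15, 14, 15],
    [15, 15, 15, 15, 15, 15]]]
  fin :=
    [[false, true, true, false, false, true, true, false, true, false, true, false, true, false, true],
    [false, true, true],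
    [false, true, false, true, true, false, true, false, true, false, true, false, true, false, true]]
  lab :=
    [[⟨0, 1, 0, 0, false⟩, ⟨0, 0, 1, 1, false⟩, ⟨942259, 942263, 0, 1, true⟩,
    ⟨136165, 136169, 0, 1, false⟩, ⟨816990, 887888, 0, 1, false⟩, ⟨136165, 0, 1, 2, false⟩,
    ⟨816990, 0, 1, 2, false⟩, ⟨272330, 272337, 0, 2, false⟩, ⟨272330, 0, 1, 2, false⟩,
    ⟨408495, 408505, 0, 2, false⟩, ⟨408495, 0, 1, 2, false⟩, ⟨544660, 544673, 0, 2, false⟩,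
    ⟨544660, 0, 1, 2, false⟩, ⟨680825, 680841, 0, 2, false⟩, ⟨680825, 0, 1, 2, false⟩],
    [⟨0, 1, 0, 0, false⟩, ⟨0, 0, 1, 1, false⟩, ⟨136165, 136169, 0, 1, true⟩],
    [⟨0, 1, 0, 0, false⟩, ⟨0, 0, 1, 1, false⟩, ⟨136165, 136169, 0, 1, false⟩,
    ⟨887884, 887888, 0, 1, true⟩, ⟨136165, 0, 1, 2, false⟩, ⟨272330, 272337, 0, 2, false⟩,
    ⟨272330, 0, 1, 2, false⟩, ⟨408495, 408505, 0, 2, false⟩, ⟨408495, 0, 1, 2, false⟩,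
    ⟨544660, 544673, 0, 2, false⟩, ⟨544660, 0, 1, 2, false⟩, ⟨680825, 680841, 0, 2, false⟩,
    ⟨680825, 0, 1, 2, false⟩, ⟨816990, 817009, 0, 2, false⟩, ⟨816990, 0, 1, 2, false⟩]]

theorem sd_1_8_14_ok : OkP (1, 8, 14) sd_1_8_14.ok := STab.okP (by decide +kernel)

/-- the exact side rule of the triangle (1, 8, 16) -/
def sd_1_8_16 : STab where
  lo := [904826, 125332, 844326]
  hi := [904829, 125335, 844329]
  A := [17, 3, 15]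
  T :=
    [[[1, 2, 1, 3, 1, 4], [1, 17, 1, 5, 1, 6], [17, 17, 17, 17, 17, 17], [5, 17, 5, 7, 5, 17],
    [6, 17, 6, 17, 6, 17], [5, 17, 5, 8, 5, 17], [6, 17, 6, 17, 6, 17], [8, 17, 8, 9, 8, 17],
    [8, 17, 8, 10, 8, 17], [10, 17, 10, 11, 10, 17], [10, 17, 10, 12, 10, 17],
    [12, 17, 12, 13, 12, 17], [12, 17, 12, 14, 12, 17], [14, 17, 14, 15, 14, 17],
    [14, 17, 14, 16, 14, 17], [16, 17, 16, 4, 16, 17], [16, 17, 16, 6, 16, 17],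
    [17, 17, 17, 17, 17, 17]], [[1, 3, 1, 2, 1, 3], [1, 3, 1, 3, 1, 3], [3, 3, 3, 3, 3, 3],
    [3, 3, 3, 3, 3, 3]], [[1, 15, 1, 2, 1, 3], [1, 15, 1, 4, 1, 15], [4, 15, 4, 5, 4, 15],
    [15, 15, 15, 15, 15, 15], [4, 15, 4, 6, 4, 15], [6, 15, 6, 7, 6, 15], [6, 15, 6, 8, 6, 15],
    [8, 15, 8, 9, 8, 15], [8, 15, 8, 10, 8, 15], [10, 15, 10, 11, 10, 15],
    [10, 15, 10, 12, 10, 15], [12, 15, 12, 13, 12, 15], [12, 15, 12, 14, 12, 15],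
    [14, 15, 14, 15, 14, 15], [14, 15, 14, 15, 14, 15], [15, 15, 15, 15, 15, 15]]]
  fin :=
    [[false, true, true, false, false, true, true, false, true, false, true, false, true, false, true, false, true],
    [false, true, true],
    [false, true, false, true, true, false, true, false, true, false, true, false, true, false, true]]
  lab :=
    [[⟨0, 1, 0, 0, false⟩, ⟨0, 0, 1, 1, false⟩, ⟨904826, 904830, 0, 1, true⟩,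
    ⟨125332, 125336, 0, 1, false⟩, ⟨844326, 877346, 0, 1, false⟩, ⟨125332, 0, 1, 2, false⟩,
    ⟨844326, 0, 1, 2, false⟩, ⟨250664, 250671, 0, 2, false⟩, ⟨250664, 0, 1, 2, false⟩,
    ⟨375996, 376006, 0, 2, false⟩, ⟨375996, 0, 1, 2, false⟩, ⟨501328, 501341, 0, 2, false⟩,
    ⟨501328, 0, 1, 2, false⟩, ⟨626660, 626676, 0, 2, false⟩, ⟨626660, 0, 1, 2, false⟩,
    ⟨751992, 752011, 0, 2, false⟩, ⟨751992, 0, 1, 2, false⟩], [⟨0, 1, 0, 0, false⟩,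
    ⟨0, 0, 1, 1, false⟩, ⟨125332, 125336, 0, 1, true⟩], [⟨0, 1, 0, 0, false⟩,
    ⟨0, 0, 1, 1, false⟩, ⟨125332, 125336, 0, 1, false⟩, ⟨844326, 844330, 0, 1, true⟩,
    ⟨125332, 0, 1, 2, false⟩, ⟨250664, 250671, 0, 2, false⟩, ⟨250664, 0, 1, 2, false⟩,
    ⟨375996, 376006, 0, 2, false⟩, ⟨375996, 0, 1, 2, false⟩, ⟨501328, 501341, 0, 2, false⟩,
    ⟨501328, 0, 1, 2, false⟩, ⟨626660, 626676, 0, 2, false⟩, ⟨626660, 0, 1, 2, false⟩,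
    ⟨751992, 752011, 0, 2, false⟩, ⟨751992, 0, 1, 2, false⟩]]

theorem sd_1_8_16_ok : OkP (1, 8, 16) sd_1_8_16.ok := STab.okP (by decide +kernel)

/-- the exact side rule of the triangle (1, 8, 18) -/
def sd_1_8_18 : STab where
  lo := [866024, 116091, 802122]
  hi := [866027, 116094, 802125]
  A := [17, 3, 15]
  T :=
    [[[1, 2, 1, 3, 1, 4], [1, 17, 1, 5, 1, 6], [17, 17, 17, 17, 17, 17], [5, 17, 5, 7, 5, 17],
    [6, 17, 6, 17, 6, 17], [5, 17, 5, 8, 5, 17], [6, 17, 6, 17, 6, 17], [8, 17, 8, 9, 8, 17],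
    [8, 17, 8, 10, 8, 17], [10, 17, 10, 11, 10, 17], [10, 17, 10, 12, 10, 17],
    [12, 17, 12, 13, 12, 17], [12, 17, 12, 14, 12, 17], [14, 17, 14, 15, 14, 17],
    [14, 17, 14, 16, 14, 17], [16, 17, 16, 4, 16, 17], [16, 17, 16, 6, 16, 17],
    [17, 17, 17, 17, 17, 17]], [[1, 3, 1, 2, 1, 3], [1, 3, 1, 3, 1, 3], [3, 3, 3, 3, 3, 3],
    [3, 3, 3, 3, 3, 3]], [[1, 15, 1, 2, 1, 3], [1, 15, 1, 4, 1, 15], [4, 15, 4, 5, 4, 15],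
    [15, 15, 15, 15, 15, 15], [4, 15, 4, 6, 4, 15], [6, 15, 6, 7, 6, 15], [6, 15, 6, 8, 6, 15],
    [8, 15, 8, 9, 8, 15], [8, 15, 8, 10, 8, 15], [10, 15, 10, 11, 10, 15],
    [10, 15, 10, 12, 10, 15], [12, 15, 12, 13, 12, 15], [12, 15, 12, 14, 12, 15],
    [14, 15, 14, 15, 14, 15], [14, 15, 14, 15, 14, 15], [15, 15, 15, 15, 15, 15]]]
  fin :=
    [[false, true, true, false, false, true, true, false, true, false, true, false, true, false, true, false, true],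
    [false, true, true],
    [false, true, false, true, true, false, true, false, true, false, true, false, true, false, true]]
  lab :=
    [[⟨0, 1, 0, 0, false⟩, ⟨0, 0, 1, 1, false⟩, ⟨866024, 866028, 0, 1, true⟩,
    ⟨116091, 116095, 0, 1, false⟩, ⟨802122, 812659, 0, 1, false⟩, ⟨116091, 0, 1, 2, false⟩,
    ⟨802122, 0, 1, 2, false⟩, ⟨232182, 232189, 0, 2, false⟩, ⟨232182, 0, 1, 2, false⟩,
    ⟨348273, 348283, 0, 2, false⟩, ⟨348273, 0, 1, 2, false⟩, ⟨464364, 464377, 0, 2, false⟩,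
    ⟨464364, 0, 1, 2, false⟩, ⟨580455, 580471, 0, 2, false⟩, ⟨580455, 0, 1, 2, false⟩,
    ⟨696546, 696565, 0, 2, false⟩, ⟨696546, 0, 1, 2, false⟩], [⟨0, 1, 0, 0, false⟩,
    ⟨0, 0, 1, 1, false⟩, ⟨116091, 116095, 0, 1, true⟩], [⟨0, 1, 0, 0, false⟩,
    ⟨0, 0, 1, 1, false⟩, ⟨116091, 116095, 0, 1, false⟩, ⟨802122, 802126, 0, 1, true⟩,
    ⟨116091, 0, 1, 2, false⟩, ⟨232182, 232189, 0, 2, false⟩, ⟨232182, 0, 1, 2, false⟩,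
    ⟨348273, 348283, 0, 2, false⟩, ⟨348273, 0, 1, 2, false⟩, ⟨464364, 464377, 0, 2, false⟩,
    ⟨464364, 0, 1, 2, false⟩, ⟨580455, 580471, 0, 2, false⟩, ⟨580455, 0, 1, 2, false⟩,
    ⟨696546, 696565, 0, 2, false⟩, ⟨696546, 0, 1, 2, false⟩]]

theorem sd_1_8_18_ok : OkP (1, 8, 18) sd_1_8_18.ok := STab.okP (by decide +kernel)

/-- the exact side rule of the triangle (1, 9, 10) -/
def sd_1_9_10 : STab where
  lo := [1000000, 156433, 987687]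
  hi := [1000000, 156436, 987690]
  A := [15, 3, 15]
  T :=
    [[[1, 2, 1, 3, 1, 4], [1, 15, 1, 5, 1, 6], [15, 15, 15, 15, 15, 15], [5, 15, 5, 7, 5, 15],
    [6, 15, 6, 15, 6, 15], [5, 15, 5, 8, 5, 15], [6, 15, 6, 15, 6, 15], [8, 15, 8, 9, 8, 15],
    [8, 15, 8, 10, 8, 15], [10, 15, 10, 11, 10, 15], [10, 15, 10, 12, 10, 15],
    [12, 15, 12, 13, 12, 15], [12, 15, 12, 14, 12, 15], [14, 15, 14, 4, 14, 15],
    [14, 15, 14, 6, 14, 15], [15, 15, 15, 15, 15, 15]], [[1, 3, 1, 2, 1, 3],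
    [1, 3, 1, 3, 1, 3], [3, 3, 3, 3, 3, 3], [3, 3, 3, 3, 3, 3]], [[1, 15, 1, 2, 1, 3],
    [1, 15, 1, 4, 1, 15], [4, 15, 4, 5, 4, 15], [15, 15, 15, 15, 15, 15], [4, 15, 4, 6, 4, 15],
    [6, 15, 6, 7, 6, 15], [6, 15, 6, 8, 6, 15], [8, 15, 8, 9, 8, 15], [8, 15, 8, 10, 8, 15],
    [10, 15, 10, 11, 10, 15], [10, 15, 10, 12, 10, 15], [12, 15, 12, 13, 12, 15],
    [12, 15, 12, 14, 12, 15], [14, 15, 14, 15, 14, 15], [14, 15, 14, 15, 14, 15],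
    [15, 15, 15, 15, 15, 15]]]
  fin :=
    [[false, true, true, false, false, true, true, false, true, false, true, false, true, false, true],
    [false, true, true],
    [false, true, false, true, true, false, true, false, true, false, true, false, true, false, true]]
  lab :=
    [[⟨0, 1, 0, 0, false⟩, ⟨0, 0, 1, 1, false⟩, ⟨1000000, 1000001, 0, 1, true⟩,
    ⟨156433, 156437, 0, 1, false⟩, ⟨938598, 987691, 0, 1, false⟩, ⟨156433, 0, 1, 2, false⟩,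
    ⟨938598, 0, 1, 2, false⟩, ⟨312866, 312873, 0, 2, false⟩, ⟨312866, 0, 1, 2, false⟩,
    ⟨469299, 469309, 0, 2, false⟩, ⟨469299, 0, 1, 2, false⟩, ⟨625732, 625745, 0, 2, false⟩,
    ⟨625732, 0, 1, 2, false⟩, ⟨782165, 782181, 0, 2, false⟩, ⟨782165, 0, 1, 2, false⟩],
    [⟨0, 1, 0, 0, false⟩, ⟨0, 0, 1, 1, false⟩, ⟨156433, 156437, 0, 1, true⟩],
    [⟨0, 1, 0, 0, false⟩, ⟨0, 0, 1, 1, false⟩, ⟨156433, 156437, 0, 1, false⟩,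
    ⟨987687, 987691, 0, 1, true⟩, ⟨156433, 0, 1, 2, false⟩, ⟨312866, 312873, 0, 2, false⟩,
    ⟨312866, 0, 1, 2, false⟩, ⟨469299, 469309, 0, 2, false⟩, ⟨469299, 0, 1, 2, false⟩,
    ⟨625732, 625745, 0, 2, false⟩, ⟨625732, 0, 1, 2, false⟩, ⟨782165, 782181, 0, 2, false⟩,
    ⟨782165, 0, 1, 2, false⟩, ⟨938598, 938617, 0, 2, false⟩, ⟨938598, 0, 1, 2, false⟩]]

theorem sd_1_9_10_ok : OkP (1, 9, 10) sd_1_9_10.ok := STab.okP (by decide +kernel)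

/-- the exact side rule of the triangle (1, 9, 16) -/
def sd_1_9_16 : STab where
  lo := [935015, 120535, 885455]
  hi := [935018, 120538, 885458]
  A := [17, 3, 17]
  T :=
    [[[1, 2, 1, 3, 1, 4], [1, 17, 1, 5, 1, 6], [17, 17, 17, 17, 17, 17], [5, 17, 5, 7, 5, 17],
    [6, 17, 6, 17, 6, 17], [5, 17, 5, 8, 5, 17], [6, 17, 6, 17, 6, 17], [8, 17, 8, 9, 8, 17],
    [8, 17, 8, 10, 8, 17], [10, 17, 10, 11, 10, 17], [10, 17, 10, 12, 10, 17],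
    [12, 17, 12, 13, 12, 17], [12, 17, 12, 14, 12, 17], [14, 17, 14, 15, 14, 17],
    [14, 17, 14, 16, 14, 17], [16, 17, 16, 4, 16, 17], [16, 17, 16, 6, 16, 17],
    [17, 17, 17, 17, 17, 17]], [[1, 3, 1, 2, 1, 3], [1, 3, 1, 3, 1, 3], [3, 3, 3, 3, 3, 3],
    [3, 3, 3, 3, 3, 3]], [[1, 17, 1, 2, 1, 3], [1, 17, 1, 4, 1, 17], [4, 17, 4, 5, 4, 17],
    [17, 17, 17, 17, 17, 17], [4, 17, 4, 6, 4, 17], [6, 17, 6, 7, 6, 17], [6, 17, 6, 8, 6, 17],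
    [8, 17, 8, 9, 8, 17], [8, 17, 8, 10, 8, 17], [10, 17, 10, 11, 10, 17],
    [10, 17, 10, 12, 10, 17], [12, 17, 12, 13, 12, 17], [12, 17, 12, 14, 12, 17],
    [14, 17, 14, 15, 14, 17], [14, 17, 14, 16, 14, 17], [16, 17, 16, 17, 16, 17],
    [16, 17, 16, 17, 16, 17], [17, 17, 17, 17, 17, 17]]]
  fin :=
    [[false, true, true, false, false, true, true, false, true, false, true, false, true, false, true, false, true],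
    [false, true, true],
    [false, true, false, true, true, false, true, false, true, false, true, false, true, false, true, false, true]]
  lab :=
    [[⟨0, 1, 0, 0, false⟩, ⟨0, 0, 1, 1, false⟩, ⟨935015, 935019, 0, 1, true⟩,
    ⟨120535, 120539, 0, 1, false⟩, ⟨843745, 885459, 0, 1, false⟩, ⟨120535, 0, 1, 2, false⟩,
    ⟨843745, 0, 1, 2, false⟩, ⟨241070, 241077, 0, 2, false⟩, ⟨241070, 0, 1, 2, false⟩,
    ⟨361605, 361615, 0, 2, false⟩, ⟨361605, 0, 1, 2, false⟩, ⟨482140, 482153, 0, 2, false⟩,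
    ⟨482140, 0, 1, 2, false⟩, ⟨602675, 602691, 0, 2, false⟩, ⟨602675, 0, 1, 2, false⟩,
    ⟨723210, 723229, 0, 2, false⟩, ⟨723210, 0, 1, 2, false⟩], [⟨0, 1, 0, 0, false⟩,
    ⟨0, 0, 1, 1, false⟩, ⟨120535, 120539, 0, 1, true⟩], [⟨0, 1, 0, 0, false⟩,
    ⟨0, 0, 1, 1, false⟩, ⟨120535, 120539, 0, 1, false⟩, ⟨885455, 885459, 0, 1, true⟩,
    ⟨120535, 0, 1, 2, false⟩, ⟨241070, 241077, 0, 2, false⟩, ⟨241070, 0, 1, 2, false⟩,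
    ⟨361605, 361615, 0, 2, false⟩, ⟨361605, 0, 1, 2, false⟩, ⟨482140, 482153, 0, 2, false⟩,
    ⟨482140, 0, 1, 2, false⟩, ⟨602675, 602691, 0, 2, false⟩, ⟨602675, 0, 1, 2, false⟩,
    ⟨723210, 723229, 0, 2, false⟩, ⟨723210, 0, 1, 2, false⟩, ⟨843745, 843767, 0, 2, false⟩,
    ⟨843745, 0, 1, 2, false⟩]]

theorem sd_1_9_16_ok : OkP (1, 9, 16) sd_1_9_16.ok := STab.okP (by decide +kernel)

/-- the exact side rule of the triangle (1, 9, 20) -/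
def sd_1_9_20 : STab where
  lo := [866024, 104527, 809015]
  hi := [866027, 104530, 809018]
  A := [19, 3, 17]
  T :=
    [[[1, 2, 1, 3, 1, 4], [1, 19, 1, 5, 1, 6], [19, 19, 19, 19, 19, 19], [5, 19, 5, 7, 5, 19],
    [6, 19, 6, 19, 6, 19], [5, 19, 5, 8, 5, 19], [6, 19, 6, 19, 6, 19], [8, 19, 8, 9, 8, 19],
    [8, 19, 8, 10, 8, 19], [10, 19, 10, 11, 10, 19], [10, 19, 10, 12, 10, 19],
    [12, 19, 12, 13, 12, 19], [12, 19, 12, 14, 12, 19], [14, 19, 14, 15, 14, 19],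
    [14, 19, 14, 16, 14, 19], [16, 19, 16, 17, 16, 19], [16, 19, 16, 18, 16, 19],
    [18, 19, 18, 4, 18, 19], [18, 19, 18, 6, 18, 19], [19, 19, 19, 19, 19, 19]],
    [[1, 3, 1, 2, 1, 3], [1, 3, 1, 3, 1, 3], [3, 3, 3, 3, 3, 3], [3, 3, 3, 3, 3, 3]],
    [[1, 17, 1, 2, 1, 3], [1, 17, 1, 4, 1, 17], [4, 17, 4, 5, 4, 17], [17, 17, 17, 17, 17, 17],
    [4, 17, 4, 6, 4, 17], [6, 17, 6, 7, 6, 17], [6, 17, 6, 8, 6, 17], [8, 17, 8, 9, 8, 17],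
    [8, 17, 8, 10, 8, 17], [10, 17, 10, 11, 10, 17], [10, 17, 10, 12, 10, 17],
    [12, 17, 12, 13, 12, 17], [12, 17, 12, 14, 12, 17], [14, 17, 14, 15, 14, 17],
    [14, 17, 14, 16, 14, 17], [16, 17, 16, 17, 16, 17], [16, 17, 16, 17, 16, 17],
    [17, 17, 17, 17, 17, 17]]]
  fin :=
    [[false, true, true, false, false, true, true, false, true, false, true, false, true, false, true, false, true, false, true],
    [false, true, true],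
    [false, true, false, true, true, false, true, false, true, false, true, false, true, false, true, false, true]]
  lab :=
    [[⟨0, 1, 0, 0, false⟩, ⟨0, 0, 1, 1, false⟩, ⟨866024, 866028, 0, 1, true⟩,
    ⟨104527, 104531, 0, 1, false⟩, ⟨809015, 836241, 0, 1, false⟩, ⟨104527, 0, 1, 2, false⟩,
    ⟨809015, 0, 1, 2, false⟩, ⟨209054, 209061, 0, 2, false⟩, ⟨209054, 0, 1, 2, false⟩,
    ⟨313581, 313591, 0, 2, false⟩, ⟨313581, 0, 1, 2, false⟩, ⟨418108, 418121, 0, 2, false⟩,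
    ⟨418108, 0, 1, 2, false⟩, ⟨522635, 522651, 0, 2, false⟩, ⟨522635, 0, 1, 2, false⟩,
    ⟨627162, 627181, 0, 2, false⟩, ⟨627162, 0, 1, 2, false⟩, ⟨731689, 731711, 0, 2, false⟩,
    ⟨731689, 0, 1, 2, false⟩], [⟨0, 1, 0, 0, false⟩, ⟨0, 0, 1, 1, false⟩,
    ⟨104527, 104531, 0, 1, true⟩], [⟨0, 1, 0, 0, false⟩, ⟨0, 0, 1, 1, false⟩,
    ⟨104527, 104531, 0, 1, false⟩, ⟨809015, 809019, 0, 1, true⟩, ⟨104527, 0, 1, 2, false⟩,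
    ⟨209054, 209061, 0, 2, false⟩, ⟨209054, 0, 1, 2, false⟩, ⟨313581, 313591, 0, 2, false⟩,
    ⟨313581, 0, 1, 2, false⟩, ⟨418108, 418121, 0, 2, false⟩, ⟨418108, 0, 1, 2, false⟩,
    ⟨522635, 522651, 0, 2, false⟩, ⟨522635, 0, 1, 2, false⟩, ⟨627162, 627181, 0, 2, false⟩,
    ⟨627162, 0, 1, 2, false⟩, ⟨731689, 731711, 0, 2, false⟩, ⟨731689, 0, 1, 2, false⟩]]

theorem sd_1_9_20_ok : OkP (1, 9, 20) sd_1_9_20.ok := STab.okP (by decide +kernel)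

/-- the exact side rule of the triangle (1, 10, 11) -/
def sd_1_10_11 : STab where
  lo := [1000000, 142313, 989820]
  hi := [1000000, 142316, 989823]
  A := [17, 3, 15]
  T :=
    [[[1, 2, 1, 3, 1, 4], [1, 17, 1, 5, 1, 6], [17, 17, 17, 17, 17, 17], [5, 17, 5, 7, 5, 17],
    [6, 17, 6, 17, 6, 17], [5, 17, 5, 8, 5, 17], [6, 17, 6, 17, 6, 17], [8, 17, 8, 9, 8, 17],
    [8, 17, 8, 10, 8, 17], [10, 17, 10, 11, 10, 17], [10, 17, 10, 12, 10, 17],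
    [12, 17, 12, 13, 12, 17], [12, 17, 12, 14, 12, 17], [14, 17, 14, 15, 14, 17],
    [14, 17, 14, 16, 14, 17], [16, 17, 16, 4, 16, 17], [16, 17, 16, 6, 16, 17],
    [17, 17, 17, 17, 17, 17]], [[1, 3, 1, 2, 1, 3], [1, 3, 1, 3, 1, 3], [3, 3, 3, 3, 3, 3],
    [3, 3, 3, 3, 3, 3]], [[1, 15, 1, 2, 1, 3], [1, 15, 1, 4, 1, 15], [4, 15, 4, 5, 4, 15],
    [15, 15, 15, 15, 15, 15], [4, 15, 4, 6, 4, 15], [6, 15, 6, 7, 6, 15], [6, 15, 6, 8, 6, 15],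
    [8, 15, 8, 9, 8, 15], [8, 15, 8, 10, 8, 15], [10, 15, 10, 11, 10, 15],
    [10, 15, 10, 12, 10, 15], [12, 15, 12, 13, 12, 15], [12, 15, 12, 14, 12, 15],
    [14, 15, 14, 15, 14, 15], [14, 15, 14, 15, 14, 15], [15, 15, 15, 15, 15, 15]]]
  fin :=
    [[false, true, true, false, false, true, true, false, true, false, true, false, true, false, true, false, true],
    [false, true, true],
    [false, true, false, true, true, false, true, false, true, false, true, false, true, false, true]]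
  lab :=
    [[⟨0, 1, 0, 0, false⟩, ⟨0, 0, 1, 1, false⟩, ⟨1000000, 1000001, 0, 1, true⟩,
    ⟨142313, 142317, 0, 1, false⟩, ⟨989820, 996213, 0, 1, false⟩, ⟨142313, 0, 1, 2, false⟩,
    ⟨989820, 0, 1, 2, false⟩, ⟨284626, 284633, 0, 2, false⟩, ⟨284626, 0, 1, 2, false⟩,
    ⟨426939, 426949, 0, 2, false⟩, ⟨426939, 0, 1, 2, false⟩, ⟨569252, 569265, 0, 2, false⟩,
    ⟨569252, 0, 1, 2, false⟩, ⟨711565, 711581, 0, 2, false⟩, ⟨711565, 0, 1, 2, false⟩,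
    ⟨853878, 853897, 0, 2, false⟩, ⟨853878, 0, 1, 2, false⟩], [⟨0, 1, 0, 0, false⟩,
    ⟨0, 0, 1, 1, false⟩, ⟨142313, 142317, 0, 1, true⟩], [⟨0, 1, 0, 0, false⟩,
    ⟨0, 0, 1, 1, false⟩, ⟨142313, 142317, 0, 1, false⟩, ⟨989820, 989824, 0, 1, true⟩,
    ⟨142313, 0, 1, 2, false⟩, ⟨284626, 284633, 0, 2, false⟩, ⟨284626, 0, 1, 2, false⟩,
    ⟨426939, 426949, 0, 2, false⟩, ⟨426939, 0, 1, 2, false⟩, ⟨569252, 569265, 0, 2, false⟩,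
    ⟨569252, 0, 1, 2, false⟩, ⟨711565, 711581, 0, 2, false⟩, ⟨711565, 0, 1, 2, false⟩,
    ⟨853878, 853897, 0, 2, false⟩, ⟨853878, 0, 1, 2, false⟩]]

theorem sd_1_10_11_ok : OkP (1, 10, 11) sd_1_10_11.ok := STab.okP (by decide +kernel)

/-- the exact side rule of the triangle (1, 10, 22) -/
def sd_1_10_22 : STab where
  lo := [866024, 95055, 814574]
  hi := [866027, 95058, 814577]
  A := [21, 3, 19]
  T :=
    [[[1, 2, 1, 3, 1, 4], [1, 21, 1, 5, 1, 6], [21, 21, 21, 21, 21, 21], [5, 21, 5, 7, 5, 21],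
    [6, 21, 6, 21, 6, 21], [5, 21, 5, 8, 5, 21], [6, 21, 6, 21, 6, 21], [8, 21, 8, 9, 8, 21],
    [8, 21, 8, 10, 8, 21], [10, 21, 10, 11, 10, 21], [10, 21, 10, 12, 10, 21],
    [12, 21, 12, 13, 12, 21], [12, 21, 12, 14, 12, 21], [14, 21, 14, 15, 14, 21],
    [14, 21, 14, 16, 14, 21], [16, 21, 16, 17, 16, 21], [16, 21, 16, 18, 16, 21],
    [18, 21, 18, 19, 18, 21], [18, 21, 18, 20, 18, 21], [20, 21, 20, 4, 20, 21],
    [20, 21, 20, 6, 20, 21], [21, 21, 21, 21, 21, 21]], [[1, 3, 1, 2, 1, 3],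
    [1, 3, 1, 3, 1, 3], [3, 3, 3, 3, 3, 3], [3, 3, 3, 3, 3, 3]], [[1, 19, 1, 2, 1, 3],
    [1, 19, 1, 4, 1, 19], [4, 19, 4, 5, 4, 19], [19, 19, 19, 19, 19, 19], [4, 19, 4, 6, 4, 19],
    [6, 19, 6, 7, 6, 19], [6, 19, 6, 8, 6, 19], [8, 19, 8, 9, 8, 19], [8, 19, 8, 10, 8, 19],
    [10, 19, 10, 11, 10, 19], [10, 19, 10, 12, 10, 19], [12, 19, 12, 13, 12, 19],
    [12, 19, 12, 14, 12, 19], [14, 19, 14, 15, 14, 19], [14, 19, 14, 16, 14, 19],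
    [16, 19, 16, 17, 16, 19], [16, 19, 16, 18, 16, 19], [18, 19, 18, 19, 18, 19],
    [18, 19, 18, 19, 18, 19], [19, 19, 19, 19, 19, 19]]]
  fin :=
    [[false, true, true, false, false, true, true, false, true, false, true, false, true, false, true, false, true, false, true, false, true],
    [false, true, true],
    [false, true, false, true, true, false, true, false, true, false, true, false, true, false, true, false, true, false, true]]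
  lab :=
    [[⟨0, 1, 0, 0, false⟩, ⟨0, 0, 1, 1, false⟩, ⟨866024, 866028, 0, 1, true⟩,
    ⟨95055, 95059, 0, 1, false⟩, ⟨814574, 855523, 0, 1, false⟩, ⟨95055, 0, 1, 2, false⟩,
    ⟨814574, 0, 1, 2, false⟩, ⟨190110, 190117, 0, 2, false⟩, ⟨190110, 0, 1, 2, false⟩,
    ⟨285165, 285175, 0, 2, false⟩, ⟨285165, 0, 1, 2, false⟩, ⟨380220, 380233, 0, 2, false⟩,
    ⟨380220, 0, 1, 2, false⟩, ⟨475275, 475291, 0, 2, false⟩, ⟨475275, 0, 1, 2, false⟩,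
    ⟨570330, 570349, 0, 2, false⟩, ⟨570330, 0, 1, 2, false⟩, ⟨665385, 665407, 0, 2, false⟩,
    ⟨665385, 0, 1, 2, false⟩, ⟨760440, 760465, 0, 2, false⟩, ⟨760440, 0, 1, 2, false⟩],
    [⟨0, 1, 0, 0, false⟩, ⟨0, 0, 1, 1, false⟩, ⟨95055, 95059, 0, 1, true⟩],
    [⟨0, 1, 0, 0, false⟩, ⟨0, 0, 1, 1, false⟩, ⟨95055, 95059, 0, 1, false⟩,
    ⟨814574, 814578, 0, 1, true⟩, ⟨95055, 0, 1, 2, false⟩, ⟨190110, 190117, 0, 2, false⟩,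
    ⟨190110, 0, 1, 2, false⟩, ⟨285165, 285175, 0, 2, false⟩, ⟨285165, 0, 1, 2, false⟩,
    ⟨380220, 380233, 0, 2, false⟩, ⟨380220, 0, 1, 2, false⟩, ⟨475275, 475291, 0, 2, false⟩,
    ⟨475275, 0, 1, 2, false⟩, ⟨570330, 570349, 0, 2, false⟩, ⟨570330, 0, 1, 2, false⟩,
    ⟨665385, 665407, 0, 2, false⟩, ⟨665385, 0, 1, 2, false⟩, ⟨760440, 760465, 0, 2, false⟩,
    ⟨760440, 0, 1, 2, false⟩]]

theorem sd_1_10_22_ok : OkP (1, 10, 22) sd_1_10_22.ok := STab.okP (by decide +kernel)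

/-- the exact side rule of the triangle (1, 11, 24) -/
def sd_1_11_24 : STab where
  lo := [866024, 87154, 819151]
  hi := [866027, 87157, 819154]
  A := [21, 3, 21]
  T :=
    [[[1, 2, 1, 3, 1, 4], [1, 21, 1, 5, 1, 6], [21, 21, 21, 21, 21, 21], [5, 21, 5, 7, 5, 21],
    [6, 21, 6, 21, 6, 21], [5, 21, 5, 8, 5, 21], [6, 21, 6, 21, 6, 21], [8, 21, 8, 9, 8, 21],
    [8, 21, 8, 10, 8, 21], [10, 21, 10, 11, 10, 21], [10, 21, 10, 12, 10, 21],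
    [12, 21, 12, 13, 12, 21], [12, 21, 12, 14, 12, 21], [14, 21, 14, 15, 14, 21],
    [14, 21, 14, 16, 14, 21], [16, 21, 16, 17, 16, 21], [16, 21, 16, 18, 16, 21],
    [18, 21, 18, 19, 18, 21], [18, 21, 18, 20, 18, 21], [20, 21, 20, 4, 20, 21],
    [20, 21, 20, 6, 20, 21], [21, 21, 21, 21, 21, 21]], [[1, 3, 1, 2, 1, 3],
    [1, 3, 1, 3, 1, 3], [3, 3, 3, 3, 3, 3], [3, 3, 3, 3, 3, 3]], [[1, 21, 1, 2, 1, 3],
    [1, 21, 1, 4, 1, 21], [4, 21, 4, 5, 4, 21], [21, 21, 21, 21, 21, 21], [4, 21, 4, 6, 4, 21],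
    [6, 21, 6, 7, 6, 21], [6, 21, 6, 8, 6, 21], [8, 21, 8, 9, 8, 21], [8, 21, 8, 10, 8, 21],
    [10, 21, 10, 11, 10, 21], [10, 21, 10, 12, 10, 21], [12, 21, 12, 13, 12, 21],
    [12, 21, 12, 14, 12, 21], [14, 21, 14, 15, 14, 21], [14, 21, 14, 16, 14, 21],
    [16, 21, 16, 17, 16, 21], [16, 21, 16, 18, 16, 21], [18, 21, 18, 19, 18, 21],
    [18, 21, 18, 20, 18, 21], [20, 21, 20, 21, 20, 21], [20, 21, 20, 21, 20, 21],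
    [21, 21, 21, 21, 21, 21]]]
  fin :=
    [[false, true, true, false, false, true, true, false, true, false, true, false, true, false, true, false, true, false, true, false, true],
    [false, true, true],
    [false, true, false, true, true, false, true, false, true, false, true, false, true, false, true, false, true, false, true, false, true]]
  lab :=
    [[⟨0, 1, 0, 0, false⟩, ⟨0, 0, 1, 1, false⟩, ⟨866024, 866028, 0, 1, true⟩,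
    ⟨87154, 87158, 0, 1, false⟩, ⟨784386, 819155, 0, 1, false⟩, ⟨87154, 0, 1, 2, false⟩,
    ⟨784386, 0, 1, 2, false⟩, ⟨174308, 174315, 0, 2, false⟩, ⟨174308, 0, 1, 2, false⟩,
    ⟨261462, 261472, 0, 2, false⟩, ⟨261462, 0, 1, 2, false⟩, ⟨348616, 348629, 0, 2, false⟩,
    ⟨348616, 0, 1, 2, false⟩, ⟨435770, 435786, 0, 2, false⟩, ⟨435770, 0, 1, 2, false⟩,
    ⟨522924, 522943, 0, 2, false⟩, ⟨522924, 0, 1, 2, false⟩, ⟨610078, 610100, 0, 2, false⟩,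
    ⟨610078, 0, 1, 2, false⟩, ⟨697232, 697257, 0, 2, false⟩, ⟨697232, 0, 1, 2, false⟩],
    [⟨0, 1, 0, 0, false⟩, ⟨0, 0, 1, 1, false⟩, ⟨87154, 87158, 0, 1, true⟩],
    [⟨0, 1, 0, 0, false⟩, ⟨0, 0, 1, 1, false⟩, ⟨87154, 87158, 0, 1, false⟩,
    ⟨819151, 819155, 0, 1, true⟩, ⟨87154, 0, 1, 2, false⟩, ⟨174308, 174315, 0, 2, false⟩,
    ⟨174308, 0, 1, 2, false⟩, ⟨261462, 261472, 0, 2, false⟩, ⟨261462, 0, 1, 2, false⟩,
    ⟨348616, 348629, 0, 2, false⟩, ⟨348616, 0, 1, 2, false⟩, ⟨435770, 435786, 0, 2, false⟩,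
    ⟨435770, 0, 1, 2, false⟩, ⟨522924, 522943, 0, 2, false⟩, ⟨522924, 0, 1, 2, false⟩,
    ⟨610078, 610100, 0, 2, false⟩, ⟨610078, 0, 1, 2, false⟩, ⟨697232, 697257, 0, 2, false⟩,
    ⟨697232, 0, 1, 2, false⟩, ⟨784386, 784414, 0, 2, false⟩, ⟨784386, 0, 1, 2, false⟩]]

theorem sd_1_11_24_ok : OkP (1, 11, 24) sd_1_11_24.ok := STab.okP (by decide +kernel)

/-- the exact side rule of the triangle (1, 12, 26) -/
def sd_1_12_26 : STab where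
  lo := [866024, 80465, 822982]
  hi := [866027, 80468, 822985]
  A := [23, 3, 23]
  T :=
    [[[1, 2, 1, 3, 1, 4], [1, 23, 1, 5, 1, 6], [23, 23, 23, 23, 23, 23], [5, 23, 5, 7, 5, 23],
    [6, 23, 6, 23, 6, 23], [5, 23, 5, 8, 5, 23], [6, 23, 6, 23, 6, 23], [8, 23, 8, 9, 8, 23],
    [8, 23, 8, 10, 8, 23], [10, 23, 10, 11, 10, 23], [10, 23, 10, 12, 10, 23],
    [12, 23, 12, 13, 12, 23], [12, 23, 12, 14, 12, 23], [14, 23, 14, 15, 14, 23],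
    [14, 23, 14, 16, 14, 23], [16, 23, 16, 17, 16, 23], [16, 23, 16, 18, 16, 23],
    [18, 23, 18, 19, 18, 23], [18, 23, 18, 20, 18, 23], [20, 23, 20, 21, 20, 23],
    [20, 23, 20, 22, 20, 23], [22, 23, 22, 4, 22, 23], [22, 23, 22, 6, 22, 23],
    [23, 23, 23, 23, 23, 23]], [[1, 3, 1, 2, 1, 3], [1, 3, 1, 3, 1, 3], [3, 3, 3, 3, 3, 3],
    [3, 3, 3, 3, 3, 3]], [[1, 23, 1, 2, 1, 3], [1, 23, 1, 4, 1, 23], [4, 23, 4, 5, 4, 23],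
    [23, 23, 23, 23, 23, 23], [4, 23, 4, 6, 4, 23], [6, 23, 6, 7, 6, 23], [6, 23, 6, 8, 6, 23],
    [8, 23, 8, 9, 8, 23], [8, 23, 8, 10, 8, 23], [10, 23, 10, 11, 10, 23],
    [10, 23, 10, 12, 10, 23], [12, 23, 12, 13, 12, 23], [12, 23, 12, 14, 12, 23],
    [14, 23, 14, 15, 14, 23], [14, 23, 14, 16, 14, 23], [16, 23, 16, 17, 16, 23],
    [16, 23, 16, 18, 16, 23], [18, 23, 18, 19, 18, 23], [18, 23, 18, 20, 18, 23],
    [20, 23, 20, 21, 20, 23], [20, 23, 20, 22, 20, 23], [22, 23, 22, 23, 22, 23],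
    [22, 23, 22, 23, 22, 23], [23, 23, 23, 23, 23, 23]]]
  fin :=
    [[false, true, true, false, false, true, true, false, true, false, true, false, true, false, true, false, true, false, true, false, true, false, true],
    [false, true, true],
    [false, true, false, true, true, false, true, false, true, false, true, false, true, false, true, false, true, false, true, false, true, false, true]]
  lab :=
    [[⟨0, 1, 0, 0, false⟩, ⟨0, 0, 1, 1, false⟩, ⟨866024, 866028, 0, 1, true⟩,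
    ⟨80465, 80469, 0, 1, false⟩, ⟨804650, 822986, 0, 1, false⟩, ⟨80465, 0, 1, 2, false⟩,
    ⟨804650, 0, 1, 2, false⟩, ⟨160930, 160937, 0, 2, false⟩, ⟨160930, 0, 1, 2, false⟩,
    ⟨241395, 241405, 0, 2, false⟩, ⟨241395, 0, 1, 2, false⟩, ⟨321860, 321873, 0, 2, false⟩,
    ⟨321860, 0, 1, 2, false⟩, ⟨402325, 402341, 0, 2, false⟩, ⟨402325, 0, 1, 2, false⟩,
    ⟨482790, 482809, 0, 2, false⟩, ⟨482790, 0, 1, 2, false⟩, ⟨563255, 563277, 0, 2, false⟩,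
    ⟨563255, 0, 1, 2, false⟩, ⟨643720, 643745, 0, 2, false⟩, ⟨643720, 0, 1, 2, false⟩,
    ⟨724185, 724213, 0, 2, false⟩, ⟨724185, 0, 1, 2, false⟩], [⟨0, 1, 0, 0, false⟩,
    ⟨0, 0, 1, 1, false⟩, ⟨80465, 80469, 0, 1, true⟩], [⟨0, 1, 0, 0, false⟩,
    ⟨0, 0, 1, 1, false⟩, ⟨80465, 80469, 0, 1, false⟩, ⟨822982, 822986, 0, 1, true⟩,
    ⟨80465, 0, 1, 2, false⟩, ⟨160930, 160937, 0, 2, false⟩, ⟨160930, 0, 1, 2, false⟩,
    ⟨241395, 241405, 0, 2, false⟩, ⟨241395, 0, 1, 2, false⟩, ⟨321860, 321873, 0, 2, false⟩,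
    ⟨321860, 0, 1, 2, false⟩, ⟨402325, 402341, 0, 2, false⟩, ⟨402325, 0, 1, 2, false⟩,
    ⟨482790, 482809, 0, 2, false⟩, ⟨482790, 0, 1, 2, false⟩, ⟨563255, 563277, 0, 2, false⟩,
    ⟨563255, 0, 1, 2, false⟩, ⟨643720, 643745, 0, 2, false⟩, ⟨643720, 0, 1, 2, false⟩,
    ⟨724185, 724213, 0, 2, false⟩, ⟨724185, 0, 1, 2, false⟩, ⟨804650, 804681, 0, 2, false⟩,
    ⟨804650, 0, 1, 2, false⟩]]

theorem sd_1_12_26_ok : OkP (1, 12, 26) sd_1_12_26.ok := STab.okP (by decide +kernel)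

/-- the exact side rule of the triangle (2, 2, 3) -/
def sd_2_2_3 : STab where
  lo := [974926, 781830, 781830]
  hi := [974929, 781833, 781833]
  A := [5, 3, 3]
  T :=
    [[[1, 2, 1, 3, 1, 3], [1, 5, 1, 4, 1, 4], [5, 5, 5, 5, 5, 5], [4, 5, 4, 5, 4, 5],
    [4, 5, 4, 5, 4, 5], [5, 5, 5, 5, 5, 5]], [[1, 3, 1, 2, 1, 2], [1, 3, 1, 3, 1, 3],
    [3, 3, 3, 3, 3, 3], [3, 3, 3, 3, 3, 3]], [[1, 3, 1, 2, 1, 2], [1, 3, 1, 3, 1, 3],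
    [3, 3, 3, 3, 3, 3], [3, 3, 3, 3, 3, 3]]]
  fin :=
    [[false, true, true, false, true], [false, true, true], [false, true, true]]
  lab :=
    [[⟨0, 1, 0, 0, false⟩, ⟨0, 0, 1, 1, false⟩, ⟨974926, 974930, 0, 1, true⟩,
    ⟨781830, 781834, 0, 1, false⟩, ⟨781830, 0, 1, 2, false⟩], [⟨0, 1, 0, 0, false⟩,
    ⟨0, 0, 1, 1, false⟩, ⟨781830, 781834, 0, 1, true⟩], [⟨0, 1, 0, 0, false⟩,
    ⟨0, 0, 1, 1, false⟩, ⟨781830, 781834, 0, 1, true⟩]]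

theorem sd_2_2_3_ok : OkP (2, 2, 3) sd_2_2_3.ok := STab.okP (by decide +kernel)

/-- the exact side rule of the triangle (2, 3, 4) -/
def sd_2_3_4 : STab where
  lo := [984806, 642786, 866024]
  hi := [984809, 642789, 866027]
  A := [5, 3, 5]
  T :=
    [[[1, 2, 1, 3, 1, 3], [1, 5, 1, 4, 1, 4], [5, 5, 5, 5, 5, 5], [4, 5, 4, 5, 4, 5],
    [4, 5, 4, 5, 4, 5], [5, 5, 5, 5, 5, 5]], [[1, 3, 1, 2, 1, 3], [1, 3, 1, 3, 1, 3],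
    [3, 3, 3, 3, 3, 3], [3, 3, 3, 3, 3, 3]], [[1, 5, 1, 2, 1, 3], [1, 5, 1, 4, 1, 5],
    [4, 5, 4, 5, 4, 5], [5, 5, 5, 5, 5, 5], [4, 5, 4, 5, 4, 5], [5, 5, 5, 5, 5, 5]]]
  fin :=
    [[false, true, true, false, true], [false, true, true], [false, true, false, true, true]]
  lab :=
    [[⟨0, 1, 0, 0, false⟩, ⟨0, 0, 1, 1, false⟩, ⟨984806, 984810, 0, 1, true⟩,
    ⟨642786, 866028, 0, 1, false⟩, ⟨642786, 0, 1, 2, false⟩], [⟨0, 1, 0, 0, false⟩,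
    ⟨0, 0, 1, 1, false⟩, ⟨642786, 642790, 0, 1, true⟩], [⟨0, 1, 0, 0, false⟩,
    ⟨0, 0, 1, 1, false⟩, ⟨642786, 642790, 0, 1, false⟩, ⟨866024, 866028, 0, 1, true⟩,
    ⟨642786, 0, 1, 2, false⟩]]

theorem sd_2_3_4_ok : OkP (2, 3, 4) sd_2_3_4.ok := STab.okP (by decide +kernel)

/-- the exact side rule of the triangle (2, 3, 5) -/
def sd_2_3_5 : STab where
  lo := [1000000, 587784, 809015]
  hi := [1000000, 587787, 809018]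
  A := [5, 3, 5]
  T :=
    [[[1, 2, 1, 3, 1, 3], [1, 5, 1, 4, 1, 4], [5, 5, 5, 5, 5, 5], [4, 5, 4, 5, 4, 5],
    [4, 5, 4, 5, 4, 5], [5, 5, 5, 5, 5, 5]], [[1, 3, 1, 2, 1, 3], [1, 3, 1, 3, 1, 3],
    [3, 3, 3, 3, 3, 3], [3, 3, 3, 3, 3, 3]], [[1, 5, 1, 2, 1, 3], [1, 5, 1, 4, 1, 5],
    [4, 5, 4, 5, 4, 5], [5, 5, 5, 5, 5, 5], [4, 5, 4, 5, 4, 5], [5, 5, 5, 5, 5, 5]]]
  fin :=
    [[false, true, true, false, true], [false, true, true], [false, true, false, true, true]]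
  lab :=
    [[⟨0, 1, 0, 0, false⟩, ⟨0, 0, 1, 1, false⟩, ⟨1000000, 1000001, 0, 1, true⟩,
    ⟨587784, 809019, 0, 1, false⟩, ⟨587784, 0, 1, 2, false⟩], [⟨0, 1, 0, 0, false⟩,
    ⟨0, 0, 1, 1, false⟩, ⟨587784, 587788, 0, 1, true⟩], [⟨0, 1, 0, 0, false⟩,
    ⟨0, 0, 1, 1, false⟩, ⟨587784, 587788, 0, 1, false⟩, ⟨809015, 809019, 0, 1, true⟩,
    ⟨587784, 0, 1, 2, false⟩]]

theorem sd_2_3_5_ok : OkP (2, 3, 5) sd_2_3_5.ok := STab.okP (by decide +kernel)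

/-- the exact side rule of the triangle (2, 3, 6) -/
def sd_2_3_6 : STab where
  lo := [989820, 540639, 755748]
  hi := [989823, 540642, 755751]
  A := [5, 3, 5]
  T :=
    [[[1, 2, 1, 3, 1, 3], [1, 5, 1, 4, 1, 4], [5, 5, 5, 5, 5, 5], [4, 5, 4, 5, 4, 5],
    [4, 5, 4, 5, 4, 5], [5, 5, 5, 5, 5, 5]], [[1, 3, 1, 2, 1, 3], [1, 3, 1, 3, 1, 3],
    [3, 3, 3, 3, 3, 3], [3, 3, 3, 3, 3, 3]], [[1, 5, 1, 2, 1, 3], [1, 5, 1, 4, 1, 5],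
    [4, 5, 4, 5, 4, 5], [5, 5, 5, 5, 5, 5], [4, 5, 4, 5, 4, 5], [5, 5, 5, 5, 5, 5]]]
  fin :=
    [[false, true, true, false, true], [false, true, true], [false, true, false, true, true]]
  lab :=
    [[⟨0, 1, 0, 0, false⟩, ⟨0, 0, 1, 1, false⟩, ⟨989820, 989824, 0, 1, true⟩,
    ⟨540639, 755752, 0, 1, false⟩, ⟨540639, 0, 1, 2, false⟩], [⟨0, 1, 0, 0, false⟩,
    ⟨0, 0, 1, 1, false⟩, ⟨540639, 540643, 0, 1, true⟩], [⟨0, 1, 0, 0, false⟩,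
    ⟨0, 0, 1, 1, false⟩, ⟨540639, 540643, 0, 1, false⟩, ⟨755748, 755752, 0, 1, true⟩,
    ⟨540639, 0, 1, 2, false⟩]]

theorem sd_2_3_6_ok : OkP (2, 3, 6) sd_2_3_6.ok := STab.okP (by decide +kernel)

/-- the exact side rule of the triangle (2, 3, 7) -/
def sd_2_3_7 : STab where
  lo := [965924, 500000, 707105]
  hi := [965927, 500000, 707108]
  A := [5, 3, 5]
  T :=
    [[[1, 2, 1, 3, 1, 3], [1, 5, 1, 4, 1, 4], [5, 5, 5, 5, 5, 5], [4, 5, 4, 5, 4, 5],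
    [4, 5, 4, 5, 4, 5], [5, 5, 5, 5, 5, 5]], [[1, 3, 1, 2, 1, 3], [1, 3, 1, 3, 1, 3],
    [3, 3, 3, 3, 3, 3], [3, 3, 3, 3, 3, 3]], [[1, 5, 1, 2, 1, 3], [1, 5, 1, 4, 1, 5],
    [4, 5, 4, 5, 4, 5], [5, 5, 5, 5, 5, 5], [4, 5, 4, 5, 4, 5], [5, 5, 5, 5, 5, 5]]]
  fin :=
    [[false, true, true, false, true], [false, true, true], [false, true, false, true, true]]
  lab :=
    [[⟨0, 1, 0, 0, false⟩, ⟨0, 0, 1, 1, false⟩, ⟨965924, 965928, 0, 1, true⟩,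
    ⟨500000, 707109, 0, 1, false⟩, ⟨500000, 0, 1, 2, false⟩], [⟨0, 1, 0, 0, false⟩,
    ⟨0, 0, 1, 1, false⟩, ⟨500000, 500001, 0, 1, true⟩], [⟨0, 1, 0, 0, false⟩,
    ⟨0, 0, 1, 1, false⟩, ⟨500000, 500001, 0, 1, false⟩, ⟨707105, 707109, 0, 1, true⟩,
    ⟨500000, 0, 1, 2, false⟩]]

theorem sd_2_3_7_ok : OkP (2, 3, 7) sd_2_3_7.ok := STab.okP (by decide +kernel)

/-- the exact side rule of the triangle (2, 3, 8) -/
def sd_2_3_8 : STab where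
  lo := [935015, 464722, 663121]
  hi := [935018, 464725, 663124]
  A := [7, 3, 5]
  T :=
    [[[1, 2, 1, 3, 1, 4], [1, 7, 1, 5, 1, 6], [7, 7, 7, 7, 7, 7], [5, 7, 5, 4, 5, 7],
    [6, 7, 6, 7, 6, 7], [5, 7, 5, 6, 5, 7], [6, 7, 6, 7, 6, 7], [7, 7, 7, 7, 7, 7]],
    [[1, 3, 1, 2, 1, 3], [1, 3, 1, 3, 1, 3], [3, 3, 3, 3, 3, 3], [3, 3, 3, 3, 3, 3]],
    [[1, 5, 1, 2, 1, 3], [1, 5, 1, 4, 1, 5], [4, 5, 4, 5, 4, 5], [5, 5, 5, 5, 5, 5],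
    [4, 5, 4, 5, 4, 5], [5, 5, 5, 5, 5, 5]]]
  fin :=
    [[false, true, true, false, false, true, true], [false, true, true],
    [false, true, false, true, true]]
  lab :=
    [[⟨0, 1, 0, 0, false⟩, ⟨0, 0, 1, 1, false⟩, ⟨935015, 935019, 0, 1, true⟩,
    ⟨464722, 464726, 0, 1, false⟩, ⟨663121, 929451, 0, 1, false⟩, ⟨464722, 0, 1, 2, false⟩,
    ⟨663121, 0, 1, 2, false⟩], [⟨0, 1, 0, 0, false⟩, ⟨0, 0, 1, 1, false⟩,
    ⟨464722, 464726, 0, 1, true⟩], [⟨0, 1, 0, 0, false⟩, ⟨0, 0, 1, 1, false⟩,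
    ⟨464722, 464726, 0, 1, false⟩, ⟨663121, 663125, 0, 1, true⟩, ⟨464722, 0, 1, 2, false⟩]]

theorem sd_2_3_8_ok : OkP (2, 3, 8) sd_2_3_8.ok := STab.okP (by decide +kernel)

/-- the exact side rule of the triangle (2, 3, 10) -/
def sd_2_3_10 : STab where
  lo := [866024, 406735, 587784]
  hi := [866027, 406738, 587787]
  A := [7, 3, 5]
  T :=
    [[[1, 2, 1, 3, 1, 4], [1, 7, 1, 5, 1, 6], [7, 7, 7, 7, 7, 7], [5, 7, 5, 4, 5, 7],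
    [6, 7, 6, 7, 6, 7], [5, 7, 5, 6, 5, 7], [6, 7, 6, 7, 6, 7], [7, 7, 7, 7, 7, 7]],
    [[1, 3, 1, 2, 1, 3], [1, 3, 1, 3, 1, 3], [3, 3, 3, 3, 3, 3], [3, 3, 3, 3, 3, 3]],
    [[1, 5, 1, 2, 1, 3], [1, 5, 1, 4, 1, 5], [4, 5, 4, 5, 4, 5], [5, 5, 5, 5, 5, 5],
    [4, 5, 4, 5, 4, 5], [5, 5, 5, 5, 5, 5]]]
  fin :=
    [[false, true, true, false, false, true, true], [false, true, true],
    [false, true, false, true, true]]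
  lab :=
    [[⟨0, 1, 0, 0, false⟩, ⟨0, 0, 1, 1, false⟩, ⟨866024, 866028, 0, 1, true⟩,
    ⟨406735, 406739, 0, 1, false⟩, ⟨587784, 813477, 0, 1, false⟩, ⟨406735, 0, 1, 2, false⟩,
    ⟨587784, 0, 1, 2, false⟩], [⟨0, 1, 0, 0, false⟩, ⟨0, 0, 1, 1, false⟩,
    ⟨406735, 406739, 0, 1, true⟩], [⟨0, 1, 0, 0, false⟩, ⟨0, 0, 1, 1, false⟩,
    ⟨406735, 406739, 0, 1, false⟩, ⟨587784, 587788, 0, 1, true⟩, ⟨406735, 0, 1, 2, false⟩]]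

theorem sd_2_3_10_ok : OkP (2, 3, 10) sd_2_3_10.ok := STab.okP (by decide +kernel)

/-- the exact side rule of the triangle (2, 4, 5) -/
def sd_2_4_5 : STab where
  lo := [989820, 540639, 909630]
  hi := [989823, 540642, 909633]
  A := [5, 3, 5]
  T :=
    [[[1, 2, 1, 3, 1, 3], [1, 5, 1, 4, 1, 4], [5, 5, 5, 5, 5, 5], [4, 5, 4, 5, 4, 5],
    [4, 5, 4, 5, 4, 5], [5, 5, 5, 5, 5, 5]], [[1, 3, 1, 2, 1, 3], [1, 3, 1, 3, 1, 3],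
    [3, 3, 3, 3, 3, 3], [3, 3, 3, 3, 3, 3]], [[1, 5, 1, 2, 1, 3], [1, 5, 1, 4, 1, 5],
    [4, 5, 4, 5, 4, 5], [5, 5, 5, 5, 5, 5], [4, 5, 4, 5, 4, 5], [5, 5, 5, 5, 5, 5]]]
  fin :=
    [[false, true, true, false, true], [false, true, true], [false, true, false, true, true]]
  lab :=
    [[⟨0, 1, 0, 0, false⟩, ⟨0, 0, 1, 1, false⟩, ⟨989820, 989824, 0, 1, true⟩,
    ⟨540639, 909634, 0, 1, false⟩, ⟨540639, 0, 1, 2, false⟩], [⟨0, 1, 0, 0, false⟩,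
    ⟨0, 0, 1, 1, false⟩, ⟨540639, 540643, 0, 1, true⟩], [⟨0, 1, 0, 0, false⟩,
    ⟨0, 0, 1, 1, false⟩, ⟨540639, 540643, 0, 1, false⟩, ⟨909630, 909634, 0, 1, true⟩,
    ⟨540639, 0, 1, 2, false⟩]]

theorem sd_2_4_5_ok : OkP (2, 4, 5) sd_2_4_5.ok := STab.okP (by decide +kernel)

/-- the exact side rule of the triangle (2, 4, 7) -/
def sd_2_4_7 : STab where
  lo := [992707, 464722, 822982]
  hi := [992710, 464725, 822985]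
  A := [7, 3, 5]
  T :=
    [[[1, 2, 1, 3, 1, 4], [1, 7, 1, 5, 1, 6], [7, 7, 7, 7, 7, 7], [5, 7, 5, 4, 5, 7],
    [6, 7, 6, 7, 6, 7], [5, 7, 5, 6, 5, 7], [6, 7, 6, 7, 6, 7], [7, 7, 7, 7, 7, 7]],
    [[1, 3, 1, 2, 1, 3], [1, 3, 1, 3, 1, 3], [3, 3, 3, 3, 3, 3], [3, 3, 3, 3, 3, 3]],
    [[1, 5, 1, 2, 1, 3], [1, 5, 1, 4, 1, 5], [4, 5, 4, 5, 4, 5], [5, 5, 5, 5, 5, 5],
    [4, 5, 4, 5, 4, 5], [5, 5, 5, 5, 5, 5]]]
  fin :=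
    [[false, true, true, false, false, true, true], [false, true, true],
    [false, true, false, true, true]]
  lab :=
    [[⟨0, 1, 0, 0, false⟩, ⟨0, 0, 1, 1, false⟩, ⟨992707, 992711, 0, 1, true⟩,
    ⟨464722, 464726, 0, 1, false⟩, ⟨822982, 929451, 0, 1, false⟩, ⟨464722, 0, 1, 2, false⟩,
    ⟨822982, 0, 1, 2, false⟩], [⟨0, 1, 0, 0, false⟩, ⟨0, 0, 1, 1, false⟩,
    ⟨464722, 464726, 0, 1, true⟩], [⟨0, 1, 0, 0, false⟩, ⟨0, 0, 1, 1, false⟩,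
    ⟨464722, 464726, 0, 1, false⟩, ⟨822982, 822986, 0, 1, true⟩, ⟨464722, 0, 1, 2, false⟩]]

theorem sd_2_4_7_ok : OkP (2, 4, 7) sd_2_4_7.ok := STab.okP (by decide +kernel)

/-- the exact side rule of the triangle (2, 4, 9) -/
def sd_2_4_9 : STab where
  lo := [951055, 406735, 743143]
  hi := [951058, 406738, 743146]
  A := [7, 3, 5]
  T :=
    [[[1, 2, 1, 3, 1, 4], [1, 7, 1, 5, 1, 6], [7, 7, 7, 7, 7, 7], [5, 7, 5, 4, 5, 7],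
    [6, 7, 6, 7, 6, 7], [5, 7, 5, 6, 5, 7], [6, 7, 6, 7, 6, 7], [7, 7, 7, 7, 7, 7]],
    [[1, 3, 1, 2, 1, 3], [1, 3, 1, 3, 1, 3], [3, 3, 3, 3, 3, 3], [3, 3, 3, 3, 3, 3]],
    [[1, 5, 1, 2, 1, 3], [1, 5, 1, 4, 1, 5], [4, 5, 4, 5, 4, 5], [5, 5, 5, 5, 5, 5],
    [4, 5, 4, 5, 4, 5], [5, 5, 5, 5, 5, 5]]]
  fin :=
    [[false, true, true, false, false, true, true], [false, true, true],
    [false, true, false, true, true]]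
  lab :=
    [[⟨0, 1, 0, 0, false⟩, ⟨0, 0, 1, 1, false⟩, ⟨951055, 951059, 0, 1, true⟩,
    ⟨406735, 406739, 0, 1, false⟩, ⟨743143, 813477, 0, 1, false⟩, ⟨406735, 0, 1, 2, false⟩,
    ⟨743143, 0, 1, 2, false⟩], [⟨0, 1, 0, 0, false⟩, ⟨0, 0, 1, 1, false⟩,
    ⟨406735, 406739, 0, 1, true⟩], [⟨0, 1, 0, 0, false⟩, ⟨0, 0, 1, 1, false⟩,
    ⟨406735, 406739, 0, 1, false⟩, ⟨743143, 743147, 0, 1, true⟩, ⟨406735, 0, 1, 2, false⟩]]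

theorem sd_2_4_9_ok : OkP (2, 4, 9) sd_2_4_9.ok := STab.okP (by decide +kernel)

/-- the exact side rule of the triangle (2, 4, 11) -/
def sd_2_4_11 : STab where
  lo := [895162, 361240, 673694]
  hi := [895165, 361243, 673697]
  A := [7, 3, 5]
  T :=
    [[[1, 2, 1, 3, 1, 4], [1, 7, 1, 5, 1, 6], [7, 7, 7, 7, 7, 7], [5, 7, 5, 4, 5, 7],
    [6, 7, 6, 7, 6, 7], [5, 7, 5, 6, 5, 7], [6, 7, 6, 7, 6, 7], [7, 7, 7, 7, 7, 7]],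
    [[1, 3, 1, 2, 1, 3], [1, 3, 1, 3, 1, 3], [3, 3, 3, 3, 3, 3], [3, 3, 3, 3, 3, 3]],
    [[1, 5, 1, 2, 1, 3], [1, 5, 1, 4, 1, 5], [4, 5, 4, 5, 4, 5], [5, 5, 5, 5, 5, 5],
    [4, 5, 4, 5, 4, 5], [5, 5, 5, 5, 5, 5]]]
  fin :=
    [[false, true, true, false, false, true, true], [false, true, true],
    [false, true, false, true, true]]
  lab :=
    [[⟨0, 1, 0, 0, false⟩, ⟨0, 0, 1, 1, false⟩, ⟨895162, 895166, 0, 1, true⟩,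
    ⟨361240, 361244, 0, 1, false⟩, ⟨673694, 722487, 0, 1, false⟩, ⟨361240, 0, 1, 2, false⟩,
    ⟨673694, 0, 1, 2, false⟩], [⟨0, 1, 0, 0, false⟩, ⟨0, 0, 1, 1, false⟩,
    ⟨361240, 361244, 0, 1, true⟩], [⟨0, 1, 0, 0, false⟩, ⟨0, 0, 1, 1, false⟩,
    ⟨361240, 361244, 0, 1, false⟩, ⟨673694, 673698, 0, 1, true⟩, ⟨361240, 0, 1, 2, false⟩]]

theorem sd_2_4_11_ok : OkP (2, 4, 11) sd_2_4_11.ok := STab.okP (by decide +kernel)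

/-- the exact side rule of the triangle (2, 4, 13) -/
def sd_2_4_13 : STab where
  lo := [837165, 324698, 614211]
  hi := [837168, 324701, 614214]
  A := [7, 3, 5]
  T :=
    [[[1, 2, 1, 3, 1, 4], [1, 7, 1, 5, 1, 6], [7, 7, 7, 7, 7, 7], [5, 7, 5, 4, 5, 7],
    [6, 7, 6, 7, 6, 7], [5, 7, 5, 6, 5, 7], [6, 7, 6, 7, 6, 7], [7, 7, 7, 7, 7, 7]],
    [[1, 3, 1, 2, 1, 3], [1, 3, 1, 3, 1, 3], [3, 3, 3, 3, 3, 3], [3, 3, 3, 3, 3, 3]],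
    [[1, 5, 1, 2, 1, 3], [1, 5, 1, 4, 1, 5], [4, 5, 4, 5, 4, 5], [5, 5, 5, 5, 5, 5],
    [4, 5, 4, 5, 4, 5], [5, 5, 5, 5, 5, 5]]]
  fin :=
    [[false, true, true, false, false, true, true], [false, true, true],
    [false, true, false, true, true]]
  lab :=
    [[⟨0, 1, 0, 0, false⟩, ⟨0, 0, 1, 1, false⟩, ⟨837165, 837169, 0, 1, true⟩,
    ⟨324698, 324702, 0, 1, false⟩, ⟨614211, 649403, 0, 1, false⟩, ⟨324698, 0, 1, 2, false⟩,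
    ⟨614211, 0, 1, 2, false⟩], [⟨0, 1, 0, 0, false⟩, ⟨0, 0, 1, 1, false⟩,
    ⟨324698, 324702, 0, 1, true⟩], [⟨0, 1, 0, 0, false⟩, ⟨0, 0, 1, 1, false⟩,
    ⟨324698, 324702, 0, 1, false⟩, ⟨614211, 614215, 0, 1, true⟩, ⟨324698, 0, 1, 2, false⟩]]

theorem sd_2_4_13_ok : OkP (2, 4, 13) sd_2_4_13.ok := STab.okP (by decide +kernel)

/-- the exact side rule of the triangle (2, 4, 15) -/
def sd_2_4_15 : STab where
  lo := [781830, 294754, 563319]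
  hi := [781833, 294757, 563322]
  A := [7, 3, 5]
  T :=
    [[[1, 2, 1, 3, 1, 4], [1, 7, 1, 5, 1, 6], [7, 7, 7, 7, 7, 7], [5, 7, 5, 4, 5, 7],
    [6, 7, 6, 7, 6, 7], [5, 7, 5, 6, 5, 7], [6, 7, 6, 7, 6, 7], [7, 7, 7, 7, 7, 7]],
    [[1, 3, 1, 2, 1, 3], [1, 3, 1, 3, 1, 3], [3, 3, 3, 3, 3, 3], [3, 3, 3, 3, 3, 3]],
    [[1, 5, 1, 2, 1, 3], [1, 5, 1, 4, 1, 5], [4, 5, 4, 5, 4, 5], [5, 5, 5, 5, 5, 5],
    [4, 5, 4, 5, 4, 5], [5, 5, 5, 5, 5, 5]]]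
  fin :=
    [[false, true, true, false, false, true, true], [false, true, true],
    [false, true, false, true, true]]
  lab :=
    [[⟨0, 1, 0, 0, false⟩, ⟨0, 0, 1, 1, false⟩, ⟨781830, 781834, 0, 1, true⟩,
    ⟨294754, 294758, 0, 1, false⟩, ⟨563319, 589515, 0, 1, false⟩, ⟨294754, 0, 1, 2, false⟩,
    ⟨563319, 0, 1, 2, false⟩], [⟨0, 1, 0, 0, false⟩, ⟨0, 0, 1, 1, false⟩,
    ⟨294754, 294758, 0, 1, true⟩], [⟨0, 1, 0, 0, false⟩, ⟨0, 0, 1, 1, false⟩,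
    ⟨294754, 294758, 0, 1, false⟩, ⟨563319, 563323, 0, 1, true⟩, ⟨294754, 0, 1, 2, false⟩]]

theorem sd_2_4_15_ok : OkP (2, 4, 15) sd_2_4_15.ok := STab.okP (by decide +kernel)

/-- the exact side rule of the triangle (2, 5, 6) -/
def sd_2_5_6 : STab where
  lo := [992707, 464722, 935015]
  hi := [992710, 464725, 935018]
  A := [7, 3, 7]
  T :=
    [[[1, 2, 1, 3, 1, 4], [1, 7, 1, 5, 1, 6], [7, 7, 7, 7, 7, 7], [5, 7, 5, 4, 5, 7],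
    [6, 7, 6, 7, 6, 7], [5, 7, 5, 6, 5, 7], [6, 7, 6, 7, 6, 7], [7, 7, 7, 7, 7, 7]],
    [[1, 3, 1, 2, 1, 3], [1, 3, 1, 3, 1, 3], [3, 3, 3, 3, 3, 3], [3, 3, 3, 3, 3, 3]],
    [[1, 7, 1, 2, 1, 3], [1, 7, 1, 4, 1, 7], [4, 7, 4, 5, 4, 7], [7, 7, 7, 7, 7, 7],
    [4, 7, 4, 6, 4, 7], [6, 7, 6, 7, 6, 7], [6, 7, 6, 7, 6, 7], [7, 7, 7, 7, 7, 7]]]
  fin :=
    [[false, true, true, false, false, true, true], [false, true, true],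
    [false, true, false, true, true, false, true]]
  lab :=
    [[⟨0, 1, 0, 0, false⟩, ⟨0, 0, 1, 1, false⟩, ⟨992707, 992711, 0, 1, true⟩,
    ⟨464722, 464726, 0, 1, false⟩, ⟨929444, 935019, 0, 1, false⟩, ⟨464722, 0, 1, 2, false⟩,
    ⟨929444, 0, 1, 2, false⟩], [⟨0, 1, 0, 0, false⟩, ⟨0, 0, 1, 1, false⟩,
    ⟨464722, 464726, 0, 1, true⟩], [⟨0, 1, 0, 0, false⟩, ⟨0, 0, 1, 1, false⟩,
    ⟨464722, 464726, 0, 1, false⟩, ⟨935015, 935019, 0, 1, true⟩, ⟨464722, 0, 1, 2, false⟩,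
    ⟨929444, 929451, 0, 2, false⟩, ⟨929444, 0, 1, 2, false⟩]]

theorem sd_2_5_6_ok : OkP (2, 5, 6) sd_2_5_6.ok := STab.okP (by decide +kernel)

/-- the exact side rule of the triangle (2, 5, 7) -/
def sd_2_5_7 : STab where
  lo := [1000000, 433882, 900967]
  hi := [1000000, 433885, 900970]
  A := [7, 3, 7]
  T :=
    [[[1, 2, 1, 3, 1, 4], [1, 7, 1, 5, 1, 6], [7, 7, 7, 7, 7, 7], [5, 7, 5, 4, 5, 7],
    [6, 7, 6, 7, 6, 7], [5, 7, 5, 6, 5, 7], [6, 7, 6, 7, 6, 7], [7, 7, 7, 7, 7, 7]],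
    [[1, 3, 1, 2, 1, 3], [1, 3, 1, 3, 1, 3], [3, 3, 3, 3, 3, 3], [3, 3, 3, 3, 3, 3]],
    [[1, 7, 1, 2, 1, 3], [1, 7, 1, 4, 1, 7], [4, 7, 4, 5, 4, 7], [7, 7, 7, 7, 7, 7],
    [4, 7, 4, 6, 4, 7], [6, 7, 6, 7, 6, 7], [6, 7, 6, 7, 6, 7], [7, 7, 7, 7, 7, 7]]]
  fin :=
    [[false, true, true, false, false, true, true], [false, true, true],
    [false, true, false, true, true, false, true]]
  lab :=
    [[⟨0, 1, 0, 0, false⟩, ⟨0, 0, 1, 1, false⟩, ⟨1000000, 1000001, 0, 1, true⟩,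
    ⟨433882, 433886, 0, 1, false⟩, ⟨867764, 900971, 0, 1, false⟩, ⟨433882, 0, 1, 2, false⟩,
    ⟨867764, 0, 1, 2, false⟩], [⟨0, 1, 0, 0, false⟩, ⟨0, 0, 1, 1, false⟩,
    ⟨433882, 433886, 0, 1, true⟩], [⟨0, 1, 0, 0, false⟩, ⟨0, 0, 1, 1, false⟩,
    ⟨433882, 433886, 0, 1, false⟩, ⟨900967, 900971, 0, 1, true⟩, ⟨433882, 0, 1, 2, false⟩,
    ⟨867764, 867771, 0, 2, false⟩, ⟨867764, 0, 1, 2, false⟩]]

theorem sd_2_5_7_ok : OkP (2, 5, 7) sd_2_5_7.ok := STab.okP (by decide +kernel)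

/-- the exact side rule of the triangle (2, 5, 9) -/
def sd_2_5_9 : STab where
  lo := [980784, 382682, 831468]
  hi := [980787, 382685, 831471]
  A := [7, 3, 7]
  T :=
    [[[1, 2, 1, 3, 1, 4], [1, 7, 1, 5, 1, 6], [7, 7, 7, 7, 7, 7], [5, 7, 5, 4, 5, 7],
    [6, 7, 6, 7, 6, 7], [5, 7, 5, 6, 5, 7], [6, 7, 6, 7, 6, 7], [7, 7, 7, 7, 7, 7]],
    [[1, 3, 1, 2, 1, 3], [1, 3, 1, 3, 1, 3], [3, 3, 3, 3, 3, 3], [3, 3, 3, 3, 3, 3]],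
    [[1, 7, 1, 2, 1, 3], [1, 7, 1, 4, 1, 7], [4, 7, 4, 5, 4, 7], [7, 7, 7, 7, 7, 7],
    [4, 7, 4, 6, 4, 7], [6, 7, 6, 7, 6, 7], [6, 7, 6, 7, 6, 7], [7, 7, 7, 7, 7, 7]]]
  fin :=
    [[false, true, true, false, false, true, true], [false, true, true],
    [false, true, false, true, true, false, true]]
  lab :=
    [[⟨0, 1, 0, 0, false⟩, ⟨0, 0, 1, 1, false⟩, ⟨980784, 980788, 0, 1, true⟩,
    ⟨382682, 382686, 0, 1, false⟩, ⟨765364, 831472, 0, 1, false⟩, ⟨382682, 0, 1, 2, false⟩,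
    ⟨765364, 0, 1, 2, false⟩], [⟨0, 1, 0, 0, false⟩, ⟨0, 0, 1, 1, false⟩,
    ⟨382682, 382686, 0, 1, true⟩], [⟨0, 1, 0, 0, false⟩, ⟨0, 0, 1, 1, false⟩,
    ⟨382682, 382686, 0, 1, false⟩, ⟨831468, 831472, 0, 1, true⟩, ⟨382682, 0, 1, 2, false⟩,
    ⟨765364, 765371, 0, 2, false⟩, ⟨765364, 0, 1, 2, false⟩]]

theorem sd_2_5_9_ok : OkP (2, 5, 9) sd_2_5_9.ok := STab.okP (by decide +kernel)

/-- the exact side rule of the triangle (2, 5, 10) -/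
def sd_2_5_10 : STab where
  lo := [961824, 361240, 798016]
  hi := [961827, 361243, 798019]
  A := [7, 3, 7]
  T :=
    [[[1, 2, 1, 3, 1, 4], [1, 7, 1, 5, 1, 6], [7, 7, 7, 7, 7, 7], [5, 7, 5, 4, 5, 7],
    [6, 7, 6, 7, 6, 7], [5, 7, 5, 6, 5, 7], [6, 7, 6, 7, 6, 7], [7, 7, 7, 7, 7, 7]],
    [[1, 3, 1, 2, 1, 3], [1, 3, 1, 3, 1, 3], [3, 3, 3, 3, 3, 3], [3, 3, 3, 3, 3, 3]],
    [[1, 7, 1, 2, 1, 3], [1, 7, 1, 4, 1, 7], [4, 7, 4, 5, 4, 7], [7, 7, 7, 7, 7, 7],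
    [4, 7, 4, 6, 4, 7], [6, 7, 6, 7, 6, 7], [6, 7, 6, 7, 6, 7], [7, 7, 7, 7, 7, 7]]]
  fin :=
    [[false, true, true, false, false, true, true], [false, true, true],
    [false, true, false, true, true, false, true]]
  lab :=
    [[⟨0, 1, 0, 0, false⟩, ⟨0, 0, 1, 1, false⟩, ⟨961824, 961828, 0, 1, true⟩,
    ⟨361240, 361244, 0, 1, false⟩, ⟨722480, 798020, 0, 1, false⟩, ⟨361240, 0, 1, 2, false⟩,
    ⟨722480, 0, 1, 2, false⟩], [⟨0, 1, 0, 0, false⟩, ⟨0, 0, 1, 1, false⟩,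
    ⟨361240, 361244, 0, 1, true⟩], [⟨0, 1, 0, 0, false⟩, ⟨0, 0, 1, 1, false⟩,
    ⟨361240, 361244, 0, 1, false⟩, ⟨798016, 798020, 0, 1, true⟩, ⟨361240, 0, 1, 2, false⟩,
    ⟨722480, 722487, 0, 2, false⟩, ⟨722480, 0, 1, 2, false⟩]]

theorem sd_2_5_10_ok : OkP (2, 5, 10) sd_2_5_10.ok := STab.okP (by decide +kernel)

/-- the exact side rule of the triangle (2, 5, 14) -/
def sd_2_5_14 : STab where
  lo := [866024, 294754, 680171]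
  hi := [866027, 294757, 680174]
  A := [7, 3, 7]
  T :=
    [[[1, 2, 1, 3, 1, 4], [1, 7, 1, 5, 1, 6], [7, 7, 7, 7, 7, 7], [5, 7, 5, 4, 5, 7],
    [6, 7, 6, 7, 6, 7], [5, 7, 5, 6, 5, 7], [6, 7, 6, 7, 6, 7], [7, 7, 7, 7, 7, 7]],
    [[1, 3, 1, 2, 1, 3], [1, 3, 1, 3, 1, 3], [3, 3, 3, 3, 3, 3], [3, 3, 3, 3, 3, 3]],
    [[1, 7, 1, 2, 1, 3], [1, 7, 1, 4, 1, 7], [4, 7, 4, 5, 4, 7], [7, 7, 7, 7, 7, 7],
    [4, 7, 4, 6, 4, 7], [6, 7, 6, 7, 6, 7], [6, 7, 6, 7, 6, 7], [7, 7, 7, 7, 7, 7]]]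
  fin :=
    [[false, true, true, false, false, true, true], [false, true, true],
    [false, true, false, true, true, false, true]]
  lab :=
    [[⟨0, 1, 0, 0, false⟩, ⟨0, 0, 1, 1, false⟩, ⟨866024, 866028, 0, 1, true⟩,
    ⟨294754, 294758, 0, 1, false⟩, ⟨589508, 680175, 0, 1, false⟩, ⟨294754, 0, 1, 2, false⟩,
    ⟨589508, 0, 1, 2, false⟩], [⟨0, 1, 0, 0, false⟩, ⟨0, 0, 1, 1, false⟩,
    ⟨294754, 294758, 0, 1, true⟩], [⟨0, 1, 0, 0, false⟩, ⟨0, 0, 1, 1, false⟩,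
    ⟨294754, 294758, 0, 1, false⟩, ⟨680171, 680175, 0, 1, true⟩, ⟨294754, 0, 1, 2, false⟩,
    ⟨589508, 589515, 0, 2, false⟩, ⟨589508, 0, 1, 2, false⟩]]

theorem sd_2_5_14_ok : OkP (2, 5, 14) sd_2_5_14.ok := STab.okP (by decide +kernel)

/-- the exact side rule of the triangle (2, 6, 7) -/
def sd_2_6_7 : STab where
  lo := [994520, 406735, 951055]
  hi := [994523, 406738, 951058]
  A := [7, 3, 7]
  T :=
    [[[1, 2, 1, 3, 1, 4], [1, 7, 1, 5, 1, 6], [7, 7, 7, 7, 7, 7], [5, 7, 5, 4, 5, 7],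
    [6, 7, 6, 7, 6, 7], [5, 7, 5, 6, 5, 7], [6, 7, 6, 7, 6, 7], [7, 7, 7, 7, 7, 7]],
    [[1, 3, 1, 2, 1, 3], [1, 3, 1, 3, 1, 3], [3, 3, 3, 3, 3, 3], [3, 3, 3, 3, 3, 3]],
    [[1, 7, 1, 2, 1, 3], [1, 7, 1, 4, 1, 7], [4, 7, 4, 5, 4, 7], [7, 7, 7, 7, 7, 7],
    [4, 7, 4, 6, 4, 7], [6, 7, 6, 7, 6, 7], [6, 7, 6, 7, 6, 7], [7, 7, 7, 7, 7, 7]]]
  fin :=
    [[false, true, true, false, false, true, true], [false, true, true],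
    [false, true, false, true, true, false, true]]
  lab :=
    [[⟨0, 1, 0, 0, false⟩, ⟨0, 0, 1, 1, false⟩, ⟨994520, 994524, 0, 1, true⟩,
    ⟨406735, 406739, 0, 1, false⟩, ⟨813470, 951059, 0, 1, false⟩, ⟨406735, 0, 1, 2, false⟩,
    ⟨813470, 0, 1, 2, false⟩], [⟨0, 1, 0, 0, false⟩, ⟨0, 0, 1, 1, false⟩,
    ⟨406735, 406739, 0, 1, true⟩], [⟨0, 1, 0, 0, false⟩, ⟨0, 0, 1, 1, false⟩,
    ⟨406735, 406739, 0, 1, false⟩, ⟨951055, 951059, 0, 1, true⟩, ⟨406735, 0, 1, 2, false⟩,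
    ⟨813470, 813477, 0, 2, false⟩, ⟨813470, 0, 1, 2, false⟩]]

theorem sd_2_6_7_ok : OkP (2, 6, 7) sd_2_6_7.ok := STab.okP (by decide +kernel)

/-- the exact side rule of the triangle (2, 7, 8) -/
def sd_2_7_8 : STab where
  lo := [995733, 361240, 961824]
  hi := [995736, 361243, 961827]
  A := [7, 3, 7]
  T :=
    [[[1, 2, 1, 3, 1, 4], [1, 7, 1, 5, 1, 6], [7, 7, 7, 7, 7, 7], [5, 7, 5, 4, 5, 7],
    [6, 7, 6, 7, 6, 7], [5, 7, 5, 6, 5, 7], [6, 7, 6, 7, 6, 7], [7, 7, 7, 7, 7, 7]],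
    [[1, 3, 1, 2, 1, 3], [1, 3, 1, 3, 1, 3], [3, 3, 3, 3, 3, 3], [3, 3, 3, 3, 3, 3]],
    [[1, 7, 1, 2, 1, 3], [1, 7, 1, 4, 1, 7], [4, 7, 4, 5, 4, 7], [7, 7, 7, 7, 7, 7],
    [4, 7, 4, 6, 4, 7], [6, 7, 6, 7, 6, 7], [6, 7, 6, 7, 6, 7], [7, 7, 7, 7, 7, 7]]]
  fin :=
    [[false, true, true, false, false, true, true], [false, true, true],
    [false, true, false, true, true, false, true]]
  lab :=
    [[⟨0, 1, 0, 0, false⟩, ⟨0, 0, 1, 1, false⟩, ⟨995733, 995737, 0, 1, true⟩,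
    ⟨361240, 361244, 0, 1, false⟩, ⟨722480, 961828, 0, 1, false⟩, ⟨361240, 0, 1, 2, false⟩,
    ⟨722480, 0, 1, 2, false⟩], [⟨0, 1, 0, 0, false⟩, ⟨0, 0, 1, 1, false⟩,
    ⟨361240, 361244, 0, 1, true⟩], [⟨0, 1, 0, 0, false⟩, ⟨0, 0, 1, 1, false⟩,
    ⟨361240, 361244, 0, 1, false⟩, ⟨961824, 961828, 0, 1, true⟩, ⟨361240, 0, 1, 2, false⟩,
    ⟨722480, 722487, 0, 2, false⟩, ⟨722480, 0, 1, 2, false⟩]]

theorem sd_2_7_8_ok : OkP (2, 7, 8) sd_2_7_8.ok := STab.okP (by decide +kernel)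

/-- the exact side rule of the triangle (2, 7, 9) -/
def sd_2_7_9 : STab where
  lo := [1000000, 342019, 939691]
  hi := [1000000, 342022, 939694]
  A := [7, 3, 7]
  T :=
    [[[1, 2, 1, 3, 1, 4], [1, 7, 1, 5, 1, 6], [7, 7, 7, 7, 7, 7], [5, 7, 5, 4, 5, 7],
    [6, 7, 6, 7, 6, 7], [5, 7, 5, 6, 5, 7], [6, 7, 6, 7, 6, 7], [7, 7, 7, 7, 7, 7]],
    [[1, 3, 1, 2, 1, 3], [1, 3, 1, 3, 1, 3], [3, 3, 3, 3, 3, 3], [3, 3, 3, 3, 3, 3]],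
    [[1, 7, 1, 2, 1, 3], [1, 7, 1, 4, 1, 7], [4, 7, 4, 5, 4, 7], [7, 7, 7, 7, 7, 7],
    [4, 7, 4, 6, 4, 7], [6, 7, 6, 7, 6, 7], [6, 7, 6, 7, 6, 7], [7, 7, 7, 7, 7, 7]]]
  fin :=
    [[false, true, true, false, false, true, true], [false, true, true],
    [false, true, false, true, true, false, true]]
  lab :=
    [[⟨0, 1, 0, 0, false⟩, ⟨0, 0, 1, 1, false⟩, ⟨1000000, 1000001, 0, 1, true⟩,
    ⟨342019, 342023, 0, 1, false⟩, ⟨684038, 939695, 0, 1, false⟩, ⟨342019, 0, 1, 2, false⟩,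
    ⟨684038, 0, 1, 2, false⟩], [⟨0, 1, 0, 0, false⟩, ⟨0, 0, 1, 1, false⟩,
    ⟨342019, 342023, 0, 1, true⟩], [⟨0, 1, 0, 0, false⟩, ⟨0, 0, 1, 1, false⟩,
    ⟨342019, 342023, 0, 1, false⟩, ⟨939691, 939695, 0, 1, true⟩, ⟨342019, 0, 1, 2, false⟩,
    ⟨684038, 684045, 0, 2, false⟩, ⟨684038, 0, 1, 2, false⟩]]

theorem sd_2_7_9_ok : OkP (2, 7, 9) sd_2_7_9.ok := STab.okP (by decide +kernel)

/-- the exact side rule of the triangle (2, 7, 10) -/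
def sd_2_7_10 : STab where
  lo := [996583, 324698, 915772]
  hi := [996586, 324701, 915775]
  A := [9, 3, 7]
  T :=
    [[[1, 2, 1, 3, 1, 4], [1, 9, 1, 5, 1, 6], [9, 9, 9, 9, 9, 9], [5, 9, 5, 7, 5, 9],
    [6, 9, 6, 9, 6, 9], [5, 9, 5, 8, 5, 9], [6, 9, 6, 9, 6, 9], [8, 9, 8, 4, 8, 9],
    [8, 9, 8, 6, 8, 9], [9, 9, 9, 9, 9, 9]], [[1, 3, 1, 2, 1, 3], [1, 3, 1, 3, 1, 3],
    [3, 3, 3, 3, 3, 3], [3, 3, 3, 3, 3, 3]], [[1, 7, 1, 2, 1, 3], [1, 7, 1, 4, 1, 7],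
    [4, 7, 4, 5, 4, 7], [7, 7, 7, 7, 7, 7], [4, 7, 4, 6, 4, 7], [6, 7, 6, 7, 6, 7],
    [6, 7, 6, 7, 6, 7], [7, 7, 7, 7, 7, 7]]]
  fin :=
    [[false, true, true, false, false, true, true, false, true], [false, true, true],
    [false, true, false, true, true, false, true]]
  lab :=
    [[⟨0, 1, 0, 0, false⟩, ⟨0, 0, 1, 1, false⟩, ⟨996583, 996587, 0, 1, true⟩,
    ⟨324698, 324702, 0, 1, false⟩, ⟨915772, 974104, 0, 1, false⟩, ⟨324698, 0, 1, 2, false⟩,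
    ⟨915772, 0, 1, 2, false⟩, ⟨649396, 649403, 0, 2, false⟩, ⟨649396, 0, 1, 2, false⟩],
    [⟨0, 1, 0, 0, false⟩, ⟨0, 0, 1, 1, false⟩, ⟨324698, 324702, 0, 1, true⟩],
    [⟨0, 1, 0, 0, false⟩, ⟨0, 0, 1, 1, false⟩, ⟨324698, 324702, 0, 1, false⟩,
    ⟨915772, 915776, 0, 1, true⟩, ⟨324698, 0, 1, 2, false⟩, ⟨649396, 649403, 0, 2, false⟩,
    ⟨649396, 0, 1, 2, false⟩]]

theorem sd_2_7_10_ok : OkP (2, 7, 10) sd_2_7_10.ok := STab.okP (by decide +kernel)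

/-- the exact side rule of the triangle (2, 7, 14) -/
def sd_2_7_14 : STab where
  lo := [942259, 269795, 816968]
  hi := [942262, 269798, 816971]
  A := [9, 3, 9]
  T :=
    [[[1, 2, 1, 3, 1, 4], [1, 9, 1, 5, 1, 6], [9, 9, 9, 9, 9, 9], [5, 9, 5, 7, 5, 9],
    [6, 9, 6, 9, 6, 9], [5, 9, 5, 8, 5, 9], [6, 9, 6, 9, 6, 9], [8, 9, 8, 4, 8, 9],
    [8, 9, 8, 6, 8, 9], [9, 9, 9, 9, 9, 9]], [[1, 3, 1, 2, 1, 3], [1, 3, 1, 3, 1, 3],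
    [3, 3, 3, 3, 3, 3], [3, 3, 3, 3, 3, 3]], [[1, 9, 1, 2, 1, 3], [1, 9, 1, 4, 1, 9],
    [4, 9, 4, 5, 4, 9], [9, 9, 9, 9, 9, 9], [4, 9, 4, 6, 4, 9], [6, 9, 6, 7, 6, 9],
    [6, 9, 6, 8, 6, 9], [8, 9, 8, 9, 8, 9], [8, 9, 8, 9, 8, 9], [9, 9, 9, 9, 9, 9]]]
  fin :=
    [[false, true, true, false, false, true, true, false, true], [false, true, true],
    [false, true, false, true, true, false, true, false, true]]
  lab :=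
    [[⟨0, 1, 0, 0, false⟩, ⟨0, 0, 1, 1, false⟩, ⟨942259, 942263, 0, 1, true⟩,
    ⟨269795, 269799, 0, 1, false⟩, ⟨809385, 816972, 0, 1, false⟩, ⟨269795, 0, 1, 2, false⟩,
    ⟨809385, 0, 1, 2, false⟩, ⟨539590, 539597, 0, 2, false⟩, ⟨539590, 0, 1, 2, false⟩],
    [⟨0, 1, 0, 0, false⟩, ⟨0, 0, 1, 1, false⟩, ⟨269795, 269799, 0, 1, true⟩],
    [⟨0, 1, 0, 0, false⟩, ⟨0, 0, 1, 1, false⟩, ⟨269795, 269799, 0, 1, false⟩,
    ⟨816968, 816972, 0, 1, true⟩, ⟨269795, 0, 1, 2, false⟩, ⟨539590, 539597, 0, 2, false⟩,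
    ⟨539590, 0, 1, 2, false⟩, ⟨809385, 809395, 0, 2, false⟩, ⟨809385, 0, 1, 2, false⟩]]

theorem sd_2_7_14_ok : OkP (2, 7, 14) sd_2_7_14.ok := STab.okP (by decide +kernel)

/-- the exact side rule of the triangle (2, 7, 18) -/
def sd_2_7_18 : STab where
  lo := [866024, 230614, 727372]
  hi := [866027, 230617, 727375]
  A := [9, 3, 9]
  T :=
    [[[1, 2, 1, 3, 1, 4], [1, 9, 1, 5, 1, 6], [9, 9, 9, 9, 9, 9], [5, 9, 5, 7, 5, 9],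
    [6, 9, 6, 9, 6, 9], [5, 9, 5, 8, 5, 9], [6, 9, 6, 9, 6, 9], [8, 9, 8, 4, 8, 9],
    [8, 9, 8, 6, 8, 9], [9, 9, 9, 9, 9, 9]], [[1, 3, 1, 2, 1, 3], [1, 3, 1, 3, 1, 3],
    [3, 3, 3, 3, 3, 3], [3, 3, 3, 3, 3, 3]], [[1, 9, 1, 2, 1, 3], [1, 9, 1, 4, 1, 9],
    [4, 9, 4, 5, 4, 9], [9, 9, 9, 9, 9, 9], [4, 9, 4, 6, 4, 9], [6, 9, 6, 7, 6, 9],
    [6, 9, 6, 8, 6, 9], [8, 9, 8, 9, 8, 9], [8, 9, 8, 9, 8, 9], [9, 9, 9, 9, 9, 9]]]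
  fin :=
    [[false, true, true, false, false, true, true, false, true], [false, true, true],
    [false, true, false, true, true, false, true, false, true]]
  lab :=
    [[⟨0, 1, 0, 0, false⟩, ⟨0, 0, 1, 1, false⟩, ⟨866024, 866028, 0, 1, true⟩,
    ⟨230614, 230618, 0, 1, false⟩, ⟨691842, 727376, 0, 1, false⟩, ⟨230614, 0, 1, 2, false⟩,
    ⟨691842, 0, 1, 2, false⟩, ⟨461228, 461235, 0, 2, false⟩, ⟨461228, 0, 1, 2, false⟩],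
    [⟨0, 1, 0, 0, false⟩, ⟨0, 0, 1, 1, false⟩, ⟨230614, 230618, 0, 1, true⟩],
    [⟨0, 1, 0, 0, false⟩, ⟨0, 0, 1, 1, false⟩, ⟨230614, 230618, 0, 1, false⟩,
    ⟨727372, 727376, 0, 1, true⟩, ⟨230614, 0, 1, 2, false⟩, ⟨461228, 461235, 0, 2, false⟩,
    ⟨461228, 0, 1, 2, false⟩, ⟨691842, 691852, 0, 2, false⟩, ⟨691842, 0, 1, 2, false⟩]]

theorem sd_2_7_18_ok : OkP (2, 7, 18) sd_2_7_18.ok := STab.okP (by decide +kernel)

/-- the exact side rule of the triangle (2, 8, 9) -/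
def sd_2_8_9 : STab where
  lo := [996583, 324698, 969399]
  hi := [996586, 324701, 969402]
  A := [9, 3, 7]
  T :=
    [[[1, 2, 1, 3, 1, 4], [1, 9, 1, 5, 1, 6], [9, 9, 9, 9, 9, 9], [5, 9, 5, 7, 5, 9],
    [6, 9, 6, 9, 6, 9], [5, 9, 5, 8, 5, 9], [6, 9, 6, 9, 6, 9], [8, 9, 8, 4, 8, 9],
    [8, 9, 8, 6, 8, 9], [9, 9, 9, 9, 9, 9]], [[1, 3, 1, 2, 1, 3], [1, 3, 1, 3, 1, 3],
    [3, 3, 3, 3, 3, 3], [3, 3, 3, 3, 3, 3]], [[1, 7, 1, 2, 1, 3], [1, 7, 1, 4, 1, 7],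
    [4, 7, 4, 5, 4, 7], [7, 7, 7, 7, 7, 7], [4, 7, 4, 6, 4, 7], [6, 7, 6, 7, 6, 7],
    [6, 7, 6, 7, 6, 7], [7, 7, 7, 7, 7, 7]]]
  fin :=
    [[false, true, true, false, false, true, true, false, true], [false, true, true],
    [false, true, false, true, true, false, true]]
  lab :=
    [[⟨0, 1, 0, 0, false⟩, ⟨0, 0, 1, 1, false⟩, ⟨996583, 996587, 0, 1, true⟩,
    ⟨324698, 324702, 0, 1, false⟩, ⟨969399, 974104, 0, 1, false⟩, ⟨324698, 0, 1, 2, false⟩,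
    ⟨969399, 0, 1, 2, false⟩, ⟨649396, 649403, 0, 2, false⟩, ⟨649396, 0, 1, 2, false⟩],
    [⟨0, 1, 0, 0, false⟩, ⟨0, 0, 1, 1, false⟩, ⟨324698, 324702, 0, 1, true⟩],
    [⟨0, 1, 0, 0, false⟩, ⟨0, 0, 1, 1, false⟩, ⟨324698, 324702, 0, 1, false⟩,
    ⟨969399, 969403, 0, 1, true⟩, ⟨324698, 0, 1, 2, false⟩, ⟨649396, 649403, 0, 2, false⟩,
    ⟨649396, 0, 1, 2, false⟩]]

theorem sd_2_8_9_ok : OkP (2, 8, 9) sd_2_8_9.ok := STab.okP (by decide +kernel)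

/-- the exact side rule of the triangle (2, 9, 10) -/
def sd_2_9_10 : STab where
  lo := [997202, 294754, 974926]
  hi := [997205, 294757, 974929]
  A := [9, 3, 9]
  T :=
    [[[1, 2, 1, 3, 1, 4], [1, 9, 1, 5, 1, 6], [9, 9, 9, 9, 9, 9], [5, 9, 5, 7, 5, 9],
    [6, 9, 6, 9, 6, 9], [5, 9, 5, 8, 5, 9], [6, 9, 6, 9, 6, 9], [8, 9, 8, 4, 8, 9],
    [8, 9, 8, 6, 8, 9], [9, 9, 9, 9, 9, 9]], [[1, 3, 1, 2, 1, 3], [1, 3, 1, 3, 1, 3],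
    [3, 3, 3, 3, 3, 3], [3, 3, 3, 3, 3, 3]], [[1, 9, 1, 2, 1, 3], [1, 9, 1, 4, 1, 9],
    [4, 9, 4, 5, 4, 9], [9, 9, 9, 9, 9, 9], [4, 9, 4, 6, 4, 9], [6, 9, 6, 7, 6, 9],
    [6, 9, 6, 8, 6, 9], [8, 9, 8, 9, 8, 9], [8, 9, 8, 9, 8, 9], [9, 9, 9, 9, 9, 9]]]
  fin :=
    [[false, true, true, false, false, true, true, false, true], [false, true, true],
    [false, true, false, true, true, false, true, false, true]]
  lab :=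
    [[⟨0, 1, 0, 0, false⟩, ⟨0, 0, 1, 1, false⟩, ⟨997202, 997206, 0, 1, true⟩,
    ⟨294754, 294758, 0, 1, false⟩, ⟨884262, 974930, 0, 1, false⟩, ⟨294754, 0, 1, 2, false⟩,
    ⟨884262, 0, 1, 2, false⟩, ⟨589508, 589515, 0, 2, false⟩, ⟨589508, 0, 1, 2, false⟩],
    [⟨0, 1, 0, 0, false⟩, ⟨0, 0, 1, 1, false⟩, ⟨294754, 294758, 0, 1, true⟩],
    [⟨0, 1, 0, 0, false⟩, ⟨0, 0, 1, 1, false⟩, ⟨294754, 294758, 0, 1, false⟩,
    ⟨974926, 974930, 0, 1, true⟩, ⟨294754, 0, 1, 2, false⟩, ⟨589508, 589515, 0, 2, false⟩,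
    ⟨589508, 0, 1, 2, false⟩, ⟨884262, 884272, 0, 2, false⟩, ⟨884262, 0, 1, 2, false⟩]]

theorem sd_2_9_10_ok : OkP (2, 9, 10) sd_2_9_10.ok := STab.okP (by decide +kernel)

/-- the exact side rule of the triangle (2, 9, 11) -/
def sd_2_9_11 : STab where
  lo := [1000000, 281731, 959491]
  hi := [1000000, 281734, 959494]
  A := [9, 3, 9]
  T :=
    [[[1, 2, 1, 3, 1, 4], [1, 9, 1, 5, 1, 6], [9, 9, 9, 9, 9, 9], [5, 9, 5, 7, 5, 9],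
    [6, 9, 6, 9, 6, 9], [5, 9, 5, 8, 5, 9], [6, 9, 6, 9, 6, 9], [8, 9, 8, 4, 8, 9],
    [8, 9, 8, 6, 8, 9], [9, 9, 9, 9, 9, 9]], [[1, 3, 1, 2, 1, 3], [1, 3, 1, 3, 1, 3],
    [3, 3, 3, 3, 3, 3], [3, 3, 3, 3, 3, 3]], [[1, 9, 1, 2, 1, 3], [1, 9, 1, 4, 1, 9],
    [4, 9, 4, 5, 4, 9], [9, 9, 9, 9, 9, 9], [4, 9, 4, 6, 4, 9], [6, 9, 6, 7, 6, 9],
    [6, 9, 6, 8, 6, 9], [8, 9, 8, 9, 8, 9], [8, 9, 8, 9, 8, 9], [9, 9, 9, 9, 9, 9]]]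
  fin :=
    [[false, true, true, false, false, true, true, false, true], [false, true, true],
    [false, true, false, true, true, false, true, false, true]]
  lab :=
    [[⟨0, 1, 0, 0, false⟩, ⟨0, 0, 1, 1, false⟩, ⟨1000000, 1000001, 0, 1, true⟩,
    ⟨281731, 281735, 0, 1, false⟩, ⟨845193, 959495, 0, 1, false⟩, ⟨281731, 0, 1, 2, false⟩,
    ⟨845193, 0, 1, 2, false⟩, ⟨563462, 563469, 0, 2, false⟩, ⟨563462, 0, 1, 2, false⟩],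
    [⟨0, 1, 0, 0, false⟩, ⟨0, 0, 1, 1, false⟩, ⟨281731, 281735, 0, 1, true⟩],
    [⟨0, 1, 0, 0, false⟩, ⟨0, 0, 1, 1, false⟩, ⟨281731, 281735, 0, 1, false⟩,
    ⟨959491, 959495, 0, 1, true⟩, ⟨281731, 0, 1, 2, false⟩, ⟨563462, 563469, 0, 2, false⟩,
    ⟨563462, 0, 1, 2, false⟩, ⟨845193, 845203, 0, 2, false⟩, ⟨845193, 0, 1, 2, false⟩]]

theorem sd_2_9_11_ok : OkP (2, 9, 11) sd_2_9_11.ok := STab.okP (by decide +kernel)

/-- the exact side rule of the triangle (2, 9, 14) -/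
def sd_2_9_14 : STab where
  lo := [982286, 248688, 904826]
  hi := [982289, 248691, 904829]
  A := [9, 3, 9]
  T :=
    [[[1, 2, 1, 3, 1, 4], [1, 9, 1, 5, 1, 6], [9, 9, 9, 9, 9, 9], [5, 9, 5, 7, 5, 9],
    [6, 9, 6, 9, 6, 9], [5, 9, 5, 8, 5, 9], [6, 9, 6, 9, 6, 9], [8, 9, 8, 4, 8, 9],
    [8, 9, 8, 6, 8, 9], [9, 9, 9, 9, 9, 9]], [[1, 3, 1, 2, 1, 3], [1, 3, 1, 3, 1, 3],
    [3, 3, 3, 3, 3, 3], [3, 3, 3, 3, 3, 3]], [[1, 9, 1, 2, 1, 3], [1, 9, 1, 4, 1, 9],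
    [4, 9, 4, 5, 4, 9], [9, 9, 9, 9, 9, 9], [4, 9, 4, 6, 4, 9], [6, 9, 6, 7, 6, 9],
    [6, 9, 6, 8, 6, 9], [8, 9, 8, 9, 8, 9], [8, 9, 8, 9, 8, 9], [9, 9, 9, 9, 9, 9]]]
  fin :=
    [[false, true, true, false, false, true, true, false, true], [false, true, true],
    [false, true, false, true, true, false, true, false, true]]
  lab :=
    [[⟨0, 1, 0, 0, false⟩, ⟨0, 0, 1, 1, false⟩, ⟨982286, 982290, 0, 1, true⟩,
    ⟨248688, 248692, 0, 1, false⟩, ⟨746064, 904830, 0, 1, false⟩, ⟨248688, 0, 1, 2, false⟩,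
    ⟨746064, 0, 1, 2, false⟩, ⟨497376, 497383, 0, 2, false⟩, ⟨497376, 0, 1, 2, false⟩],
    [⟨0, 1, 0, 0, false⟩, ⟨0, 0, 1, 1, false⟩, ⟨248688, 248692, 0, 1, true⟩],
    [⟨0, 1, 0, 0, false⟩, ⟨0, 0, 1, 1, false⟩, ⟨248688, 248692, 0, 1, false⟩,
    ⟨904826, 904830, 0, 1, true⟩, ⟨248688, 0, 1, 2, false⟩, ⟨497376, 497383, 0, 2, false⟩,
    ⟨497376, 0, 1, 2, false⟩, ⟨746064, 746074, 0, 2, false⟩, ⟨746064, 0, 1, 2, false⟩]]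

theorem sd_2_9_14_ok : OkP (2, 9, 14) sd_2_9_14.ok := STab.okP (by decide +kernel)

/-- the exact side rule of the triangle (2, 9, 22) -/
def sd_2_9_22 : STab where
  lo := [866024, 189250, 755748]
  hi := [866027, 189253, 755751]
  A := [11, 3, 9]
  T :=
    [[[1, 2, 1, 3, 1, 4], [1, 11, 1, 5, 1, 6], [11, 11, 11, 11, 11, 11], [5, 11, 5, 7, 5, 11],
    [6, 11, 6, 11, 6, 11], [5, 11, 5, 8, 5, 11], [6, 11, 6, 11, 6, 11], [8, 11, 8, 9, 8, 11],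
    [8, 11, 8, 10, 8, 11], [10, 11, 10, 4, 10, 11], [10, 11, 10, 6, 10, 11],
    [11, 11, 11, 11, 11, 11]], [[1, 3, 1, 2, 1, 3], [1, 3, 1, 3, 1, 3], [3, 3, 3, 3, 3, 3],
    [3, 3, 3, 3, 3, 3]], [[1, 9, 1, 2, 1, 3], [1, 9, 1, 4, 1, 9], [4, 9, 4, 5, 4, 9],
    [9, 9, 9, 9, 9, 9], [4, 9, 4, 6, 4, 9], [6, 9, 6, 7, 6, 9], [6, 9, 6, 8, 6, 9],
    [8, 9, 8, 9, 8, 9], [8, 9, 8, 9, 8, 9], [9, 9, 9, 9, 9, 9]]]
  fin :=
    [[false, true, true, false, false, true, true, false, true, false, true],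
    [false, true, true], [false, true, false, true, true, false, true, false, true]]
  lab :=
    [[⟨0, 1, 0, 0, false⟩, ⟨0, 0, 1, 1, false⟩, ⟨866024, 866028, 0, 1, true⟩,
    ⟨189250, 189254, 0, 1, false⟩, ⟨755748, 757013, 0, 1, false⟩, ⟨189250, 0, 1, 2, false⟩,
    ⟨755748, 0, 1, 2, false⟩, ⟨378500, 378507, 0, 2, false⟩, ⟨378500, 0, 1, 2, false⟩,
    ⟨567750, 567760, 0, 2, false⟩, ⟨567750, 0, 1, 2, false⟩], [⟨0, 1, 0, 0, false⟩,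
    ⟨0, 0, 1, 1, false⟩, ⟨189250, 189254, 0, 1, true⟩], [⟨0, 1, 0, 0, false⟩,
    ⟨0, 0, 1, 1, false⟩, ⟨189250, 189254, 0, 1, false⟩, ⟨755748, 755752, 0, 1, true⟩,
    ⟨189250, 0, 1, 2, false⟩, ⟨378500, 378507, 0, 2, false⟩, ⟨378500, 0, 1, 2, false⟩,
    ⟨567750, 567760, 0, 2, false⟩, ⟨567750, 0, 1, 2, false⟩]]

theorem sd_2_9_22_ok : OkP (2, 9, 22) sd_2_9_22.ok := STab.okP (by decide +kernel)

end Pool.Agent.NNc
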