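import Pool.Agent.NNc.OkTab

/-!
# Side rules of the rational triangles: tables (generated)
-/

namespace Pool.Agent.NNc

/-- the exact side rule of the triangle (2, 10, 11) -/
def sd_2_10_11 : STab where
  lo := [997667, 269795, 979083]
  hi := [997670, 269798, 979086]
  A := [9, 3, 9]
  T :=
    [[[1, 2, 1, 3, 1, 4], [1, 9, 1, 5, 1, 6], [9, 9, 9, 9, 9, 9], [5, 9, 5, 7, 5, 9],
    [6, 9, 6, 9, 6, 9], [5, 9, 5, 8, 5, 9], [6, 9, 6, 9, 6, 9], [8, 9, 8, 4, 8, 9],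
    [8, 9, 8, 6, 8, 9], [9, 9, 9, 9, 9, 9]], [[1, 3, 1, 2, 1, 3], [1, 3, 1, 3, 1, 3],
    [3, 3, 3, 3, 3, 3], [3, 3, 3, 3, 3, 3]], [[1, 9, 1, 2, 1, 3], [1, 9, 1, 4, 1, 9],
    [4, 9, 4, 5, 4, 9], [9, 9, 9, 9, 9, 9], [4, 9, 4, 6, 4, 9], [6, 9, 6, 7, 6, 9],
    [6, 9, 6, 8, 6, 9], [8, 9, 8, 9, 8, 9], [8, 9, 8, 9, 8, 9], [9, 9, 9, 9, 9, 9]]]
  fin :=
    [[false, true, true, false, false, true, true, false, true], [false, true, true],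
    [false, true, false, true, true, false, true, false, true]]
  lab :=
    [[⟨0, 1, 0, 0, false⟩, ⟨0, 0, 1, 1, false⟩, ⟨997667, 997671, 0, 1, true⟩,
    ⟨269795, 269799, 0, 1, false⟩, ⟨809385, 979087, 0, 1, false⟩, ⟨269795, 0, 1, 2, false⟩,
    ⟨809385, 0, 1, 2, false⟩, ⟨539590, 539597, 0, 2, false⟩, ⟨539590, 0, 1, 2, false⟩],
    [⟨0, 1, 0, 0, false⟩, ⟨0, 0, 1, 1, false⟩, ⟨269795, 269799, 0, 1, true⟩],
    [⟨0, 1, 0, 0, false⟩, ⟨0, 0, 1, 1, false⟩, ⟨269795, 269799, 0, 1, false⟩,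
    ⟨979083, 979087, 0, 1, true⟩, ⟨269795, 0, 1, 2, false⟩, ⟨539590, 539597, 0, 2, false⟩,
    ⟨539590, 0, 1, 2, false⟩, ⟨809385, 809395, 0, 2, false⟩, ⟨809385, 0, 1, 2, false⟩]]

theorem sd_2_10_11_ok : OkP (2, 10, 11) sd_2_10_11.ok := STab.okP (by decide +kernel)

/-- the exact side rule of the triangle (2, 11, 12) -/
def sd_2_11_12 : STab where
  lo := [998025, 248688, 982286]
  hi := [998028, 248691, 982289]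
  A := [11, 3, 9]
  T :=
    [[[1, 2, 1, 3, 1, 4], [1, 11, 1, 5, 1, 6], [11, 11, 11, 11, 11, 11], [5, 11, 5, 7, 5, 11],
    [6, 11, 6, 11, 6, 11], [5, 11, 5, 8, 5, 11], [6, 11, 6, 11, 6, 11], [8, 11, 8, 9, 8, 11],
    [8, 11, 8, 10, 8, 11], [10, 11, 10, 4, 10, 11], [10, 11, 10, 6, 10, 11],
    [11, 11, 11, 11, 11, 11]], [[1, 3, 1, 2, 1, 3], [1, 3, 1, 3, 1, 3], [3, 3, 3, 3, 3, 3],
    [3, 3, 3, 3, 3, 3]], [[1, 9, 1, 2, 1, 3], [1, 9, 1, 4, 1, 9], [4, 9, 4, 5, 4, 9],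
    [9, 9, 9, 9, 9, 9], [4, 9, 4, 6, 4, 9], [6, 9, 6, 7, 6, 9], [6, 9, 6, 8, 6, 9],
    [8, 9, 8, 9, 8, 9], [8, 9, 8, 9, 8, 9], [9, 9, 9, 9, 9, 9]]]
  fin :=
    [[false, true, true, false, false, true, true, false, true, false, true],
    [false, true, true], [false, true, false, true, true, false, true, false, true]]
  lab :=
    [[⟨0, 1, 0, 0, false⟩, ⟨0, 0, 1, 1, false⟩, ⟨998025, 998029, 0, 1, true⟩,
    ⟨248688, 248692, 0, 1, false⟩, ⟨982286, 994765, 0, 1, false⟩, ⟨248688, 0, 1, 2, false⟩,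
    ⟨982286, 0, 1, 2, false⟩, ⟨497376, 497383, 0, 2, false⟩, ⟨497376, 0, 1, 2, false⟩,
    ⟨746064, 746074, 0, 2, false⟩, ⟨746064, 0, 1, 2, false⟩], [⟨0, 1, 0, 0, false⟩,
    ⟨0, 0, 1, 1, false⟩, ⟨248688, 248692, 0, 1, true⟩], [⟨0, 1, 0, 0, false⟩,
    ⟨0, 0, 1, 1, false⟩, ⟨248688, 248692, 0, 1, false⟩, ⟨982286, 982290, 0, 1, true⟩,
    ⟨248688, 0, 1, 2, false⟩, ⟨497376, 497383, 0, 2, false⟩, ⟨497376, 0, 1, 2, false⟩,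
    ⟨746064, 746074, 0, 2, false⟩, ⟨746064, 0, 1, 2, false⟩]]

theorem sd_2_11_12_ok : OkP (2, 11, 12) sd_2_11_12.ok := STab.okP (by decide +kernel)

/-- the exact side rule of the triangle (2, 11, 26) -/
def sd_2_11_26 : STab where
  lo := [866024, 160410, 774603]
  hi := [866027, 160413, 774606]
  A := [13, 3, 11]
  T :=
    [[[1, 2, 1, 3, 1, 4], [1, 13, 1, 5, 1, 6], [13, 13, 13, 13, 13, 13], [5, 13, 5, 7, 5, 13],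
    [6, 13, 6, 13, 6, 13], [5, 13, 5, 8, 5, 13], [6, 13, 6, 13, 6, 13], [8, 13, 8, 9, 8, 13],
    [8, 13, 8, 10, 8, 13], [10, 13, 10, 11, 10, 13], [10, 13, 10, 12, 10, 13],
    [12, 13, 12, 4, 12, 13], [12, 13, 12, 6, 12, 13], [13, 13, 13, 13, 13, 13]],
    [[1, 3, 1, 2, 1, 3], [1, 3, 1, 3, 1, 3], [3, 3, 3, 3, 3, 3], [3, 3, 3, 3, 3, 3]],
    [[1, 11, 1, 2, 1, 3], [1, 11, 1, 4, 1, 11], [4, 11, 4, 5, 4, 11], [11, 11, 11, 11, 11, 11],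
    [4, 11, 4, 6, 4, 11], [6, 11, 6, 7, 6, 11], [6, 11, 6, 8, 6, 11], [8, 11, 8, 9, 8, 11],
    [8, 11, 8, 10, 8, 11], [10, 11, 10, 11, 10, 11], [10, 11, 10, 11, 10, 11],
    [11, 11, 11, 11, 11, 11]]]
  fin :=
    [[false, true, true, false, false, true, true, false, true, false, true, false, true],
    [false, true, true],
    [false, true, false, true, true, false, true, false, true, false, true]]
  lab :=
    [[⟨0, 1, 0, 0, false⟩, ⟨0, 0, 1, 1, false⟩, ⟨866024, 866028, 0, 1, true⟩,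
    ⟨160410, 160414, 0, 1, false⟩, ⟨774603, 802066, 0, 1, false⟩, ⟨160410, 0, 1, 2, false⟩,
    ⟨774603, 0, 1, 2, false⟩, ⟨320820, 320827, 0, 2, false⟩, ⟨320820, 0, 1, 2, false⟩,
    ⟨481230, 481240, 0, 2, false⟩, ⟨481230, 0, 1, 2, false⟩, ⟨641640, 641653, 0, 2, false⟩,
    ⟨641640, 0, 1, 2, false⟩], [⟨0, 1, 0, 0, false⟩, ⟨0, 0, 1, 1, false⟩,
    ⟨160410, 160414, 0, 1, true⟩], [⟨0, 1, 0, 0, false⟩, ⟨0, 0, 1, 1, false⟩,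
    ⟨160410, 160414, 0, 1, false⟩, ⟨774603, 774607, 0, 1, true⟩, ⟨160410, 0, 1, 2, false⟩,
    ⟨320820, 320827, 0, 2, false⟩, ⟨320820, 0, 1, 2, false⟩, ⟨481230, 481240, 0, 2, false⟩,
    ⟨481230, 0, 1, 2, false⟩, ⟨641640, 641653, 0, 2, false⟩, ⟨641640, 0, 1, 2, false⟩]]

theorem sd_2_11_26_ok : OkP (2, 11, 26) sd_2_11_26.ok := STab.okP (by decide +kernel)

/-- the exact side rule of the triangle (2, 12, 13) -/
def sd_2_12_13 : STab where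
  lo := [998307, 230614, 984806]
  hi := [998310, 230617, 984809]
  A := [11, 3, 11]
  T :=
    [[[1, 2, 1, 3, 1, 4], [1, 11, 1, 5, 1, 6], [11, 11, 11, 11, 11, 11], [5, 11, 5, 7, 5, 11],
    [6, 11, 6, 11, 6, 11], [5, 11, 5, 8, 5, 11], [6, 11, 6, 11, 6, 11], [8, 11, 8, 9, 8, 11],
    [8, 11, 8, 10, 8, 11], [10, 11, 10, 4, 10, 11], [10, 11, 10, 6, 10, 11],
    [11, 11, 11, 11, 11, 11]], [[1, 3, 1, 2, 1, 3], [1, 3, 1, 3, 1, 3], [3, 3, 3, 3, 3, 3],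
    [3, 3, 3, 3, 3, 3]], [[1, 11, 1, 2, 1, 3], [1, 11, 1, 4, 1, 11], [4, 11, 4, 5, 4, 11],
    [11, 11, 11, 11, 11, 11], [4, 11, 4, 6, 4, 11], [6, 11, 6, 7, 6, 11], [6, 11, 6, 8, 6, 11],
    [8, 11, 8, 9, 8, 11], [8, 11, 8, 10, 8, 11], [10, 11, 10, 11, 10, 11],
    [10, 11, 10, 11, 10, 11], [11, 11, 11, 11, 11, 11]]]
  fin :=
    [[false, true, true, false, false, true, true, false, true, false, true],
    [false, true, true],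
    [false, true, false, true, true, false, true, false, true, false, true]]
  lab :=
    [[⟨0, 1, 0, 0, false⟩, ⟨0, 0, 1, 1, false⟩, ⟨998307, 998311, 0, 1, true⟩,
    ⟨230614, 230618, 0, 1, false⟩, ⟨922456, 984810, 0, 1, false⟩, ⟨230614, 0, 1, 2, false⟩,
    ⟨922456, 0, 1, 2, false⟩, ⟨461228, 461235, 0, 2, false⟩, ⟨461228, 0, 1, 2, false⟩,
    ⟨691842, 691852, 0, 2, false⟩, ⟨691842, 0, 1, 2, false⟩], [⟨0, 1, 0, 0, false⟩,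
    ⟨0, 0, 1, 1, false⟩, ⟨230614, 230618, 0, 1, true⟩], [⟨0, 1, 0, 0, false⟩,
    ⟨0, 0, 1, 1, false⟩, ⟨230614, 230618, 0, 1, false⟩, ⟨984806, 984810, 0, 1, true⟩,
    ⟨230614, 0, 1, 2, false⟩, ⟨461228, 461235, 0, 2, false⟩, ⟨461228, 0, 1, 2, false⟩,
    ⟨691842, 691852, 0, 2, false⟩, ⟨691842, 0, 1, 2, false⟩, ⟨922456, 922469, 0, 2, false⟩,
    ⟨922456, 0, 1, 2, false⟩]]

theorem sd_2_12_13_ok : OkP (2, 12, 13) sd_2_12_13.ok := STab.okP (by decide +kernel)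

/-- the exact side rule of the triangle (2, 13, 14) -/
def sd_2_13_14 : STab where
  lo := [998532, 214969, 986825]
  hi := [998535, 214972, 986828]
  A := [11, 3, 11]
  T :=
    [[[1, 2, 1, 3, 1, 4], [1, 11, 1, 5, 1, 6], [11, 11, 11, 11, 11, 11], [5, 11, 5, 7, 5, 11],
    [6, 11, 6, 11, 6, 11], [5, 11, 5, 8, 5, 11], [6, 11, 6, 11, 6, 11], [8, 11, 8, 9, 8, 11],
    [8, 11, 8, 10, 8, 11], [10, 11, 10, 4, 10, 11], [10, 11, 10, 6, 10, 11],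
    [11, 11, 11, 11, 11, 11]], [[1, 3, 1, 2, 1, 3], [1, 3, 1, 3, 1, 3], [3, 3, 3, 3, 3, 3],
    [3, 3, 3, 3, 3, 3]], [[1, 11, 1, 2, 1, 3], [1, 11, 1, 4, 1, 11], [4, 11, 4, 5, 4, 11],
    [11, 11, 11, 11, 11, 11], [4, 11, 4, 6, 4, 11], [6, 11, 6, 7, 6, 11], [6, 11, 6, 8, 6, 11],
    [8, 11, 8, 9, 8, 11], [8, 11, 8, 10, 8, 11], [10, 11, 10, 11, 10, 11],
    [10, 11, 10, 11, 10, 11], [11, 11, 11, 11, 11, 11]]]
  fin :=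
    [[false, true, true, false, false, true, true, false, true, false, true],
    [false, true, true],
    [false, true, false, true, true, false, true, false, true, false, true]]
  lab :=
    [[⟨0, 1, 0, 0, false⟩, ⟨0, 0, 1, 1, false⟩, ⟨998532, 998536, 0, 1, true⟩,
    ⟨214969, 214973, 0, 1, false⟩, ⟨859876, 986829, 0, 1, false⟩, ⟨214969, 0, 1, 2, false⟩,
    ⟨859876, 0, 1, 2, false⟩, ⟨429938, 429945, 0, 2, false⟩, ⟨429938, 0, 1, 2, false⟩,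
    ⟨644907, 644917, 0, 2, false⟩, ⟨644907, 0, 1, 2, false⟩], [⟨0, 1, 0, 0, false⟩,
    ⟨0, 0, 1, 1, false⟩, ⟨214969, 214973, 0, 1, true⟩], [⟨0, 1, 0, 0, false⟩,
    ⟨0, 0, 1, 1, false⟩, ⟨214969, 214973, 0, 1, false⟩, ⟨986825, 986829, 0, 1, true⟩,
    ⟨214969, 0, 1, 2, false⟩, ⟨429938, 429945, 0, 2, false⟩, ⟨429938, 0, 1, 2, false⟩,
    ⟨644907, 644917, 0, 2, false⟩, ⟨644907, 0, 1, 2, false⟩, ⟨859876, 859889, 0, 2, false⟩,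
    ⟨859876, 0, 1, 2, false⟩]]

theorem sd_2_13_14_ok : OkP (2, 13, 14) sd_2_13_14.ok := STab.okP (by decide +kernel)

/-- the exact side rule of the triangle (2, 14, 15) -/
def sd_2_14_15 : STab where
  lo := [998715, 201297, 988467]
  hi := [998718, 201300, 988470]
  A := [11, 3, 11]
  T :=
    [[[1, 2, 1, 3, 1, 4], [1, 11, 1, 5, 1, 6], [11, 11, 11, 11, 11, 11], [5, 11, 5, 7, 5, 11],
    [6, 11, 6, 11, 6, 11], [5, 11, 5, 8, 5, 11], [6, 11, 6, 11, 6, 11], [8, 11, 8, 9, 8, 11],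
    [8, 11, 8, 10, 8, 11], [10, 11, 10, 4, 10, 11], [10, 11, 10, 6, 10, 11],
    [11, 11, 11, 11, 11, 11]], [[1, 3, 1, 2, 1, 3], [1, 3, 1, 3, 1, 3], [3, 3, 3, 3, 3, 3],
    [3, 3, 3, 3, 3, 3]], [[1, 11, 1, 2, 1, 3], [1, 11, 1, 4, 1, 11], [4, 11, 4, 5, 4, 11],
    [11, 11, 11, 11, 11, 11], [4, 11, 4, 6, 4, 11], [6, 11, 6, 7, 6, 11], [6, 11, 6, 8, 6, 11],
    [8, 11, 8, 9, 8, 11], [8, 11, 8, 10, 8, 11], [10, 11, 10, 11, 10, 11],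
    [10, 11, 10, 11, 10, 11], [11, 11, 11, 11, 11, 11]]]
  fin :=
    [[false, true, true, false, false, true, true, false, true, false, true],
    [false, true, true],
    [false, true, false, true, true, false, true, false, true, false, true]]
  lab :=
    [[⟨0, 1, 0, 0, false⟩, ⟨0, 0, 1, 1, false⟩, ⟨998715, 998719, 0, 1, true⟩,
    ⟨201297, 201301, 0, 1, false⟩, ⟨805188, 988471, 0, 1, false⟩, ⟨201297, 0, 1, 2, false⟩,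
    ⟨805188, 0, 1, 2, false⟩, ⟨402594, 402601, 0, 2, false⟩, ⟨402594, 0, 1, 2, false⟩,
    ⟨603891, 603901, 0, 2, false⟩, ⟨603891, 0, 1, 2, false⟩], [⟨0, 1, 0, 0, false⟩,
    ⟨0, 0, 1, 1, false⟩, ⟨201297, 201301, 0, 1, true⟩], [⟨0, 1, 0, 0, false⟩,
    ⟨0, 0, 1, 1, false⟩, ⟨201297, 201301, 0, 1, false⟩, ⟨988467, 988471, 0, 1, true⟩,
    ⟨201297, 0, 1, 2, false⟩, ⟨402594, 402601, 0, 2, false⟩, ⟨402594, 0, 1, 2, false⟩,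
    ⟨603891, 603901, 0, 2, false⟩, ⟨603891, 0, 1, 2, false⟩, ⟨805188, 805201, 0, 2, false⟩,
    ⟨805188, 0, 1, 2, false⟩]]

theorem sd_2_14_15_ok : OkP (2, 14, 15) sd_2_14_15.ok := STab.okP (by decide +kernel)

/-- the exact side rule of the triangle (2, 15, 16) -/
def sd_2_15_16 : STab where
  lo := [998866, 189250, 989820]
  hi := [998869, 189253, 989823]
  A := [13, 3, 13]
  T :=
    [[[1, 2, 1, 3, 1, 4], [1, 13, 1, 5, 1, 6], [13, 13, 13, 13, 13, 13], [5, 13, 5, 7, 5, 13],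
    [6, 13, 6, 13, 6, 13], [5, 13, 5, 8, 5, 13], [6, 13, 6, 13, 6, 13], [8, 13, 8, 9, 8, 13],
    [8, 13, 8, 10, 8, 13], [10, 13, 10, 11, 10, 13], [10, 13, 10, 12, 10, 13],
    [12, 13, 12, 4, 12, 13], [12, 13, 12, 6, 12, 13], [13, 13, 13, 13, 13, 13]],
    [[1, 3, 1, 2, 1, 3], [1, 3, 1, 3, 1, 3], [3, 3, 3, 3, 3, 3], [3, 3, 3, 3, 3, 3]],
    [[1, 13, 1, 2, 1, 3], [1, 13, 1, 4, 1, 13], [4, 13, 4, 5, 4, 13], [13, 13, 13, 13, 13, 13],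
    [4, 13, 4, 6, 4, 13], [6, 13, 6, 7, 6, 13], [6, 13, 6, 8, 6, 13], [8, 13, 8, 9, 8, 13],
    [8, 13, 8, 10, 8, 13], [10, 13, 10, 11, 10, 13], [10, 13, 10, 12, 10, 13],
    [12, 13, 12, 13, 12, 13], [12, 13, 12, 13, 12, 13], [13, 13, 13, 13, 13, 13]]]
  fin :=
    [[false, true, true, false, false, true, true, false, true, false, true, false, true],
    [false, true, true],
    [false, true, false, true, true, false, true, false, true, false, true, false, true]]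
  lab :=
    [[⟨0, 1, 0, 0, false⟩, ⟨0, 0, 1, 1, false⟩, ⟨998866, 998870, 0, 1, true⟩,
    ⟨189250, 189254, 0, 1, false⟩, ⟨946250, 989824, 0, 1, false⟩, ⟨189250, 0, 1, 2, false⟩,
    ⟨946250, 0, 1, 2, false⟩, ⟨378500, 378507, 0, 2, false⟩, ⟨378500, 0, 1, 2, false⟩,
    ⟨567750, 567760, 0, 2, false⟩, ⟨567750, 0, 1, 2, false⟩, ⟨757000, 757013, 0, 2, false⟩,
    ⟨757000, 0, 1, 2, false⟩], [⟨0, 1, 0, 0, false⟩, ⟨0, 0, 1, 1, false⟩,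
    ⟨189250, 189254, 0, 1, true⟩], [⟨0, 1, 0, 0, false⟩, ⟨0, 0, 1, 1, false⟩,
    ⟨189250, 189254, 0, 1, false⟩, ⟨989820, 989824, 0, 1, true⟩, ⟨189250, 0, 1, 2, false⟩,
    ⟨378500, 378507, 0, 2, false⟩, ⟨378500, 0, 1, 2, false⟩, ⟨567750, 567760, 0, 2, false⟩,
    ⟨567750, 0, 1, 2, false⟩, ⟨757000, 757013, 0, 2, false⟩, ⟨757000, 0, 1, 2, false⟩,
    ⟨946250, 946266, 0, 2, false⟩, ⟨946250, 0, 1, 2, false⟩]]

theorem sd_2_15_16_ok : OkP (2, 15, 16) sd_2_15_16.ok := STab.okP (by decide +kernel)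

/-- the exact side rule of the triangle (2, 16, 17) -/
def sd_2_16_17 : STab where
  lo := [998992, 178555, 990948]
  hi := [998995, 178558, 990951]
  A := [13, 3, 13]
  T :=
    [[[1, 2, 1, 3, 1, 4], [1, 13, 1, 5, 1, 6], [13, 13, 13, 13, 13, 13], [5, 13, 5, 7, 5, 13],
    [6, 13, 6, 13, 6, 13], [5, 13, 5, 8, 5, 13], [6, 13, 6, 13, 6, 13], [8, 13, 8, 9, 8, 13],
    [8, 13, 8, 10, 8, 13], [10, 13, 10, 11, 10, 13], [10, 13, 10, 12, 10, 13],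
    [12, 13, 12, 4, 12, 13], [12, 13, 12, 6, 12, 13], [13, 13, 13, 13, 13, 13]],
    [[1, 3, 1, 2, 1, 3], [1, 3, 1, 3, 1, 3], [3, 3, 3, 3, 3, 3], [3, 3, 3, 3, 3, 3]],
    [[1, 13, 1, 2, 1, 3], [1, 13, 1, 4, 1, 13], [4, 13, 4, 5, 4, 13], [13, 13, 13, 13, 13, 13],
    [4, 13, 4, 6, 4, 13], [6, 13, 6, 7, 6, 13], [6, 13, 6, 8, 6, 13], [8, 13, 8, 9, 8, 13],
    [8, 13, 8, 10, 8, 13], [10, 13, 10, 11, 10, 13], [10, 13, 10, 12, 10, 13],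
    [12, 13, 12, 13, 12, 13], [12, 13, 12, 13, 12, 13], [13, 13, 13, 13, 13, 13]]]
  fin :=
    [[false, true, true, false, false, true, true, false, true, false, true, false, true],
    [false, true, true],
    [false, true, false, true, true, false, true, false, true, false, true, false, true]]
  lab :=
    [[⟨0, 1, 0, 0, false⟩, ⟨0, 0, 1, 1, false⟩, ⟨998992, 998996, 0, 1, true⟩,
    ⟨178555, 178559, 0, 1, false⟩, ⟨892775, 990952, 0, 1, false⟩, ⟨178555, 0, 1, 2, false⟩,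
    ⟨892775, 0, 1, 2, false⟩, ⟨357110, 357117, 0, 2, false⟩, ⟨357110, 0, 1, 2, false⟩,
    ⟨535665, 535675, 0, 2, false⟩, ⟨535665, 0, 1, 2, false⟩, ⟨714220, 714233, 0, 2, false⟩,
    ⟨714220, 0, 1, 2, false⟩], [⟨0, 1, 0, 0, false⟩, ⟨0, 0, 1, 1, false⟩,
    ⟨178555, 178559, 0, 1, true⟩], [⟨0, 1, 0, 0, false⟩, ⟨0, 0, 1, 1, false⟩,
    ⟨178555, 178559, 0, 1, false⟩, ⟨990948, 990952, 0, 1, true⟩, ⟨178555, 0, 1, 2, false⟩,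
    ⟨357110, 357117, 0, 2, false⟩, ⟨357110, 0, 1, 2, false⟩, ⟨535665, 535675, 0, 2, false⟩,
    ⟨535665, 0, 1, 2, false⟩, ⟨714220, 714233, 0, 2, false⟩, ⟨714220, 0, 1, 2, false⟩,
    ⟨892775, 892791, 0, 2, false⟩, ⟨892775, 0, 1, 2, false⟩]]

theorem sd_2_16_17_ok : OkP (2, 16, 17) sd_2_16_17.ok := STab.okP (by decide +kernel)

/-- the exact side rule of the triangle (3, 4, 5) -/
def sd_3_4_5 : STab where
  lo := [965924, 707105, 866024]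
  hi := [965927, 707108, 866027]
  A := [5, 3, 5]
  T :=
    [[[1, 2, 1, 3, 1, 3], [1, 5, 1, 4, 1, 4], [5, 5, 5, 5, 5, 5], [4, 5, 4, 5, 4, 5],
    [4, 5, 4, 5, 4, 5], [5, 5, 5, 5, 5, 5]], [[1, 3, 1, 2, 1, 3], [1, 3, 1, 3, 1, 3],
    [3, 3, 3, 3, 3, 3], [3, 3, 3, 3, 3, 3]], [[1, 5, 1, 2, 1, 3], [1, 5, 1, 4, 1, 5],
    [4, 5, 4, 5, 4, 5], [5, 5, 5, 5, 5, 5], [4, 5, 4, 5, 4, 5], [5, 5, 5, 5, 5, 5]]]
  fin :=
    [[false, true, true, false, true], [false, true, true], [false, true, false, true, true]]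
  lab :=
    [[⟨0, 1, 0, 0, false⟩, ⟨0, 0, 1, 1, false⟩, ⟨965924, 965928, 0, 1, true⟩,
    ⟨707105, 866028, 0, 1, false⟩, ⟨707105, 0, 1, 2, false⟩], [⟨0, 1, 0, 0, false⟩,
    ⟨0, 0, 1, 1, false⟩, ⟨707105, 707109, 0, 1, true⟩], [⟨0, 1, 0, 0, false⟩,
    ⟨0, 0, 1, 1, false⟩, ⟨707105, 707109, 0, 1, false⟩, ⟨866024, 866028, 0, 1, true⟩,
    ⟨707105, 0, 1, 2, false⟩]]

theorem sd_3_4_5_ok : OkP (3, 4, 5) sd_3_4_5.ok := STab.okP (by decide +kernel)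

/-- the exact side rule of the triangle (3, 4, 6) -/
def sd_3_4_6 : STab where
  lo := [992707, 663121, 822982]
  hi := [992710, 663124, 822985]
  A := [5, 3, 5]
  T :=
    [[[1, 2, 1, 3, 1, 3], [1, 5, 1, 4, 1, 4], [5, 5, 5, 5, 5, 5], [4, 5, 4, 5, 4, 5],
    [4, 5, 4, 5, 4, 5], [5, 5, 5, 5, 5, 5]], [[1, 3, 1, 2, 1, 3], [1, 3, 1, 3, 1, 3],
    [3, 3, 3, 3, 3, 3], [3, 3, 3, 3, 3, 3]], [[1, 5, 1, 2, 1, 3], [1, 5, 1, 4, 1, 5],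
    [4, 5, 4, 5, 4, 5], [5, 5, 5, 5, 5, 5], [4, 5, 4, 5, 4, 5], [5, 5, 5, 5, 5, 5]]]
  fin :=
    [[false, true, true, false, true], [false, true, true], [false, true, false, true, true]]
  lab :=
    [[⟨0, 1, 0, 0, false⟩, ⟨0, 0, 1, 1, false⟩, ⟨992707, 992711, 0, 1, true⟩,
    ⟨663121, 822986, 0, 1, false⟩, ⟨663121, 0, 1, 2, false⟩], [⟨0, 1, 0, 0, false⟩,
    ⟨0, 0, 1, 1, false⟩, ⟨663121, 663125, 0, 1, true⟩], [⟨0, 1, 0, 0, false⟩,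
    ⟨0, 0, 1, 1, false⟩, ⟨663121, 663125, 0, 1, false⟩, ⟨822982, 822986, 0, 1, true⟩,
    ⟨663121, 0, 1, 2, false⟩]]

theorem sd_3_4_6_ok : OkP (3, 4, 6) sd_3_4_6.ok := STab.okP (by decide +kernel)

/-- the exact side rule of the triangle (3, 4, 7) -/
def sd_3_4_7 : STab where
  lo := [1000000, 623488, 781830]
  hi := [1000000, 623491, 781833]
  A := [5, 3, 5]
  T :=
    [[[1, 2, 1, 3, 1, 3], [1, 5, 1, 4, 1, 4], [5, 5, 5, 5, 5, 5], [4, 5, 4, 5, 4, 5],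
    [4, 5, 4, 5, 4, 5], [5, 5, 5, 5, 5, 5]], [[1, 3, 1, 2, 1, 3], [1, 3, 1, 3, 1, 3],
    [3, 3, 3, 3, 3, 3], [3, 3, 3, 3, 3, 3]], [[1, 5, 1, 2, 1, 3], [1, 5, 1, 4, 1, 5],
    [4, 5, 4, 5, 4, 5], [5, 5, 5, 5, 5, 5], [4, 5, 4, 5, 4, 5], [5, 5, 5, 5, 5, 5]]]
  fin :=
    [[false, true, true, false, true], [false, true, true], [false, true, false, true, true]]
  lab :=
    [[⟨0, 1, 0, 0, false⟩, ⟨0, 0, 1, 1, false⟩, ⟨1000000, 1000001, 0, 1, true⟩,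
    ⟨623488, 781834, 0, 1, false⟩, ⟨623488, 0, 1, 2, false⟩], [⟨0, 1, 0, 0, false⟩,
    ⟨0, 0, 1, 1, false⟩, ⟨623488, 623492, 0, 1, true⟩], [⟨0, 1, 0, 0, false⟩,
    ⟨0, 0, 1, 1, false⟩, ⟨623488, 623492, 0, 1, false⟩, ⟨781830, 781834, 0, 1, true⟩,
    ⟨623488, 0, 1, 2, false⟩]]

theorem sd_3_4_7_ok : OkP (3, 4, 7) sd_3_4_7.ok := STab.okP (by decide +kernel)

/-- the exact side rule of the triangle (3, 4, 8) -/
def sd_3_4_8 : STab where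
  lo := [994520, 587784, 743143]
  hi := [994523, 587787, 743146]
  A := [5, 3, 5]
  T :=
    [[[1, 2, 1, 3, 1, 3], [1, 5, 1, 4, 1, 4], [5, 5, 5, 5, 5, 5], [4, 5, 4, 5, 4, 5],
    [4, 5, 4, 5, 4, 5], [5, 5, 5, 5, 5, 5]], [[1, 3, 1, 2, 1, 3], [1, 3, 1, 3, 1, 3],
    [3, 3, 3, 3, 3, 3], [3, 3, 3, 3, 3, 3]], [[1, 5, 1, 2, 1, 3], [1, 5, 1, 4, 1, 5],
    [4, 5, 4, 5, 4, 5], [5, 5, 5, 5, 5, 5], [4, 5, 4, 5, 4, 5], [5, 5, 5, 5, 5, 5]]]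
  fin :=
    [[false, true, true, false, true], [false, true, true], [false, true, false, true, true]]
  lab :=
    [[⟨0, 1, 0, 0, false⟩, ⟨0, 0, 1, 1, false⟩, ⟨994520, 994524, 0, 1, true⟩,
    ⟨587784, 743147, 0, 1, false⟩, ⟨587784, 0, 1, 2, false⟩], [⟨0, 1, 0, 0, false⟩,
    ⟨0, 0, 1, 1, false⟩, ⟨587784, 587788, 0, 1, true⟩], [⟨0, 1, 0, 0, false⟩,
    ⟨0, 0, 1, 1, false⟩, ⟨587784, 587788, 0, 1, false⟩, ⟨743143, 743147, 0, 1, true⟩,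
    ⟨587784, 0, 1, 2, false⟩]]

theorem sd_3_4_8_ok : OkP (3, 4, 8) sd_3_4_8.ok := STab.okP (by decide +kernel)

/-- the exact side rule of the triangle (3, 4, 10) -/
def sd_3_4_10 : STab where
  lo := [961824, 526431, 673694]
  hi := [961827, 526434, 673697]
  A := [5, 3, 5]
  T :=
    [[[1, 2, 1, 3, 1, 3], [1, 5, 1, 4, 1, 4], [5, 5, 5, 5, 5, 5], [4, 5, 4, 5, 4, 5],
    [4, 5, 4, 5, 4, 5], [5, 5, 5, 5, 5, 5]], [[1, 3, 1, 2, 1, 3], [1, 3, 1, 3, 1, 3],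
    [3, 3, 3, 3, 3, 3], [3, 3, 3, 3, 3, 3]], [[1, 5, 1, 2, 1, 3], [1, 5, 1, 4, 1, 5],
    [4, 5, 4, 5, 4, 5], [5, 5, 5, 5, 5, 5], [4, 5, 4, 5, 4, 5], [5, 5, 5, 5, 5, 5]]]
  fin :=
    [[false, true, true, false, true], [false, true, true], [false, true, false, true, true]]
  lab :=
    [[⟨0, 1, 0, 0, false⟩, ⟨0, 0, 1, 1, false⟩, ⟨961824, 961828, 0, 1, true⟩,
    ⟨526431, 673698, 0, 1, false⟩, ⟨526431, 0, 1, 2, false⟩], [⟨0, 1, 0, 0, false⟩,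
    ⟨0, 0, 1, 1, false⟩, ⟨526431, 526435, 0, 1, true⟩], [⟨0, 1, 0, 0, false⟩,
    ⟨0, 0, 1, 1, false⟩, ⟨526431, 526435, 0, 1, false⟩, ⟨673694, 673698, 0, 1, true⟩,
    ⟨526431, 0, 1, 2, false⟩]]

theorem sd_3_4_10_ok : OkP (3, 4, 10) sd_3_4_10.ok := STab.okP (by decide +kernel)

/-- the exact side rule of the triangle (3, 4, 11) -/
def sd_3_4_11 : STab where
  lo := [939691, 500000, 642786]
  hi := [939694, 500000, 642789]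
  A := [5, 3, 5]
  T :=
    [[[1, 2, 1, 3, 1, 3], [1, 5, 1, 4, 1, 4], [5, 5, 5, 5, 5, 5], [4, 5, 4, 5, 4, 5],
    [4, 5, 4, 5, 4, 5], [5, 5, 5, 5, 5, 5]], [[1, 3, 1, 2, 1, 3], [1, 3, 1, 3, 1, 3],
    [3, 3, 3, 3, 3, 3], [3, 3, 3, 3, 3, 3]], [[1, 5, 1, 2, 1, 3], [1, 5, 1, 4, 1, 5],
    [4, 5, 4, 5, 4, 5], [5, 5, 5, 5, 5, 5], [4, 5, 4, 5, 4, 5], [5, 5, 5, 5, 5, 5]]]
  fin :=
    [[false, true, true, false, true], [false, true, true], [false, true, false, true, true]]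
  lab :=
    [[⟨0, 1, 0, 0, false⟩, ⟨0, 0, 1, 1, false⟩, ⟨939691, 939695, 0, 1, true⟩,
    ⟨500000, 642790, 0, 1, false⟩, ⟨500000, 0, 1, 2, false⟩], [⟨0, 1, 0, 0, false⟩,
    ⟨0, 0, 1, 1, false⟩, ⟨500000, 500001, 0, 1, true⟩], [⟨0, 1, 0, 0, false⟩,
    ⟨0, 0, 1, 1, false⟩, ⟨500000, 500001, 0, 1, false⟩, ⟨642786, 642790, 0, 1, true⟩,
    ⟨500000, 0, 1, 2, false⟩]]

theorem sd_3_4_11_ok : OkP (3, 4, 11) sd_3_4_11.ok := STab.okP (by decide +kernel)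

/-- the exact side rule of the triangle (3, 4, 14) -/
def sd_3_4_14 : STab where
  lo := [866024, 433882, 563319]
  hi := [866027, 433885, 563322]
  A := [5, 3, 5]
  T :=
    [[[1, 2, 1, 3, 1, 3], [1, 5, 1, 4, 1, 4], [5, 5, 5, 5, 5, 5], [4, 5, 4, 5, 4, 5],
    [4, 5, 4, 5, 4, 5], [5, 5, 5, 5, 5, 5]], [[1, 3, 1, 2, 1, 3], [1, 3, 1, 3, 1, 3],
    [3, 3, 3, 3, 3, 3], [3, 3, 3, 3, 3, 3]], [[1, 5, 1, 2, 1, 3], [1, 5, 1, 4, 1, 5],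
    [4, 5, 4, 5, 4, 5], [5, 5, 5, 5, 5, 5], [4, 5, 4, 5, 4, 5], [5, 5, 5, 5, 5, 5]]]
  fin :=
    [[false, true, true, false, true], [false, true, true], [false, true, false, true, true]]
  lab :=
    [[⟨0, 1, 0, 0, false⟩, ⟨0, 0, 1, 1, false⟩, ⟨866024, 866028, 0, 1, true⟩,
    ⟨433882, 563323, 0, 1, false⟩, ⟨433882, 0, 1, 2, false⟩], [⟨0, 1, 0, 0, false⟩,
    ⟨0, 0, 1, 1, false⟩, ⟨433882, 433886, 0, 1, true⟩], [⟨0, 1, 0, 0, false⟩,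
    ⟨0, 0, 1, 1, false⟩, ⟨433882, 433886, 0, 1, false⟩, ⟨563319, 563323, 0, 1, true⟩,
    ⟨433882, 0, 1, 2, false⟩]]

theorem sd_3_4_14_ok : OkP (3, 4, 14) sd_3_4_14.ok := STab.okP (by decide +kernel)

/-- the exact side rule of the triangle (3, 5, 6) -/
def sd_3_5_6 : STab where
  lo := [974926, 623488, 900967]
  hi := [974929, 623491, 900970]
  A := [5, 3, 5]
  T :=
    [[[1, 2, 1, 3, 1, 3], [1, 5, 1, 4, 1, 4], [5, 5, 5, 5, 5, 5], [4, 5, 4, 5, 4, 5],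
    [4, 5, 4, 5, 4, 5], [5, 5, 5, 5, 5, 5]], [[1, 3, 1, 2, 1, 3], [1, 3, 1, 3, 1, 3],
    [3, 3, 3, 3, 3, 3], [3, 3, 3, 3, 3, 3]], [[1, 5, 1, 2, 1, 3], [1, 5, 1, 4, 1, 5],
    [4, 5, 4, 5, 4, 5], [5, 5, 5, 5, 5, 5], [4, 5, 4, 5, 4, 5], [5, 5, 5, 5, 5, 5]]]
  fin :=
    [[false, true, true, false, true], [false, true, true], [false, true, false, true, true]]
  lab :=
    [[⟨0, 1, 0, 0, false⟩, ⟨0, 0, 1, 1, false⟩, ⟨974926, 974930, 0, 1, true⟩,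
    ⟨623488, 900971, 0, 1, false⟩, ⟨623488, 0, 1, 2, false⟩], [⟨0, 1, 0, 0, false⟩,
    ⟨0, 0, 1, 1, false⟩, ⟨623488, 623492, 0, 1, true⟩], [⟨0, 1, 0, 0, false⟩,
    ⟨0, 0, 1, 1, false⟩, ⟨623488, 623492, 0, 1, false⟩, ⟨900967, 900971, 0, 1, true⟩,
    ⟨623488, 0, 1, 2, false⟩]]

theorem sd_3_5_6_ok : OkP (3, 5, 6) sd_3_5_6.ok := STab.okP (by decide +kernel)

/-- the exact side rule of the triangle (3, 5, 8) -/
def sd_3_5_8 : STab where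
  lo := [1000000, 555569, 831468]
  hi := [1000000, 555572, 831471]
  A := [5, 3, 5]
  T :=
    [[[1, 2, 1, 3, 1, 3], [1, 5, 1, 4, 1, 4], [5, 5, 5, 5, 5, 5], [4, 5, 4, 5, 4, 5],
    [4, 5, 4, 5, 4, 5], [5, 5, 5, 5, 5, 5]], [[1, 3, 1, 2, 1, 3], [1, 3, 1, 3, 1, 3],
    [3, 3, 3, 3, 3, 3], [3, 3, 3, 3, 3, 3]], [[1, 5, 1, 2, 1, 3], [1, 5, 1, 4, 1, 5],
    [4, 5, 4, 5, 4, 5], [5, 5, 5, 5, 5, 5], [4, 5, 4, 5, 4, 5], [5, 5, 5, 5, 5, 5]]]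
  fin :=
    [[false, true, true, false, true], [false, true, true], [false, true, false, true, true]]
  lab :=
    [[⟨0, 1, 0, 0, false⟩, ⟨0, 0, 1, 1, false⟩, ⟨1000000, 1000001, 0, 1, true⟩,
    ⟨555569, 831472, 0, 1, false⟩, ⟨555569, 0, 1, 2, false⟩], [⟨0, 1, 0, 0, false⟩,
    ⟨0, 0, 1, 1, false⟩, ⟨555569, 555573, 0, 1, true⟩], [⟨0, 1, 0, 0, false⟩,
    ⟨0, 0, 1, 1, false⟩, ⟨555569, 555573, 0, 1, false⟩, ⟨831468, 831472, 0, 1, true⟩,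
    ⟨555569, 0, 1, 2, false⟩]]

theorem sd_3_5_8_ok : OkP (3, 5, 8) sd_3_5_8.ok := STab.okP (by decide +kernel)

/-- the exact side rule of the triangle (3, 5, 10) -/
def sd_3_5_10 : STab where
  lo := [984806, 500000, 766043]
  hi := [984809, 500000, 766046]
  A := [5, 3, 5]
  T :=
    [[[1, 2, 1, 3, 1, 3], [1, 5, 1, 4, 1, 4], [5, 5, 5, 5, 5, 5], [4, 5, 4, 5, 4, 5],
    [4, 5, 4, 5, 4, 5], [5, 5, 5, 5, 5, 5]], [[1, 3, 1, 2, 1, 3], [1, 3, 1, 3, 1, 3],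
    [3, 3, 3, 3, 3, 3], [3, 3, 3, 3, 3, 3]], [[1, 5, 1, 2, 1, 3], [1, 5, 1, 4, 1, 5],
    [4, 5, 4, 5, 4, 5], [5, 5, 5, 5, 5, 5], [4, 5, 4, 5, 4, 5], [5, 5, 5, 5, 5, 5]]]
  fin :=
    [[false, true, true, false, true], [false, true, true], [false, true, false, true, true]]
  lab :=
    [[⟨0, 1, 0, 0, false⟩, ⟨0, 0, 1, 1, false⟩, ⟨984806, 984810, 0, 1, true⟩,
    ⟨500000, 766047, 0, 1, false⟩, ⟨500000, 0, 1, 2, false⟩], [⟨0, 1, 0, 0, false⟩,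
    ⟨0, 0, 1, 1, false⟩, ⟨500000, 500001, 0, 1, true⟩], [⟨0, 1, 0, 0, false⟩,
    ⟨0, 0, 1, 1, false⟩, ⟨500000, 500001, 0, 1, false⟩, ⟨766043, 766047, 0, 1, true⟩,
    ⟨500000, 0, 1, 2, false⟩]]

theorem sd_3_5_10_ok : OkP (3, 5, 10) sd_3_5_10.ok := STab.okP (by decide +kernel)

/-- the exact side rule of the triangle (3, 5, 16) -/
def sd_3_5_16 : STab where
  lo := [866024, 382682, 608760]
  hi := [866027, 382685, 608763]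
  A := [7, 3, 5]
  T :=
    [[[1, 2, 1, 3, 1, 4], [1, 7, 1, 5, 1, 6], [7, 7, 7, 7, 7, 7], [5, 7, 5, 4, 5, 7],
    [6, 7, 6, 7, 6, 7], [5, 7, 5, 6, 5, 7], [6, 7, 6, 7, 6, 7], [7, 7, 7, 7, 7, 7]],
    [[1, 3, 1, 2, 1, 3], [1, 3, 1, 3, 1, 3], [3, 3, 3, 3, 3, 3], [3, 3, 3, 3, 3, 3]],
    [[1, 5, 1, 2, 1, 3], [1, 5, 1, 4, 1, 5], [4, 5, 4, 5, 4, 5], [5, 5, 5, 5, 5, 5],
    [4, 5, 4, 5, 4, 5], [5, 5, 5, 5, 5, 5]]]
  fin :=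
    [[false, true, true, false, false, true, true], [false, true, true],
    [false, true, false, true, true]]
  lab :=
    [[⟨0, 1, 0, 0, false⟩, ⟨0, 0, 1, 1, false⟩, ⟨866024, 866028, 0, 1, true⟩,
    ⟨382682, 382686, 0, 1, false⟩, ⟨608760, 765371, 0, 1, false⟩, ⟨382682, 0, 1, 2, false⟩,
    ⟨608760, 0, 1, 2, false⟩], [⟨0, 1, 0, 0, false⟩, ⟨0, 0, 1, 1, false⟩,
    ⟨382682, 382686, 0, 1, true⟩], [⟨0, 1, 0, 0, false⟩, ⟨0, 0, 1, 1, false⟩,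
    ⟨382682, 382686, 0, 1, false⟩, ⟨608760, 608764, 0, 1, true⟩, ⟨382682, 0, 1, 2, false⟩]]

theorem sd_3_5_16_ok : OkP (3, 5, 16) sd_3_5_16.ok := STab.okP (by decide +kernel)

/-- the exact side rule of the triangle (3, 7, 8) -/
def sd_3_7_8 : STab where
  lo := [984806, 500000, 939691]
  hi := [984809, 500000, 939694]
  A := [5, 3, 5]
  T :=
    [[[1, 2, 1, 3, 1, 3], [1, 5, 1, 4, 1, 4], [5, 5, 5, 5, 5, 5], [4, 5, 4, 5, 4, 5],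
    [4, 5, 4, 5, 4, 5], [5, 5, 5, 5, 5, 5]], [[1, 3, 1, 2, 1, 3], [1, 3, 1, 3, 1, 3],
    [3, 3, 3, 3, 3, 3], [3, 3, 3, 3, 3, 3]], [[1, 5, 1, 2, 1, 3], [1, 5, 1, 4, 1, 5],
    [4, 5, 4, 5, 4, 5], [5, 5, 5, 5, 5, 5], [4, 5, 4, 5, 4, 5], [5, 5, 5, 5, 5, 5]]]
  fin :=
    [[false, true, true, false, true], [false, true, true], [false, true, false, true, true]]
  lab :=
    [[⟨0, 1, 0, 0, false⟩, ⟨0, 0, 1, 1, false⟩, ⟨984806, 984810, 0, 1, true⟩,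
    ⟨500000, 939695, 0, 1, false⟩, ⟨500000, 0, 1, 2, false⟩], [⟨0, 1, 0, 0, false⟩,
    ⟨0, 0, 1, 1, false⟩, ⟨500000, 500001, 0, 1, true⟩], [⟨0, 1, 0, 0, false⟩,
    ⟨0, 0, 1, 1, false⟩, ⟨500000, 500001, 0, 1, false⟩, ⟨939691, 939695, 0, 1, true⟩,
    ⟨500000, 0, 1, 2, false⟩]]

theorem sd_3_7_8_ok : OkP (3, 7, 8) sd_3_7_8.ok := STab.okP (by decide +kernel)

/-- the exact side rule of the triangle (3, 7, 10) -/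
def sd_3_7_10 : STab where
  lo := [1000000, 453989, 891005]
  hi := [1000000, 453992, 891008]
  A := [7, 3, 5]
  T :=
    [[[1, 2, 1, 3, 1, 4], [1, 7, 1, 5, 1, 6], [7, 7, 7, 7, 7, 7], [5, 7, 5, 4, 5, 7],
    [6, 7, 6, 7, 6, 7], [5, 7, 5, 6, 5, 7], [6, 7, 6, 7, 6, 7], [7, 7, 7, 7, 7, 7]],
    [[1, 3, 1, 2, 1, 3], [1, 3, 1, 3, 1, 3], [3, 3, 3, 3, 3, 3], [3, 3, 3, 3, 3, 3]],
    [[1, 5, 1, 2, 1, 3], [1, 5, 1, 4, 1, 5], [4, 5, 4, 5, 4, 5], [5, 5, 5, 5, 5, 5],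
    [4, 5, 4, 5, 4, 5], [5, 5, 5, 5, 5, 5]]]
  fin :=
    [[false, true, true, false, false, true, true], [false, true, true],
    [false, true, false, true, true]]
  lab :=
    [[⟨0, 1, 0, 0, false⟩, ⟨0, 0, 1, 1, false⟩, ⟨1000000, 1000001, 0, 1, true⟩,
    ⟨453989, 453993, 0, 1, false⟩, ⟨891005, 907985, 0, 1, false⟩, ⟨453989, 0, 1, 2, false⟩,
    ⟨891005, 0, 1, 2, false⟩], [⟨0, 1, 0, 0, false⟩, ⟨0, 0, 1, 1, false⟩,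
    ⟨453989, 453993, 0, 1, true⟩], [⟨0, 1, 0, 0, false⟩, ⟨0, 0, 1, 1, false⟩,
    ⟨453989, 453993, 0, 1, false⟩, ⟨891005, 891009, 0, 1, true⟩, ⟨453989, 0, 1, 2, false⟩]]

theorem sd_3_7_10_ok : OkP (3, 7, 10) sd_3_7_10.ok := STab.okP (by decide +kernel)

/-- the exact side rule of the triangle (3, 7, 14) -/
def sd_3_7_14 : STab where
  lo := [965924, 382682, 793352]
  hi := [965927, 382685, 793355]
  A := [7, 3, 7]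
  T :=
    [[[1, 2, 1, 3, 1, 4], [1, 7, 1, 5, 1, 6], [7, 7, 7, 7, 7, 7], [5, 7, 5, 4, 5, 7],
    [6, 7, 6, 7, 6, 7], [5, 7, 5, 6, 5, 7], [6, 7, 6, 7, 6, 7], [7, 7, 7, 7, 7, 7]],
    [[1, 3, 1, 2, 1, 3], [1, 3, 1, 3, 1, 3], [3, 3, 3, 3, 3, 3], [3, 3, 3, 3, 3, 3]],
    [[1, 7, 1, 2, 1, 3], [1, 7, 1, 4, 1, 7], [4, 7, 4, 5, 4, 7], [7, 7, 7, 7, 7, 7],
    [4, 7, 4, 6, 4, 7], [6, 7, 6, 7, 6, 7], [6, 7, 6, 7, 6, 7], [7, 7, 7, 7, 7, 7]]]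
  fin :=
    [[false, true, true, false, false, true, true], [false, true, true],
    [false, true, false, true, true, false, true]]
  lab :=
    [[⟨0, 1, 0, 0, false⟩, ⟨0, 0, 1, 1, false⟩, ⟨965924, 965928, 0, 1, true⟩,
    ⟨382682, 382686, 0, 1, false⟩, ⟨765364, 793356, 0, 1, false⟩, ⟨382682, 0, 1, 2, false⟩,
    ⟨765364, 0, 1, 2, false⟩], [⟨0, 1, 0, 0, false⟩, ⟨0, 0, 1, 1, false⟩,
    ⟨382682, 382686, 0, 1, true⟩], [⟨0, 1, 0, 0, false⟩, ⟨0, 0, 1, 1, false⟩,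
    ⟨382682, 382686, 0, 1, false⟩, ⟨793352, 793356, 0, 1, true⟩, ⟨382682, 0, 1, 2, false⟩,
    ⟨765364, 765371, 0, 2, false⟩, ⟨765364, 0, 1, 2, false⟩]]

theorem sd_3_7_14_ok : OkP (3, 7, 14) sd_3_7_14.ok := STab.okP (by decide +kernel)

/-- the exact side rule of the triangle (3, 7, 20) -/
def sd_3_7_20 : STab where
  lo := [866024, 309015, 669129]
  hi := [866027, 309018, 669132]
  A := [7, 3, 7]
  T :=
    [[[1, 2, 1, 3, 1, 4], [1, 7, 1, 5, 1, 6], [7, 7, 7, 7, 7, 7], [5, 7, 5, 4, 5, 7],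
    [6, 7, 6, 7, 6, 7], [5, 7, 5, 6, 5, 7], [6, 7, 6, 7, 6, 7], [7, 7, 7, 7, 7, 7]],
    [[1, 3, 1, 2, 1, 3], [1, 3, 1, 3, 1, 3], [3, 3, 3, 3, 3, 3], [3, 3, 3, 3, 3, 3]],
    [[1, 7, 1, 2, 1, 3], [1, 7, 1, 4, 1, 7], [4, 7, 4, 5, 4, 7], [7, 7, 7, 7, 7, 7],
    [4, 7, 4, 6, 4, 7], [6, 7, 6, 7, 6, 7], [6, 7, 6, 7, 6, 7], [7, 7, 7, 7, 7, 7]]]
  fin :=
    [[false, true, true, false, false, true, true], [false, true, true],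
    [false, true, false, true, true, false, true]]
  lab :=
    [[⟨0, 1, 0, 0, false⟩, ⟨0, 0, 1, 1, false⟩, ⟨866024, 866028, 0, 1, true⟩,
    ⟨309015, 309019, 0, 1, false⟩, ⟨618030, 669133, 0, 1, false⟩, ⟨309015, 0, 1, 2, false⟩,
    ⟨618030, 0, 1, 2, false⟩], [⟨0, 1, 0, 0, false⟩, ⟨0, 0, 1, 1, false⟩,
    ⟨309015, 309019, 0, 1, true⟩], [⟨0, 1, 0, 0, false⟩, ⟨0, 0, 1, 1, false⟩,
    ⟨309015, 309019, 0, 1, false⟩, ⟨669129, 669133, 0, 1, true⟩, ⟨309015, 0, 1, 2, false⟩,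
    ⟨618030, 618037, 0, 2, false⟩, ⟨618030, 0, 1, 2, false⟩]]

theorem sd_3_7_20_ok : OkP (3, 7, 20) sd_3_7_20.ok := STab.okP (by decide +kernel)

/-- the exact side rule of the triangle (3, 8, 10) -/
def sd_3_8_10 : STab where
  lo := [997202, 433882, 930872]
  hi := [997205, 433885, 930875]
  A := [7, 3, 7]
  T :=
    [[[1, 2, 1, 3, 1, 4], [1, 7, 1, 5, 1, 6], [7, 7, 7, 7, 7, 7], [5, 7, 5, 4, 5, 7],
    [6, 7, 6, 7, 6, 7], [5, 7, 5, 6, 5, 7], [6, 7, 6, 7, 6, 7], [7, 7, 7, 7, 7, 7]],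
    [[1, 3, 1, 2, 1, 3], [1, 3, 1, 3, 1, 3], [3, 3, 3, 3, 3, 3], [3, 3, 3, 3, 3, 3]],
    [[1, 7, 1, 2, 1, 3], [1, 7, 1, 4, 1, 7], [4, 7, 4, 5, 4, 7], [7, 7, 7, 7, 7, 7],
    [4, 7, 4, 6, 4, 7], [6, 7, 6, 7, 6, 7], [6, 7, 6, 7, 6, 7], [7, 7, 7, 7, 7, 7]]]
  fin :=
    [[false, true, true, false, false, true, true], [false, true, true],
    [false, true, false, true, true, false, true]]
  lab :=
    [[⟨0, 1, 0, 0, false⟩, ⟨0, 0, 1, 1, false⟩, ⟨997202, 997206, 0, 1, true⟩,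
    ⟨433882, 433886, 0, 1, false⟩, ⟨867764, 930876, 0, 1, false⟩, ⟨433882, 0, 1, 2, false⟩,
    ⟨867764, 0, 1, 2, false⟩], [⟨0, 1, 0, 0, false⟩, ⟨0, 0, 1, 1, false⟩,
    ⟨433882, 433886, 0, 1, true⟩], [⟨0, 1, 0, 0, false⟩, ⟨0, 0, 1, 1, false⟩,
    ⟨433882, 433886, 0, 1, false⟩, ⟨930872, 930876, 0, 1, true⟩, ⟨433882, 0, 1, 2, false⟩,
    ⟨867764, 867771, 0, 2, false⟩, ⟨867764, 0, 1, 2, false⟩]]

theorem sd_3_8_10_ok : OkP (3, 8, 10) sd_3_8_10.ok := STab.okP (by decide +kernel)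

/-- the exact side rule of the triangle (3, 8, 11) -/
def sd_3_8_11 : STab where
  lo := [1000000, 415414, 909630]
  hi := [1000000, 415417, 909633]
  A := [7, 3, 7]
  T :=
    [[[1, 2, 1, 3, 1, 4], [1, 7, 1, 5, 1, 6], [7, 7, 7, 7, 7, 7], [5, 7, 5, 4, 5, 7],
    [6, 7, 6, 7, 6, 7], [5, 7, 5, 6, 5, 7], [6, 7, 6, 7, 6, 7], [7, 7, 7, 7, 7, 7]],
    [[1, 3, 1, 2, 1, 3], [1, 3, 1, 3, 1, 3], [3, 3, 3, 3, 3, 3], [3, 3, 3, 3, 3, 3]],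
    [[1, 7, 1, 2, 1, 3], [1, 7, 1, 4, 1, 7], [4, 7, 4, 5, 4, 7], [7, 7, 7, 7, 7, 7],
    [4, 7, 4, 6, 4, 7], [6, 7, 6, 7, 6, 7], [6, 7, 6, 7, 6, 7], [7, 7, 7, 7, 7, 7]]]
  fin :=
    [[false, true, true, false, false, true, true], [false, true, true],
    [false, true, false, true, true, false, true]]
  lab :=
    [[⟨0, 1, 0, 0, false⟩, ⟨0, 0, 1, 1, false⟩, ⟨1000000, 1000001, 0, 1, true⟩,
    ⟨415414, 415418, 0, 1, false⟩, ⟨830828, 909634, 0, 1, false⟩, ⟨415414, 0, 1, 2, false⟩,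
    ⟨830828, 0, 1, 2, false⟩], [⟨0, 1, 0, 0, false⟩, ⟨0, 0, 1, 1, false⟩,
    ⟨415414, 415418, 0, 1, true⟩], [⟨0, 1, 0, 0, false⟩, ⟨0, 0, 1, 1, false⟩,
    ⟨415414, 415418, 0, 1, false⟩, ⟨909630, 909634, 0, 1, true⟩, ⟨415414, 0, 1, 2, false⟩,
    ⟨830828, 830835, 0, 2, false⟩, ⟨830828, 0, 1, 2, false⟩]]

theorem sd_3_8_11_ok : OkP (3, 8, 11) sd_3_8_11.ok := STab.okP (by decide +kernel)

/-- the exact side rule of the triangle (3, 8, 16) -/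
def sd_3_8_16 : STab where
  lo := [957988, 342019, 802122]
  hi := [957991, 342022, 802125]
  A := [7, 3, 7]
  T :=
    [[[1, 2, 1, 3, 1, 4], [1, 7, 1, 5, 1, 6], [7, 7, 7, 7, 7, 7], [5, 7, 5, 4, 5, 7],
    [6, 7, 6, 7, 6, 7], [5, 7, 5, 6, 5, 7], [6, 7, 6, 7, 6, 7], [7, 7, 7, 7, 7, 7]],
    [[1, 3, 1, 2, 1, 3], [1, 3, 1, 3, 1, 3], [3, 3, 3, 3, 3, 3], [3, 3, 3, 3, 3, 3]],
    [[1, 7, 1, 2, 1, 3], [1, 7, 1, 4, 1, 7], [4, 7, 4, 5, 4, 7], [7, 7, 7, 7, 7, 7],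
    [4, 7, 4, 6, 4, 7], [6, 7, 6, 7, 6, 7], [6, 7, 6, 7, 6, 7], [7, 7, 7, 7, 7, 7]]]
  fin :=
    [[false, true, true, false, false, true, true], [false, true, true],
    [false, true, false, true, true, false, true]]
  lab :=
    [[⟨0, 1, 0, 0, false⟩, ⟨0, 0, 1, 1, false⟩, ⟨957988, 957992, 0, 1, true⟩,
    ⟨342019, 342023, 0, 1, false⟩, ⟨684038, 802126, 0, 1, false⟩, ⟨342019, 0, 1, 2, false⟩,
    ⟨684038, 0, 1, 2, false⟩], [⟨0, 1, 0, 0, false⟩, ⟨0, 0, 1, 1, false⟩,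
    ⟨342019, 342023, 0, 1, true⟩], [⟨0, 1, 0, 0, false⟩, ⟨0, 0, 1, 1, false⟩,
    ⟨342019, 342023, 0, 1, false⟩, ⟨802122, 802126, 0, 1, true⟩, ⟨342019, 0, 1, 2, false⟩,
    ⟨684038, 684045, 0, 2, false⟩, ⟨684038, 0, 1, 2, false⟩]]

theorem sd_3_8_16_ok : OkP (3, 8, 16) sd_3_8_16.ok := STab.okP (by decide +kernel)

/-- the exact side rule of the triangle (3, 8, 22) -/
def sd_3_8_22 : STab where
  lo := [866024, 281731, 690078]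
  hi := [866027, 281734, 690081]
  A := [9, 3, 7]
  T :=
    [[[1, 2, 1, 3, 1, 4], [1, 9, 1, 5, 1, 6], [9, 9, 9, 9, 9, 9], [5, 9, 5, 7, 5, 9],
    [6, 9, 6, 9, 6, 9], [5, 9, 5, 8, 5, 9], [6, 9, 6, 9, 6, 9], [8, 9, 8, 4, 8, 9],
    [8, 9, 8, 6, 8, 9], [9, 9, 9, 9, 9, 9]], [[1, 3, 1, 2, 1, 3], [1, 3, 1, 3, 1, 3],
    [3, 3, 3, 3, 3, 3], [3, 3, 3, 3, 3, 3]], [[1, 7, 1, 2, 1, 3], [1, 7, 1, 4, 1, 7],
    [4, 7, 4, 5, 4, 7], [7, 7, 7, 7, 7, 7], [4, 7, 4, 6, 4, 7], [6, 7, 6, 7, 6, 7],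
    [6, 7, 6, 7, 6, 7], [7, 7, 7, 7, 7, 7]]]
  fin :=
    [[false, true, true, false, false, true, true, false, true], [false, true, true],
    [false, true, false, true, true, false, true]]
  lab :=
    [[⟨0, 1, 0, 0, false⟩, ⟨0, 0, 1, 1, false⟩, ⟨866024, 866028, 0, 1, true⟩,
    ⟨281731, 281735, 0, 1, false⟩, ⟨690078, 845203, 0, 1, false⟩, ⟨281731, 0, 1, 2, false⟩,
    ⟨690078, 0, 1, 2, false⟩, ⟨563462, 563469, 0, 2, false⟩, ⟨563462, 0, 1, 2, false⟩],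
    [⟨0, 1, 0, 0, false⟩, ⟨0, 0, 1, 1, false⟩, ⟨281731, 281735, 0, 1, true⟩],
    [⟨0, 1, 0, 0, false⟩, ⟨0, 0, 1, 1, false⟩, ⟨281731, 281735, 0, 1, false⟩,
    ⟨690078, 690082, 0, 1, true⟩, ⟨281731, 0, 1, 2, false⟩, ⟨563462, 563469, 0, 2, false⟩,
    ⟨563462, 0, 1, 2, false⟩]]

theorem sd_3_8_22_ok : OkP (3, 8, 22) sd_3_8_22.ok := STab.okP (by decide +kernel)

/-- the exact side rule of the triangle (3, 10, 14) -/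
def sd_3_10_14 : STab where
  lo := [998307, 342019, 918215]
  hi := [998310, 342022, 918218]
  A := [7, 3, 7]
  T :=
    [[[1, 2, 1, 3, 1, 4], [1, 7, 1, 5, 1, 6], [7, 7, 7, 7, 7, 7], [5, 7, 5, 4, 5, 7],
    [6, 7, 6, 7, 6, 7], [5, 7, 5, 6, 5, 7], [6, 7, 6, 7, 6, 7], [7, 7, 7, 7, 7, 7]],
    [[1, 3, 1, 2, 1, 3], [1, 3, 1, 3, 1, 3], [3, 3, 3, 3, 3, 3], [3, 3, 3, 3, 3, 3]],
    [[1, 7, 1, 2, 1, 3], [1, 7, 1, 4, 1, 7], [4, 7, 4, 5, 4, 7], [7, 7, 7, 7, 7, 7],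
    [4, 7, 4, 6, 4, 7], [6, 7, 6, 7, 6, 7], [6, 7, 6, 7, 6, 7], [7, 7, 7, 7, 7, 7]]]
  fin :=
    [[false, true, true, false, false, true, true], [false, true, true],
    [false, true, false, true, true, false, true]]
  lab :=
    [[⟨0, 1, 0, 0, false⟩, ⟨0, 0, 1, 1, false⟩, ⟨998307, 998311, 0, 1, true⟩,
    ⟨342019, 342023, 0, 1, false⟩, ⟨684038, 918219, 0, 1, false⟩, ⟨342019, 0, 1, 2, false⟩,
    ⟨684038, 0, 1, 2, false⟩], [⟨0, 1, 0, 0, false⟩, ⟨0, 0, 1, 1, false⟩,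
    ⟨342019, 342023, 0, 1, true⟩], [⟨0, 1, 0, 0, false⟩, ⟨0, 0, 1, 1, false⟩,
    ⟨342019, 342023, 0, 1, false⟩, ⟨918215, 918219, 0, 1, true⟩, ⟨342019, 0, 1, 2, false⟩,
    ⟨684038, 684045, 0, 2, false⟩, ⟨684038, 0, 1, 2, false⟩]]

theorem sd_3_10_14_ok : OkP (3, 10, 14) sd_3_10_14.ok := STab.okP (by decide +kernel)

/-- the exact side rule of the triangle (3, 10, 26) -/
def sd_3_10_26 : STab where
  lo := [866024, 239314, 721201]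
  hi := [866027, 239317, 721204]
  A := [9, 3, 9]
  T :=
    [[[1, 2, 1, 3, 1, 4], [1, 9, 1, 5, 1, 6], [9, 9, 9, 9, 9, 9], [5, 9, 5, 7, 5, 9],
    [6, 9, 6, 9, 6, 9], [5, 9, 5, 8, 5, 9], [6, 9, 6, 9, 6, 9], [8, 9, 8, 4, 8, 9],
    [8, 9, 8, 6, 8, 9], [9, 9, 9, 9, 9, 9]], [[1, 3, 1, 2, 1, 3], [1, 3, 1, 3, 1, 3],
    [3, 3, 3, 3, 3, 3], [3, 3, 3, 3, 3, 3]], [[1, 9, 1, 2, 1, 3], [1, 9, 1, 4, 1, 9],
    [4, 9, 4, 5, 4, 9], [9, 9, 9, 9, 9, 9], [4, 9, 4, 6, 4, 9], [6, 9, 6, 7, 6, 9],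
    [6, 9, 6, 8, 6, 9], [8, 9, 8, 9, 8, 9], [8, 9, 8, 9, 8, 9], [9, 9, 9, 9, 9, 9]]]
  fin :=
    [[false, true, true, false, false, true, true, false, true], [false, true, true],
    [false, true, false, true, true, false, true, false, true]]
  lab :=
    [[⟨0, 1, 0, 0, false⟩, ⟨0, 0, 1, 1, false⟩, ⟨866024, 866028, 0, 1, true⟩,
    ⟨239314, 239318, 0, 1, false⟩, ⟨717942, 721205, 0, 1, false⟩, ⟨239314, 0, 1, 2, false⟩,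
    ⟨717942, 0, 1, 2, false⟩, ⟨478628, 478635, 0, 2, false⟩, ⟨478628, 0, 1, 2, false⟩],
    [⟨0, 1, 0, 0, false⟩, ⟨0, 0, 1, 1, false⟩, ⟨239314, 239318, 0, 1, true⟩],
    [⟨0, 1, 0, 0, false⟩, ⟨0, 0, 1, 1, false⟩, ⟨239314, 239318, 0, 1, false⟩,
    ⟨721201, 721205, 0, 1, true⟩, ⟨239314, 0, 1, 2, false⟩, ⟨478628, 478635, 0, 2, false⟩,
    ⟨478628, 0, 1, 2, false⟩, ⟨717942, 717952, 0, 2, false⟩, ⟨717942, 0, 1, 2, false⟩]]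

theorem sd_3_10_26_ok : OkP (3, 10, 26) sd_3_10_26.ok := STab.okP (by decide +kernel)

/-- the exact side rule of the triangle (3, 11, 16) -/
def sd_3_11_16 : STab where
  lo := [994520, 309015, 913544]
  hi := [994523, 309018, 913547]
  A := [9, 3, 7]
  T :=
    [[[1, 2, 1, 3, 1, 4], [1, 9, 1, 5, 1, 6], [9, 9, 9, 9, 9, 9], [5, 9, 5, 7, 5, 9],
    [6, 9, 6, 9, 6, 9], [5, 9, 5, 8, 5, 9], [6, 9, 6, 9, 6, 9], [8, 9, 8, 4, 8, 9],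
    [8, 9, 8, 6, 8, 9], [9, 9, 9, 9, 9, 9]], [[1, 3, 1, 2, 1, 3], [1, 3, 1, 3, 1, 3],
    [3, 3, 3, 3, 3, 3], [3, 3, 3, 3, 3, 3]], [[1, 7, 1, 2, 1, 3], [1, 7, 1, 4, 1, 7],
    [4, 7, 4, 5, 4, 7], [7, 7, 7, 7, 7, 7], [4, 7, 4, 6, 4, 7], [6, 7, 6, 7, 6, 7],
    [6, 7, 6, 7, 6, 7], [7, 7, 7, 7, 7, 7]]]
  fin :=
    [[false, true, true, false, false, true, true, false, true], [false, true, true],
    [false, true, false, true, true, false, true]]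
  lab :=
    [[⟨0, 1, 0, 0, false⟩, ⟨0, 0, 1, 1, false⟩, ⟨994520, 994524, 0, 1, true⟩,
    ⟨309015, 309019, 0, 1, false⟩, ⟨913544, 927055, 0, 1, false⟩, ⟨309015, 0, 1, 2, false⟩,
    ⟨913544, 0, 1, 2, false⟩, ⟨618030, 618037, 0, 2, false⟩, ⟨618030, 0, 1, 2, false⟩],
    [⟨0, 1, 0, 0, false⟩, ⟨0, 0, 1, 1, false⟩, ⟨309015, 309019, 0, 1, true⟩],
    [⟨0, 1, 0, 0, false⟩, ⟨0, 0, 1, 1, false⟩, ⟨309015, 309019, 0, 1, false⟩,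
    ⟨913544, 913548, 0, 1, true⟩, ⟨309015, 0, 1, 2, false⟩, ⟨618030, 618037, 0, 2, false⟩,
    ⟨618030, 0, 1, 2, false⟩]]

theorem sd_3_11_16_ok : OkP (3, 11, 16) sd_3_11_16.ok := STab.okP (by decide +kernel)

/-- the exact side rule of the triangle (3, 11, 28) -/
def sd_3_11_28 : STab where
  lo := [866024, 222519, 733050]
  hi := [866027, 222522, 733053]
  A := [9, 3, 9]
  T :=
    [[[1, 2, 1, 3, 1, 4], [1, 9, 1, 5, 1, 6], [9, 9, 9, 9, 9, 9], [5, 9, 5, 7, 5, 9],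
    [6, 9, 6, 9, 6, 9], [5, 9, 5, 8, 5, 9], [6, 9, 6, 9, 6, 9], [8, 9, 8, 4, 8, 9],
    [8, 9, 8, 6, 8, 9], [9, 9, 9, 9, 9, 9]], [[1, 3, 1, 2, 1, 3], [1, 3, 1, 3, 1, 3],
    [3, 3, 3, 3, 3, 3], [3, 3, 3, 3, 3, 3]], [[1, 9, 1, 2, 1, 3], [1, 9, 1, 4, 1, 9],
    [4, 9, 4, 5, 4, 9], [9, 9, 9, 9, 9, 9], [4, 9, 4, 6, 4, 9], [6, 9, 6, 7, 6, 9],
    [6, 9, 6, 8, 6, 9], [8, 9, 8, 9, 8, 9], [8, 9, 8, 9, 8, 9], [9, 9, 9, 9, 9, 9]]]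
  fin :=
    [[false, true, true, false, false, true, true, false, true], [false, true, true],
    [false, true, false, true, true, false, true, false, true]]
  lab :=
    [[⟨0, 1, 0, 0, false⟩, ⟨0, 0, 1, 1, false⟩, ⟨866024, 866028, 0, 1, true⟩,
    ⟨222519, 222523, 0, 1, false⟩, ⟨667557, 733054, 0, 1, false⟩, ⟨222519, 0, 1, 2, false⟩,
    ⟨667557, 0, 1, 2, false⟩, ⟨445038, 445045, 0, 2, false⟩, ⟨445038, 0, 1, 2, false⟩],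
    [⟨0, 1, 0, 0, false⟩, ⟨0, 0, 1, 1, false⟩, ⟨222519, 222523, 0, 1, true⟩],
    [⟨0, 1, 0, 0, false⟩, ⟨0, 0, 1, 1, false⟩, ⟨222519, 222523, 0, 1, false⟩,
    ⟨733050, 733054, 0, 1, true⟩, ⟨222519, 0, 1, 2, false⟩, ⟨445038, 445045, 0, 2, false⟩,
    ⟨445038, 0, 1, 2, false⟩, ⟨667557, 667567, 0, 2, false⟩, ⟨667557, 0, 1, 2, false⟩]]

theorem sd_3_11_28_ok : OkP (3, 11, 28) sd_3_11_28.ok := STab.okP (by decide +kernel)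

/-- the exact side rule of the triangle (4, 5, 6) -/
def sd_4_5_6 : STab where
  lo := [951055, 743143, 866024]
  hi := [951058, 743146, 866027]
  A := [5, 3, 5]
  T :=
    [[[1, 2, 1, 3, 1, 3], [1, 5, 1, 4, 1, 4], [5, 5, 5, 5, 5, 5], [4, 5, 4, 5, 4, 5],
    [4, 5, 4, 5, 4, 5], [5, 5, 5, 5, 5, 5]], [[1, 3, 1, 2, 1, 3], [1, 3, 1, 3, 1, 3],
    [3, 3, 3, 3, 3, 3], [3, 3, 3, 3, 3, 3]], [[1, 5, 1, 2, 1, 3], [1, 5, 1, 4, 1, 5],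
    [4, 5, 4, 5, 4, 5], [5, 5, 5, 5, 5, 5], [4, 5, 4, 5, 4, 5], [5, 5, 5, 5, 5, 5]]]
  fin :=
    [[false, true, true, false, true], [false, true, true], [false, true, false, true, true]]
  lab :=
    [[⟨0, 1, 0, 0, false⟩, ⟨0, 0, 1, 1, false⟩, ⟨951055, 951059, 0, 1, true⟩,
    ⟨743143, 866028, 0, 1, false⟩, ⟨743143, 0, 1, 2, false⟩], [⟨0, 1, 0, 0, false⟩,
    ⟨0, 0, 1, 1, false⟩, ⟨743143, 743147, 0, 1, true⟩], [⟨0, 1, 0, 0, false⟩,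
    ⟨0, 0, 1, 1, false⟩, ⟨743143, 743147, 0, 1, false⟩, ⟨866024, 866028, 0, 1, true⟩,
    ⟨743143, 0, 1, 2, false⟩]]

theorem sd_4_5_6_ok : OkP (4, 5, 6) sd_4_5_6.ok := STab.okP (by decide +kernel)

/-- the exact side rule of the triangle (4, 5, 7) -/
def sd_4_5_7 : STab where
  lo := [980784, 707105, 831468]
  hi := [980787, 707108, 831471]
  A := [5, 3, 5]
  T :=
    [[[1, 2, 1, 3, 1, 3], [1, 5, 1, 4, 1, 4], [5, 5, 5, 5, 5, 5], [4, 5, 4, 5, 4, 5],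
    [4, 5, 4, 5, 4, 5], [5, 5, 5, 5, 5, 5]], [[1, 3, 1, 2, 1, 3], [1, 3, 1, 3, 1, 3],
    [3, 3, 3, 3, 3, 3], [3, 3, 3, 3, 3, 3]], [[1, 5, 1, 2, 1, 3], [1, 5, 1, 4, 1, 5],
    [4, 5, 4, 5, 4, 5], [5, 5, 5, 5, 5, 5], [4, 5, 4, 5, 4, 5], [5, 5, 5, 5, 5, 5]]]
  fin :=
    [[false, true, true, false, true], [false, true, true], [false, true, false, true, true]]
  lab :=
    [[⟨0, 1, 0, 0, false⟩, ⟨0, 0, 1, 1, false⟩, ⟨980784, 980788, 0, 1, true⟩,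
    ⟨707105, 831472, 0, 1, false⟩, ⟨707105, 0, 1, 2, false⟩], [⟨0, 1, 0, 0, false⟩,
    ⟨0, 0, 1, 1, false⟩, ⟨707105, 707109, 0, 1, true⟩], [⟨0, 1, 0, 0, false⟩,
    ⟨0, 0, 1, 1, false⟩, ⟨707105, 707109, 0, 1, false⟩, ⟨831468, 831472, 0, 1, true⟩,
    ⟨707105, 0, 1, 2, false⟩]]

theorem sd_4_5_7_ok : OkP (4, 5, 7) sd_4_5_7.ok := STab.okP (by decide +kernel)

/-- the exact side rule of the triangle (4, 5, 8) -/
def sd_4_5_8 : STab where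
  lo := [995733, 673694, 798016]
  hi := [995736, 673697, 798019]
  A := [5, 3, 5]
  T :=
    [[[1, 2, 1, 3, 1, 3], [1, 5, 1, 4, 1, 4], [5, 5, 5, 5, 5, 5], [4, 5, 4, 5, 4, 5],
    [4, 5, 4, 5, 4, 5], [5, 5, 5, 5, 5, 5]], [[1, 3, 1, 2, 1, 3], [1, 3, 1, 3, 1, 3],
    [3, 3, 3, 3, 3, 3], [3, 3, 3, 3, 3, 3]], [[1, 5, 1, 2, 1, 3], [1, 5, 1, 4, 1, 5],
    [4, 5, 4, 5, 4, 5], [5, 5, 5, 5, 5, 5], [4, 5, 4, 5, 4, 5], [5, 5, 5, 5, 5, 5]]]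
  fin :=
    [[false, true, true, false, true], [false, true, true], [false, true, false, true, true]]
  lab :=
    [[⟨0, 1, 0, 0, false⟩, ⟨0, 0, 1, 1, false⟩, ⟨995733, 995737, 0, 1, true⟩,
    ⟨673694, 798020, 0, 1, false⟩, ⟨673694, 0, 1, 2, false⟩], [⟨0, 1, 0, 0, false⟩,
    ⟨0, 0, 1, 1, false⟩, ⟨673694, 673698, 0, 1, true⟩], [⟨0, 1, 0, 0, false⟩,
    ⟨0, 0, 1, 1, false⟩, ⟨673694, 673698, 0, 1, false⟩, ⟨798016, 798020, 0, 1, true⟩,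
    ⟨673694, 0, 1, 2, false⟩]]

theorem sd_4_5_8_ok : OkP (4, 5, 8) sd_4_5_8.ok := STab.okP (by decide +kernel)

/-- the exact side rule of the triangle (4, 5, 9) -/
def sd_4_5_9 : STab where
  lo := [1000000, 642786, 766043]
  hi := [1000000, 642789, 766046]
  A := [5, 3, 5]
  T :=
    [[[1, 2, 1, 3, 1, 3], [1, 5, 1, 4, 1, 4], [5, 5, 5, 5, 5, 5], [4, 5, 4, 5, 4, 5],
    [4, 5, 4, 5, 4, 5], [5, 5, 5, 5, 5, 5]], [[1, 3, 1, 2, 1, 3], [1, 3, 1, 3, 1, 3],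
    [3, 3, 3, 3, 3, 3], [3, 3, 3, 3, 3, 3]], [[1, 5, 1, 2, 1, 3], [1, 5, 1, 4, 1, 5],
    [4, 5, 4, 5, 4, 5], [5, 5, 5, 5, 5, 5], [4, 5, 4, 5, 4, 5], [5, 5, 5, 5, 5, 5]]]
  fin :=
    [[false, true, true, false, true], [false, true, true], [false, true, false, true, true]]
  lab :=
    [[⟨0, 1, 0, 0, false⟩, ⟨0, 0, 1, 1, false⟩, ⟨1000000, 1000001, 0, 1, true⟩,
    ⟨642786, 766047, 0, 1, false⟩, ⟨642786, 0, 1, 2, false⟩], [⟨0, 1, 0, 0, false⟩,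
    ⟨0, 0, 1, 1, false⟩, ⟨642786, 642790, 0, 1, true⟩], [⟨0, 1, 0, 0, false⟩,
    ⟨0, 0, 1, 1, false⟩, ⟨642786, 642790, 0, 1, false⟩, ⟨766043, 766047, 0, 1, true⟩,
    ⟨642786, 0, 1, 2, false⟩]]

theorem sd_4_5_9_ok : OkP (4, 5, 9) sd_4_5_9.ok := STab.okP (by decide +kernel)

/-- the exact side rule of the triangle (4, 5, 10) -/
def sd_4_5_10 : STab where
  lo := [996583, 614211, 735722]
  hi := [996586, 614214, 735725]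
  A := [5, 3, 5]
  T :=
    [[[1, 2, 1, 3, 1, 3], [1, 5, 1, 4, 1, 4], [5, 5, 5, 5, 5, 5], [4, 5, 4, 5, 4, 5],
    [4, 5, 4, 5, 4, 5], [5, 5, 5, 5, 5, 5]], [[1, 3, 1, 2, 1, 3], [1, 3, 1, 3, 1, 3],
    [3, 3, 3, 3, 3, 3], [3, 3, 3, 3, 3, 3]], [[1, 5, 1, 2, 1, 3], [1, 5, 1, 4, 1, 5],
    [4, 5, 4, 5, 4, 5], [5, 5, 5, 5, 5, 5], [4, 5, 4, 5, 4, 5], [5, 5, 5, 5, 5, 5]]]
  fin :=
    [[false, true, true, false, true], [false, true, true], [false, true, false, true, true]]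
  lab :=
    [[⟨0, 1, 0, 0, false⟩, ⟨0, 0, 1, 1, false⟩, ⟨996583, 996587, 0, 1, true⟩,
    ⟨614211, 735726, 0, 1, false⟩, ⟨614211, 0, 1, 2, false⟩], [⟨0, 1, 0, 0, false⟩,
    ⟨0, 0, 1, 1, false⟩, ⟨614211, 614215, 0, 1, true⟩], [⟨0, 1, 0, 0, false⟩,
    ⟨0, 0, 1, 1, false⟩, ⟨614211, 614215, 0, 1, false⟩, ⟨735722, 735726, 0, 1, true⟩,
    ⟨614211, 0, 1, 2, false⟩]]

theorem sd_4_5_10_ok : OkP (4, 5, 10) sd_4_5_10.ok := STab.okP (by decide +kernel)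

/-- the exact side rule of the triangle (4, 5, 13) -/
def sd_4_5_13 : STab where
  lo := [959491, 540639, 654859]
  hi := [959494, 540642, 654862]
  A := [5, 3, 5]
  T :=
    [[[1, 2, 1, 3, 1, 3], [1, 5, 1, 4, 1, 4], [5, 5, 5, 5, 5, 5], [4, 5, 4, 5, 4, 5],
    [4, 5, 4, 5, 4, 5], [5, 5, 5, 5, 5, 5]], [[1, 3, 1, 2, 1, 3], [1, 3, 1, 3, 1, 3],
    [3, 3, 3, 3, 3, 3], [3, 3, 3, 3, 3, 3]], [[1, 5, 1, 2, 1, 3], [1, 5, 1, 4, 1, 5],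
    [4, 5, 4, 5, 4, 5], [5, 5, 5, 5, 5, 5], [4, 5, 4, 5, 4, 5], [5, 5, 5, 5, 5, 5]]]
  fin :=
    [[false, true, true, false, true], [false, true, true], [false, true, false, true, true]]
  lab :=
    [[⟨0, 1, 0, 0, false⟩, ⟨0, 0, 1, 1, false⟩, ⟨959491, 959495, 0, 1, true⟩,
    ⟨540639, 654863, 0, 1, false⟩, ⟨540639, 0, 1, 2, false⟩], [⟨0, 1, 0, 0, false⟩,
    ⟨0, 0, 1, 1, false⟩, ⟨540639, 540643, 0, 1, true⟩], [⟨0, 1, 0, 0, false⟩,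
    ⟨0, 0, 1, 1, false⟩, ⟨540639, 540643, 0, 1, false⟩, ⟨654859, 654863, 0, 1, true⟩,
    ⟨540639, 0, 1, 2, false⟩]]

theorem sd_4_5_13_ok : OkP (4, 5, 13) sd_4_5_13.ok := STab.okP (by decide +kernel)

/-- the exact side rule of the triangle (4, 5, 18) -/
def sd_4_5_18 : STab where
  lo := [866024, 448798, 549507]
  hi := [866027, 448801, 549510]
  A := [5, 3, 5]
  T :=
    [[[1, 2, 1, 3, 1, 3], [1, 5, 1, 4, 1, 4], [5, 5, 5, 5, 5, 5], [4, 5, 4, 5, 4, 5],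
    [4, 5, 4, 5, 4, 5], [5, 5, 5, 5, 5, 5]], [[1, 3, 1, 2, 1, 3], [1, 3, 1, 3, 1, 3],
    [3, 3, 3, 3, 3, 3], [3, 3, 3, 3, 3, 3]], [[1, 5, 1, 2, 1, 3], [1, 5, 1, 4, 1, 5],
    [4, 5, 4, 5, 4, 5], [5, 5, 5, 5, 5, 5], [4, 5, 4, 5, 4, 5], [5, 5, 5, 5, 5, 5]]]
  fin :=
    [[false, true, true, false, true], [false, true, true], [false, true, false, true, true]]
  lab :=
    [[⟨0, 1, 0, 0, false⟩, ⟨0, 0, 1, 1, false⟩, ⟨866024, 866028, 0, 1, true⟩,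
    ⟨448798, 549511, 0, 1, false⟩, ⟨448798, 0, 1, 2, false⟩], [⟨0, 1, 0, 0, false⟩,
    ⟨0, 0, 1, 1, false⟩, ⟨448798, 448802, 0, 1, true⟩], [⟨0, 1, 0, 0, false⟩,
    ⟨0, 0, 1, 1, false⟩, ⟨448798, 448802, 0, 1, false⟩, ⟨549507, 549511, 0, 1, true⟩,
    ⟨448798, 0, 1, 2, false⟩]]

theorem sd_4_5_18_ok : OkP (4, 5, 18) sd_4_5_18.ok := STab.okP (by decide +kernel)

/-- the exact side rule of the triangle (4, 6, 7) -/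
def sd_4_6_7 : STab where
  lo := [961824, 673694, 895162]
  hi := [961827, 673697, 895165]
  A := [5, 3, 5]
  T :=
    [[[1, 2, 1, 3, 1, 3], [1, 5, 1, 4, 1, 4], [5, 5, 5, 5, 5, 5], [4, 5, 4, 5, 4, 5],
    [4, 5, 4, 5, 4, 5], [5, 5, 5, 5, 5, 5]], [[1, 3, 1, 2, 1, 3], [1, 3, 1, 3, 1, 3],
    [3, 3, 3, 3, 3, 3], [3, 3, 3, 3, 3, 3]], [[1, 5, 1, 2, 1, 3], [1, 5, 1, 4, 1, 5],
    [4, 5, 4, 5, 4, 5], [5, 5, 5, 5, 5, 5], [4, 5, 4, 5, 4, 5], [5, 5, 5, 5, 5, 5]]]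
  fin :=
    [[false, true, true, false, true], [false, true, true], [false, true, false, true, true]]
  lab :=
    [[⟨0, 1, 0, 0, false⟩, ⟨0, 0, 1, 1, false⟩, ⟨961824, 961828, 0, 1, true⟩,
    ⟨673694, 895166, 0, 1, false⟩, ⟨673694, 0, 1, 2, false⟩], [⟨0, 1, 0, 0, false⟩,
    ⟨0, 0, 1, 1, false⟩, ⟨673694, 673698, 0, 1, true⟩], [⟨0, 1, 0, 0, false⟩,
    ⟨0, 0, 1, 1, false⟩, ⟨673694, 673698, 0, 1, false⟩, ⟨895162, 895166, 0, 1, true⟩,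
    ⟨673694, 0, 1, 2, false⟩]]

theorem sd_4_6_7_ok : OkP (4, 6, 7) sd_4_6_7.ok := STab.okP (by decide +kernel)

end Pool.Agent.NNc
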