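import Pool.Agent.NNc.OkTab

/-!
# Side rules of the rational triangles: tables (generated)
-/

namespace Pool.Agent.NNc

/-- the exact side rule of the triangle (4, 7, 9) -/
def sd_4_7_9 : STab where
  lo := [987687, 587784, 891005]
  hi := [987690, 587787, 891008]
  A := [5, 3, 5]
  T :=
    [[[1, 2, 1, 3, 1, 3], [1, 5, 1, 4, 1, 4], [5, 5, 5, 5, 5, 5], [4, 5, 4, 5, 4, 5],
    [4, 5, 4, 5, 4, 5], [5, 5, 5, 5, 5, 5]], [[1, 3, 1, 2, 1, 3], [1, 3, 1, 3, 1, 3],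
    [3, 3, 3, 3, 3, 3], [3, 3, 3, 3, 3, 3]], [[1, 5, 1, 2, 1, 3], [1, 5, 1, 4, 1, 5],
    [4, 5, 4, 5, 4, 5], [5, 5, 5, 5, 5, 5], [4, 5, 4, 5, 4, 5], [5, 5, 5, 5, 5, 5]]]
  fin :=
    [[false, true, true, false, true], [false, true, true], [false, true, false, true, true]]
  lab :=
    [[⟨0, 1, 0, 0, false⟩, ⟨0, 0, 1, 1, false⟩, ⟨987687, 987691, 0, 1, true⟩,
    ⟨587784, 891009, 0, 1, false⟩, ⟨587784, 0, 1, 2, false⟩], [⟨0, 1, 0, 0, false⟩,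
    ⟨0, 0, 1, 1, false⟩, ⟨587784, 587788, 0, 1, true⟩], [⟨0, 1, 0, 0, false⟩,
    ⟨0, 0, 1, 1, false⟩, ⟨587784, 587788, 0, 1, false⟩, ⟨891005, 891009, 0, 1, true⟩,
    ⟨587784, 0, 1, 2, false⟩]]

theorem sd_4_7_9_ok : OkP (4, 7, 9) sd_4_7_9.ok := STab.okP (by decide +kernel)

/-- the exact side rule of the triangle (4, 7, 11) -/
def sd_4_7_11 : STab where
  lo := [1000000, 540639, 841252]
  hi := [1000000, 540642, 841255]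
  A := [5, 3, 5]
  T :=
    [[[1, 2, 1, 3, 1, 3], [1, 5, 1, 4, 1, 4], [5, 5, 5, 5, 5, 5], [4, 5, 4, 5, 4, 5],
    [4, 5, 4, 5, 4, 5], [5, 5, 5, 5, 5, 5]], [[1, 3, 1, 2, 1, 3], [1, 3, 1, 3, 1, 3],
    [3, 3, 3, 3, 3, 3], [3, 3, 3, 3, 3, 3]], [[1, 5, 1, 2, 1, 3], [1, 5, 1, 4, 1, 5],
    [4, 5, 4, 5, 4, 5], [5, 5, 5, 5, 5, 5], [4, 5, 4, 5, 4, 5], [5, 5, 5, 5, 5, 5]]]
  fin :=
    [[false, true, true, false, true], [false, true, true], [false, true, false, true, true]]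
  lab :=
    [[⟨0, 1, 0, 0, false⟩, ⟨0, 0, 1, 1, false⟩, ⟨1000000, 1000001, 0, 1, true⟩,
    ⟨540639, 841256, 0, 1, false⟩, ⟨540639, 0, 1, 2, false⟩], [⟨0, 1, 0, 0, false⟩,
    ⟨0, 0, 1, 1, false⟩, ⟨540639, 540643, 0, 1, true⟩], [⟨0, 1, 0, 0, false⟩,
    ⟨0, 0, 1, 1, false⟩, ⟨540639, 540643, 0, 1, false⟩, ⟨841252, 841256, 0, 1, true⟩,
    ⟨540639, 0, 1, 2, false⟩]]

theorem sd_4_7_11_ok : OkP (4, 7, 11) sd_4_7_11.ok := STab.okP (by decide +kernel)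

/-- the exact side rule of the triangle (4, 7, 14) -/
def sd_4_7_14 : STab where
  lo := [982286, 481752, 770512]
  hi := [982289, 481755, 770515]
  A := [7, 3, 5]
  T :=
    [[[1, 2, 1, 3, 1, 4], [1, 7, 1, 5, 1, 6], [7, 7, 7, 7, 7, 7], [5, 7, 5, 4, 5, 7],
    [6, 7, 6, 7, 6, 7], [5, 7, 5, 6, 5, 7], [6, 7, 6, 7, 6, 7], [7, 7, 7, 7, 7, 7]],
    [[1, 3, 1, 2, 1, 3], [1, 3, 1, 3, 1, 3], [3, 3, 3, 3, 3, 3], [3, 3, 3, 3, 3, 3]],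
    [[1, 5, 1, 2, 1, 3], [1, 5, 1, 4, 1, 5], [4, 5, 4, 5, 4, 5], [5, 5, 5, 5, 5, 5],
    [4, 5, 4, 5, 4, 5], [5, 5, 5, 5, 5, 5]]]
  fin :=
    [[false, true, true, false, false, true, true], [false, true, true],
    [false, true, false, true, true]]
  lab :=
    [[⟨0, 1, 0, 0, false⟩, ⟨0, 0, 1, 1, false⟩, ⟨982286, 982290, 0, 1, true⟩,
    ⟨481752, 481756, 0, 1, false⟩, ⟨770512, 963511, 0, 1, false⟩, ⟨481752, 0, 1, 2, false⟩,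
    ⟨770512, 0, 1, 2, false⟩], [⟨0, 1, 0, 0, false⟩, ⟨0, 0, 1, 1, false⟩,
    ⟨481752, 481756, 0, 1, true⟩], [⟨0, 1, 0, 0, false⟩, ⟨0, 0, 1, 1, false⟩,
    ⟨481752, 481756, 0, 1, false⟩, ⟨770512, 770516, 0, 1, true⟩, ⟨481752, 0, 1, 2, false⟩]]

theorem sd_4_7_14_ok : OkP (4, 7, 14) sd_4_7_14.ok := STab.okP (by decide +kernel)

/-- the exact side rule of the triangle (4, 7, 22) -/
def sd_4_7_22 : STab where
  lo := [866024, 371661, 618157]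
  hi := [866027, 371664, 618160]
  A := [7, 3, 5]
  T :=
    [[[1, 2, 1, 3, 1, 4], [1, 7, 1, 5, 1, 6], [7, 7, 7, 7, 7, 7], [5, 7, 5, 4, 5, 7],
    [6, 7, 6, 7, 6, 7], [5, 7, 5, 6, 5, 7], [6, 7, 6, 7, 6, 7], [7, 7, 7, 7, 7, 7]],
    [[1, 3, 1, 2, 1, 3], [1, 3, 1, 3, 1, 3], [3, 3, 3, 3, 3, 3], [3, 3, 3, 3, 3, 3]],
    [[1, 5, 1, 2, 1, 3], [1, 5, 1, 4, 1, 5], [4, 5, 4, 5, 4, 5], [5, 5, 5, 5, 5, 5],
    [4, 5, 4, 5, 4, 5], [5, 5, 5, 5, 5, 5]]]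
  fin :=
    [[false, true, true, false, false, true, true], [false, true, true],
    [false, true, false, true, true]]
  lab :=
    [[⟨0, 1, 0, 0, false⟩, ⟨0, 0, 1, 1, false⟩, ⟨866024, 866028, 0, 1, true⟩,
    ⟨371661, 371665, 0, 1, false⟩, ⟨618157, 743329, 0, 1, false⟩, ⟨371661, 0, 1, 2, false⟩,
    ⟨618157, 0, 1, 2, false⟩], [⟨0, 1, 0, 0, false⟩, ⟨0, 0, 1, 1, false⟩,
    ⟨371661, 371665, 0, 1, true⟩], [⟨0, 1, 0, 0, false⟩, ⟨0, 0, 1, 1, false⟩,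
    ⟨371661, 371665, 0, 1, false⟩, ⟨618157, 618161, 0, 1, true⟩, ⟨371661, 0, 1, 2, false⟩]]

theorem sd_4_7_22_ok : OkP (4, 7, 22) sd_4_7_22.ok := STab.okP (by decide +kernel)

/-- the exact side rule of the triangle (4, 9, 10) -/
def sd_4_9_10 : STab where
  lo := [979083, 519582, 942259]
  hi := [979086, 519585, 942262]
  A := [5, 3, 5]
  T :=
    [[[1, 2, 1, 3, 1, 3], [1, 5, 1, 4, 1, 4], [5, 5, 5, 5, 5, 5], [4, 5, 4, 5, 4, 5],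
    [4, 5, 4, 5, 4, 5], [5, 5, 5, 5, 5, 5]], [[1, 3, 1, 2, 1, 3], [1, 3, 1, 3, 1, 3],
    [3, 3, 3, 3, 3, 3], [3, 3, 3, 3, 3, 3]], [[1, 5, 1, 2, 1, 3], [1, 5, 1, 4, 1, 5],
    [4, 5, 4, 5, 4, 5], [5, 5, 5, 5, 5, 5], [4, 5, 4, 5, 4, 5], [5, 5, 5, 5, 5, 5]]]
  fin :=
    [[false, true, true, false, true], [false, true, true], [false, true, false, true, true]]
  lab :=
    [[⟨0, 1, 0, 0, false⟩, ⟨0, 0, 1, 1, false⟩, ⟨979083, 979087, 0, 1, true⟩,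
    ⟨519582, 942263, 0, 1, false⟩, ⟨519582, 0, 1, 2, false⟩], [⟨0, 1, 0, 0, false⟩,
    ⟨0, 0, 1, 1, false⟩, ⟨519582, 519586, 0, 1, true⟩], [⟨0, 1, 0, 0, false⟩,
    ⟨0, 0, 1, 1, false⟩, ⟨519582, 519586, 0, 1, false⟩, ⟨942259, 942263, 0, 1, true⟩,
    ⟨519582, 0, 1, 2, false⟩]]

theorem sd_4_9_10_ok : OkP (4, 9, 10) sd_4_9_10.ok := STab.okP (by decide +kernel)

/-- the exact side rule of the triangle (4, 9, 11) -/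
def sd_4_9_11 : STab where
  lo := [991443, 500000, 923878]
  hi := [991446, 500000, 923881]
  A := [5, 3, 5]
  T :=
    [[[1, 2, 1, 3, 1, 3], [1, 5, 1, 4, 1, 4], [5, 5, 5, 5, 5, 5], [4, 5, 4, 5, 4, 5],
    [4, 5, 4, 5, 4, 5], [5, 5, 5, 5, 5, 5]], [[1, 3, 1, 2, 1, 3], [1, 3, 1, 3, 1, 3],
    [3, 3, 3, 3, 3, 3], [3, 3, 3, 3, 3, 3]], [[1, 5, 1, 2, 1, 3], [1, 5, 1, 4, 1, 5],
    [4, 5, 4, 5, 4, 5], [5, 5, 5, 5, 5, 5], [4, 5, 4, 5, 4, 5], [5, 5, 5, 5, 5, 5]]]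
  fin :=
    [[false, true, true, false, true], [false, true, true], [false, true, false, true, true]]
  lab :=
    [[⟨0, 1, 0, 0, false⟩, ⟨0, 0, 1, 1, false⟩, ⟨991443, 991447, 0, 1, true⟩,
    ⟨500000, 923882, 0, 1, false⟩, ⟨500000, 0, 1, 2, false⟩], [⟨0, 1, 0, 0, false⟩,
    ⟨0, 0, 1, 1, false⟩, ⟨500000, 500001, 0, 1, true⟩], [⟨0, 1, 0, 0, false⟩,
    ⟨0, 0, 1, 1, false⟩, ⟨500000, 500001, 0, 1, false⟩, ⟨923878, 923882, 0, 1, true⟩,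
    ⟨500000, 0, 1, 2, false⟩]]

theorem sd_4_9_11_ok : OkP (4, 9, 11) sd_4_9_11.ok := STab.okP (by decide +kernel)

/-- the exact side rule of the triangle (4, 9, 13) -/
def sd_4_9_13 : STab where
  lo := [1000000, 464722, 885455]
  hi := [1000000, 464725, 885458]
  A := [7, 3, 5]
  T :=
    [[[1, 2, 1, 3, 1, 4], [1, 7, 1, 5, 1, 6], [7, 7, 7, 7, 7, 7], [5, 7, 5, 4, 5, 7],
    [6, 7, 6, 7, 6, 7], [5, 7, 5, 6, 5, 7], [6, 7, 6, 7, 6, 7], [7, 7, 7, 7, 7, 7]],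
    [[1, 3, 1, 2, 1, 3], [1, 3, 1, 3, 1, 3], [3, 3, 3, 3, 3, 3], [3, 3, 3, 3, 3, 3]],
    [[1, 5, 1, 2, 1, 3], [1, 5, 1, 4, 1, 5], [4, 5, 4, 5, 4, 5], [5, 5, 5, 5, 5, 5],
    [4, 5, 4, 5, 4, 5], [5, 5, 5, 5, 5, 5]]]
  fin :=
    [[false, true, true, false, false, true, true], [false, true, true],
    [false, true, false, true, true]]
  lab :=
    [[⟨0, 1, 0, 0, false⟩, ⟨0, 0, 1, 1, false⟩, ⟨1000000, 1000001, 0, 1, true⟩,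
    ⟨464722, 464726, 0, 1, false⟩, ⟨885455, 929451, 0, 1, false⟩, ⟨464722, 0, 1, 2, false⟩,
    ⟨885455, 0, 1, 2, false⟩], [⟨0, 1, 0, 0, false⟩, ⟨0, 0, 1, 1, false⟩,
    ⟨464722, 464726, 0, 1, true⟩], [⟨0, 1, 0, 0, false⟩, ⟨0, 0, 1, 1, false⟩,
    ⟨464722, 464726, 0, 1, false⟩, ⟨885455, 885459, 0, 1, true⟩, ⟨464722, 0, 1, 2, false⟩]]

theorem sd_4_9_13_ok : OkP (4, 9, 13) sd_4_9_13.ok := STab.okP (by decide +kernel)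

/-- the exact side rule of the triangle (4, 9, 26) -/
def sd_4_9_26 : STab where
  lo := [866024, 316666, 663121]
  hi := [866027, 316669, 663124]
  A := [7, 3, 7]
  T :=
    [[[1, 2, 1, 3, 1, 4], [1, 7, 1, 5, 1, 6], [7, 7, 7, 7, 7, 7], [5, 7, 5, 4, 5, 7],
    [6, 7, 6, 7, 6, 7], [5, 7, 5, 6, 5, 7], [6, 7, 6, 7, 6, 7], [7, 7, 7, 7, 7, 7]],
    [[1, 3, 1, 2, 1, 3], [1, 3, 1, 3, 1, 3], [3, 3, 3, 3, 3, 3], [3, 3, 3, 3, 3, 3]],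
    [[1, 7, 1, 2, 1, 3], [1, 7, 1, 4, 1, 7], [4, 7, 4, 5, 4, 7], [7, 7, 7, 7, 7, 7],
    [4, 7, 4, 6, 4, 7], [6, 7, 6, 7, 6, 7], [6, 7, 6, 7, 6, 7], [7, 7, 7, 7, 7, 7]]]
  fin :=
    [[false, true, true, false, false, true, true], [false, true, true],
    [false, true, false, true, true, false, true]]
  lab :=
    [[⟨0, 1, 0, 0, false⟩, ⟨0, 0, 1, 1, false⟩, ⟨866024, 866028, 0, 1, true⟩,
    ⟨316666, 316670, 0, 1, false⟩, ⟨633332, 663125, 0, 1, false⟩, ⟨316666, 0, 1, 2, false⟩,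
    ⟨633332, 0, 1, 2, false⟩], [⟨0, 1, 0, 0, false⟩, ⟨0, 0, 1, 1, false⟩,
    ⟨316666, 316670, 0, 1, true⟩], [⟨0, 1, 0, 0, false⟩, ⟨0, 0, 1, 1, false⟩,
    ⟨316666, 316670, 0, 1, false⟩, ⟨663121, 663125, 0, 1, true⟩, ⟨316666, 0, 1, 2, false⟩,
    ⟨633332, 633339, 0, 2, false⟩, ⟨633332, 0, 1, 2, false⟩]]

theorem sd_4_9_26_ok : OkP (4, 9, 26) sd_4_9_26.ok := STab.okP (by decide +kernel)

/-- the exact side rule of the triangle (4, 11, 13) -/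
def sd_4_11_13 : STab where
  lo := [993711, 433882, 943882]
  hi := [993714, 433885, 943885]
  A := [7, 3, 7]
  T :=
    [[[1, 2, 1, 3, 1, 4], [1, 7, 1, 5, 1, 6], [7, 7, 7, 7, 7, 7], [5, 7, 5, 4, 5, 7],
    [6, 7, 6, 7, 6, 7], [5, 7, 5, 6, 5, 7], [6, 7, 6, 7, 6, 7], [7, 7, 7, 7, 7, 7]],
    [[1, 3, 1, 2, 1, 3], [1, 3, 1, 3, 1, 3], [3, 3, 3, 3, 3, 3], [3, 3, 3, 3, 3, 3]],
    [[1, 7, 1, 2, 1, 3], [1, 7, 1, 4, 1, 7], [4, 7, 4, 5, 4, 7], [7, 7, 7, 7, 7, 7],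
    [4, 7, 4, 6, 4, 7], [6, 7, 6, 7, 6, 7], [6, 7, 6, 7, 6, 7], [7, 7, 7, 7, 7, 7]]]
  fin :=
    [[false, true, true, false, false, true, true], [false, true, true],
    [false, true, false, true, true, false, true]]
  lab :=
    [[⟨0, 1, 0, 0, false⟩, ⟨0, 0, 1, 1, false⟩, ⟨993711, 993715, 0, 1, true⟩,
    ⟨433882, 433886, 0, 1, false⟩, ⟨867764, 943886, 0, 1, false⟩, ⟨433882, 0, 1, 2, false⟩,
    ⟨867764, 0, 1, 2, false⟩], [⟨0, 1, 0, 0, false⟩, ⟨0, 0, 1, 1, false⟩,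
    ⟨433882, 433886, 0, 1, true⟩], [⟨0, 1, 0, 0, false⟩, ⟨0, 0, 1, 1, false⟩,
    ⟨433882, 433886, 0, 1, false⟩, ⟨943882, 943886, 0, 1, true⟩, ⟨433882, 0, 1, 2, false⟩,
    ⟨867764, 867771, 0, 2, false⟩, ⟨867764, 0, 1, 2, false⟩]]

theorem sd_4_11_13_ok : OkP (4, 11, 13) sd_4_11_13.ok := STab.okP (by decide +kernel)

/-- the exact side rule of the triangle (4, 11, 14) -/
def sd_4_11_14 : STab where
  lo := [998532, 419888, 928975]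
  hi := [998535, 419891, 928978]
  A := [7, 3, 7]
  T :=
    [[[1, 2, 1, 3, 1, 4], [1, 7, 1, 5, 1, 6], [7, 7, 7, 7, 7, 7], [5, 7, 5, 4, 5, 7],
    [6, 7, 6, 7, 6, 7], [5, 7, 5, 6, 5, 7], [6, 7, 6, 7, 6, 7], [7, 7, 7, 7, 7, 7]],
    [[1, 3, 1, 2, 1, 3], [1, 3, 1, 3, 1, 3], [3, 3, 3, 3, 3, 3], [3, 3, 3, 3, 3, 3]],
    [[1, 7, 1, 2, 1, 3], [1, 7, 1, 4, 1, 7], [4, 7, 4, 5, 4, 7], [7, 7, 7, 7, 7, 7],
    [4, 7, 4, 6, 4, 7], [6, 7, 6, 7, 6, 7], [6, 7, 6, 7, 6, 7], [7, 7, 7, 7, 7, 7]]]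
  fin :=
    [[false, true, true, false, false, true, true], [false, true, true],
    [false, true, false, true, true, false, true]]
  lab :=
    [[⟨0, 1, 0, 0, false⟩, ⟨0, 0, 1, 1, false⟩, ⟨998532, 998536, 0, 1, true⟩,
    ⟨419888, 419892, 0, 1, false⟩, ⟨839776, 928979, 0, 1, false⟩, ⟨419888, 0, 1, 2, false⟩,
    ⟨839776, 0, 1, 2, false⟩], [⟨0, 1, 0, 0, false⟩, ⟨0, 0, 1, 1, false⟩,
    ⟨419888, 419892, 0, 1, true⟩], [⟨0, 1, 0, 0, false⟩, ⟨0, 0, 1, 1, false⟩,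
    ⟨419888, 419892, 0, 1, false⟩, ⟨928975, 928979, 0, 1, true⟩, ⟨419888, 0, 1, 2, false⟩,
    ⟨839776, 839783, 0, 2, false⟩, ⟨839776, 0, 1, 2, false⟩]]

theorem sd_4_11_14_ok : OkP (4, 11, 14) sd_4_11_14.ok := STab.okP (by decide +kernel)

/-- the exact side rule of the triangle (4, 13, 15) -/
def sd_4_13_15 : STab where
  lo := [995183, 382682, 956939]
  hi := [995186, 382685, 956942]
  A := [7, 3, 7]
  T :=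
    [[[1, 2, 1, 3, 1, 4], [1, 7, 1, 5, 1, 6], [7, 7, 7, 7, 7, 7], [5, 7, 5, 4, 5, 7],
    [6, 7, 6, 7, 6, 7], [5, 7, 5, 6, 5, 7], [6, 7, 6, 7, 6, 7], [7, 7, 7, 7, 7, 7]],
    [[1, 3, 1, 2, 1, 3], [1, 3, 1, 3, 1, 3], [3, 3, 3, 3, 3, 3], [3, 3, 3, 3, 3, 3]],
    [[1, 7, 1, 2, 1, 3], [1, 7, 1, 4, 1, 7], [4, 7, 4, 5, 4, 7], [7, 7, 7, 7, 7, 7],
    [4, 7, 4, 6, 4, 7], [6, 7, 6, 7, 6, 7], [6, 7, 6, 7, 6, 7], [7, 7, 7, 7, 7, 7]]]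
  fin :=
    [[false, true, true, false, false, true, true], [false, true, true],
    [false, true, false, true, true, false, true]]
  lab :=
    [[⟨0, 1, 0, 0, false⟩, ⟨0, 0, 1, 1, false⟩, ⟨995183, 995187, 0, 1, true⟩,
    ⟨382682, 382686, 0, 1, false⟩, ⟨765364, 956943, 0, 1, false⟩, ⟨382682, 0, 1, 2, false⟩,
    ⟨765364, 0, 1, 2, false⟩], [⟨0, 1, 0, 0, false⟩, ⟨0, 0, 1, 1, false⟩,
    ⟨382682, 382686, 0, 1, true⟩], [⟨0, 1, 0, 0, false⟩, ⟨0, 0, 1, 1, false⟩,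
    ⟨382682, 382686, 0, 1, false⟩, ⟨956939, 956943, 0, 1, true⟩, ⟨382682, 0, 1, 2, false⟩,
    ⟨765364, 765371, 0, 2, false⟩, ⟨765364, 0, 1, 2, false⟩]]

theorem sd_4_13_15_ok : OkP (4, 13, 15) sd_4_13_15.ok := STab.okP (by decide +kernel)

/-- the exact side rule of the triangle (4, 15, 17) -/
def sd_4_15_17 : STab where
  lo := [996193, 342019, 965924]
  hi := [996196, 342022, 965927]
  A := [7, 3, 7]
  T :=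
    [[[1, 2, 1, 3, 1, 4], [1, 7, 1, 5, 1, 6], [7, 7, 7, 7, 7, 7], [5, 7, 5, 4, 5, 7],
    [6, 7, 6, 7, 6, 7], [5, 7, 5, 6, 5, 7], [6, 7, 6, 7, 6, 7], [7, 7, 7, 7, 7, 7]],
    [[1, 3, 1, 2, 1, 3], [1, 3, 1, 3, 1, 3], [3, 3, 3, 3, 3, 3], [3, 3, 3, 3, 3, 3]],
    [[1, 7, 1, 2, 1, 3], [1, 7, 1, 4, 1, 7], [4, 7, 4, 5, 4, 7], [7, 7, 7, 7, 7, 7],
    [4, 7, 4, 6, 4, 7], [6, 7, 6, 7, 6, 7], [6, 7, 6, 7, 6, 7], [7, 7, 7, 7, 7, 7]]]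
  fin :=
    [[false, true, true, false, false, true, true], [false, true, true],
    [false, true, false, true, true, false, true]]
  lab :=
    [[⟨0, 1, 0, 0, false⟩, ⟨0, 0, 1, 1, false⟩, ⟨996193, 996197, 0, 1, true⟩,
    ⟨342019, 342023, 0, 1, false⟩, ⟨684038, 965928, 0, 1, false⟩, ⟨342019, 0, 1, 2, false⟩,
    ⟨684038, 0, 1, 2, false⟩], [⟨0, 1, 0, 0, false⟩, ⟨0, 0, 1, 1, false⟩,
    ⟨342019, 342023, 0, 1, true⟩], [⟨0, 1, 0, 0, false⟩, ⟨0, 0, 1, 1, false⟩,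
    ⟨342019, 342023, 0, 1, false⟩, ⟨965924, 965928, 0, 1, true⟩, ⟨342019, 0, 1, 2, false⟩,
    ⟨684038, 684045, 0, 2, false⟩, ⟨684038, 0, 1, 2, false⟩]]

theorem sd_4_15_17_ok : OkP (4, 15, 17) sd_4_15_17.ok := STab.okP (by decide +kernel)

/-- the exact side rule of the triangle (4, 17, 19) -/
def sd_4_17_19 : STab where
  lo := [996916, 309015, 972368]
  hi := [996919, 309018, 972371]
  A := [9, 3, 9]
  T :=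
    [[[1, 2, 1, 3, 1, 4], [1, 9, 1, 5, 1, 6], [9, 9, 9, 9, 9, 9], [5, 9, 5, 7, 5, 9],
    [6, 9, 6, 9, 6, 9], [5, 9, 5, 8, 5, 9], [6, 9, 6, 9, 6, 9], [8, 9, 8, 4, 8, 9],
    [8, 9, 8, 6, 8, 9], [9, 9, 9, 9, 9, 9]], [[1, 3, 1, 2, 1, 3], [1, 3, 1, 3, 1, 3],
    [3, 3, 3, 3, 3, 3], [3, 3, 3, 3, 3, 3]], [[1, 9, 1, 2, 1, 3], [1, 9, 1, 4, 1, 9],
    [4, 9, 4, 5, 4, 9], [9, 9, 9, 9, 9, 9], [4, 9, 4, 6, 4, 9], [6, 9, 6, 7, 6, 9],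
    [6, 9, 6, 8, 6, 9], [8, 9, 8, 9, 8, 9], [8, 9, 8, 9, 8, 9], [9, 9, 9, 9, 9, 9]]]
  fin :=
    [[false, true, true, false, false, true, true, false, true], [false, true, true],
    [false, true, false, true, true, false, true, false, true]]
  lab :=
    [[⟨0, 1, 0, 0, false⟩, ⟨0, 0, 1, 1, false⟩, ⟨996916, 996920, 0, 1, true⟩,
    ⟨309015, 309019, 0, 1, false⟩, ⟨927045, 972372, 0, 1, false⟩, ⟨309015, 0, 1, 2, false⟩,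
    ⟨927045, 0, 1, 2, false⟩, ⟨618030, 618037, 0, 2, false⟩, ⟨618030, 0, 1, 2, false⟩],
    [⟨0, 1, 0, 0, false⟩, ⟨0, 0, 1, 1, false⟩, ⟨309015, 309019, 0, 1, true⟩],
    [⟨0, 1, 0, 0, false⟩, ⟨0, 0, 1, 1, false⟩, ⟨309015, 309019, 0, 1, false⟩,
    ⟨972368, 972372, 0, 1, true⟩, ⟨309015, 0, 1, 2, false⟩, ⟨618030, 618037, 0, 2, false⟩,
    ⟨618030, 0, 1, 2, false⟩, ⟨927045, 927055, 0, 2, false⟩, ⟨927045, 0, 1, 2, false⟩]]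

theorem sd_4_17_19_ok : OkP (4, 17, 19) sd_4_17_19.ok := STab.okP (by decide +kernel)

/-- the exact side rule of the triangle (5, 6, 8) -/
def sd_5_6_8 : STab where
  lo := [969399, 735722, 837165]
  hi := [969402, 735725, 837168]
  A := [5, 3, 5]
  T :=
    [[[1, 2, 1, 3, 1, 3], [1, 5, 1, 4, 1, 4], [5, 5, 5, 5, 5, 5], [4, 5, 4, 5, 4, 5],
    [4, 5, 4, 5, 4, 5], [5, 5, 5, 5, 5, 5]], [[1, 3, 1, 2, 1, 3], [1, 3, 1, 3, 1, 3],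
    [3, 3, 3, 3, 3, 3], [3, 3, 3, 3, 3, 3]], [[1, 5, 1, 2, 1, 3], [1, 5, 1, 4, 1, 5],
    [4, 5, 4, 5, 4, 5], [5, 5, 5, 5, 5, 5], [4, 5, 4, 5, 4, 5], [5, 5, 5, 5, 5, 5]]]
  fin :=
    [[false, true, true, false, true], [false, true, true], [false, true, false, true, true]]
  lab :=
    [[⟨0, 1, 0, 0, false⟩, ⟨0, 0, 1, 1, false⟩, ⟨969399, 969403, 0, 1, true⟩,
    ⟨735722, 837169, 0, 1, false⟩, ⟨735722, 0, 1, 2, false⟩], [⟨0, 1, 0, 0, false⟩,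
    ⟨0, 0, 1, 1, false⟩, ⟨735722, 735726, 0, 1, true⟩], [⟨0, 1, 0, 0, false⟩,
    ⟨0, 0, 1, 1, false⟩, ⟨735722, 735726, 0, 1, false⟩, ⟨837165, 837169, 0, 1, true⟩,
    ⟨735722, 0, 1, 2, false⟩]]

theorem sd_5_6_8_ok : OkP (5, 6, 8) sd_5_6_8.ok := STab.okP (by decide +kernel)

/-- the exact side rule of the triangle (5, 6, 10) -/
def sd_5_6_10 : STab where
  lo := [997202, 680171, 781830]
  hi := [997205, 680174, 781833]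
  A := [5, 3, 5]
  T :=
    [[[1, 2, 1, 3, 1, 3], [1, 5, 1, 4, 1, 4], [5, 5, 5, 5, 5, 5], [4, 5, 4, 5, 4, 5],
    [4, 5, 4, 5, 4, 5], [5, 5, 5, 5, 5, 5]], [[1, 3, 1, 2, 1, 3], [1, 3, 1, 3, 1, 3],
    [3, 3, 3, 3, 3, 3], [3, 3, 3, 3, 3, 3]], [[1, 5, 1, 2, 1, 3], [1, 5, 1, 4, 1, 5],
    [4, 5, 4, 5, 4, 5], [5, 5, 5, 5, 5, 5], [4, 5, 4, 5, 4, 5], [5, 5, 5, 5, 5, 5]]]
  fin :=
    [[false, true, true, false, true], [false, true, true], [false, true, false, true, true]]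
  lab :=
    [[⟨0, 1, 0, 0, false⟩, ⟨0, 0, 1, 1, false⟩, ⟨997202, 997206, 0, 1, true⟩,
    ⟨680171, 781834, 0, 1, false⟩, ⟨680171, 0, 1, 2, false⟩], [⟨0, 1, 0, 0, false⟩,
    ⟨0, 0, 1, 1, false⟩, ⟨680171, 680175, 0, 1, true⟩], [⟨0, 1, 0, 0, false⟩,
    ⟨0, 0, 1, 1, false⟩, ⟨680171, 680175, 0, 1, false⟩, ⟨781830, 781834, 0, 1, true⟩,
    ⟨680171, 0, 1, 2, false⟩]]

theorem sd_5_6_10_ok : OkP (5, 6, 10) sd_5_6_10.ok := STab.okP (by decide +kernel)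

/-- the exact side rule of the triangle (5, 6, 12) -/
def sd_5_6_12 : STab where
  lo := [997667, 631086, 730834]
  hi := [997670, 631089, 730837]
  A := [5, 3, 5]
  T :=
    [[[1, 2, 1, 3, 1, 3], [1, 5, 1, 4, 1, 4], [5, 5, 5, 5, 5, 5], [4, 5, 4, 5, 4, 5],
    [4, 5, 4, 5, 4, 5], [5, 5, 5, 5, 5, 5]], [[1, 3, 1, 2, 1, 3], [1, 3, 1, 3, 1, 3],
    [3, 3, 3, 3, 3, 3], [3, 3, 3, 3, 3, 3]], [[1, 5, 1, 2, 1, 3], [1, 5, 1, 4, 1, 5],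
    [4, 5, 4, 5, 4, 5], [5, 5, 5, 5, 5, 5], [4, 5, 4, 5, 4, 5], [5, 5, 5, 5, 5, 5]]]
  fin :=
    [[false, true, true, false, true], [false, true, true], [false, true, false, true, true]]
  lab :=
    [[⟨0, 1, 0, 0, false⟩, ⟨0, 0, 1, 1, false⟩, ⟨997667, 997671, 0, 1, true⟩,
    ⟨631086, 730838, 0, 1, false⟩, ⟨631086, 0, 1, 2, false⟩], [⟨0, 1, 0, 0, false⟩,
    ⟨0, 0, 1, 1, false⟩, ⟨631086, 631090, 0, 1, true⟩], [⟨0, 1, 0, 0, false⟩,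
    ⟨0, 0, 1, 1, false⟩, ⟨631086, 631090, 0, 1, false⟩, ⟨730834, 730838, 0, 1, true⟩,
    ⟨631086, 0, 1, 2, false⟩]]

theorem sd_5_6_12_ok : OkP (5, 6, 12) sd_5_6_12.ok := STab.okP (by decide +kernel)

/-- the exact side rule of the triangle (5, 6, 22) -/
def sd_5_6_22 : STab where
  lo := [866024, 458225, 540639]
  hi := [866027, 458228, 540642]
  A := [5, 3, 5]
  T :=
    [[[1, 2, 1, 3, 1, 3], [1, 5, 1, 4, 1, 4], [5, 5, 5, 5, 5, 5], [4, 5, 4, 5, 4, 5],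
    [4, 5, 4, 5, 4, 5], [5, 5, 5, 5, 5, 5]], [[1, 3, 1, 2, 1, 3], [1, 3, 1, 3, 1, 3],
    [3, 3, 3, 3, 3, 3], [3, 3, 3, 3, 3, 3]], [[1, 5, 1, 2, 1, 3], [1, 5, 1, 4, 1, 5],
    [4, 5, 4, 5, 4, 5], [5, 5, 5, 5, 5, 5], [4, 5, 4, 5, 4, 5], [5, 5, 5, 5, 5, 5]]]
  fin :=
    [[false, true, true, false, true], [false, true, true], [false, true, false, true, true]]
  lab :=
    [[⟨0, 1, 0, 0, false⟩, ⟨0, 0, 1, 1, false⟩, ⟨866024, 866028, 0, 1, true⟩,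
    ⟨458225, 540643, 0, 1, false⟩, ⟨458225, 0, 1, 2, false⟩], [⟨0, 1, 0, 0, false⟩,
    ⟨0, 0, 1, 1, false⟩, ⟨458225, 458229, 0, 1, true⟩], [⟨0, 1, 0, 0, false⟩,
    ⟨0, 0, 1, 1, false⟩, ⟨458225, 458229, 0, 1, false⟩, ⟨540639, 540643, 0, 1, true⟩,
    ⟨458225, 0, 1, 2, false⟩]]

theorem sd_5_6_22_ok : OkP (5, 6, 22) sd_5_6_22.ok := STab.okP (by decide +kernel)

/-- the exact side rule of the triangle (5, 7, 8) -/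
def sd_5_7_8 : STab where
  lo := [951055, 707105, 891005]
  hi := [951058, 707108, 891008]
  A := [5, 3, 5]
  T :=
    [[[1, 2, 1, 3, 1, 3], [1, 5, 1, 4, 1, 4], [5, 5, 5, 5, 5, 5], [4, 5, 4, 5, 4, 5],
    [4, 5, 4, 5, 4, 5], [5, 5, 5, 5, 5, 5]], [[1, 3, 1, 2, 1, 3], [1, 3, 1, 3, 1, 3],
    [3, 3, 3, 3, 3, 3], [3, 3, 3, 3, 3, 3]], [[1, 5, 1, 2, 1, 3], [1, 5, 1, 4, 1, 5],
    [4, 5, 4, 5, 4, 5], [5, 5, 5, 5, 5, 5], [4, 5, 4, 5, 4, 5], [5, 5, 5, 5, 5, 5]]]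
  fin :=
    [[false, true, true, false, true], [false, true, true], [false, true, false, true, true]]
  lab :=
    [[⟨0, 1, 0, 0, false⟩, ⟨0, 0, 1, 1, false⟩, ⟨951055, 951059, 0, 1, true⟩,
    ⟨707105, 891009, 0, 1, false⟩, ⟨707105, 0, 1, 2, false⟩], [⟨0, 1, 0, 0, false⟩,
    ⟨0, 0, 1, 1, false⟩, ⟨707105, 707109, 0, 1, true⟩], [⟨0, 1, 0, 0, false⟩,
    ⟨0, 0, 1, 1, false⟩, ⟨707105, 707109, 0, 1, false⟩, ⟨891005, 891009, 0, 1, true⟩,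
    ⟨707105, 0, 1, 2, false⟩]]

theorem sd_5_7_8_ok : OkP (5, 7, 8) sd_5_7_8.ok := STab.okP (by decide +kernel)

/-- the exact side rule of the triangle (5, 7, 14) -/
def sd_5_7_14 : STab where
  lo := [992707, 568063, 748509]
  hi := [992710, 568066, 748512]
  A := [5, 3, 5]
  T :=
    [[[1, 2, 1, 3, 1, 3], [1, 5, 1, 4, 1, 4], [5, 5, 5, 5, 5, 5], [4, 5, 4, 5, 4, 5],
    [4, 5, 4, 5, 4, 5], [5, 5, 5, 5, 5, 5]], [[1, 3, 1, 2, 1, 3], [1, 3, 1, 3, 1, 3],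
    [3, 3, 3, 3, 3, 3], [3, 3, 3, 3, 3, 3]], [[1, 5, 1, 2, 1, 3], [1, 5, 1, 4, 1, 5],
    [4, 5, 4, 5, 4, 5], [5, 5, 5, 5, 5, 5], [4, 5, 4, 5, 4, 5], [5, 5, 5, 5, 5, 5]]]
  fin :=
    [[false, true, true, false, true], [false, true, true], [false, true, false, true, true]]
  lab :=
    [[⟨0, 1, 0, 0, false⟩, ⟨0, 0, 1, 1, false⟩, ⟨992707, 992711, 0, 1, true⟩,
    ⟨568063, 748513, 0, 1, false⟩, ⟨568063, 0, 1, 2, false⟩], [⟨0, 1, 0, 0, false⟩,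
    ⟨0, 0, 1, 1, false⟩, ⟨568063, 568067, 0, 1, true⟩], [⟨0, 1, 0, 0, false⟩,
    ⟨0, 0, 1, 1, false⟩, ⟨568063, 568067, 0, 1, false⟩, ⟨748509, 748513, 0, 1, true⟩,
    ⟨568063, 0, 1, 2, false⟩]]

theorem sd_5_7_14_ok : OkP (5, 7, 14) sd_5_7_14.ok := STab.okP (by decide +kernel)

/-- the exact side rule of the triangle (5, 7, 24) -/
def sd_5_7_24 : STab where
  lo := [866024, 422617, 573575]
  hi := [866027, 422620, 573578]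
  A := [7, 3, 5]
  T :=
    [[[1, 2, 1, 3, 1, 4], [1, 7, 1, 5, 1, 6], [7, 7, 7, 7, 7, 7], [5, 7, 5, 4, 5, 7],
    [6, 7, 6, 7, 6, 7], [5, 7, 5, 6, 5, 7], [6, 7, 6, 7, 6, 7], [7, 7, 7, 7, 7, 7]],
    [[1, 3, 1, 2, 1, 3], [1, 3, 1, 3, 1, 3], [3, 3, 3, 3, 3, 3], [3, 3, 3, 3, 3, 3]],
    [[1, 5, 1, 2, 1, 3], [1, 5, 1, 4, 1, 5], [4, 5, 4, 5, 4, 5], [5, 5, 5, 5, 5, 5],
    [4, 5, 4, 5, 4, 5], [5, 5, 5, 5, 5, 5]]]
  fin :=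
    [[false, true, true, false, false, true, true], [false, true, true],
    [false, true, false, true, true]]
  lab :=
    [[⟨0, 1, 0, 0, false⟩, ⟨0, 0, 1, 1, false⟩, ⟨866024, 866028, 0, 1, true⟩,
    ⟨422617, 422621, 0, 1, false⟩, ⟨573575, 845241, 0, 1, false⟩, ⟨422617, 0, 1, 2, false⟩,
    ⟨573575, 0, 1, 2, false⟩], [⟨0, 1, 0, 0, false⟩, ⟨0, 0, 1, 1, false⟩,
    ⟨422617, 422621, 0, 1, true⟩], [⟨0, 1, 0, 0, false⟩, ⟨0, 0, 1, 1, false⟩,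
    ⟨422617, 422621, 0, 1, false⟩, ⟨573575, 573579, 0, 1, true⟩, ⟨422617, 0, 1, 2, false⟩]]

theorem sd_5_7_24_ok : OkP (5, 7, 24) sd_5_7_24.ok := STab.okP (by decide +kernel)

/-- the exact side rule of the triangle (5, 8, 9) -/
def sd_5_8_9 : STab where
  lo := [959491, 654859, 909630]
  hi := [959494, 654862, 909633]
  A := [5, 3, 5]
  T :=
    [[[1, 2, 1, 3, 1, 3], [1, 5, 1, 4, 1, 4], [5, 5, 5, 5, 5, 5], [4, 5, 4, 5, 4, 5],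
    [4, 5, 4, 5, 4, 5], [5, 5, 5, 5, 5, 5]], [[1, 3, 1, 2, 1, 3], [1, 3, 1, 3, 1, 3],
    [3, 3, 3, 3, 3, 3], [3, 3, 3, 3, 3, 3]], [[1, 5, 1, 2, 1, 3], [1, 5, 1, 4, 1, 5],
    [4, 5, 4, 5, 4, 5], [5, 5, 5, 5, 5, 5], [4, 5, 4, 5, 4, 5], [5, 5, 5, 5, 5, 5]]]
  fin :=
    [[false, true, true, false, true], [false, true, true], [false, true, false, true, true]]
  lab :=
    [[⟨0, 1, 0, 0, false⟩, ⟨0, 0, 1, 1, false⟩, ⟨959491, 959495, 0, 1, true⟩,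
    ⟨654859, 909634, 0, 1, false⟩, ⟨654859, 0, 1, 2, false⟩], [⟨0, 1, 0, 0, false⟩,
    ⟨0, 0, 1, 1, false⟩, ⟨654859, 654863, 0, 1, true⟩], [⟨0, 1, 0, 0, false⟩,
    ⟨0, 0, 1, 1, false⟩, ⟨654859, 654863, 0, 1, false⟩, ⟨909630, 909634, 0, 1, true⟩,
    ⟨654859, 0, 1, 2, false⟩]]

theorem sd_5_8_9_ok : OkP (5, 8, 9) sd_5_8_9.ok := STab.okP (by decide +kernel)

/-- the exact side rule of the triangle (5, 8, 16) -/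
def sd_5_8_16 : STab where
  lo := [986825, 515552, 762161]
  hi := [986828, 515555, 762164]
  A := [5, 3, 5]
  T :=
    [[[1, 2, 1, 3, 1, 3], [1, 5, 1, 4, 1, 4], [5, 5, 5, 5, 5, 5], [4, 5, 4, 5, 4, 5],
    [4, 5, 4, 5, 4, 5], [5, 5, 5, 5, 5, 5]], [[1, 3, 1, 2, 1, 3], [1, 3, 1, 3, 1, 3],
    [3, 3, 3, 3, 3, 3], [3, 3, 3, 3, 3, 3]], [[1, 5, 1, 2, 1, 3], [1, 5, 1, 4, 1, 5],
    [4, 5, 4, 5, 4, 5], [5, 5, 5, 5, 5, 5], [4, 5, 4, 5, 4, 5], [5, 5, 5, 5, 5, 5]]]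
  fin :=
    [[false, true, true, false, true], [false, true, true], [false, true, false, true, true]]
  lab :=
    [[⟨0, 1, 0, 0, false⟩, ⟨0, 0, 1, 1, false⟩, ⟨986825, 986829, 0, 1, true⟩,
    ⟨515552, 762165, 0, 1, false⟩, ⟨515552, 0, 1, 2, false⟩], [⟨0, 1, 0, 0, false⟩,
    ⟨0, 0, 1, 1, false⟩, ⟨515552, 515556, 0, 1, true⟩], [⟨0, 1, 0, 0, false⟩,
    ⟨0, 0, 1, 1, false⟩, ⟨515552, 515556, 0, 1, false⟩, ⟨762161, 762165, 0, 1, true⟩,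
    ⟨515552, 0, 1, 2, false⟩]]

theorem sd_5_8_16_ok : OkP (5, 8, 16) sd_5_8_16.ok := STab.okP (by decide +kernel)

/-- the exact side rule of the triangle (5, 8, 26) -/
def sd_5_8_26 : STab where
  lo := [866024, 391965, 600741]
  hi := [866027, 391968, 600744]
  A := [7, 3, 5]
  T :=
    [[[1, 2, 1, 3, 1, 4], [1, 7, 1, 5, 1, 6], [7, 7, 7, 7, 7, 7], [5, 7, 5, 4, 5, 7],
    [6, 7, 6, 7, 6, 7], [5, 7, 5, 6, 5, 7], [6, 7, 6, 7, 6, 7], [7, 7, 7, 7, 7, 7]],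
    [[1, 3, 1, 2, 1, 3], [1, 3, 1, 3, 1, 3], [3, 3, 3, 3, 3, 3], [3, 3, 3, 3, 3, 3]],
    [[1, 5, 1, 2, 1, 3], [1, 5, 1, 4, 1, 5], [4, 5, 4, 5, 4, 5], [5, 5, 5, 5, 5, 5],
    [4, 5, 4, 5, 4, 5], [5, 5, 5, 5, 5, 5]]]
  fin :=
    [[false, true, true, false, false, true, true], [false, true, true],
    [false, true, false, true, true]]
  lab :=
    [[⟨0, 1, 0, 0, false⟩, ⟨0, 0, 1, 1, false⟩, ⟨866024, 866028, 0, 1, true⟩,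
    ⟨391965, 391969, 0, 1, false⟩, ⟨600741, 783937, 0, 1, false⟩, ⟨391965, 0, 1, 2, false⟩,
    ⟨600741, 0, 1, 2, false⟩], [⟨0, 1, 0, 0, false⟩, ⟨0, 0, 1, 1, false⟩,
    ⟨391965, 391969, 0, 1, true⟩], [⟨0, 1, 0, 0, false⟩, ⟨0, 0, 1, 1, false⟩,
    ⟨391965, 391969, 0, 1, false⟩, ⟨600741, 600745, 0, 1, true⟩, ⟨391965, 0, 1, 2, false⟩]]

theorem sd_5_8_26_ok : OkP (5, 8, 26) sd_5_8_26.ok := STab.okP (by decide +kernel)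

/-- the exact side rule of the triangle (5, 11, 12) -/
def sd_5_11_12 : STab where
  lo := [974926, 532031, 943882]
  hi := [974929, 532034, 943885]
  A := [5, 3, 5]
  T :=
    [[[1, 2, 1, 3, 1, 3], [1, 5, 1, 4, 1, 4], [5, 5, 5, 5, 5, 5], [4, 5, 4, 5, 4, 5],
    [4, 5, 4, 5, 4, 5], [5, 5, 5, 5, 5, 5]], [[1, 3, 1, 2, 1, 3], [1, 3, 1, 3, 1, 3],
    [3, 3, 3, 3, 3, 3], [3, 3, 3, 3, 3, 3]], [[1, 5, 1, 2, 1, 3], [1, 5, 1, 4, 1, 5],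
    [4, 5, 4, 5, 4, 5], [5, 5, 5, 5, 5, 5], [4, 5, 4, 5, 4, 5], [5, 5, 5, 5, 5, 5]]]
  fin :=
    [[false, true, true, false, true], [false, true, true], [false, true, false, true, true]]
  lab :=
    [[⟨0, 1, 0, 0, false⟩, ⟨0, 0, 1, 1, false⟩, ⟨974926, 974930, 0, 1, true⟩,
    ⟨532031, 943886, 0, 1, false⟩, ⟨532031, 0, 1, 2, false⟩], [⟨0, 1, 0, 0, false⟩,
    ⟨0, 0, 1, 1, false⟩, ⟨532031, 532035, 0, 1, true⟩], [⟨0, 1, 0, 0, false⟩,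
    ⟨0, 0, 1, 1, false⟩, ⟨532031, 532035, 0, 1, false⟩, ⟨943882, 943886, 0, 1, true⟩,
    ⟨532031, 0, 1, 2, false⟩]]

theorem sd_5_11_12_ok : OkP (5, 11, 12) sd_5_11_12.ok := STab.okP (by decide +kernel)

/-- the exact side rule of the triangle (5, 12, 14) -/
def sd_5_12_14 : STab where
  lo := [988467, 485300, 937751]
  hi := [988470, 485303, 937754]
  A := [7, 3, 5]
  T :=
    [[[1, 2, 1, 3, 1, 4], [1, 7, 1, 5, 1, 6], [7, 7, 7, 7, 7, 7], [5, 7, 5, 4, 5, 7],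
    [6, 7, 6, 7, 6, 7], [5, 7, 5, 6, 5, 7], [6, 7, 6, 7, 6, 7], [7, 7, 7, 7, 7, 7]],
    [[1, 3, 1, 2, 1, 3], [1, 3, 1, 3, 1, 3], [3, 3, 3, 3, 3, 3], [3, 3, 3, 3, 3, 3]],
    [[1, 5, 1, 2, 1, 3], [1, 5, 1, 4, 1, 5], [4, 5, 4, 5, 4, 5], [5, 5, 5, 5, 5, 5],
    [4, 5, 4, 5, 4, 5], [5, 5, 5, 5, 5, 5]]]
  fin :=
    [[false, true, true, false, false, true, true], [false, true, true],
    [false, true, false, true, true]]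
  lab :=
    [[⟨0, 1, 0, 0, false⟩, ⟨0, 0, 1, 1, false⟩, ⟨988467, 988471, 0, 1, true⟩,
    ⟨485300, 485304, 0, 1, false⟩, ⟨937751, 970607, 0, 1, false⟩, ⟨485300, 0, 1, 2, false⟩,
    ⟨937751, 0, 1, 2, false⟩], [⟨0, 1, 0, 0, false⟩, ⟨0, 0, 1, 1, false⟩,
    ⟨485300, 485304, 0, 1, true⟩], [⟨0, 1, 0, 0, false⟩, ⟨0, 0, 1, 1, false⟩,
    ⟨485300, 485304, 0, 1, false⟩, ⟨937751, 937755, 0, 1, true⟩, ⟨485300, 0, 1, 2, false⟩]]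

theorem sd_5_12_14_ok : OkP (5, 12, 14) sd_5_12_14.ok := STab.okP (by decide +kernel)

/-- the exact side rule of the triangle (6, 7, 10) -/
def sd_6_7_10 : STab where
  lo := [979083, 730834, 816968]
  hi := [979086, 730837, 816971]
  A := [5, 3, 5]
  T :=
    [[[1, 2, 1, 3, 1, 3], [1, 5, 1, 4, 1, 4], [5, 5, 5, 5, 5, 5], [4, 5, 4, 5, 4, 5],
    [4, 5, 4, 5, 4, 5], [5, 5, 5, 5, 5, 5]], [[1, 3, 1, 2, 1, 3], [1, 3, 1, 3, 1, 3],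
    [3, 3, 3, 3, 3, 3], [3, 3, 3, 3, 3, 3]], [[1, 5, 1, 2, 1, 3], [1, 5, 1, 4, 1, 5],
    [4, 5, 4, 5, 4, 5], [5, 5, 5, 5, 5, 5], [4, 5, 4, 5, 4, 5], [5, 5, 5, 5, 5, 5]]]
  fin :=
    [[false, true, true, false, true], [false, true, true], [false, true, false, true, true]]
  lab :=
    [[⟨0, 1, 0, 0, false⟩, ⟨0, 0, 1, 1, false⟩, ⟨979083, 979087, 0, 1, true⟩,
    ⟨730834, 816972, 0, 1, false⟩, ⟨730834, 0, 1, 2, false⟩], [⟨0, 1, 0, 0, false⟩,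
    ⟨0, 0, 1, 1, false⟩, ⟨730834, 730838, 0, 1, true⟩], [⟨0, 1, 0, 0, false⟩,
    ⟨0, 0, 1, 1, false⟩, ⟨730834, 730838, 0, 1, false⟩, ⟨816968, 816972, 0, 1, true⟩,
    ⟨730834, 0, 1, 2, false⟩]]

theorem sd_6_7_10_ok : OkP (6, 7, 10) sd_6_7_10.ok := STab.okP (by decide +kernel)

/-- the exact side rule of the triangle (6, 7, 14) -/
def sd_6_7_14 : STab where
  lo := [998307, 642786, 727372]
  hi := [998310, 642789, 727375]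
  A := [5, 3, 5]
  T :=
    [[[1, 2, 1, 3, 1, 3], [1, 5, 1, 4, 1, 4], [5, 5, 5, 5, 5, 5], [4, 5, 4, 5, 4, 5],
    [4, 5, 4, 5, 4, 5], [5, 5, 5, 5, 5, 5]], [[1, 3, 1, 2, 1, 3], [1, 3, 1, 3, 1, 3],
    [3, 3, 3, 3, 3, 3], [3, 3, 3, 3, 3, 3]], [[1, 5, 1, 2, 1, 3], [1, 5, 1, 4, 1, 5],
    [4, 5, 4, 5, 4, 5], [5, 5, 5, 5, 5, 5], [4, 5, 4, 5, 4, 5], [5, 5, 5, 5, 5, 5]]]
  fin :=
    [[false, true, true, false, true], [false, true, true], [false, true, false, true, true]]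
  lab :=
    [[⟨0, 1, 0, 0, false⟩, ⟨0, 0, 1, 1, false⟩, ⟨998307, 998311, 0, 1, true⟩,
    ⟨642786, 727376, 0, 1, false⟩, ⟨642786, 0, 1, 2, false⟩], [⟨0, 1, 0, 0, false⟩,
    ⟨0, 0, 1, 1, false⟩, ⟨642786, 642790, 0, 1, true⟩], [⟨0, 1, 0, 0, false⟩,
    ⟨0, 0, 1, 1, false⟩, ⟨642786, 642790, 0, 1, false⟩, ⟨727372, 727376, 0, 1, true⟩,
    ⟨642786, 0, 1, 2, false⟩]]

theorem sd_6_7_14_ok : OkP (6, 7, 14) sd_6_7_14.ok := STab.okP (by decide +kernel)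

/-- the exact side rule of the triangle (6, 7, 26) -/
def sd_6_7_26 : STab where
  lo := [866024, 464722, 534464]
  hi := [866027, 464725, 534467]
  A := [5, 3, 5]
  T :=
    [[[1, 2, 1, 3, 1, 3], [1, 5, 1, 4, 1, 4], [5, 5, 5, 5, 5, 5], [4, 5, 4, 5, 4, 5],
    [4, 5, 4, 5, 4, 5], [5, 5, 5, 5, 5, 5]], [[1, 3, 1, 2, 1, 3], [1, 3, 1, 3, 1, 3],
    [3, 3, 3, 3, 3, 3], [3, 3, 3, 3, 3, 3]], [[1, 5, 1, 2, 1, 3], [1, 5, 1, 4, 1, 5],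
    [4, 5, 4, 5, 4, 5], [5, 5, 5, 5, 5, 5], [4, 5, 4, 5, 4, 5], [5, 5, 5, 5, 5, 5]]]
  fin :=
    [[false, true, true, false, true], [false, true, true], [false, true, false, true, true]]
  lab :=
    [[⟨0, 1, 0, 0, false⟩, ⟨0, 0, 1, 1, false⟩, ⟨866024, 866028, 0, 1, true⟩,
    ⟨464722, 534468, 0, 1, false⟩, ⟨464722, 0, 1, 2, false⟩], [⟨0, 1, 0, 0, false⟩,
    ⟨0, 0, 1, 1, false⟩, ⟨464722, 464726, 0, 1, true⟩], [⟨0, 1, 0, 0, false⟩,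
    ⟨0, 0, 1, 1, false⟩, ⟨464722, 464726, 0, 1, false⟩, ⟨534464, 534468, 0, 1, true⟩,
    ⟨464722, 0, 1, 2, false⟩]]

theorem sd_6_7_26_ok : OkP (6, 7, 26) sd_6_7_26.ok := STab.okP (by decide +kernel)

/-- the exact side rule of the triangle (6, 8, 11) -/
def sd_6_8_11 : STab where
  lo := [982286, 684546, 844326]
  hi := [982289, 684549, 844329]
  A := [5, 3, 5]
  T :=
    [[[1, 2, 1, 3, 1, 3], [1, 5, 1, 4, 1, 4], [5, 5, 5, 5, 5, 5], [4, 5, 4, 5, 4, 5],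
    [4, 5, 4, 5, 4, 5], [5, 5, 5, 5, 5, 5]], [[1, 3, 1, 2, 1, 3], [1, 3, 1, 3, 1, 3],
    [3, 3, 3, 3, 3, 3], [3, 3, 3, 3, 3, 3]], [[1, 5, 1, 2, 1, 3], [1, 5, 1, 4, 1, 5],
    [4, 5, 4, 5, 4, 5], [5, 5, 5, 5, 5, 5], [4, 5, 4, 5, 4, 5], [5, 5, 5, 5, 5, 5]]]
  fin :=
    [[false, true, true, false, true], [false, true, true], [false, true, false, true, true]]
  lab :=
    [[⟨0, 1, 0, 0, false⟩, ⟨0, 0, 1, 1, false⟩, ⟨982286, 982290, 0, 1, true⟩,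
    ⟨684546, 844330, 0, 1, false⟩, ⟨684546, 0, 1, 2, false⟩], [⟨0, 1, 0, 0, false⟩,
    ⟨0, 0, 1, 1, false⟩, ⟨684546, 684550, 0, 1, true⟩], [⟨0, 1, 0, 0, false⟩,
    ⟨0, 0, 1, 1, false⟩, ⟨684546, 684550, 0, 1, false⟩, ⟨844326, 844330, 0, 1, true⟩,
    ⟨684546, 0, 1, 2, false⟩]]

theorem sd_6_8_11_ok : OkP (6, 8, 11) sd_6_8_11.ok := STab.okP (by decide +kernel)

/-- the exact side rule of the triangle (6, 10, 11) -/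
def sd_6_10_11 : STab where
  lo := [957988, 642786, 918215]
  hi := [957991, 642789, 918218]
  A := [5, 3, 5]
  T :=
    [[[1, 2, 1, 3, 1, 3], [1, 5, 1, 4, 1, 4], [5, 5, 5, 5, 5, 5], [4, 5, 4, 5, 4, 5],
    [4, 5, 4, 5, 4, 5], [5, 5, 5, 5, 5, 5]], [[1, 3, 1, 2, 1, 3], [1, 3, 1, 3, 1, 3],
    [3, 3, 3, 3, 3, 3], [3, 3, 3, 3, 3, 3]], [[1, 5, 1, 2, 1, 3], [1, 5, 1, 4, 1, 5],
    [4, 5, 4, 5, 4, 5], [5, 5, 5, 5, 5, 5], [4, 5, 4, 5, 4, 5], [5, 5, 5, 5, 5, 5]]]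
  fin :=
    [[false, true, true, false, true], [false, true, true], [false, true, false, true, true]]
  lab :=
    [[⟨0, 1, 0, 0, false⟩, ⟨0, 0, 1, 1, false⟩, ⟨957988, 957992, 0, 1, true⟩,
    ⟨642786, 918219, 0, 1, false⟩, ⟨642786, 0, 1, 2, false⟩], [⟨0, 1, 0, 0, false⟩,
    ⟨0, 0, 1, 1, false⟩, ⟨642786, 642790, 0, 1, true⟩], [⟨0, 1, 0, 0, false⟩,
    ⟨0, 0, 1, 1, false⟩, ⟨642786, 642790, 0, 1, false⟩, ⟨918215, 918219, 0, 1, true⟩,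
    ⟨642786, 0, 1, 2, false⟩]]

theorem sd_6_10_11_ok : OkP (6, 10, 11) sd_6_10_11.ok := STab.okP (by decide +kernel)

/-- the exact side rule of the triangle (6, 10, 13) -/
def sd_6_10_13 : STab where
  lo := [986825, 605173, 883511]
  hi := [986828, 605176, 883514]
  A := [5, 3, 5]
  T :=
    [[[1, 2, 1, 3, 1, 3], [1, 5, 1, 4, 1, 4], [5, 5, 5, 5, 5, 5], [4, 5, 4, 5, 4, 5],
    [4, 5, 4, 5, 4, 5], [5, 5, 5, 5, 5, 5]], [[1, 3, 1, 2, 1, 3], [1, 3, 1, 3, 1, 3],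
    [3, 3, 3, 3, 3, 3], [3, 3, 3, 3, 3, 3]], [[1, 5, 1, 2, 1, 3], [1, 5, 1, 4, 1, 5],
    [4, 5, 4, 5, 4, 5], [5, 5, 5, 5, 5, 5], [4, 5, 4, 5, 4, 5], [5, 5, 5, 5, 5, 5]]]
  fin :=
    [[false, true, true, false, true], [false, true, true], [false, true, false, true, true]]
  lab :=
    [[⟨0, 1, 0, 0, false⟩, ⟨0, 0, 1, 1, false⟩, ⟨986825, 986829, 0, 1, true⟩,
    ⟨605173, 883515, 0, 1, false⟩, ⟨605173, 0, 1, 2, false⟩], [⟨0, 1, 0, 0, false⟩,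
    ⟨0, 0, 1, 1, false⟩, ⟨605173, 605177, 0, 1, true⟩], [⟨0, 1, 0, 0, false⟩,
    ⟨0, 0, 1, 1, false⟩, ⟨605173, 605177, 0, 1, false⟩, ⟨883511, 883515, 0, 1, true⟩,
    ⟨605173, 0, 1, 2, false⟩]]

theorem sd_6_10_13_ok : OkP (6, 10, 13) sd_6_10_13.ok := STab.okP (by decide +kernel)

/-- the exact side rule of the triangle (6, 11, 14) -/
def sd_6_11_14 : STab where
  lo := [988467, 571267, 897803]
  hi := [988470, 571270, 897806]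
  A := [5, 3, 5]
  T :=
    [[[1, 2, 1, 3, 1, 3], [1, 5, 1, 4, 1, 4], [5, 5, 5, 5, 5, 5], [4, 5, 4, 5, 4, 5],
    [4, 5, 4, 5, 4, 5], [5, 5, 5, 5, 5, 5]], [[1, 3, 1, 2, 1, 3], [1, 3, 1, 3, 1, 3],
    [3, 3, 3, 3, 3, 3], [3, 3, 3, 3, 3, 3]], [[1, 5, 1, 2, 1, 3], [1, 5, 1, 4, 1, 5],
    [4, 5, 4, 5, 4, 5], [5, 5, 5, 5, 5, 5], [4, 5, 4, 5, 4, 5], [5, 5, 5, 5, 5, 5]]]
  fin :=
    [[false, true, true, false, true], [false, true, true], [false, true, false, true, true]]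
  lab :=
    [[⟨0, 1, 0, 0, false⟩, ⟨0, 0, 1, 1, false⟩, ⟨988467, 988471, 0, 1, true⟩,
    ⟨571267, 897807, 0, 1, false⟩, ⟨571267, 0, 1, 2, false⟩], [⟨0, 1, 0, 0, false⟩,
    ⟨0, 0, 1, 1, false⟩, ⟨571267, 571271, 0, 1, true⟩], [⟨0, 1, 0, 0, false⟩,
    ⟨0, 0, 1, 1, false⟩, ⟨571267, 571271, 0, 1, false⟩, ⟨897803, 897807, 0, 1, true⟩,
    ⟨571267, 0, 1, 2, false⟩]]

theorem sd_6_11_14_ok : OkP (6, 11, 14) sd_6_11_14.ok := STab.okP (by decide +kernel)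

/-- the exact side rule of the triangle (6, 13, 14) -/
def sd_6_13_14 : STab where
  lo := [971810, 540639, 944999]
  hi := [971813, 540642, 945002]
  A := [5, 3, 5]
  T :=
    [[[1, 2, 1, 3, 1, 3], [1, 5, 1, 4, 1, 4], [5, 5, 5, 5, 5, 5], [4, 5, 4, 5, 4, 5],
    [4, 5, 4, 5, 4, 5], [5, 5, 5, 5, 5, 5]], [[1, 3, 1, 2, 1, 3], [1, 3, 1, 3, 1, 3],
    [3, 3, 3, 3, 3, 3], [3, 3, 3, 3, 3, 3]], [[1, 5, 1, 2, 1, 3], [1, 5, 1, 4, 1, 5],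
    [4, 5, 4, 5, 4, 5], [5, 5, 5, 5, 5, 5], [4, 5, 4, 5, 4, 5], [5, 5, 5, 5, 5, 5]]]
  fin :=
    [[false, true, true, false, true], [false, true, true], [false, true, false, true, true]]
  lab :=
    [[⟨0, 1, 0, 0, false⟩, ⟨0, 0, 1, 1, false⟩, ⟨971810, 971814, 0, 1, true⟩,
    ⟨540639, 945003, 0, 1, false⟩, ⟨540639, 0, 1, 2, false⟩], [⟨0, 1, 0, 0, false⟩,
    ⟨0, 0, 1, 1, false⟩, ⟨540639, 540643, 0, 1, true⟩], [⟨0, 1, 0, 0, false⟩,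
    ⟨0, 0, 1, 1, false⟩, ⟨540639, 540643, 0, 1, false⟩, ⟨944999, 945003, 0, 1, true⟩,
    ⟨540639, 0, 1, 2, false⟩]]

theorem sd_6_13_14_ok : OkP (6, 13, 14) sd_6_13_14.ok := STab.okP (by decide +kernel)

/-- the exact side rule of the triangle (6, 13, 16) -/
def sd_6_13_16 : STab where
  lo := [990948, 512898, 919526]
  hi := [990951, 512901, 919529]
  A := [5, 3, 5]
  T :=
    [[[1, 2, 1, 3, 1, 3], [1, 5, 1, 4, 1, 4], [5, 5, 5, 5, 5, 5], [4, 5, 4, 5, 4, 5],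
    [4, 5, 4, 5, 4, 5], [5, 5, 5, 5, 5, 5]], [[1, 3, 1, 2, 1, 3], [1, 3, 1, 3, 1, 3],
    [3, 3, 3, 3, 3, 3], [3, 3, 3, 3, 3, 3]], [[1, 5, 1, 2, 1, 3], [1, 5, 1, 4, 1, 5],
    [4, 5, 4, 5, 4, 5], [5, 5, 5, 5, 5, 5], [4, 5, 4, 5, 4, 5], [5, 5, 5, 5, 5, 5]]]
  fin :=
    [[false, true, true, false, true], [false, true, true], [false, true, false, true, true]]
  lab :=
    [[⟨0, 1, 0, 0, false⟩, ⟨0, 0, 1, 1, false⟩, ⟨990948, 990952, 0, 1, true⟩,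
    ⟨512898, 919530, 0, 1, false⟩, ⟨512898, 0, 1, 2, false⟩], [⟨0, 1, 0, 0, false⟩,
    ⟨0, 0, 1, 1, false⟩, ⟨512898, 512902, 0, 1, true⟩], [⟨0, 1, 0, 0, false⟩,
    ⟨0, 0, 1, 1, false⟩, ⟨512898, 512902, 0, 1, false⟩, ⟨919526, 919530, 0, 1, true⟩,
    ⟨512898, 0, 1, 2, false⟩]]

theorem sd_6_13_16_ok : OkP (6, 13, 16) sd_6_13_16.ok := STab.okP (by decide +kernel)

/-- the exact side rule of the triangle (6, 14, 17) -/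
def sd_6_14_17 : STab where
  lo := [991899, 487693, 927888]
  hi := [991902, 487696, 927891]
  A := [7, 3, 5]
  T :=
    [[[1, 2, 1, 3, 1, 4], [1, 7, 1, 5, 1, 6], [7, 7, 7, 7, 7, 7], [5, 7, 5, 4, 5, 7],
    [6, 7, 6, 7, 6, 7], [5, 7, 5, 6, 5, 7], [6, 7, 6, 7, 6, 7], [7, 7, 7, 7, 7, 7]],
    [[1, 3, 1, 2, 1, 3], [1, 3, 1, 3, 1, 3], [3, 3, 3, 3, 3, 3], [3, 3, 3, 3, 3, 3]],
    [[1, 5, 1, 2, 1, 3], [1, 5, 1, 4, 1, 5], [4, 5, 4, 5, 4, 5], [5, 5, 5, 5, 5, 5],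
    [4, 5, 4, 5, 4, 5], [5, 5, 5, 5, 5, 5]]]
  fin :=
    [[false, true, true, false, false, true, true], [false, true, true],
    [false, true, false, true, true]]
  lab :=
    [[⟨0, 1, 0, 0, false⟩, ⟨0, 0, 1, 1, false⟩, ⟨991899, 991903, 0, 1, true⟩,
    ⟨487693, 487697, 0, 1, false⟩, ⟨927888, 975393, 0, 1, false⟩, ⟨487693, 0, 1, 2, false⟩,
    ⟨927888, 0, 1, 2, false⟩], [⟨0, 1, 0, 0, false⟩, ⟨0, 0, 1, 1, false⟩,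
    ⟨487693, 487697, 0, 1, true⟩], [⟨0, 1, 0, 0, false⟩, ⟨0, 0, 1, 1, false⟩,
    ⟨487693, 487697, 0, 1, false⟩, ⟨927888, 927892, 0, 1, true⟩, ⟨487693, 0, 1, 2, false⟩]]

theorem sd_6_14_17_ok : OkP (6, 14, 17) sd_6_14_17.ok := STab.okP (by decide +kernel)

/-- the exact side rule of the triangle (7, 8, 10) -/
def sd_7_8_10 : STab where
  lo := [951055, 770512, 844326]
  hi := [951058, 770515, 844329]
  A := [5, 3, 5]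
  T :=
    [[[1, 2, 1, 3, 1, 3], [1, 5, 1, 4, 1, 4], [5, 5, 5, 5, 5, 5], [4, 5, 4, 5, 4, 5],
    [4, 5, 4, 5, 4, 5], [5, 5, 5, 5, 5, 5]], [[1, 3, 1, 2, 1, 3], [1, 3, 1, 3, 1, 3],
    [3, 3, 3, 3, 3, 3], [3, 3, 3, 3, 3, 3]], [[1, 5, 1, 2, 1, 3], [1, 5, 1, 4, 1, 5],
    [4, 5, 4, 5, 4, 5], [5, 5, 5, 5, 5, 5], [4, 5, 4, 5, 4, 5], [5, 5, 5, 5, 5, 5]]]
  fin :=
    [[false, true, true, false, true], [false, true, true], [false, true, false, true, true]]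
  lab :=
    [[⟨0, 1, 0, 0, false⟩, ⟨0, 0, 1, 1, false⟩, ⟨951055, 951059, 0, 1, true⟩,
    ⟨770512, 844330, 0, 1, false⟩, ⟨770512, 0, 1, 2, false⟩], [⟨0, 1, 0, 0, false⟩,
    ⟨0, 0, 1, 1, false⟩, ⟨770512, 770516, 0, 1, true⟩], [⟨0, 1, 0, 0, false⟩,
    ⟨0, 0, 1, 1, false⟩, ⟨770512, 770516, 0, 1, false⟩, ⟨844326, 844330, 0, 1, true⟩,
    ⟨770512, 0, 1, 2, false⟩]]

theorem sd_7_8_10_ok : OkP (7, 8, 10) sd_7_8_10.ok := STab.okP (by decide +kernel)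

end Pool.Agent.NNc
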