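import Pool.Agent.NNc.OkW

/-!
# Side rules given by tables

`okT T fin`: the side rule of the automaton with the transitions `T k a b f` (side `k`, state `a`,
piece with the label `b`, full or not) and the final test `fin k a`; start state `0`, states
`0, ..., A k - 1`, dead state `A k`.
`okP_tab`: the rule is true for the triangle `p` if a finite check succeeds: integer bounds of the
sines of the angles, and a label for every state.
`okU_tab`: the rule is true for the families if the automaton is weaker than the weak rule.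
-/

namespace Pool.Agent.NNc

open Pool.Agent.NNb

/-! ## bounds for the sine -/

theorem okt_mono {f f' : ℝ → ℝ} (hf : ∀ x, HasDerivAt f (f' x) x) (h0 : f 0 = 0)
    (hn : ∀ x, 0 ≤ x → 0 ≤ f' x) (x : ℝ) (hx : 0 ≤ x) : 0 ≤ f x := by
  have h1 : MonotoneOn f (Set.Ici 0) := by
    apply monotoneOn_of_deriv_nonneg (convex_Ici 0)
    · exact fun y _ => (hf y).continuousAt.continuousWithinAt
    · exact fun y _ => (hf y).differentiableAt.differentiableWithinAt
    · intro y hy
      rw [interior_Ici] at hy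
      rw [(hf y).deriv]
      exact hn y (le_of_lt hy)
  have h2 := h1 (Set.mem_Ici.2 le_rfl) (Set.mem_Ici.2 hx) hx
  rwa [h0] at h2

/-- the Taylor polynomial of the sine with `n` terms -/
noncomputable def sT (n : ℕ) (x : ℝ) : ℝ :=
  ∑ j ∈ Finset.range n, (-1) ^ j * (x ^ (2 * j + 1) / (2 * j + 1).factorial)

/-- the Taylor polynomial of the cosine with `n` terms -/
noncomputable def cT (n : ℕ) (x : ℝ) : ℝ :=
  ∑ j ∈ Finset.range n, (-1) ^ j * (x ^ (2 * j) / (2 * j).factorial)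

theorem sT_deriv (n : ℕ) (x : ℝ) : HasDerivAt (sT n) (cT n x) x := by
  unfold sT cT
  have h : ∀ j ∈ Finset.range n, HasDerivAt
      (fun x : ℝ => (-1 : ℝ) ^ j * (x ^ (2 * j + 1) / ((2 * j + 1).factorial : ℝ)))
      ((-1 : ℝ) ^ j * (x ^ (2 * j) / ((2 * j).factorial : ℝ))) x := by
    intro j _
    have h1 := ((hasDerivAt_pow (2 * j + 1) x).div_const ((2 * j + 1).factorial : ℝ)).const_mul
      ((-1 : ℝ) ^ j)
    refine h1.congr_deriv ?_
    rw [Nat.factorial_succ, Nat.add_sub_cancel]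
    push_cast
    have h2 : ((2 * j).factorial : ℝ) ≠ 0 := by positivity
    have h3 : (2 * (j : ℝ) + 1) ≠ 0 := by positivity
    field_simp
  have h2 := HasDerivAt.fun_sum h
  exact h2

theorem cT_deriv (n : ℕ) (x : ℝ) : HasDerivAt (cT (n + 1)) (-sT n x) x := by
  have e : ∀ y : ℝ, cT (n + 1) y =
      1 - ∑ j ∈ Finset.range n, (-1) ^ j * (y ^ (2 * j + 2) / (2 * j + 2).factorial) := by
    intro y
    unfold cT
    rw [Finset.sum_range_succ', sub_eq_add_neg, add_comm]
    congr 1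
    · simp
    · rw [← Finset.sum_neg_distrib]
      refine Finset.sum_congr rfl fun j _ => ?_
      have e1 : 2 * (j + 1) = 2 * j + 2 := by ring
      rw [e1, pow_succ]
      ring
  have h : ∀ j ∈ Finset.range n, HasDerivAt
      (fun x : ℝ => (-1 : ℝ) ^ j * (x ^ (2 * j + 2) / ((2 * j + 2).factorial : ℝ)))
      ((-1 : ℝ) ^ j * (x ^ (2 * j + 1) / ((2 * j + 1).factorial : ℝ))) x := by
    intro j _
    have h1 := ((hasDerivAt_pow (2 * j + 2) x).div_const ((2 * j + 2).factorial : ℝ)).const_mul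
      ((-1 : ℝ) ^ j)
    refine h1.congr_deriv ?_
    have e1 : 2 * j + 2 = (2 * j + 1) + 1 := by ring
    rw [e1, Nat.factorial_succ, Nat.add_sub_cancel]
    push_cast
    have h2 : ((2 * j + 1).factorial : ℝ) ≠ 0 := by positivity
    have h3 : (2 * (j : ℝ) + 1 + 1) ≠ 0 := by positivity
    field_simp
  have h2 := (HasDerivAt.fun_sum h).const_sub 1
  have e2 : cT (n + 1) = fun y : ℝ =>
      1 - ∑ j ∈ Finset.range n, (-1) ^ j * (y ^ (2 * j + 2) / (2 * j + 2).factorial) := funext e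
  rw [e2]
  exact h2

theorem cT_zero (n : ℕ) : cT (n + 1) 0 = 1 := by
  unfold cT
  rw [Finset.sum_range_succ', Finset.sum_eq_zero]
  · simp
  · intro j _
    have : 2 * (j + 1) ≠ 0 := by omega
    rw [zero_pow this]
    simp

theorem sT_zero (n : ℕ) : sT n 0 = 0 := by
  unfold sT
  refine Finset.sum_eq_zero fun j _ => ?_
  rw [zero_pow (by omega)]
  simp

theorem taylor_sign (n : ℕ) : (∀ x : ℝ, 0 ≤ x → 0 ≤ (-1) ^ (n + 1) * (Real.cos x - cT (n + 1) x)) ∧
    (∀ x : ℝ, 0 ≤ x → 0 ≤ (-1) ^ (n + 1) * (Real.sin x - sT (n + 1) x)) := by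
  have step : ∀ m : ℕ, (∀ x : ℝ, 0 ≤ x → 0 ≤ (-1) ^ (m + 1) * (Real.cos x - cT (m + 1) x)) →
      (∀ x : ℝ, 0 ≤ x → 0 ≤ (-1) ^ (m + 1) * (Real.sin x - sT (m + 1) x)) := by
    intro m hm x hx
    refine okt_mono (f := fun x => (-1) ^ (m + 1) * (Real.sin x - sT (m + 1) x))
      (f' := fun x => (-1) ^ (m + 1) * (Real.cos x - cT (m + 1) x)) ?_ ?_ hm x hx
    · intro y
      exact ((Real.hasDerivAt_sin y).sub (sT_deriv (m + 1) y)).const_mul _
    · simp [sT_zero]
  induction n with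
  | zero =>
    have h : ∀ x : ℝ, 0 ≤ x → 0 ≤ (-1) ^ (0 + 1) * (Real.cos x - cT (0 + 1) x) := by
      intro x _
      have : cT (0 + 1) x = 1 := by simp [cT]
      rw [this]
      have := Real.cos_le_one x
      rw [zero_add, pow_one]
      linarith
    exact ⟨h, step 0 h⟩
  | succ n ih =>
    have h : ∀ x : ℝ, 0 ≤ x → 0 ≤ (-1) ^ (n + 1 + 1) * (Real.cos x - cT (n + 1 + 1) x) := by
      intro x hx
      refine okt_mono (f := fun x => (-1) ^ (n + 1 + 1) * (Real.cos x - cT (n + 1 + 1) x))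
        (f' := fun x => (-1) ^ (n + 1) * (Real.sin x - sT (n + 1) x)) ?_ ?_ ih.2 x hx
      · intro y
        have h1 := ((Real.hasDerivAt_cos y).sub (cT_deriv (n + 1) y)).const_mul
          ((-1 : ℝ) ^ (n + 1 + 1))
        refine h1.congr_deriv ?_
        ring
      · simp [cT_zero]
    exact ⟨h, step (n + 1) h⟩

theorem sin_lower (x : ℝ) (hx : 0 ≤ x) :
    x - x ^ 3 / 6 + x ^ 5 / 120 - x ^ 7 / 5040 + x ^ 9 / 362880 - x ^ 11 / 39916800 ≤
      Real.sin x := by
  have h := (taylor_sign 5).2 x hx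
  have e : sT (5 + 1) x = x - x ^ 3 / 6 + x ^ 5 / 120 - x ^ 7 / 5040 + x ^ 9 / 362880 -
      x ^ 11 / 39916800 := by
    unfold sT
    simp only [Finset.sum_range_succ, Finset.sum_range_zero, Nat.factorial]
    norm_num
    ring
  rw [e] at h
  norm_num at h
  linarith

theorem sin_upper (x : ℝ) (hx : 0 ≤ x) :
    Real.sin x ≤ x - x ^ 3 / 6 + x ^ 5 / 120 - x ^ 7 / 5040 + x ^ 9 / 362880 -
      x ^ 11 / 39916800 + x ^ 13 / 6227020800 := by
  have h := (taylor_sign 6).2 x hx
  have e : sT (6 + 1) x = x - x ^ 3 / 6 + x ^ 5 / 120 - x ^ 7 / 5040 + x ^ 9 / 362880 -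
      x ^ 11 / 39916800 + x ^ 13 / 6227020800 := by
    unfold sT
    simp only [Finset.sum_range_succ, Finset.sum_range_zero, Nat.factorial]
    norm_num
    ring
  rw [e] at h
  norm_num at h
  linarith

/-- the check of `lo ≤ N sin (π a / q)`, `0 < a`, `2 a ≤ q` -/
def chkLo (N a q lo : ℕ) : Bool :=
  let A := 31415926 * a
  let B := 10000000 * q
  decide (lo * (39916800 * B ^ 11) + N * (6652800 * (A ^ 3 * B ^ 8) + 7920 * (A ^ 7 * B ^ 4) + A ^ 11) ≤
    N * (39916800 * (A * B ^ 10) + 332640 * (A ^ 5 * B ^ 6) + 110 * (A ^ 9 * B ^ 2)))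

/-- the check of `N sin (π a / q) ≤ hi`, `0 < a`, `2 a < q` -/
def chkHi (N a q hi : ℕ) : Bool :=
  let A := 31415927 * a
  let B := 10000000 * q
  decide (2 * A ≤ 31415926 * q) &&
  decide (N * (6227020800 * (A * B ^ 12) + 51891840 * (A ^ 5 * B ^ 8) + 17160 * (A ^ 9 * B ^ 4) +
      A ^ 13) ≤
    hi * (6227020800 * B ^ 13) + N * (1037836800 * (A ^ 3 * B ^ 10) + 1235520 * (A ^ 7 * B ^ 6) +
      156 * (A ^ 11 * B ^ 2)))

theorem chkLo_spec (N a q lo : ℕ) (hq : 0 < q) (ha : 2 * a ≤ q) (h : chkLo N a q lo = true) :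
    (lo : ℝ) ≤ N * Real.sin (Real.pi * a / q) := by
  unfold chkLo at h
  have h' := of_decide_eq_true h
  have hpi := Real.pi_gt_d20
  have hqR : (0 : ℝ) < q := by exact_mod_cast hq
  have haR : 2 * (a : ℝ) ≤ q := by exact_mod_cast ha
  have ha0 : (0 : ℝ) ≤ a := Nat.cast_nonneg a
  obtain ⟨A, hA⟩ : ∃ A : ℕ, A = 31415926 * a := ⟨_, rfl⟩
  obtain ⟨B, hB⟩ : ∃ B : ℕ, B = 10000000 * q := ⟨_, rfl⟩
  rw [← hA, ← hB] at h'
  have hAR : (A : ℝ) = 31415926 * a := by rw [hA]; push_cast; ring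
  have hBR : (B : ℝ) = 10000000 * q := by rw [hB]; push_cast; ring
  have hB0 : (0 : ℝ) < B := by rw [hBR]; positivity
  have hx0 : (0 : ℝ) ≤ (A : ℝ) / B := by positivity
  have hxle : (A : ℝ) / B ≤ Real.pi * a / q := by
    rw [hAR, hBR, div_le_div_iff₀ (by positivity) hqR]
    have h1 : 31415926 * (a : ℝ) ≤ 10000000 * Real.pi * a := by
      apply mul_le_mul_of_nonneg_right _ ha0
      linarith
    nlinarith
  have hle : Real.pi * a / q ≤ Real.pi / 2 := by
    rw [div_le_div_iff₀ hqR (by norm_num)]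
    nlinarith [Real.pi_pos]
  have hsin : Real.sin ((A : ℝ) / B) ≤ Real.sin (Real.pi * a / q) :=
    Real.sin_le_sin_of_le_of_le_pi_div_two (by linarith [Real.pi_pos]) hle hxle
  have hlow := sin_lower _ hx0
  have hc : ((lo : ℝ) * (39916800 * (B : ℝ) ^ 11) + N * (6652800 * ((A : ℝ) ^ 3 * (B : ℝ) ^ 8) +
      7920 * ((A : ℝ) ^ 7 * (B : ℝ) ^ 4) + (A : ℝ) ^ 11)) ≤
      N * (39916800 * ((A : ℝ) * (B : ℝ) ^ 10) + 332640 * ((A : ℝ) ^ 5 * (B : ℝ) ^ 6) +
        110 * ((A : ℝ) ^ 9 * (B : ℝ) ^ 2)) := by exact_mod_cast h'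
  have hdiv : (lo : ℝ) ≤ N * ((A : ℝ) / B - ((A : ℝ) / B) ^ 3 / 6 + ((A : ℝ) / B) ^ 5 / 120 -
      ((A : ℝ) / B) ^ 7 / 5040 + ((A : ℝ) / B) ^ 9 / 362880 - ((A : ℝ) / B) ^ 11 / 39916800) := by
    have e : N * ((A : ℝ) / B - ((A : ℝ) / B) ^ 3 / 6 + ((A : ℝ) / B) ^ 5 / 120 -
        ((A : ℝ) / B) ^ 7 / 5040 + ((A : ℝ) / B) ^ 9 / 362880 -
        ((A : ℝ) / B) ^ 11 / 39916800) =
        (N * (39916800 * ((A : ℝ) * (B : ℝ) ^ 10) + 332640 * ((A : ℝ) ^ 5 * (B : ℝ) ^ 6) +
          110 * ((A : ℝ) ^ 9 * (B : ℝ) ^ 2)) - N * (6652800 * ((A : ℝ) ^ 3 * (B : ℝ) ^ 8) +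
          7920 * ((A : ℝ) ^ 7 * (B : ℝ) ^ 4) + (A : ℝ) ^ 11)) / (39916800 * (B : ℝ) ^ 11) := by
      field_simp
      ring
    rw [e, le_div_iff₀ (by positivity)]
    linarith
  have hN : (0 : ℝ) ≤ N := Nat.cast_nonneg N
  calc (lo : ℝ) ≤ _ := hdiv
    _ ≤ N * Real.sin ((A : ℝ) / B) := mul_le_mul_of_nonneg_left hlow hN
    _ ≤ N * Real.sin (Real.pi * a / q) := mul_le_mul_of_nonneg_left hsin hN

theorem chkHi_spec (N a q hi : ℕ) (hq : 0 < q) (h : chkHi N a q hi = true) :
    N * Real.sin (Real.pi * a / q) ≤ hi := by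
  unfold chkHi at h
  rw [Bool.and_eq_true] at h
  obtain ⟨g1, g2⟩ := h
  have h1' := of_decide_eq_true g1
  have h' := of_decide_eq_true g2
  have hpi := Real.pi_lt_d20
  have hpi' := Real.pi_gt_d20
  have hqR : (0 : ℝ) < q := by exact_mod_cast hq
  have ha0 : (0 : ℝ) ≤ a := Nat.cast_nonneg a
  obtain ⟨A, hA⟩ : ∃ A : ℕ, A = 31415927 * a := ⟨_, rfl⟩
  obtain ⟨B, hB⟩ : ∃ B : ℕ, B = 10000000 * q := ⟨_, rfl⟩
  rw [← hA, ← hB] at h'
  rw [← hA] at h1'
  have hAR : (A : ℝ) = 31415927 * a := by rw [hA]; push_cast; ring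
  have hBR : (B : ℝ) = 10000000 * q := by rw [hB]; push_cast; ring
  have hB0 : (0 : ℝ) < B := by rw [hBR]; positivity
  have hx0 : (0 : ℝ) ≤ (A : ℝ) / B := by positivity
  have hxle : Real.pi * a / q ≤ (A : ℝ) / B := by
    rw [hAR, hBR, div_le_div_iff₀ hqR (by positivity)]
    have h1 : 10000000 * Real.pi * a ≤ 31415927 * (a : ℝ) := by
      apply mul_le_mul_of_nonneg_right _ ha0
      linarith
    nlinarith
  have h1R : 2 * (A : ℝ) ≤ 31415926 * q := by exact_mod_cast h1'
  have hle : (A : ℝ) / B ≤ Real.pi / 2 := by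
    rw [div_le_div_iff₀ hB0 (by norm_num), hBR]
    nlinarith
  have h0 : (0 : ℝ) ≤ Real.pi * a / q := by positivity
  have hsin : Real.sin (Real.pi * a / q) ≤ Real.sin ((A : ℝ) / B) :=
    Real.sin_le_sin_of_le_of_le_pi_div_two (by linarith [Real.pi_pos]) hle hxle
  have hup := sin_upper _ hx0
  have hc : (N * (6227020800 * ((A : ℝ) * (B : ℝ) ^ 12) + 51891840 * ((A : ℝ) ^ 5 * (B : ℝ) ^ 8) +
      17160 * ((A : ℝ) ^ 9 * (B : ℝ) ^ 4) + (A : ℝ) ^ 13)) ≤
      hi * (6227020800 * (B : ℝ) ^ 13) + N * (1037836800 * ((A : ℝ) ^ 3 * (B : ℝ) ^ 10) +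
        1235520 * ((A : ℝ) ^ 7 * (B : ℝ) ^ 6) + 156 * ((A : ℝ) ^ 11 * (B : ℝ) ^ 2)) := by
    exact_mod_cast h'
  have hdiv : N * ((A : ℝ) / B - ((A : ℝ) / B) ^ 3 / 6 + ((A : ℝ) / B) ^ 5 / 120 -
      ((A : ℝ) / B) ^ 7 / 5040 + ((A : ℝ) / B) ^ 9 / 362880 - ((A : ℝ) / B) ^ 11 / 39916800 +
      ((A : ℝ) / B) ^ 13 / 6227020800) ≤ hi := by
    have e : N * ((A : ℝ) / B - ((A : ℝ) / B) ^ 3 / 6 + ((A : ℝ) / B) ^ 5 / 120 -
        ((A : ℝ) / B) ^ 7 / 5040 + ((A : ℝ) / B) ^ 9 / 362880 - ((A : ℝ) / B) ^ 11 / 39916800 +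
        ((A : ℝ) / B) ^ 13 / 6227020800) =
        (N * (6227020800 * ((A : ℝ) * (B : ℝ) ^ 12) + 51891840 * ((A : ℝ) ^ 5 * (B : ℝ) ^ 8) +
          17160 * ((A : ℝ) ^ 9 * (B : ℝ) ^ 4) + (A : ℝ) ^ 13) -
          N * (1037836800 * ((A : ℝ) ^ 3 * (B : ℝ) ^ 10) +
          1235520 * ((A : ℝ) ^ 7 * (B : ℝ) ^ 6) + 156 * ((A : ℝ) ^ 11 * (B : ℝ) ^ 2))) /
          (6227020800 * (B : ℝ) ^ 13) := by
      field_simp
      ring
    rw [e, div_le_iff₀ (by positivity)]
    linarith
  have hN : (0 : ℝ) ≤ N := Nat.cast_nonneg N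
  calc N * Real.sin (Real.pi * a / q) ≤ N * Real.sin ((A : ℝ) / B) :=
        mul_le_mul_of_nonneg_left hsin hN
    _ ≤ _ := mul_le_mul_of_nonneg_left hup hN
    _ ≤ hi := hdiv

/-- the check of `lo ≤ N sin (π a / q) ≤ hi`, `0 < a < q` -/
def chkSin (N a q lo hi : ℕ) : Bool :=
  decide (0 < a) && decide (a < q) &&
  (let a' := if 2 * a ≤ q then a else q - a
   if 2 * a' = q then decide (lo ≤ N) && decide (N ≤ hi)
   else if 6 * a' = q then decide (2 * lo ≤ N) && decide (N ≤ 2 * hi)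
   else chkLo N a' q lo && chkHi N a' q hi)

theorem chkSin_spec (N a q lo hi : ℕ) (h : chkSin N a q lo hi = true) :
    (lo : ℝ) ≤ N * Real.sin (Real.pi * a / q) ∧ N * Real.sin (Real.pi * a / q) ≤ hi := by
  unfold chkSin at h
  rw [Bool.and_eq_true, Bool.and_eq_true] at h
  obtain ⟨⟨h1, h2⟩, h3⟩ := h
  have ha := of_decide_eq_true h1
  have haq := of_decide_eq_true h2
  have hq : 0 < q := by omega
  have hqR : (0 : ℝ) < q := by exact_mod_cast hq
  obtain ⟨a', ha'⟩ : ∃ a', a' = if 2 * a ≤ q then a else q - a := ⟨_, rfl⟩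
  have hle : 2 * a' ≤ q := by
    rw [ha']
    split_ifs with h <;> omega
  have hsin : Real.sin (Real.pi * a / q) = Real.sin (Real.pi * a' / q) := by
    rw [ha']
    split_ifs with h
    · rfl
    · rw [← Real.sin_pi_sub]
      congr 1
      rw [Nat.cast_sub haq.le]
      field_simp
  rw [hsin]
  simp only [← ha'] at h3
  split_ifs at h3 with c1 c2
  · rw [Bool.and_eq_true] at h3
    have e : Real.pi * a' / q = Real.pi / 2 := by
      have : (q : ℝ) = 2 * a' := by exact_mod_cast c1.symm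
      have ha0 : (a' : ℝ) ≠ 0 := by
        intro h0
        rw [h0] at this
        simp at this
        linarith
      rw [this]
      field_simp
    rw [e, Real.sin_pi_div_two, mul_one]
    exact ⟨by exact_mod_cast of_decide_eq_true h3.1, by exact_mod_cast of_decide_eq_true h3.2⟩
  · rw [Bool.and_eq_true] at h3
    have e : Real.pi * a' / q = Real.pi / 6 := by
      have : (q : ℝ) = 6 * a' := by exact_mod_cast c2.symm
      have ha0 : (a' : ℝ) ≠ 0 := by
        intro h0
        rw [h0] at this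
        simp at this
        linarith
      rw [this]
      field_simp
    rw [e, Real.sin_pi_div_six]
    have g1 : (2 * lo : ℝ) ≤ N := by exact_mod_cast of_decide_eq_true h3.1
    have g2 : (N : ℝ) ≤ 2 * hi := by exact_mod_cast of_decide_eq_true h3.2
    exact ⟨by linarith, by linarith⟩
  · rw [Bool.and_eq_true] at h3
    exact ⟨chkLo_spec N a' q lo hq hle h3.1, chkHi_spec N a' q hi hq h3.2⟩

/-! ## automata given by tables -/

/-- the side rule of a table -/
def okT (T : ℕ → ℕ → ℕ → Bool → ℕ) (fin : ℕ → ℕ → Bool) (k : ℕ) (l : List (ℕ × Bool)) : Bool :=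
  fin k (l.foldl (fun a x => T k a x.1 x.2) 0)

/-- the sum of the bounds `f` over the full pieces -/
def nF (f : ℕ → ℕ) (l : List (ℕ × Bool)) : ℕ := (l.map (fun p => if p.2 = true then f p.1 else 0)).sum

/-- the sum of the bounds `f` over all pieces -/
def nA (f : ℕ → ℕ) (l : List (ℕ × Bool)) : ℕ := (l.map (fun p => f p.1)).sum

/-- the label of a state: `m ≤` the sum of `lo` over the full pieces; the sum of `hi` over all pieces
`< M` if `M ≠ 0`; `par`: `0` no partial piece, `1` there is a partial piece, `2` unknown; `cnt ≤` number of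
pieces; `big`: there is a full piece whose rank is at least the rank of the side -/
structure Lab where
  m : ℕ
  M : ℕ
  par : ℕ
  cnt : ℕ
  big : Bool

/-- the label is true for the list `l` on a side of rank `r` -/
def LabOk (lo hi rk : ℕ → ℕ) (r : ℕ) (L : Lab) (l : List (ℕ × Bool)) : Prop :=
  L.m ≤ nF lo l ∧ (L.M ≠ 0 → nA hi l < L.M) ∧ (L.par = 0 → ∀ p ∈ l, p.2 = true) ∧
  (L.par = 1 → ∃ p ∈ l, p.2 = false) ∧ L.cnt ≤ l.length ∧
  (L.big = true → ∃ p ∈ l, p.2 = true ∧ r ≤ rk p.1)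

/-- the label after one more piece -/
def nxtL (lo hi rk : ℕ → ℕ) (r : ℕ) (L : Lab) (b : ℕ) (f : Bool) : Lab where
  m := if f = true then L.m + lo b else L.m
  M := if L.M = 0 then 0 else L.M + hi b
  par := if f = true then L.par else 1
  cnt := L.cnt + 1
  big := L.big || (f && decide (r ≤ rk b))

/-- `L` implies `L'` -/
def leL (L L' : Lab) : Bool :=
  decide (L'.m ≤ L.m) && (decide (L'.M = 0) || (decide (L.M ≠ 0) && decide (L.M ≤ L'.M))) &&
  (decide (L'.par = 2) || decide (L'.par = L.par)) && decide (L'.cnt ≤ L.cnt) && (!L'.big || L.big)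

/-- the label shows that there is no continuation; `h` is the upper bound of the side -/
def badL (h : ℕ) (L : Lab) : Bool :=
  decide (h < L.m) || (decide (L.par = 1) && decide (h ≤ L.m)) || (decide (2 ≤ L.cnt) && L.big)

/-- the label shows that the side does not fit; `lw`, `h` are the bounds of the side -/
def badF (lw h : ℕ) (L : Lab) : Bool :=
  badL h L || (decide (L.M ≠ 0) && decide (L.M ≤ lw)) ||
  (decide (L.par = 1) && decide (L.M ≠ 0) && decide (L.M ≤ lw + 1))

/-- there is no continuation of the list `l` -/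
def BadP (lo rk : ℕ → ℕ) (r h : ℕ) (l : List (ℕ × Bool)) : Prop :=
  h < nF lo l ∨ ((∃ p ∈ l, p.2 = false) ∧ h ≤ nF lo l) ∨
    (2 ≤ l.length ∧ ∃ p ∈ l, p.2 = true ∧ r ≤ rk p.1)

theorem nF_append (f : ℕ → ℕ) (l : List (ℕ × Bool)) (x : ℕ × Bool) :
    nF f (l ++ [x]) = nF f l + (if x.2 = true then f x.1 else 0) := by
  simp [nF]

theorem nA_append (f : ℕ → ℕ) (l : List (ℕ × Bool)) (x : ℕ × Bool) :
    nA f (l ++ [x]) = nA f l + f x.1 := by
  simp [nA]

theorem nxtL_ok {lo hi rk : ℕ → ℕ} {r : ℕ} {L : Lab} {l : List (ℕ × Bool)}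
    (h : LabOk lo hi rk r L l) (b : ℕ) (f : Bool) :
    LabOk lo hi rk r (nxtL lo hi rk r L b f) (l ++ [(b, f)]) := by
  obtain ⟨h1, h2, h3, h4, h5, h6⟩ := h
  unfold LabOk nxtL
  rw [nF_append, nA_append]
  refine ⟨?_, ?_, ?_, ?_, ?_, ?_⟩
  · cases f <;> simp <;> omega
  · simp only
    split_ifs with h
    · intro h'; exact absurd rfl h'
    · intro _
      have := h2 h
      omega
  · cases f with
    | true =>
      simp only [if_true]
      intro h p hp
      rcases List.mem_append.1 hp with h' | h'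
      · exact h3 h p h'
      · rw [List.mem_singleton.1 h']
    | false =>
      simp
  · cases f with
    | true =>
      simp only [if_true]
      intro h
      obtain ⟨p, hp, hp'⟩ := h4 h
      exact ⟨p, List.mem_append_left _ hp, hp'⟩
    | false =>
      intro _
      exact ⟨(b, false), List.mem_append_right _ (List.mem_singleton.2 rfl), rfl⟩
  · simp only [List.length_append, List.length_singleton]
    omega
  · simp only [Bool.or_eq_true, Bool.and_eq_true, decide_eq_true_eq]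
    rintro (h | ⟨h, h'⟩)
    · obtain ⟨p, hp, hp'⟩ := h6 h
      exact ⟨p, List.mem_append_left _ hp, hp'⟩
    · exact ⟨(b, f), List.mem_append_right _ (List.mem_singleton.2 rfl), h, h'⟩

theorem leL_ok {lo hi rk : ℕ → ℕ} {r : ℕ} {L L' : Lab} {l : List (ℕ × Bool)}
    (h : LabOk lo hi rk r L l) (hle : leL L L' = true) : LabOk lo hi rk r L' l := by
  obtain ⟨h1, h2, h3, h4, h5, h6⟩ := h
  unfold leL at hle
  simp only [Bool.and_eq_true, Bool.or_eq_true, decide_eq_true_eq, Bool.not_eq_true'] at hle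
  obtain ⟨⟨⟨⟨c1, c2⟩, c3⟩, c4⟩, c5⟩ := hle
  refine ⟨by omega, ?_, ?_, ?_, by omega, ?_⟩
  · intro h
    rcases c2 with c | ⟨c, c'⟩
    · exact absurd c h
    · have := h2 c
      omega
  · intro h
    rcases c3 with c | c
    · omega
    · exact h3 (by omega)
  · intro h
    rcases c3 with c | c
    · omega
    · exact h4 (by omega)
  · intro h
    rcases c5 with c | c
    · rw [h] at c
      exact absurd c (by simp)
    · exact h6 c

theorem badL_ok {lo hi rk : ℕ → ℕ} {r h : ℕ} {L : Lab} {l : List (ℕ × Bool)}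
    (hL : LabOk lo hi rk r L l) (hb : badL h L = true) : BadP lo rk r h l := by
  obtain ⟨h1, h2, h3, h4, h5, h6⟩ := hL
  unfold badL at hb
  simp only [Bool.and_eq_true, Bool.or_eq_true, decide_eq_true_eq] at hb
  rcases hb with (c | ⟨c, c'⟩) | ⟨c, c'⟩
  · exact Or.inl (by omega)
  · exact Or.inr (Or.inl ⟨h4 c, by omega⟩)
  · exact Or.inr (Or.inr ⟨by omega, h6 c'⟩)

theorem BadP_append {lo rk : ℕ → ℕ} {r h : ℕ} {l : List (ℕ × Bool)} (hb : BadP lo rk r h l)
    (x : ℕ × Bool) : BadP lo rk r h (l ++ [x]) := by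
  unfold BadP
  rw [nF_append]
  rcases hb with c | ⟨⟨p, hp, hp'⟩, c⟩ | ⟨c, p, hp, hp'⟩
  · left
    omega
  · right; left
    exact ⟨⟨p, List.mem_append_left _ hp, hp'⟩, by omega⟩
  · right; right
    exact ⟨by simp only [List.length_append, List.length_singleton]; omega, p,
      List.mem_append_left _ hp, hp'⟩

/-- the check of the row of one state -/
def chkRow (lo hi rk : ℕ → ℕ) (A : ℕ → ℕ) (T : ℕ → ℕ → ℕ → Bool → ℕ) (fin : ℕ → ℕ → Bool)
    (lab : ℕ → ℕ → Lab) (k a : ℕ) : Bool :=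
  (fin k a || badF (lo k) (hi k) (lab k a)) &&
  (List.range 3).all fun b => [true, false].all fun f =>
    (decide (T k a b f < A k) && leL (nxtL lo hi rk (rk k) (lab k a) b f) (lab k (T k a b f))) ||
    (decide (T k a b f = A k) && badL (hi k) (nxtL lo hi rk (rk k) (lab k a) b f))

/-- the check of a table -/
def chkTab (lo hi rk : ℕ → ℕ) (A : ℕ → ℕ) (T : ℕ → ℕ → ℕ → Bool → ℕ) (fin : ℕ → ℕ → Bool)
    (lab : ℕ → ℕ → Lab) : Bool :=
  (List.range 3).all fun k =>
    decide (0 < A k) && leL ⟨0, 1, 0, 0, false⟩ (lab k 0) &&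
    ((List.range 3).all fun b => [true, false].all fun f => decide (T k (A k) b f = A k)) &&
    (List.range (A k)).all fun a => chkRow lo hi rk A T fin lab k a

/-- what the table needs about the lengths -/
structure ILen (len : ℕ → ℝ) (lo hi rk : ℕ → ℕ) (c : ℝ) : Prop where
  pos : 0 < c
  lo_le : ∀ j, j < 3 → c * lo j ≤ len j
  le_hi : ∀ j, j < 3 → len j ≤ c * hi j
  rk_le : ∀ b k, b < 3 → k < 3 → rk k ≤ rk b → len k ≤ len b

theorem nF_le {len : ℕ → ℝ} {lo hi rk : ℕ → ℕ} {c : ℝ} (H : ILen len lo hi rk c)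
    (l : List (ℕ × Bool)) (hl : ∀ p ∈ l, p.1 < 3) : c * nF lo l ≤ sumF len l := by
  induction l with
  | nil => simp [nF, sumF]
  | cons p l ih =>
    have h := ih fun q hq => hl q (List.mem_cons_of_mem _ hq)
    have hp := H.lo_le p.1 (hl p List.mem_cons_self)
    obtain ⟨b, f⟩ := p
    cases f with
    | true =>
      have e1 : nF lo ((b, true) :: l) = lo b + nF lo l := by simp [nF]
      have e2 : sumF len ((b, true) :: l) = len b + sumF len l := by simp [sumF]
      rw [e1, e2]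
      push_cast
      have hp' : c * lo b ≤ len b := hp
      linarith
    | false =>
      have e1 : nF lo ((b, false) :: l) = nF lo l := by simp [nF]
      have e2 : sumF len ((b, false) :: l) = sumF len l := by simp [sumF]
      rw [e1, e2]
      exact h

theorem le_nA {len : ℕ → ℝ} {lo hi rk : ℕ → ℕ} {c : ℝ} (H : ILen len lo hi rk c)
    (l : List (ℕ × Bool)) (hl : ∀ p ∈ l, p.1 < 3) : sumA len l ≤ c * nA hi l := by
  induction l with
  | nil => simp [nA, sumA]
  | cons p l ih =>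
    have h := ih fun q hq => hl q (List.mem_cons_of_mem _ hq)
    have hp := H.le_hi p.1 (hl p List.mem_cons_self)
    obtain ⟨b, f⟩ := p
    have e1 : nA hi ((b, f) :: l) = hi b + nA hi l := by simp [nA]
    have e2 : sumA len ((b, f) :: l) = len b + sumA len l := by simp [sumA]
    rw [e1, e2]
    push_cast
    have hp' : len b ≤ c * hi b := hp
    linarith

/-- a full piece of a side with at least two pieces is shorter than the side -/
theorem fits_big (len : ℕ → ℝ) (l : List (ℕ × Bool)) : ∀ s, Fits len l s → ∀ p ∈ l, p.2 = true →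
    len p.1 ≤ s ∧ (2 ≤ l.length → len p.1 < s) := by
  induction l with
  | nil => intro s _ p hp; exact absurd hp List.not_mem_nil
  | cons x l ih =>
    intro s h p hp hpt
    obtain ⟨b, f⟩ := x
    obtain ⟨t, h0, h1, h2, h3⟩ := h
    obtain ⟨g1, g2⟩ := fits_nonneg len l _ h3
    rcases List.mem_cons.1 hp with h' | h'
    · have hf : f = true := by rw [h'] at hpt; exact hpt
      have ht := h1 hf
      have e : len p.1 = t := by rw [h', ht]
      rw [e]
      refine ⟨by linarith, fun h2' => ?_⟩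
      have hne : l ≠ [] := by
        rintro rfl
        simp at h2'
      have := g2 hne
      linarith
    · obtain ⟨i1, i2⟩ := ih _ h3 p h' hpt
      exact ⟨by linarith, fun _ => by linarith⟩

theorem BadP_false {len : ℕ → ℝ} {lo hi rk : ℕ → ℕ} {c : ℝ} (H : ILen len lo hi rk c) {k : ℕ}
    (hk : k < 3) (l : List (ℕ × Bool)) (hl : ∀ p ∈ l, p.1 < 3) (hf : Fits len l (len k))
    (hb : BadP lo rk (rk k) (hi k) l) : False := by
  obtain ⟨b1, b2, b3⟩ := fits_bounds len l (len k) hf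
  have h1 := nF_le H l hl
  have h2 := H.le_hi k hk
  have hc := H.pos
  rcases hb with h | ⟨h, h'⟩ | ⟨h, p, hp, hp', hp''⟩
  · have h3 : c * (nF lo l : ℝ) ≤ c * hi k := by linarith
    have h4 := le_of_mul_le_mul_left h3 hc
    have h5 : nF lo l ≤ hi k := by exact_mod_cast h4
    omega
  · have h3 : c * (nF lo l : ℝ) < c * hi k := by
      have := (b3 h).1
      linarith
    have h4 := lt_of_mul_lt_mul_left h3 hc.le
    have h5 : nF lo l < hi k := by exact_mod_cast h4
    omega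
  · have h3 := (fits_big len l _ hf p hp hp').2 h
    have h4 := H.rk_le p.1 k (hl p hp) hk hp''
    linarith

theorem badF_false {len : ℕ → ℝ} {lo hi rk : ℕ → ℕ} {c : ℝ} (H : ILen len lo hi rk c) {k : ℕ}
    (hk : k < 3) (l : List (ℕ × Bool)) (hl : ∀ p ∈ l, p.1 < 3) (hf : Fits len l (len k)) {L : Lab}
    (hL : LabOk lo hi rk (rk k) L l) (hb : badF (lo k) (hi k) L = true) : False := by
  unfold badF at hb
  rw [Bool.or_eq_true, Bool.or_eq_true] at hb
  obtain ⟨b1, b2, b3⟩ := fits_bounds len l (len k) hf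
  have h1 := le_nA H l hl
  have h2 := H.lo_le k hk
  have hc := H.pos
  obtain ⟨-, l2, -, l4, -, -⟩ := id hL
  rcases hb with (h | h) | h
  · exact BadP_false H hk l hl hf (badL_ok hL h)
  · simp only [Bool.and_eq_true, decide_eq_true_eq] at h
    have h3 := l2 h.1
    have h4 : c * (lo k : ℝ) ≤ c * nA hi l := by linarith
    have h5 := le_of_mul_le_mul_left h4 hc
    have h6 : lo k ≤ nA hi l := by exact_mod_cast h5
    omega
  · simp only [Bool.and_eq_true, decide_eq_true_eq] at h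
    have h3 := l2 h.1.2
    have h4 : c * (lo k : ℝ) < c * nA hi l := by
      have := (b3 (l4 h.1.1)).2
      linarith
    have h5 := lt_of_mul_lt_mul_left h4 hc.le
    have h6 : lo k < nA hi l := by exact_mod_cast h5
    omega

/-- the invariant of the run -/
theorem okT_inv {lo hi rk : ℕ → ℕ} {A : ℕ → ℕ} {T : ℕ → ℕ → ℕ → Bool → ℕ} {fin : ℕ → ℕ → Bool}
    {lab : ℕ → ℕ → Lab} (hc : chkTab lo hi rk A T fin lab = true) {k : ℕ} (hk : k < 3)
    (l : List (ℕ × Bool)) (hl : ∀ p ∈ l, p.1 < 3) :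
    (l.foldl (fun a x => T k a x.1 x.2) 0 < A k ∧
      LabOk lo hi rk (rk k) (lab k (l.foldl (fun a x => T k a x.1 x.2) 0)) l) ∨
    (l.foldl (fun a x => T k a x.1 x.2) 0 = A k ∧ BadP lo rk (rk k) (hi k) l) := by
  unfold chkTab at hc
  rw [List.all_eq_true] at hc
  have hk' := hc k (List.mem_range.2 hk)
  simp only [Bool.and_eq_true] at hk'
  obtain ⟨⟨⟨h1, h2⟩, h3⟩, h4⟩ := hk'
  induction l using List.reverseRecOn with
  | nil =>
    left
    refine ⟨of_decide_eq_true h1, leL_ok ?_ h2⟩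
    refine ⟨le_rfl, fun _ => ?_, fun _ p hp => absurd hp List.not_mem_nil, fun h => ?_, le_rfl,
      fun h => ?_⟩
    · show nA hi [] < 1
      simp [nA]
    · exact absurd h (by simp)
    · exact absurd h (by simp)
  | append_singleton l x ih =>
    have hx : x.1 < 3 := hl x (List.mem_append_right _ (List.mem_singleton.2 rfl))
    have ih' := ih fun p hp => hl p (List.mem_append_left _ hp)
    rw [List.foldl_append, List.foldl_cons, List.foldl_nil]
    obtain ⟨b, f⟩ := x
    have hmem : f ∈ [true, false] := by cases f <;> simp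
    rcases ih' with ⟨g1, g2⟩ | ⟨g1, g2⟩
    · rw [List.all_eq_true] at h4
      have hr := h4 _ (List.mem_range.2 g1)
      unfold chkRow at hr
      rw [Bool.and_eq_true, List.all_eq_true] at hr
      have hr2 := hr.2 b (List.mem_range.2 hx)
      rw [List.all_eq_true] at hr2
      have hr3 := hr2 f hmem
      simp only [Bool.or_eq_true, Bool.and_eq_true, decide_eq_true_eq] at hr3
      have g3 := nxtL_ok g2 b f
      rcases hr3 with ⟨c1, c2⟩ | ⟨c1, c2⟩
      · exact Or.inl ⟨c1, leL_ok g3 c2⟩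
      · exact Or.inr ⟨c1, badL_ok g3 c2⟩
    · right
      rw [List.all_eq_true] at h3
      have h5 := h3 b (List.mem_range.2 hx)
      rw [List.all_eq_true] at h5
      have h6 := of_decide_eq_true (h5 f hmem)
      refine ⟨?_, BadP_append g2 _⟩
      rw [g1]
      exact h6

theorem okT_okLen {len : ℕ → ℝ} {lo hi rk : ℕ → ℕ} {c : ℝ} (H : ILen len lo hi rk c) {A : ℕ → ℕ}
    {T : ℕ → ℕ → ℕ → Bool → ℕ} {fin : ℕ → ℕ → Bool} {lab : ℕ → ℕ → Lab}
    (hc : chkTab lo hi rk A T fin lab = true) : OkLen len (okT T fin) := by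
  intro k l hk _ hlt hf
  rcases okT_inv hc hk l hlt with ⟨g1, g2⟩ | ⟨g1, g2⟩
  · unfold chkTab at hc
    rw [List.all_eq_true] at hc
    have hk' := hc k (List.mem_range.2 hk)
    simp only [Bool.and_eq_true] at hk'
    obtain ⟨-, h4⟩ := hk'
    rw [List.all_eq_true] at h4
    have hr := h4 _ (List.mem_range.2 g1)
    unfold chkRow at hr
    rw [Bool.and_eq_true, Bool.or_eq_true] at hr
    rcases hr.1 with h | h
    · exact h
    · exact absurd (badF_false H hk l hlt hf g2 h) id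
  · exact absurd (BadP_false H hk l hlt hf g2) id

/-- the check of the bounds of the sides of the triangle `p` -/
def chkB (p : ℕ × ℕ × ℕ) (N : ℕ) (lo hi : ℕ → ℕ) : Bool :=
  decide (0 < N) &&
  chkSin N p.2.2 (p.1 + p.2.1 + p.2.2) (lo 0) (hi 0) &&
  chkSin N p.1 (p.1 + p.2.1 + p.2.2) (lo 1) (hi 1) &&
  chkSin N p.2.1 (p.1 + p.2.1 + p.2.2) (lo 2) (hi 2)

/-- the side rule of a table is true for the triangle `p` -/
theorem okP_tab (p : ℕ × ℕ × ℕ) (N : ℕ) (lo hi : ℕ → ℕ) (A : ℕ → ℕ) (T : ℕ → ℕ → ℕ → Bool → ℕ)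
    (fin : ℕ → ℕ → Bool) (lab : ℕ → ℕ → Lab) (h1 : chkB p N lo hi = true)
    (h2 : chkTab lo hi (rkP p) A T fin lab = true) : OkP p (okT T fin) := by
  intro ι n S s0 s1 s2
  unfold chkB at h1
  simp only [Bool.and_eq_true] at h1
  obtain ⟨⟨⟨hN, c0⟩, c1⟩, c2⟩ := h1
  have hN0 := of_decide_eq_true hN
  obtain ⟨d0, d0'⟩ := chkSin_spec _ _ _ _ _ c0
  obtain ⟨d1, d1'⟩ := chkSin_spec _ _ _ _ _ c1
  obtain ⟨d2, d2'⟩ := chkSin_spec _ _ _ _ _ c2
  have hNR : (0 : ℝ) < N := by exact_mod_cast hN0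
  have hp : 0 < p.1 := by
    unfold chkSin at c1
    simp only [Bool.and_eq_true] at c1
    exact of_decide_eq_true c1.1.1
  have hq : (0 : ℝ) < ((p.1 + p.2.1 + p.2.2 : ℕ) : ℝ) := by
    have : 0 < p.1 + p.2.1 + p.2.2 := by omega
    exact_mod_cast this
  have e0 : S.θ 0 = Real.pi * p.1 / (p.1 + p.2.1 + p.2.2 : ℕ) := by
    rw [eq_div_iff hq.ne']
    exact s0
  have e1 : S.θ 1 = Real.pi * p.2.1 / (p.1 + p.2.1 + p.2.2 : ℕ) := by
    rw [eq_div_iff hq.ne']
    exact s1
  have e2 : S.θ 2 = Real.pi * p.2.2 / (p.1 + p.2.1 + p.2.2 : ℕ) := by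
    rw [eq_div_iff hq.ne']
    exact s2
  rw [← e2] at d0 d0'
  rw [← e0] at d1 d1'
  rw [← e1] at d2 d2'
  have hρ := S.ρ_pos
  have key : ∀ {a b : ℝ} {s t : ℕ}, a * (p.1 + p.2.1 + p.2.2 : ℕ) = Real.pi * (s : ℕ) →
      b * (p.1 + p.2.1 + p.2.2 : ℕ) = Real.pi * (t : ℕ) → s ≤ t → a ≤ b := by
    intro a b s t ha hb h
    have h' : Real.pi * (s : ℝ) ≤ Real.pi * (t : ℝ) :=
      mul_le_mul_of_nonneg_left (by exact_mod_cast h) Real.pi_pos.le
    rw [← ha, ← hb] at h'
    exact le_of_mul_le_mul_right h' hq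
  have hle : ∀ i j : Fin 3, S.θ i ≤ S.θ j → Real.sin (S.θ i) ≤ Real.sin (S.θ j) := by
    intro i j h
    rcases h.lt_or_eq with h' | h'
    · exact ((sin_le_iff S i j).1 h').le
    · rw [h']
  refine okT_okLen (c := S.ρ / N) ⟨by positivity, ?_, ?_, ?_⟩ h2
  · intro j hj
    unfold lenT
    rw [div_mul_eq_mul_div, div_le_iff₀ hNR]
    interval_cases j
    · rw [opp0]
      nlinarith
    · rw [opp1]
      nlinarith
    · rw [opp2]
      nlinarith
  · intro j hj
    unfold lenT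
    rw [div_mul_eq_mul_div, le_div_iff₀ hNR]
    interval_cases j
    · rw [opp0]
      nlinarith
    · rw [opp1]
      nlinarith
    · rw [opp2]
      nlinarith
  · intro b k hb hk h
    unfold lenT
    apply mul_le_mul_of_nonneg_left _ hρ.le
    apply hle
    interval_cases b <;> interval_cases k <;> simp only [opp0, opp1, opp2] <;>
      simp only [rkP] at h <;> first
        | exact le_rfl
        | exact key s0 s1 h
        | exact key s0 s2 h
        | exact key s1 s0 h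
        | exact key s1 s2 h
        | exact key s2 s0 h
        | exact key s2 s1 h

/-! ## tables for the weak rule -/

/-- the check that a table is weaker than the weak rule; `w k a` = (state of the weak rule, lower
bound of the number of pieces) -/
def chkW (rk : ℕ → ℕ) (two : Bool) (A : ℕ → ℕ) (T : ℕ → ℕ → ℕ → Bool → ℕ) (fin : ℕ → ℕ → Bool)
    (w : ℕ → ℕ → ℕ × ℕ) : Bool :=
  (List.range 3).all fun k =>
    decide (0 < A k) && decide (w k 0 = (0, 0)) &&
    ((List.range 3).all fun b => [true, false].all fun f => decide (T k (A k) b f = A k)) &&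
    (List.range (A k)).all fun a =>
      (fin k a || (decide (2 ≤ (w k a).2) && decide ((w k a).1 = 4))) &&
      (List.range 3).all fun b => [true, false].all fun f =>
        (decide (T k a b f < A k) &&
          decide ((w k (T k a b f)).1 = stW rk two k (w k a).1 (b, f)) &&
          decide ((w k (T k a b f)).2 ≤ (w k a).2 + 1)) ||
        (decide (T k a b f = A k) && decide (stW rk two k (w k a).1 (b, f) = 4) &&
          decide (1 ≤ (w k a).2))

theorem okW_inv {rk : ℕ → ℕ} {two : Bool} {A : ℕ → ℕ} {T : ℕ → ℕ → ℕ → Bool → ℕ}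
    {fin : ℕ → ℕ → Bool} {w : ℕ → ℕ → ℕ × ℕ} (hc : chkW rk two A T fin w = true) {k : ℕ}
    (hk : k < 3) (l : List (ℕ × Bool)) (hl : ∀ p ∈ l, p.1 < 3) :
    (l.foldl (fun a x => T k a x.1 x.2) 0 < A k ∧
      (w k (l.foldl (fun a x => T k a x.1 x.2) 0)).1 = l.foldl (stW rk two k) 0 ∧
      (w k (l.foldl (fun a x => T k a x.1 x.2) 0)).2 ≤ l.length) ∨
    (l.foldl (fun a x => T k a x.1 x.2) 0 = A k ∧ l.foldl (stW rk two k) 0 = 4 ∧ 2 ≤ l.length) := by
  unfold chkW at hc
  rw [List.all_eq_true] at hc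
  have hk' := hc k (List.mem_range.2 hk)
  simp only [Bool.and_eq_true] at hk'
  obtain ⟨⟨⟨h1, h2⟩, h3⟩, h4⟩ := hk'
  induction l using List.reverseRecOn with
  | nil =>
    left
    have h2' := of_decide_eq_true h2
    refine ⟨of_decide_eq_true h1, ?_, ?_⟩
    · rw [List.foldl_nil, List.foldl_nil, h2']
    · rw [List.foldl_nil, h2']
      exact Nat.zero_le _
  | append_singleton l x ih =>
    have hx : x.1 < 3 := hl x (List.mem_append_right _ (List.mem_singleton.2 rfl))
    have ih' := ih fun p hp => hl p (List.mem_append_left _ hp)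
    rw [List.foldl_append, List.foldl_cons, List.foldl_nil, List.foldl_append, List.foldl_cons,
      List.foldl_nil, List.length_append, List.length_singleton]
    obtain ⟨b, f⟩ := x
    have hmem : f ∈ [true, false] := by cases f <;> simp
    rcases ih' with ⟨g1, g2, g3⟩ | ⟨g1, g2, g3⟩
    · rw [List.all_eq_true] at h4
      have hr := h4 _ (List.mem_range.2 g1)
      rw [Bool.and_eq_true, List.all_eq_true] at hr
      have hr2 := hr.2 b (List.mem_range.2 hx)
      rw [List.all_eq_true] at hr2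
      have hr3 := hr2 f hmem
      simp only [Bool.or_eq_true, Bool.and_eq_true, decide_eq_true_eq] at hr3
      rw [g2] at hr3
      rcases hr3 with ⟨⟨c1, c2⟩, c3⟩ | ⟨⟨c1, c2⟩, c3⟩
      · exact Or.inl ⟨c1, c2, c3.trans (by omega)⟩
      · exact Or.inr ⟨c1, c2, by omega⟩
    · right
      rw [List.all_eq_true] at h3
      have h5 := h3 b (List.mem_range.2 hx)
      rw [List.all_eq_true] at h5
      have h6 := of_decide_eq_true (h5 f hmem)
      refine ⟨?_, ?_, by omega⟩
      · rw [g1]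
        exact h6
      · rw [g2]
        cases f <;> simp [stW]

theorem okW_okT {rk : ℕ → ℕ} {two : Bool} {A : ℕ → ℕ} {T : ℕ → ℕ → ℕ → Bool → ℕ}
    {fin : ℕ → ℕ → Bool} {w : ℕ → ℕ → ℕ × ℕ} (hc : chkW rk two A T fin w = true) {k : ℕ}
    (hk : k < 3) (l : List (ℕ × Bool)) (hl : ∀ p ∈ l, p.1 < 3) (h : okW rk two k l = true) :
    okT T fin k l = true := by
  unfold okW at h
  rcases okW_inv hc hk l hl with ⟨g1, g2, g3⟩ | ⟨g1, g2, g3⟩
  · unfold chkW at hc
    rw [List.all_eq_true] at hc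
    have hk' := hc k (List.mem_range.2 hk)
    simp only [Bool.and_eq_true] at hk'
    obtain ⟨-, h4⟩ := hk'
    rw [List.all_eq_true] at h4
    have hr := h4 _ (List.mem_range.2 g1)
    rw [Bool.and_eq_true, Bool.or_eq_true] at hr
    rcases hr.1 with h5 | h5
    · exact h5
    · simp only [Bool.and_eq_true, decide_eq_true_eq] at h5
      rw [if_neg (by omega)] at h
      exact absurd (g2.symm.trans h5.2) (of_decide_eq_true h)
  · rw [if_neg (by omega)] at h
    exact absurd g2 (of_decide_eq_true h)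

/-- the side rule of a table is true for the families -/
theorem okU_tab (u : ℤ × ℤ × ℤ) {A : ℕ → ℕ} {T : ℕ → ℕ → ℕ → Bool → ℕ} {fin : ℕ → ℕ → Bool}
    {w : ℕ → ℕ → ℕ × ℕ} (hc : chkW rkU true A T fin w = true) : OkU u (okT T fin) := by
  intro ι n S h01 h12 hu k l hk hne hlt hf
  exact okW_okT hc hk l hlt (okU_weak u S h01 h12 hu k l hk hne hlt hf)

/-- the side rule of a table weaker than the weak rule is true for the triangle `p` -/
theorem okP_tabW (p : ℕ × ℕ × ℕ) (hp : 0 < p.1) {A : ℕ → ℕ} {T : ℕ → ℕ → ℕ → Bool → ℕ}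
    {fin : ℕ → ℕ → Bool} {w : ℕ → ℕ → ℕ × ℕ} (hc : chkW (rkP p) (twoP p) A T fin w = true) :
    OkP p (okT T fin) := by
  intro ι n S h0 h1 h2 k l hk hne hlt hf
  exact okW_okT hc hk l hlt (okP_weak p hp S h0 h1 h2 k l hk hne hlt hf)

/-! ## records -/

/-- a table as data: bounds, numbers of states, rows (`2 b + f ↦` next state; the last row is the
dead state), final states, labels -/
structure STab where
  lo : List ℕ
  hi : List ℕ
  A : List ℕ
  T : List (List (List ℕ))
  fin : List (List Bool)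
  lab : List (List Lab)

/-- the transitions of a record -/
def STab.tr (t : STab) (k a b : ℕ) (f : Bool) : ℕ :=
  ((t.T.getD k []).getD a []).getD (2 * b + f.toNat) (t.A.getD k 0)

/-- the final states of a record -/
def STab.fi (t : STab) (k a : ℕ) : Bool := (t.fin.getD k []).getD a false

/-- the side rule of a record -/
def STab.ok (t : STab) : ℕ → List (ℕ × Bool) → Bool := okT t.tr t.fi

/-- the check of a record for the triangle `p` -/
def STab.chk (t : STab) (p : ℕ × ℕ × ℕ) : Bool :=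
  chkB p 1000000 (fun k => t.lo.getD k 0) (fun k => t.hi.getD k 0) &&
  chkTab (fun k => t.lo.getD k 0) (fun k => t.hi.getD k 0) (rkP p) (fun k => t.A.getD k 0) t.tr t.fi
    (fun k a => (t.lab.getD k []).getD a ⟨0, 0, 2, 0, false⟩)

theorem STab.okP {t : STab} {p : ℕ × ℕ × ℕ} (h : t.chk p = true) : OkP p t.ok := by
  unfold STab.chk at h
  rw [Bool.and_eq_true] at h
  exact okP_tab p 1000000 _ _ _ _ _ _ h.1 h.2

/-- the weak rule of the families as a record (`lo`, `hi`, `lab` are not used) -/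
def tabU : STab where
  lo := []
  hi := []
  A := [6, 3, 6]
  T := [[[1, 5, 1, 2, 1, 4], [1, 6, 1, 2, 1, 4], [2, 6, 2, 3, 2, 6], [3, 6, 3, 3, 3, 6],
      [4, 6, 4, 6, 4, 6], [6, 6, 6, 6, 6, 6], [6, 6, 6, 6, 6, 6]],
    [[1, 2, 1, 2, 1, 2], [1, 3, 1, 3, 1, 3], [3, 3, 3, 3, 3, 3], [3, 3, 3, 3, 3, 3]],
    [[1, 5, 1, 2, 1, 5], [1, 6, 1, 2, 1, 6], [2, 6, 2, 3, 2, 6], [3, 6, 3, 3, 3, 6],
      [4, 6, 4, 6, 4, 6], [6, 6, 6, 6, 6, 6], [6, 6, 6, 6, 6, 6]]]
  fin := [[true, true, true, true, true, true], [true, true, true],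
    [true, true, true, true, true, true]]
  lab := []

/-- the states of the weak rule for `tabU` -/
def wU' (k a : ℕ) : ℕ × ℕ :=
  if k = 1 then (if a = 0 then (0, 0) else if a = 1 then (0, 1) else (4, 1))
  else (if a = 0 then (0, 0) else if a = 1 then (0, 1) else if a = 2 then (1, 1)
    else if a = 3 then (2, 2) else if a = 4 then (3, 1) else (4, 1))

theorem okU_tabU (u : ℤ × ℤ × ℤ) : OkU u tabU.ok :=
  okU_tab u (A := fun k => tabU.A.getD k 0) (T := tabU.tr) (fin := tabU.fi) (w := wU')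
    (by decide +kernel)

end Pool.Agent.NNc
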