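import Pool.Agent.NNc.TriFin

/-!
# The side rules of the engine and their discharge

`okW rk two`: the weak side rule (ranks of the sides; two or more full pieces only if all of them are
the side `1` (the shortest), and only if `two`).
`ok123`: the exact side rule of the triangle with angles `30`, `60`, `90` degrees.
-/

namespace Pool.Agent.NNc

open Pool.Agent.NNb

/-! ## the weak rule -/

/-- one step of the weak rule on the side `k`; states: `0` no full piece, `1` one full piece, the side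
`1`, `2` at least two full pieces, all the side `1`, `3` one full piece, not the side `1`,
`4` impossible -/
def stW (rk : ℕ → ℕ) (two : Bool) (k a : ℕ) (p : ℕ × Bool) : ℕ :=
  if p.2 = false then a
  else if a = 0 then (if rk p.1 < rk k then (if p.1 = 1 then 1 else 3) else 4)
  else if a = 1 ∨ a = 2 then (if p.1 = 1 ∧ k ≠ 1 ∧ two = true then 2 else 4)
  else 4

/-- the weak side rule -/
def okW (rk : ℕ → ℕ) (two : Bool) (k : ℕ) (l : List (ℕ × Bool)) : Bool :=
  if l.length ≤ 1 then true else decide (l.foldl (stW rk two k) 0 ≠ 4)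

theorem fits_nonneg (len : ℕ → ℝ) (l : List (ℕ × Bool)) (s : ℝ) (h : Fits len l s) :
    0 ≤ s ∧ (l ≠ [] → 0 < s) := by
  induction l generalizing s with
  | nil =>
    have h' : s = 0 := h
    exact ⟨h'.ge, fun h => absurd rfl h⟩
  | cons p l ih =>
    obtain ⟨b, f⟩ := p
    obtain ⟨t, h0, -, -, h3⟩ := h
    have := (ih _ h3).1
    exact ⟨by linarith, fun _ => by linarith⟩

/-- what the weak rule needs about the lengths -/
structure WLen (len : ℕ → ℝ) (rk : ℕ → ℕ) (two : Bool) : Prop where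
  rk_lt : ∀ b k, b < 3 → k < 3 → len b < len k → rk b < rk k
  pair : ∀ b c k, b < 3 → c < 3 → k < 3 → len b + len c ≤ len k →
    b = 1 ∧ c = 1 ∧ k ≠ 1 ∧ two = true

theorem stW_fold {len : ℕ → ℝ} {rk : ℕ → ℕ} {two : Bool} (H : WLen len rk two) (k : ℕ)
    (hk : k < 3) (l : List (ℕ × Bool)) : ∀ (a : ℕ) (u s : ℝ), (∀ p ∈ l, p.1 < 3) →
    Fits len l s → u + s = len k → 0 ≤ u → (0 < u ∨ 2 ≤ l.length) →
    (a = 0 ∨ ((a = 1 ∨ a = 2) ∧ len 1 ≤ u) ∨ (a = 3 ∧ ∃ b, b < 3 ∧ b ≠ 1 ∧ len b ≤ u)) →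
    l.foldl (stW rk two k) a ≠ 4 := by
  induction l with
  | nil =>
    intro a u s _ _ _ _ _ ha
    rw [List.foldl_nil]
    rcases ha with h | ⟨h | h, _⟩ | ⟨h, _⟩ <;> omega
  | cons p l ih =>
    intro a u s hlt hf hus hu hpos ha
    obtain ⟨b, f⟩ := p
    have hb : b < 3 := hlt (b, f) List.mem_cons_self
    obtain ⟨t, h0, h1, h2, h3⟩ := hf
    rw [List.foldl_cons]
    have hlt' : ∀ p ∈ l, p.1 < 3 := fun p hp => hlt p (List.mem_cons_of_mem _ hp)
    obtain ⟨hs1, hs2⟩ := fits_nonneg len l _ h3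
    apply ih _ (u + t) (s - t) hlt' h3 (by linarith) (by linarith) (Or.inl (by linarith))
    cases f with
    | false =>
      have e : stW rk two k a (b, false) = a := by simp [stW]
      rw [e]
      rcases ha with h | ⟨h, h'⟩ | ⟨h, c, hc, hc1, hcu⟩
      · exact Or.inl h
      · exact Or.inr (Or.inl ⟨h, by linarith⟩)
      · exact Or.inr (Or.inr ⟨h, c, hc, hc1, by linarith⟩)
    | true =>
      have ht : t = len b := h1 rfl
      rcases ha with h | ⟨h, h'⟩ | ⟨h, c, hc, hc1, hcu⟩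
      · -- the first full piece
        have hbk : len b < len k := by
          rcases hpos with hp | hp
          · linarith
          · have hne : l ≠ [] := by
              rintro rfl
              simp at hp
            have := hs2 hne
            linarith
        have hr := H.rk_lt b k hb hk hbk
        by_cases hb1 : b = 1
        · have e : stW rk two k a (b, true) = 1 := by
            unfold stW
            simp [h, hr, hb1]
            rw [← hb1]
            exact hr
          rw [e]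
          exact Or.inr (Or.inl ⟨Or.inl rfl, by rw [← hb1]; linarith⟩)
        · have e : stW rk two k a (b, true) = 3 := by
            unfold stW
            simp [h, hr, hb1]
          rw [e]
          exact Or.inr (Or.inr ⟨rfl, b, hb, hb1, by linarith⟩)
      · obtain ⟨-, p2, p3, p4⟩ := H.pair 1 b k (by norm_num) hb hk (by linarith)
        have ha0 : a ≠ 0 := by omega
        have e : stW rk two k a (b, true) = 2 := by
          unfold stW
          simp [ha0, h, p2, p3, p4]
        rw [e]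
        exact Or.inr (Or.inl ⟨Or.inr rfl, by linarith⟩)
      · obtain ⟨p1, -, -, -⟩ := H.pair c b k hc hb hk (by linarith)
        exact absurd p1 hc1

theorem okW_okLen {len : ℕ → ℝ} {rk : ℕ → ℕ} {two : Bool} (H : WLen len rk two) :
    OkLen len (okW rk two) := by
  intro k l hk hne hlt hf
  unfold okW
  split_ifs with h
  · rfl
  · apply decide_eq_true
    push Not at h
    exact stW_fold H k hk l 0 0 (len k) hlt hf (by ring) le_rfl (Or.inr (by omega)) (Or.inl rfl)

/-- ranks of the sides for the families `θ 0 < θ 1 < θ 2` -/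
def rkU (k : ℕ) : ℕ := if k = 0 then 2 else if k = 1 then 0 else 1

/-- ranks of the sides for the triangle `p` -/
def rkP (p : ℕ × ℕ × ℕ) (k : ℕ) : ℕ := if k = 0 then p.2.2 else if k = 1 then p.1 else p.2.1

/-- may two full pieces lie on one side (triangle `p`)? -/
def twoP (p : ℕ × ℕ × ℕ) : Bool := decide (p.1 < p.2.1 ∧ 6 * p.1 ≤ p.1 + p.2.1 + p.2.2)

theorem lenT_lt {ι : Type} {n : ℕ} (S : Sys3 ι n) (b k : ℕ) (h : lenT S b < lenT S k) :
    S.θ (Fin.ofNat 3 (b + 2)) < S.θ (Fin.ofNat 3 (k + 2)) := by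
  unfold lenT at h
  exact (sin_le_iff S _ _).2 (lt_of_mul_lt_mul_left h S.ρ_pos.le)

theorem lenT_pair {ι : Type} {n : ℕ} (S : Sys3 ι n) (b c k : ℕ) (hb : b < 3) (hc : c < 3)
    (hk : k < 3) (h : lenT S b + lenT S c ≤ lenT S k) :
    b = 1 ∧ c = 1 ∧ k ≠ 1 ∧ S.θ 0 ≤ Real.pi / 6 ∧ S.θ 0 < S.θ 1 := by
  unfold lenT at h
  rw [← mul_add] at h
  have h' := le_of_mul_le_mul_left h S.ρ_pos
  obtain ⟨h1, h2, h3, h4, h5⟩ := pair_small S _ _ _ h'
  have key : ∀ j : ℕ, j < 3 → (Fin.ofNat 3 (j + 2) = 0 ↔ j = 1) := by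
    intro j hj
    interval_cases j <;> decide
  exact ⟨(key b hb).1 h1, (key c hc).1 h2, fun hk1 => h3 ((key k hk).2 hk1), h4, h5⟩

theorem okU_weak (u : ℤ × ℤ × ℤ) : OkU u (okW rkU true) := by
  intro ι n S h01 h12 _
  apply okW_okLen
  constructor
  · intro b k hb hk h
    have h' := lenT_lt S b k h
    interval_cases b <;> interval_cases k <;> simp only [opp0, opp1, opp2] at h' <;>
      first
        | (exfalso; linarith)
        | (exact absurd h' (lt_irrefl _))
        | decide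
  · intro b c k hb hc hk h
    obtain ⟨h1, h2, h3, -, -⟩ := lenT_pair S b c k hb hc hk h
    exact ⟨h1, h2, h3, rfl⟩

theorem okP_weak (p : ℕ × ℕ × ℕ) (hp : 0 < p.1) : OkP p (okW (rkP p) (twoP p)) := by
  intro ι n S h0 h1 h2
  have hq : (0 : ℝ) < ((p.1 + p.2.1 + p.2.2 : ℕ) : ℝ) := by
    have : 0 < p.1 + p.2.1 + p.2.2 := by omega
    exact_mod_cast this
  have hpi := Real.pi_pos
  have key : ∀ {a b : ℝ} {s t : ℕ}, a * (p.1 + p.2.1 + p.2.2 : ℕ) = Real.pi * (s : ℕ) →
      b * (p.1 + p.2.1 + p.2.2 : ℕ) = Real.pi * (t : ℕ) → a < b → s < t := by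
    intro a b s t ha hb h
    have h' := mul_lt_mul_of_pos_right h hq
    rw [ha, hb] at h'
    have := lt_of_mul_lt_mul_left h' hpi.le
    exact_mod_cast this
  apply okW_okLen
  constructor
  · intro b k hb hk h
    have h' := lenT_lt S b k h
    interval_cases b <;> interval_cases k <;> simp only [opp0, opp1, opp2] at h' <;>
      simp only [rkP] <;> first
        | exact absurd h' (lt_irrefl _)
        | exact key h0 h1 h'
        | exact key h0 h2 h'
        | exact key h1 h0 h'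
        | exact key h1 h2 h'
        | exact key h2 h0 h'
        | exact key h2 h1 h'
  · intro b c k hb hc hk h
    obtain ⟨e1, e2, e3, e4, e5⟩ := lenT_pair S b c k hb hc hk h
    refine ⟨e1, e2, e3, ?_⟩
    unfold twoP
    apply decide_eq_true
    refine ⟨key h0 h1 e5, ?_⟩
    have h' := mul_le_mul_of_nonneg_right e4 hq.le
    rw [h0] at h'
    have h'' : Real.pi * (6 * (p.1 : ℝ)) ≤ Real.pi * ((p.1 + p.2.1 + p.2.2 : ℕ) : ℝ) := by linarith
    have := le_of_mul_le_mul_left h'' hpi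
    exact_mod_cast this

/-! ## the exact rule for the angles 30, 60, 90 degrees

Lengths (in units of half of the longest side): side `0`: `2`, side `1`: `1`, side `2`: `√3`.
Values: `0 ↦ 0`, `1 ↦ 1`, `2 ↦ √3`, `3 ↦ 2`, `4 ↦` more than `2`. -/

/-- add the side `b` to the value `v` -/
def add123 (v b : ℕ) : ℕ :=
  if v = 0 then (if b = 0 then 3 else if b = 1 then 1 else 2)
  else if v = 1 ∧ b = 1 then 3 else 4

/-- one step: (sum of the full pieces, sum of all pieces, is there a partial piece?) -/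
def st123 (st : ℕ × ℕ × Bool) (p : ℕ × Bool) : ℕ × ℕ × Bool :=
  (if p.2 = true then add123 st.1 p.1 else st.1, add123 st.2.1 p.1, st.2.2 || !p.2)

/-- the value of the side `k` -/
def v123 (k : ℕ) : ℕ := if k = 0 then 3 else if k = 1 then 1 else 2

/-- the final test -/
def fin123 (k : ℕ) (r : ℕ × ℕ × Bool) : Bool :=
  if r.2.2 = true then decide (r.1 < v123 k ∧ v123 k < r.2.1) else decide (r.1 = v123 k)

/-- the exact side rule of the triangle (1, 2, 3) -/
def ok123 (k : ℕ) (l : List (ℕ × Bool)) : Bool := fin123 k (l.foldl st123 (0, 0, false))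

/-- `v` is the value of the real number `x` -/
def V123 (v : ℕ) (x : ℝ) : Prop :=
  (v = 0 ∧ x = 0) ∨ (v = 1 ∧ x = 1) ∨ (v = 2 ∧ x = √3) ∨ (v = 3 ∧ x = 2) ∨ (v = 4 ∧ 2 < x)

/-- the lengths -/
noncomputable def len123 (k : ℕ) : ℝ := if k = 0 then 2 else if k = 1 then 1 else √3

theorem sqrt3_bounds : (1.7 : ℝ) < √3 ∧ √3 < (1.8 : ℝ) := by
  constructor
  · rw [Real.lt_sqrt (by norm_num)]
    norm_num
  · rw [Real.sqrt_lt' (by norm_num)]
    norm_num

theorem V123_add (v b : ℕ) (x : ℝ) (hb : b < 3) (h : V123 v x) :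
    V123 (add123 v b) (x + len123 b) := by
  obtain ⟨s1, s2⟩ := sqrt3_bounds
  unfold V123 at h ⊢
  rcases h with ⟨rfl, rfl⟩ | ⟨rfl, rfl⟩ | ⟨rfl, rfl⟩ | ⟨rfl, rfl⟩ | ⟨rfl, hx⟩ <;>
    interval_cases b <;> simp [add123, len123] <;> linarith

theorem V123_lt {v w : ℕ} {x y : ℝ} (hv : V123 v x) (hw : V123 w y) (h : x < y) (hy : y ≤ 2) :
    v < w := by
  obtain ⟨s1, s2⟩ := sqrt3_bounds
  unfold V123 at hv hw
  rcases hv with ⟨rfl, rfl⟩ | ⟨rfl, rfl⟩ | ⟨rfl, rfl⟩ | ⟨rfl, rfl⟩ | ⟨rfl, hx⟩ <;>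
    rcases hw with ⟨rfl, rfl⟩ | ⟨rfl, rfl⟩ | ⟨rfl, rfl⟩ | ⟨rfl, rfl⟩ | ⟨rfl, hy'⟩ <;>
    first
      | omega
      | (exfalso; linarith)

theorem V123_lt' {v w : ℕ} {x y : ℝ} (hv : V123 v x) (hw : V123 w y) (h : x < y) (hx2 : x ≤ 2) :
    v < w := by
  obtain ⟨s1, s2⟩ := sqrt3_bounds
  unfold V123 at hv hw
  rcases hv with ⟨rfl, rfl⟩ | ⟨rfl, rfl⟩ | ⟨rfl, rfl⟩ | ⟨rfl, rfl⟩ | ⟨rfl, hx⟩ <;>
    rcases hw with ⟨rfl, rfl⟩ | ⟨rfl, rfl⟩ | ⟨rfl, rfl⟩ | ⟨rfl, rfl⟩ | ⟨rfl, hy'⟩ <;>
    first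
      | omega
      | (exfalso; linarith)

theorem V123_eq {v w : ℕ} {x : ℝ} (hv : V123 v x) (hw : V123 w x) (hx2 : x ≤ 2) : v = w := by
  obtain ⟨s1, s2⟩ := sqrt3_bounds
  unfold V123 at hv hw
  rcases hv with ⟨rfl, hx⟩ | ⟨rfl, hx⟩ | ⟨rfl, hx⟩ | ⟨rfl, hx⟩ | ⟨rfl, hx⟩ <;>
    rcases hw with ⟨rfl, hy⟩ | ⟨rfl, hy⟩ | ⟨rfl, hy⟩ | ⟨rfl, hy⟩ | ⟨rfl, hy⟩ <;>
    first
      | rfl
      | (exfalso; linarith)

theorem fold123 (l : List (ℕ × Bool)) : ∀ (st : ℕ × ℕ × Bool) (x y : ℝ), (∀ p ∈ l, p.1 < 3) →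
    V123 st.1 x → V123 st.2.1 y →
    V123 (l.foldl st123 st).1 (x + sumF len123 l) ∧ V123 (l.foldl st123 st).2.1 (y + sumA len123 l) ∧
    ((l.foldl st123 st).2.2 = true ↔ (st.2.2 = true ∨ ∃ p ∈ l, p.2 = false)) := by
  induction l with
  | nil =>
    intro st x y _ hx hy
    simpa [sumF, sumA] using ⟨hx, hy⟩
  | cons p l ih =>
    intro st x y hlt hx hy
    obtain ⟨b, f⟩ := p
    have hb : b < 3 := hlt (b, f) List.mem_cons_self
    have hlt' : ∀ p ∈ l, p.1 < 3 := fun p hp => hlt p (List.mem_cons_of_mem _ hp)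
    rw [List.foldl_cons]
    have e1 : sumF len123 ((b, f) :: l) = (if f = true then len123 b else 0) + sumF len123 l := by
      simp [sumF]
    have e2 : sumA len123 ((b, f) :: l) = len123 b + sumA len123 l := by simp [sumA]
    have hy' := V123_add st.2.1 b y hb hy
    cases f with
    | true =>
      obtain ⟨i1, i2, i3⟩ := ih (st123 st (b, true)) (x + len123 b) (y + len123 b) hlt'
        (by simpa [st123] using V123_add st.1 b x hb hx) (by simpa [st123] using hy')
      rw [e1, e2, if_pos rfl, ← add_assoc, ← add_assoc]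
      refine ⟨i1, i2, ?_⟩
      rw [i3]
      simp [st123]
    | false =>
      obtain ⟨i1, i2, i3⟩ := ih (st123 st (b, false)) x (y + len123 b) hlt'
        (by simpa [st123] using hx) (by simpa [st123] using hy')
      rw [e1, e2, if_neg (by simp), zero_add, ← add_assoc]
      refine ⟨i1, i2, ?_⟩
      rw [i3]
      simp [st123]

theorem V123_len (k : ℕ) (hk : k < 3) :
    V123 (v123 k) (len123 k) := by
  unfold V123 len123 v123
  interval_cases k <;> simp

theorem len123_le (k : ℕ) : len123 k ≤ 2 := by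
  obtain ⟨s1, s2⟩ := sqrt3_bounds
  unfold len123
  split_ifs <;> linarith

theorem okLen123 : OkLen len123 ok123 := by
  intro k l hk hne hlt hf
  obtain ⟨i1, i2, i3⟩ := fold123 l (0, 0, false) 0 0 hlt (Or.inl ⟨rfl, rfl⟩) (Or.inl ⟨rfl, rfl⟩)
  rw [zero_add] at i1 i2
  obtain ⟨b1, b2, b3⟩ := fits_bounds len123 l (len123 k) hf
  have hL := V123_len k hk
  have hle := len123_le k
  unfold ok123 fin123
  by_cases h : (l.foldl st123 (0, 0, false)).2.2 = true
  · rw [if_pos h]
    apply decide_eq_true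
    rw [i3] at h
    have h' : ∃ p ∈ l, p.2 = false := by
      rcases h with h | h
      · exact absurd h (by simp)
      · exact h
    obtain ⟨c1, c2⟩ := b3 h'
    exact ⟨V123_lt i1 hL c1 hle, V123_lt' hL i2 c2 hle⟩
  · rw [if_neg h]
    apply decide_eq_true
    have hall : ∀ p ∈ l, p.2 = true := by
      intro p hp
      by_contra hcon
      apply h
      rw [i3]
      right
      exact ⟨p, hp, by simpa using hcon⟩
    have e := fits_full len123 l (len123 k) hf hall
    rw [← e] at i1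
    exact V123_eq i1 hL hle

/-- `OkLen` does not depend on the scale -/
theorem fits_scale {len len' : ℕ → ℝ} {c : ℝ} (hc : 0 < c) (h : ∀ k, k < 3 → len' k = c * len k)
    (l : List (ℕ × Bool)) : ∀ s, (∀ p ∈ l, p.1 < 3) → Fits len' l (c * s) → Fits len l s := by
  induction l with
  | nil =>
    intro s _ hf
    have hf' : c * s = 0 := hf
    show s = 0
    rcases mul_eq_zero.1 hf' with h0 | h0
    · exact absurd h0 hc.ne'
    · exact h0
  | cons p l ih =>
    intro s hlt hf
    obtain ⟨b, f⟩ := p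
    have hb : b < 3 := hlt (b, f) List.mem_cons_self
    obtain ⟨t, h0, h1, h2, h3⟩ := hf
    refine ⟨t / c, by positivity, ?_, ?_, ?_⟩
    · intro hf'
      rw [h1 hf', h b hb]
      field_simp
    · intro hf'
      have := h2 hf'
      rw [h b hb] at this
      rw [div_lt_iff₀ hc]
      linarith
    · apply ih _ (fun p hp => hlt p (List.mem_cons_of_mem _ hp))
      have e : c * (s - t / c) = c * s - t := by
        field_simp
      rw [e]
      exact h3

theorem okLen_scale {len len' : ℕ → ℝ} {ok : ℕ → List (ℕ × Bool) → Bool} {c : ℝ} (hc : 0 < c)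
    (h : ∀ k, k < 3 → len' k = c * len k) (H : OkLen len ok) : OkLen len' ok := by
  intro k l hk hne hlt hf
  rw [h k hk] at hf
  exact H k l hk hne hlt (fits_scale hc h l _ hlt hf)

theorem okP_123 : OkP (1, 2, 3) ok123 := by
  intro ι n S h0 h1 h2
  norm_num at h0 h1 h2
  have e0 : S.θ 0 = Real.pi / 6 := by linarith
  have e1 : S.θ 1 = Real.pi / 3 := by linarith
  have e2 : S.θ 2 = Real.pi / 2 := by linarith
  have hρ := S.ρ_pos
  refine okLen_scale (c := S.ρ / 2) (by linarith) ?_ okLen123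
  intro k hk
  unfold lenT len123
  interval_cases k
  · rw [opp0, e2, Real.sin_pi_div_two]
    simp
  · rw [opp1, e0, Real.sin_pi_div_six]
    simp
    ring
  · rw [opp2, e1, Real.sin_pi_div_three]
    simp
    ring

end Pool.Agent.NNc
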