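import Pool.Agent.NNc.Fw

/-!
Module SIDEL.  The list of the darts on a side.

Strong induction on the number of nodes of `i` on the side `k` which are farther from `lab i k` than
the start node `x`.
-/

namespace Pool.Agent.NNc

open Pool.Agent.NNb

namespace SysP

variable {ι : Type} {m n : ℕ} (S : SysP ι m n)

theorem SIDEL_lab_mem (i : ι) {k : ℕ} (hk : k < m) : S.lab i k ∈ S.N i :=
  S.C_sub i ((S.lab_C i _).2 ⟨k, hk, rfl⟩)

theorem SIDEL_left (i : ι) (k : ℕ) : S.lab i k ∈ S.seg i k := left_mem_segment ℝ _ _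

theorem SIDEL_right (i : ι) (k : ℕ) : S.lab i (k + 1) ∈ S.seg i k := right_mem_segment ℝ _ _

theorem SIDEL_dir {d : S.Dart} (h : S.dir d = true) :
    dist (S.lab d.tile (S.sd d)) d.nd < dist (S.lab d.tile (S.sd d)) d.far := by
  unfold dir at h
  exact of_decide_eq_true h

theorem SIDEL_dir' {d : S.Dart}
    (h : dist (S.lab d.tile (S.sd d)) d.nd < dist (S.lab d.tile (S.sd d)) d.far) :
    S.dir d = true := by
  unfold dir
  exact decide_eq_true h

open Classical in
theorem SIDEL_aux (i : ι) (k : ℕ) (hk : k < m) : ∀ (M : ℕ) (x : ℂ), x ∈ S.N i → x ∈ S.seg i k →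
    ((S.N i).filter (fun z => z ∈ S.seg i k ∧
      dist (S.lab i k) x < dist (S.lab i k) z)).card ≤ M →
    ∃ L : List S.Dart,
      (∀ d ∈ L, d.tile = i ∧ S.sd d = k ∧ S.dir d = true ∧
        dist (S.lab i k) x ≤ dist (S.lab i k) d.nd) ∧
      (∀ d : S.Dart, d.tile = i → S.sd d = k → S.dir d = true →
        dist (S.lab i k) x ≤ dist (S.lab i k) d.nd → d ∈ L) ∧
      L.IsChain (fun a b => b = a.rev.nxt) ∧
      (∀ d, L.head? = some d → d.nd = x) ∧
      (L = [] → x = S.lab i (k + 1)) ∧
      (∀ d, L.getLast? = some d → d.far = S.lab i (k + 1)) ∧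
      L.Pairwise (fun a b => dist (S.lab i k) a.nd < dist (S.lab i k) b.nd) ∧
      (L.map (fun d => dist d.nd d.far)).sum = dist x (S.lab i (k + 1)) := by
  intro M
  induction M with
  | zero =>
    intro x hxN hxs hcard
    by_cases hx : x = S.lab i (k + 1)
    · refine ⟨[], by simp, ?_, by simp, by simp, fun _ => hx, by simp, by simp, ?_⟩
      · intro d h1 h2 h3 h4
        exfalso
        have h5 := S.SIDEL_dir h3
        have h6 := S.far_mem d
        rw [h1, h2] at h5 h6
        have h7 := S.seg_le hk h6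
        rw [hx, S.dist_lab i k hk] at h4
        linarith
      · rw [hx]; simp
    · exfalso
      obtain ⟨y, hy, hys⟩ := S.part_fwd i k x hk hxN hxs hx
      obtain ⟨h1, h2⟩ := S.seg_fwd hxs hys
      have h3 : dist (S.lab i k) x < dist (S.lab i k) y :=
        lt_of_le_of_ne h2 (fun h => hy.2.2.1 (S.seg_pos hxs h1 h))
      have h4 : y ∈ (S.N i).filter (fun z => z ∈ S.seg i k ∧
          dist (S.lab i k) x < dist (S.lab i k) z) :=
        Finset.mem_filter.2 ⟨hy.2.1, h1, h3⟩
      have := Finset.card_pos.2 ⟨y, h4⟩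
      omega
  | succ M ih =>
    intro x hxN hxs hcard
    by_cases hx : x = S.lab i (k + 1)
    · refine ⟨[], by simp, ?_, by simp, by simp, fun _ => hx, by simp, by simp, ?_⟩
      · intro d h1 h2 h3 h4
        exfalso
        have h5 := S.SIDEL_dir h3
        have h6 := S.far_mem d
        rw [h1, h2] at h5 h6
        have h7 := S.seg_le hk h6
        rw [hx, S.dist_lab i k hk] at h4
        linarith
      · rw [hx]; simp
    · obtain ⟨y, hy, hys⟩ := S.part_fwd i k x hk hxN hxs hx
      obtain ⟨h1, h2⟩ := S.seg_fwd hxs hys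
      have h3 : dist (S.lab i k) x < dist (S.lab i k) y :=
        lt_of_le_of_ne h2 (fun h => hy.2.2.1 (S.seg_pos hxs h1 h))
      have h4 : ((S.N i).filter (fun z => z ∈ S.seg i k ∧
          dist (S.lab i k) y < dist (S.lab i k) z)).card <
          ((S.N i).filter (fun z => z ∈ S.seg i k ∧
          dist (S.lab i k) x < dist (S.lab i k) z)).card := by
        apply Finset.card_lt_card
        rw [Finset.ssubset_iff_of_subset]
        · exact ⟨y, Finset.mem_filter.2 ⟨hy.2.1, h1, h3⟩,
            fun h => lt_irrefl _ (Finset.mem_filter.1 h).2.2⟩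
        · intro z hz
          rw [Finset.mem_filter] at hz ⊢
          exact ⟨hz.1, hz.2.1, h3.trans hz.2.2⟩
      obtain ⟨L, a1, a2, a3, a4, a5, a6, a7, a8⟩ := ih y hy.2.1 h1 (by omega)
      have hd0t : (Dart.mk hy : S.Dart).tile = i := rfl
      have hd0s : S.sd (Dart.mk hy : S.Dart) = k := S.sd_unique _ hk hxs h1
      have hd0d : S.dir (Dart.mk hy : S.Dart) = true := by
        apply S.SIDEL_dir'
        rw [hd0s]
        exact h3
      refine ⟨Dart.mk hy :: L, ?_, ?_, ?_, ?_, ?_, ?_, ?_, ?_⟩
      · intro d hd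
        rcases List.mem_cons.1 hd with rfl | hd
        · exact ⟨hd0t, hd0s, hd0d, le_rfl⟩
        · obtain ⟨b1, b2, b3, b4⟩ := a1 d hd
          exact ⟨b1, b2, b3, h3.le.trans b4⟩
      · intro d b1 b2 b3 b4
        have hn := S.nd_mem d
        rw [b1, b2] at hn
        rcases eq_or_lt_of_le b4 with b5 | b5
        · have b6 : x = d.nd := S.seg_pos hxs hn b5
          rcases Dart.eq_or_nxt (d := (Dart.mk hy : S.Dart)) (e := d) b1 b6.symm with b7 | b7
          · rw [b7]; exact List.mem_cons_self
          · exfalso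
            rw [b7, S.dir_nxt, hd0d] at b3
            exact absurd b3 (by decide)
        · by_cases b6 : dist (S.lab i k) y ≤ dist (S.lab i k) d.nd
          · exact List.mem_cons_of_mem _ (a2 d b1 b2 b3 b6)
          · exfalso
            push Not at b6
            have b7 := S.seg_between hxs h1 hn b5.le b6.le
            have b8 : d.nd ∈ S.N i := by
              have := d.part.1
              rw [b1] at this
              exact this
            rcases S.no_between hy b8 b7 with b9 | b9
            · rw [b9] at b5; exact lt_irrefl _ b5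
            · rw [b9] at b6; exact lt_irrefl _ b6
      · rcases hL : L with _ | ⟨e, L'⟩
        · exact List.isChain_singleton _
        · rw [List.isChain_cons_cons]
          refine ⟨?_, hL ▸ a3⟩
          have he1 := a1 e (by rw [hL]; exact List.mem_cons_self)
          have he2 := a4 e (by rw [hL]; rfl)
          refine Dart.eq_nxt (d := (Dart.mk hy : S.Dart).rev) (e := e) he1.1 he2 ?_
          intro hf
          have hf' : e.far = x := hf
          have h5 := S.SIDEL_dir he1.2.2.1
          rw [he1.1, he1.2.1, he2, hf'] at h5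
          linarith
      · intro d hd
        rw [List.head?_cons] at hd
        rw [← Option.some.inj hd]
        rfl
      · intro h
        exact absurd h (by simp)
      · intro d hd
        rcases hL : L with _ | ⟨e, L'⟩
        · rw [hL] at hd
          have hd' : (Dart.mk hy : S.Dart) = d := by simpa using hd
          rw [← hd']
          exact a5 hL
        · rw [hL] at hd
          apply a6 d
          rw [hL]
          simpa using hd
      · rw [List.pairwise_cons]
        refine ⟨fun b hb => ?_, a7⟩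
        exact lt_of_lt_of_le h3 (a1 b hb).2.2.2
      · rw [List.map_cons, List.sum_cons, a8]
        have e1 := S.seg_dist hxs h1 h2
        have e2 := S.seg_dist h1 (S.SIDEL_right i k) (by
          rw [S.dist_lab i k hk]; exact S.seg_le hk h1)
        have e3 := S.seg_dist hxs (S.SIDEL_right i k) (by
          rw [S.dist_lab i k hk]; exact S.seg_le hk hxs)
        show dist x y + _ = _
        rw [e1, e2, e3]
        ring

theorem exists_side (i : ι) (k : ℕ) (hk : k < m) : ∃ L : List S.Dart, L ≠ [] ∧ L.Nodup ∧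
    (∀ d, d ∈ L ↔ d.tile = i ∧ S.sd d = k ∧ S.dir d = true) ∧
    L.IsChain (fun a b => b = a.rev.nxt) ∧
    (∀ d L', L = d :: L' → d.nd = S.lab i k ∧ ∀ e ∈ L', e.nd ∉ S.C i) ∧
    (∀ d, L.getLast? = some d → d.far = S.lab i (k + 1)) ∧
    (L.map (fun d => dist d.nd d.far)).sum = S.len k := by
  obtain ⟨L, a1, a2, a3, a4, a5, a6, a7, a8⟩ := S.SIDEL_aux i k hk _ (S.lab i k)
    (S.SIDEL_lab_mem i hk) (S.SIDEL_left i k) le_rfl
  refine ⟨L, ?_, ?_, ?_, a3, ?_, a6, ?_⟩
  · intro h
    exact S.lab_ne i k (a5 h)
  · refine a7.imp ?_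
    rintro a b h rfl
    exact lt_irrefl _ h
  · intro d
    constructor
    · intro h
      exact ⟨(a1 d h).1, (a1 d h).2.1, (a1 d h).2.2.1⟩
    · rintro ⟨h1, h2, h3⟩
      apply a2 d h1 h2 h3
      rw [dist_self]
      exact dist_nonneg
  · rintro d L' rfl
    have h1 := a4 d rfl
    refine ⟨h1, fun e he hc => ?_⟩
    have h2 := (List.pairwise_cons.1 a7).1 e he
    obtain ⟨b1, b2, b3, -⟩ := a1 e (List.mem_cons_of_mem _ he)
    rw [h1, dist_self] at h2
    have h3 := S.SIDEL_dir b3
    have h4 := S.nd_mem e
    have h5 := S.far_mem e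
    rw [b1, b2] at h3 h4 h5
    have h6 := S.seg_le hk h5
    obtain ⟨c, hc1, hc2⟩ := (S.lab_C i _).1 hc
    by_cases hck : c = k
    · rw [hc2, hck, dist_self] at h2
      exact lt_irrefl _ h2
    · have h7 : e.nd ∈ S.seg i c := by rw [hc2]; exact S.SIDEL_left i c
      rcases S.side_inter i k c e.nd hk hc1 (fun h => hck h.symm) h4 h7 with ⟨h8, h9⟩ | ⟨h8, h9⟩
      · rw [h9, h8, S.lab_mod, S.dist_lab i k hk] at h3
        linarith
      · rw [h9, dist_self] at h2
        exact lt_irrefl _ h2
  · rw [a8]
    exact S.dist_lab i k hk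

end SysP

end Pool.Agent.NNc
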