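import Pool.Agent.NNc.Fw
import Pool.Agent.NNc.SideL

/-!
Module PIECE.  Lengths of edges: the side rules (i) and (ii).

`dist_full`: if both ends are corners of the tile, they are the two ends of the side (two corners on
`seg i k` are `lab i k` and `lab i (k + 1)`: `lab_C`, `side_inter`, `m ≥ 3`), so the distance is `len k`.
`dist_lt`: both ends are on the segment, so `dist ≤ len k`, with equality only if they are its two ends.
The rules follow as `dist d.nd d.far = dist d.swp.nd d.swp.far` (`rfl`).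
`pr`: the sum of all pieces of the side is `len k` (`exists_side`), all pieces are nonnegative, so two
different entries of the list add up to at most `len k`
(`List.pairwise_iff_getElem` or induction on the list with `List.sum_le_sum` / `List.le_sum_of_mem`…).
-/

namespace Pool.Agent.NNc

open Pool.Agent.NNb

namespace SysP

variable {ι : Type} {m n : ℕ} (S : SysP ι m n)

private theorem PIECE_corner {i : ι} {k : ℕ} {x : ℂ} (hk : k < m) (hx : x ∈ S.seg i k)
    (hc : x ∈ S.C i) : x = S.lab i k ∨ x = S.lab i (k + 1) := by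
  obtain ⟨l, hl, hxl⟩ := (S.lab_C i x).1 hc
  by_cases hkl : k = l
  · exact Or.inl (hkl ▸ hxl)
  · have hs : x ∈ S.seg i l := by
      unfold seg
      rw [← hxl]
      exact left_mem_segment ℝ _ _
    rcases S.side_inter i k l x hk hl hkl hx hs with a | a
    · right
      rw [a.2, a.1, S.lab_mod]
    · exact Or.inl a.2

private theorem PIECE_corner_lab (i : ι) {k : ℕ} : S.lab i k ∈ S.C i := by
  have hm := S.m_ge
  rw [S.lab_C]
  exact ⟨k % m, Nat.mod_lt _ (by omega), (S.lab_mod i k).symm⟩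

private theorem PIECE_lt {i : ι} {k : ℕ} {x y : ℂ} (hk : k < m) (hx : x ∈ S.seg i k)
    (hy : y ∈ S.seg i k) (h : x ∉ S.C i ∨ y ∉ S.C i)
    (hle : dist (S.lab i k) x ≤ dist (S.lab i k) y) : dist x y < S.len k := by
  rw [S.seg_dist hx hy hle]
  have h1 := S.seg_le hk hy
  have h0 : 0 ≤ dist (S.lab i k) x := dist_nonneg
  rcases h with h | h
  · have h2 : 0 < dist (S.lab i k) x := dist_pos.2 (fun h3 => h (h3 ▸ PIECE_corner_lab S i))
    linarith
  · have h2 : dist (S.lab i k) y < S.len k := lt_of_le_of_ne h1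
      (fun h3 => h (S.seg_end hk hy h3 ▸ PIECE_corner_lab S i))
    linarith

private theorem PIECE_mem {α : Type} (p : α → ℝ) (hp : ∀ a, 0 ≤ p a) (L : List α) :
    0 ≤ (L.map p).sum ∧ ∀ a ∈ L, p a ≤ (L.map p).sum := by
  induction L with
  | nil => exact ⟨le_rfl, fun a ha => absurd ha List.not_mem_nil⟩
  | cons b L ih =>
    rw [List.map_cons, List.sum_cons]
    refine ⟨add_nonneg (hp b) ih.1, fun a ha => ?_⟩
    rcases List.mem_cons.1 ha with h | h
    · rw [h]
      linarith [ih.1]
    · linarith [ih.2 a h, hp b]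

private theorem PIECE_pair {α : Type} (p : α → ℝ) (hp : ∀ a, 0 ≤ p a) (s : ℝ) (L : List α)
    (hs : (L.map p).sum ≤ s) : L.Pairwise (fun a b => p a + p b ≤ s) := by
  induction L with
  | nil => exact List.Pairwise.nil
  | cons b L ih =>
    rw [List.map_cons, List.sum_cons] at hs
    refine List.Pairwise.cons (fun a ha => ?_) (ih (by linarith [hp b]))
    linarith [(PIECE_mem p hp L).2 a ha]


theorem dist_full (d : S.Dart) (h1 : S.lbl d.tile d.nd < m) (h2 : S.lbl d.tile d.far < m) :
    dist d.nd d.far = S.len (S.sd d) := by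
  rcases PIECE_corner S (S.sd_lt d) (S.nd_mem d) ((S.lbl_lt _ _).1 h1) with a | a <;>
    rcases PIECE_corner S (S.sd_lt d) (S.far_mem d) ((S.lbl_lt _ _).1 h2) with b | b
  · exact absurd (a.trans b.symm) d.nd_ne_far
  · rw [a, b]
    exact S.dist_lab _ _ (S.sd_lt d)
  · rw [a, b, dist_comm]
    exact S.dist_lab _ _ (S.sd_lt d)
  · exact absurd (a.trans b.symm) d.nd_ne_far

theorem dist_lt (d : S.Dart) (h : S.lbl d.tile d.nd = m ∨ S.lbl d.tile d.far = m) :
    dist d.nd d.far < S.len (S.sd d) := by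
  rw [S.lbl_m, S.lbl_m] at h
  rcases le_total (dist (S.lab d.tile (S.sd d)) d.nd) (dist (S.lab d.tile (S.sd d)) d.far)
    with h1 | h1
  · exact PIECE_lt S (S.sd_lt d) (S.nd_mem d) (S.far_mem d) h h1
  · rw [dist_comm]
    exact PIECE_lt S (S.sd_lt d) (S.far_mem d) (S.nd_mem d) h.symm h1

theorem len_eq (d : S.Dart) (h1 : S.lbl d.tile d.nd < m) (h2 : S.lbl d.tile d.far < m)
    (h3 : S.lbl d.swp.tile d.nd < m) (h4 : S.lbl d.swp.tile d.far < m) :
    S.len (S.sd d) = S.len (S.sd d.swp) := by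
  rw [← S.dist_full d h1 h2, ← S.dist_full d.swp h3 h4]
  rfl

theorem len_lt (d : S.Dart) (h1 : S.lbl d.tile d.nd < m) (h2 : S.lbl d.tile d.far < m)
    (h3 : S.lbl d.swp.tile d.nd = m ∨ S.lbl d.swp.tile d.far = m) :
    S.len (S.sd d) < S.len (S.sd d.swp) := by
  rw [← S.dist_full d h1 h2]
  exact S.dist_lt d.swp h3

theorem pair_le (k : ℕ) (L : List S.Dart) (hL : (L.map (fun d => dist d.nd d.far)).sum = S.len k) :
    L.Pairwise (fun d e =>
      S.lbl d.swp.tile d.nd < m → S.lbl d.swp.tile d.far < m →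
      S.lbl e.swp.tile e.nd < m → S.lbl e.swp.tile e.far < m →
      S.len (S.sd d.swp) + S.len (S.sd e.swp) ≤ S.len k) := by
  refine (PIECE_pair (fun d : S.Dart => dist d.nd d.far) (fun _ => dist_nonneg) (S.len k) L
    hL.le).imp ?_
  intro d e h h1 h2 h3 h4
  rw [← S.dist_full d.swp h1 h2, ← S.dist_full e.swp h3 h4]
  exact h

end SysP

end Pool.Agent.NNc
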