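import Pool.Agent.NNb.Sys3Mk
import Pool.Agent.NNc.LinkC

/-!
Module SYS3L.  `Sys3` with the link property.
-/

namespace Pool.Agent.NNc

open Pool.Agent.NNb Set

/-- the tiles at a node form one cycle -/
def Link {ι ν : Type} {m n : ℕ} (S : Sys ι ν m n) : Prop :=
  ∀ (x : ν) (A : Finset ι), A ⊆ S.tl x → A.Nonempty →
    (∀ i ∈ A, ∀ j ∈ S.tl x, (∃ y, y ≠ x ∧ y ∈ S.N i ∧ y ∈ S.N j) → j ∈ A) → A = S.tl x

variable {ι : Type} {n : ℕ}

theorem exists_sys3_link (t : CTil ι n) (hm : t.m = 3) : ∃ S : Sys3 ι n, Link S.toSys := by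
  obtain ⟨θ, ρ, lab, h1, h2, h3, h4, h5, h6, h7, h8, h9, h10, h11⟩ := t.lab_exists hm
  refine ⟨{ t.toSys 3 hm with
    θ := θ, θ_pos := h1, θ_le01 := h2, θ_le12 := h3, θ_sum := h4, lab := lab, lab_inj := h6,
    lab_C := fun i x => by
      rw [← h7 i x]; exact t.mem_C i x
    lab_ang := h8, ρ := ρ, ρ_pos := h5, side := h9, ncol := h10
    on_side := fun i x hx hc => ?_
    same_side := fun i x y hP => ?_
    side_mem := fun i j k l x hx hs => ?_
    part_dir := fun i k l x hx hkl hs hne => ?_ }, fun x A hA hne hcl => link_aux t x A hA hne hcl⟩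
  · have hx' := (t.mem_N i x).1 hx
    have hf := t.node_frontier hx'.1 hx'.2
    rw [h11 i] at hf
    rcases tri_frontier (lab i) (h10 i) hf with ⟨k, hk⟩ | h
    · exact absurd ((t.mem_C i x).2 ((h7 i x).2 ⟨k, hk⟩)) hc
    · exact h
  · obtain ⟨hx, hy, hne, j, hj, hxj, hyj⟩ := hP
    have hx' := ((t.mem_N i x).1 hx).2
    have hy' := ((t.mem_N i y).1 hy).2
    have hxj' := ((t.mem_N j x).1 hxj).2
    have hyj' := ((t.mem_N j y).1 hyj).2
    have hb := pair_bdir (t.polyT i) (t.polyT j) (t.disj i j hj.symm) hne hx' hxj' hy' hyj'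
    rw [h11 i] at hb hx' hy'
    exact tri_same (lab i) (h10 i) hx' hy' hne hb
  · refine (t.mem_N i x).2 ⟨((t.mem_N j x).1 hx).1, ?_⟩
    rw [h11 i]
    exact (convex_convexHull ℝ (range (lab i))).segment_subset
      (subset_convexHull ℝ (range (lab i)) (mem_range_self k))
      (subset_convexHull ℝ (range (lab i)) (mem_range_self l)) hs
  · have hx' := ((t.mem_N i x).1 hx).2
    have hb := tri_bdir (lab i) (h10 i) hkl hs hne
    rw [← h11 i] at hb
    obtain ⟨s, hs0, hsn, hsi, ⟨j, hj, hxj, hyj⟩, hmin⟩ := t.partner_dir hx' hb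
    have hl : IsNode t.T (lab i l) := ⟨i, (h7 i _).2 ⟨l, rfl⟩⟩
    have hs1 : s ≤ 1 := by
      by_contra hlt
      push Not at hlt
      apply hmin 1 one_pos hlt
      simpa using hl
    refine ⟨x + s • (lab i l - x), ⟨hx, (t.mem_N i _).2 ⟨hsn, hsi⟩, ?_, j, hj,
      (t.mem_N j _).2 ⟨((t.mem_N i x).1 hx).1, hxj⟩, (t.mem_N j _).2 ⟨hsn, hyj⟩⟩, ?_⟩
    · intro hc
      have h0 : s • (lab i l - x) = 0 := by
        have := hc
        simpa using this
      rcases smul_eq_zero.1 h0 with h | h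
      · exact hs0.ne' h
      · exact hne (sub_eq_zero.1 h).symm
    · rw [segment_eq_image']
      exact ⟨s, ⟨hs0.le, hs1⟩, rfl⟩


end Pool.Agent.NNc
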