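import Pool.Agent.NNb.Defs
import Pool.Agent.NNc.LTil

/-!
# MP_4b6a99_co: tilings by congruent convex `m`-gons with labelled corners

`SysP` = `Sys` with labelled corners in cyclic order (`m = 3` from `Sys3`, `m = 4` from `CTil`),
and `link`: the tiles at a node form one cycle.  All indices of corners and sides are natural
numbers, taken mod `m`; the side `k` is the segment from the corner `k` to the corner `k + 1`.
-/

namespace Pool.Agent.NNc

open Pool.Agent.NNb

/-- The length `s` is composed of the pieces `l`: a piece `(b, true)` has the length `len b`, a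
piece `(b, false)` a positive length less than `len b`. -/
def Fits (len : ℕ → ℝ) : List (ℕ × Bool) → ℝ → Prop
  | [], s => s = 0
  | (b, f) :: l, s => ∃ t : ℝ, 0 < t ∧ (f = true → t = len b) ∧ (f = false → t < len b) ∧
      Fits len l (s - t)

structure SysP (ι : Type) (m n : ℕ) extends Sys ι ℂ m n where
  m_ge : 3 ≤ m
  lab : ι → ℕ → ℂ
  lab_mod : ∀ i k, lab i (k % m) = lab i k
  lab_inj : ∀ i k l, k < m → l < m → lab i k = lab i l → k = l
  lab_C : ∀ i x, x ∈ C i ↔ ∃ k, k < m ∧ x = lab i k
  /-- the lengths of the sides -/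
  len : ℕ → ℝ
  dist_lab : ∀ i k, k < m → dist (lab i k) (lab i (k + 1)) = len k
  on_side : ∀ i x, x ∈ N i → ∃ k, k < m ∧ x ∈ segment ℝ (lab i k) (lab i (k + 1))
  /-- partners lie on a common side -/
  same_side : ∀ i x y, Part N i x y → ∃ k, k < m ∧ x ∈ segment ℝ (lab i k) (lab i (k + 1)) ∧
    y ∈ segment ℝ (lab i k) (lab i (k + 1))
  /-- two sides meet only in a common corner -/
  side_inter : ∀ i k l x, k < m → l < m → k ≠ l → x ∈ segment ℝ (lab i k) (lab i (k + 1)) →
    x ∈ segment ℝ (lab i l) (lab i (l + 1)) →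
    (l = (k + 1) % m ∧ x = lab i l) ∨ (k = (l + 1) % m ∧ x = lab i k)
  /-- a node which lies on a side of a tile is a node of this tile -/
  side_mem : ∀ i j k x, k < m → x ∈ N j → x ∈ segment ℝ (lab i k) (lab i (k + 1)) → x ∈ N i
  /-- there is a partner in each direction -/
  part_fwd : ∀ i k x, k < m → x ∈ N i → x ∈ segment ℝ (lab i k) (lab i (k + 1)) →
    x ≠ lab i (k + 1) → ∃ y, Part N i x y ∧ y ∈ segment ℝ x (lab i (k + 1))
  part_bwd : ∀ i k x, k < m → x ∈ N i → x ∈ segment ℝ (lab i k) (lab i (k + 1)) →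
    x ≠ lab i k → ∃ y, Part N i x y ∧ y ∈ segment ℝ x (lab i k)
  /-- the tiles at a node form one cycle -/
  link : ∀ (x : ℂ) (A : Finset ι), A ⊆ tl x → A.Nonempty →
    (∀ i ∈ A, ∀ j ∈ tl x, (∃ y, y ≠ x ∧ y ∈ N i ∧ y ∈ N j) → j ∈ A) → A = tl x

namespace SysP

variable {ι : Type} {m n : ℕ} (S : SysP ι m n)

/-- the class of a node: numbers of corners `0, …, m - 1`, number of flat tiles -/
noncomputable def cls (x : ℂ) : List ℕ :=
  open Classical in
  (List.range m).map (fun k => ((S.tl x).filter (fun i => x = S.lab i k)).card) ++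
    [((S.tl x).filter (fun i => x ∉ S.C i)).card]

end SysP

end Pool.Agent.NNc
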