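import Pool.Agent.NNb.TriS
import Pool.Agent.NNc.Sys3L
import Pool.Agent.NNc.SysP

/-!
Module SYS3P.  From `Sys3` to `SysP`.

`lab i k = S.lab i (Fin.ofNat 3 k)`, side `k` = from the corner `k` to the corner `k + 1`, so it is
opposite to the corner `k + 2`, and `len k = ρ sin (θ (k + 2))` (fields `side`, `dist_comm`).
Everything reduces to the fields of `Sys3` and to `TriS.lean` (`corner_not_side`, `side_inter`, …)
by cases `k = 0, 1, 2` (`interval_cases k`).  `on_side`: a corner `lab i k` is on its side `k`,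
otherwise field `on_side` (`Sbtw` → segment; the three unordered pairs are the three sides).
`side_inter`: for `k ≠ l` in `{0, 1, 2}` either `l = k + 1` or `k = l + 1` mod 3.
-/

namespace Pool.Agent.NNc

open Pool.Agent.NNb

variable {ι : Type} {n : ℕ}

private theorem S3P_side (S : Sys3 ι n) (i : ι) (k l : Fin 3) (h : k ≠ l) : ∃ s : ℕ, s < 3 ∧
    segment ℝ (S.lab i k) (S.lab i l) =
      segment ℝ (S.lab i (Fin.ofNat 3 s)) (S.lab i (Fin.ofNat 3 (s + 1))) := by
  fin_cases k <;> fin_cases l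
  · exact absurd rfl h
  · exact ⟨0, by norm_num, rfl⟩
  · exact ⟨2, by norm_num, segment_symm ℝ _ _⟩
  · exact ⟨0, by norm_num, segment_symm ℝ _ _⟩
  · exact absurd rfl h
  · exact ⟨1, by norm_num, rfl⟩
  · exact ⟨2, by norm_num, rfl⟩
  · exact ⟨1, by norm_num, segment_symm ℝ _ _⟩
  · exact absurd rfl h

private theorem S3P_ne (k : ℕ) : (Fin.ofNat 3 k) ≠ Fin.ofNat 3 (k + 1) := by
  intro h
  have h1 : k % 3 = (k + 1) % 3 := congrArg Fin.val h
  omega

private theorem S3P_inter (S : Sys3 ι n) (i : ι) (k l : ℕ) (x : ℂ) (hk : k < 3) (hl : l < 3)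
    (hkl : k ≠ l)
    (h1 : x ∈ segment ℝ (S.lab i (Fin.ofNat 3 k)) (S.lab i (Fin.ofNat 3 (k + 1))))
    (h2 : x ∈ segment ℝ (S.lab i (Fin.ofNat 3 l)) (S.lab i (Fin.ofNat 3 (l + 1)))) :
    (l = (k + 1) % 3 ∧ x = S.lab i (Fin.ofNat 3 l)) ∨
      (k = (l + 1) % 3 ∧ x = S.lab i (Fin.ofNat 3 k)) := by
  have h01 : (0 : Fin 3) ≠ 1 := by decide
  have h02 : (0 : Fin 3) ≠ 2 := by decide
  have h12 : (1 : Fin 3) ≠ 2 := by decide
  interval_cases k <;> interval_cases l
  · exact absurd rfl hkl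
  · exact Or.inl ⟨rfl, S.side_inter i h01.symm h12 h02 (segment_symm ℝ (S.lab i 0) _ ▸ h1) h2⟩
  · exact Or.inr ⟨rfl, S.side_inter i h01 h02 h12 h1 (segment_symm ℝ (S.lab i 2) _ ▸ h2)⟩
  · exact Or.inr ⟨rfl, S.side_inter i h12 h01.symm h02.symm h1
      (segment_symm ℝ (S.lab i 0) _ ▸ h2)⟩
  · exact absurd rfl hkl
  · exact Or.inl ⟨rfl, S.side_inter i h12.symm h02.symm h01.symm
      (segment_symm ℝ (S.lab i 1) _ ▸ h1) h2⟩
  · exact Or.inl ⟨rfl, S.side_inter i h02 h01 h12.symm (segment_symm ℝ (S.lab i 2) _ ▸ h1) h2⟩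
  · exact Or.inr ⟨rfl, S.side_inter i h02.symm h12.symm h01 h1
      (segment_symm ℝ (S.lab i 1) _ ▸ h2)⟩
  · exact absurd rfl hkl

theorem exists_sysP_of_sys3 (S : Sys3 ι n) (hl : Link S.toSys) : ∃ T : SysP ι 3 n,
    T.toSys = S.toSys ∧ (∀ i k, T.lab i k = S.lab i (Fin.ofNat 3 k)) ∧
    (∀ k, T.len k = S.ρ * Real.sin (S.θ (Fin.ofNat 3 (k + 2)))) := by
  refine ⟨{ toSys := S.toSys
            m_ge := le_rfl
            lab := fun i k => S.lab i (Fin.ofNat 3 k)
            lab_mod := ?_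
            lab_inj := ?_
            lab_C := ?_
            len := fun k => S.ρ * Real.sin (S.θ (Fin.ofNat 3 (k + 2)))
            dist_lab := ?_
            on_side := ?_
            same_side := ?_
            side_inter := S3P_inter S
            side_mem := ?_
            part_fwd := ?_
            part_bwd := ?_
            link := hl }, rfl, fun _ _ => rfl, fun _ => rfl⟩
  · intro i k
    have h : Fin.ofNat 3 (k % 3) = Fin.ofNat 3 k := Fin.ext (Nat.mod_mod k 3)
    rw [h]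
  · intro i k l hk hl h
    have h1 : k % 3 = l % 3 := congrArg Fin.val (S.lab_inj i h)
    omega
  · intro i x
    rw [S.lab_C]
    constructor
    · rintro ⟨k, rfl⟩
      refine ⟨k.1, k.2, ?_⟩
      have h : Fin.ofNat 3 k.1 = k := Fin.ext (Nat.mod_eq_of_lt k.2)
      rw [h]
    · rintro ⟨k, -, rfl⟩
      exact ⟨_, rfl⟩
  · intro i k hk
    obtain ⟨a, b, c⟩ := S.side i
    interval_cases k
    · exact c
    · exact a
    · rw [dist_comm]
      exact b
  · intro i x hx
    by_cases hc : x ∈ S.C i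
    · obtain ⟨k, rfl⟩ := (S.lab_C i x).1 hc
      refine ⟨k.1, k.2, ?_⟩
      have h : Fin.ofNat 3 k.1 = k := Fin.ext (Nat.mod_eq_of_lt k.2)
      rw [h]
      exact left_mem_segment ℝ _ _
    · obtain ⟨k, l, hkl, hb⟩ := S.on_side i x hx hc
      obtain ⟨s, hs, he⟩ := S3P_side S i k l hkl
      refine ⟨s, hs, ?_⟩
      rw [← he]
      exact mem_segment_iff_wbtw.2 hb.wbtw
  · intro i x y hxy
    obtain ⟨k, l, hkl, h1, h2⟩ := S.same_side i x y hxy
    obtain ⟨s, hs, he⟩ := S3P_side S i k l hkl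
    rw [he] at h1 h2
    exact ⟨s, hs, h1, h2⟩
  · intro i j k x _ hx hs
    exact S.side_mem i j _ _ x hx hs
  · intro i k x _ hx hs hne
    exact S.part_dir i _ _ x hx (S3P_ne k) hs hne
  · intro i k x _ hx hs hne
    rw [segment_symm] at hs
    exact S.part_dir i _ _ x hx (S3P_ne k).symm hs hne

end Pool.Agent.NNc
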