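import Pool.Agent.NNb.TriS
import Pool.Agent.NNc.Sys3P

/-!
Module TRIRK.  The side rules for triangles.

`θ 0 ≤ θ 1 ≤ θ 2`, `θ 0 + θ 1 + θ 2 = π`.
`sin_lt`: for `θ k < θ l` (`k ≠ l`, so `θ k + θ l < π`) `sin θ k < sin θ l`
(`Real.sin_lt_sin_of_lt_of_le_pi_div_two` if `θ l ≤ π / 2`, otherwise `sin θ l = sin (π - θ l)` and
`θ k < π - θ l < π / 2`).
`pair_small`: `a, b, p` sides (written by their opposite corners) with `sin a + sin b ≤ sin p`.
Triangle inequality: `sin θ p < sin θ a + sin θ b` for `a ≠ b` (`sin (x + y) < sin x + sin y` for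
`0 < x, y`, `x + y < π`); so `a = b`, and `2 sin θ a ≤ sin θ p ≤ 1`; if `a ≠ 0` then
`sin θ 0 ≤ sin θ a` (by `sin_lt`), so `sin θ 0 + sin θ a ≤ sin θ p`: contradiction to the triangle
inequality again if `p ≠ a, 0`, and trivial if `p ∈ {0, a}`.  So `a = b = 0`, `sin θ 0 ≤ 1 / 2`, `θ 0 ≤ π / 3`,
hence `θ 0 ≤ π / 6`.
-/

namespace Pool.Agent.NNc

open Pool.Agent.NNb

variable {ι : Type} {n : ℕ} (S : Sys3 ι n)

theorem TRIRK_pos_sin (k : Fin 3) : 0 < Real.sin (S.θ k) := by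
  apply Real.sin_pos_of_pos_of_lt_pi (S.θ_pos k)
  have h := S.θ_sum
  have h0 := S.θ_pos 0
  have h1 := S.θ_pos 1
  have h2 := S.θ_pos 2
  fin_cases k <;> simp <;> linarith

theorem TRIRK_add_lt (k l : Fin 3) (hkl : k ≠ l) : S.θ k + S.θ l < Real.pi := by
  have h := S.θ_sum
  have h0 := S.θ_pos 0
  have h1 := S.θ_pos 1
  have h2 := S.θ_pos 2
  fin_cases k <;> fin_cases l <;> simp at hkl ⊢ <;> linarith

theorem TRIRK_sum (k l p : Fin 3) (hkl : k ≠ l) (hkp : k ≠ p) (hlp : l ≠ p) :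
    S.θ k + S.θ l + S.θ p = Real.pi := by
  have h := S.θ_sum
  fin_cases k <;> fin_cases l <;> fin_cases p <;> simp at hkl hkp hlp ⊢ <;> linarith

theorem sin_lt (k l : Fin 3) (h : S.θ k < S.θ l) : Real.sin (S.θ k) < Real.sin (S.θ l) := by
  have hkl : k ≠ l := by
    rintro rfl
    exact lt_irrefl _ h
  have h1 := TRIRK_add_lt S k l hkl
  have h2 := S.θ_pos k
  have h3 := Real.pi_pos
  rcases le_total (S.θ l) (Real.pi / 2) with h4 | h4
  · exact Real.sin_lt_sin_of_lt_of_le_pi_div_two (by linarith) h4 h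
  · rw [← Real.sin_pi_sub (S.θ l)]
    exact Real.sin_lt_sin_of_lt_of_le_pi_div_two (by linarith) (by linarith) (by linarith)

theorem TRIRK_tri (k l p : Fin 3) (hkl : k ≠ l) (hkp : k ≠ p) (hlp : l ≠ p) :
    Real.sin (S.θ p) < Real.sin (S.θ k) + Real.sin (S.θ l) := by
  have h1 := TRIRK_sum S k l p hkl hkp hlp
  have h2 : S.θ p = Real.pi - (S.θ k + S.θ l) := by linarith
  rw [h2, Real.sin_pi_sub, Real.sin_add]
  have a1 := TRIRK_pos_sin S k
  have a2 := TRIRK_pos_sin S l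
  have b1 : Real.cos (S.θ k) < 1 := by
    have h3 := TRIRK_add_lt S k l hkl
    have h4 := S.θ_pos k
    have h5 := S.θ_pos l
    have := Real.cos_lt_cos_of_nonneg_of_le_pi le_rfl (by linarith : S.θ k ≤ Real.pi) h4
    rwa [Real.cos_zero] at this
  have b2 : Real.cos (S.θ l) < 1 := by
    have h3 := TRIRK_add_lt S k l hkl
    have h4 := S.θ_pos k
    have h5 := S.θ_pos l
    have := Real.cos_lt_cos_of_nonneg_of_le_pi le_rfl (by linarith : S.θ l ≤ Real.pi) h5
    rwa [Real.cos_zero] at this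
  nlinarith

theorem TRIRK_zero_le (k : Fin 3) : S.θ 0 ≤ S.θ k := by
  have h1 := S.θ_le01
  have h2 := S.θ_le12
  fin_cases k
  · exact le_rfl
  · exact h1
  · exact h1.trans h2

theorem TRIRK_sin_zero_le (k : Fin 3) : Real.sin (S.θ 0) ≤ Real.sin (S.θ k) := by
  rcases (TRIRK_zero_le S k).eq_or_lt with h | h
  · rw [h]
  · exact (sin_lt S 0 k h).le

theorem pair_small (a b p : Fin 3)
    (h : Real.sin (S.θ a) + Real.sin (S.θ b) ≤ Real.sin (S.θ p)) :
    a = 0 ∧ b = 0 ∧ p ≠ 0 ∧ S.θ 0 ≤ Real.pi / 6 ∧ S.θ 0 < S.θ 1 := by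
  have ha := TRIRK_pos_sin S a
  have hb := TRIRK_pos_sin S b
  have hpa : p ≠ a := by
    rintro rfl
    linarith
  have hpb : p ≠ b := by
    rintro rfl
    linarith
  have hab : a = b := by
    by_contra hab
    have := TRIRK_tri S a b p hab hpa.symm hpb.symm
    linarith
  subst hab
  have ha0 : a = 0 := by
    by_contra ha0
    have h1 := TRIRK_sin_zero_le S a
    by_cases hp0 : p = 0
    · subst hp0
      linarith
    · have := TRIRK_tri S 0 a p (Ne.symm ha0) (Ne.symm hp0) hpa.symm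
      linarith
  subst ha0
  refine ⟨rfl, rfl, hpa, ?_, ?_⟩
  · by_contra hcon
    push Not at hcon
    have h1 := Real.sin_le_one (S.θ p)
    have h2 := S.θ_sum
    have h3 := S.θ_le01
    have h4 := S.θ_le12
    have h5 := Real.pi_pos
    have h6 : Real.sin (Real.pi / 6) < Real.sin (S.θ 0) :=
      Real.sin_lt_sin_of_lt_of_le_pi_div_two (by linarith) (by linarith) hcon
    rw [Real.sin_pi_div_six] at h6
    linarith
  · refine lt_of_le_of_ne S.θ_le01 (fun h01 => ?_)
    have hp : p = 1 ∨ p = 2 := by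
      have key : ∀ q : Fin 3, q ≠ 0 → q = 1 ∨ q = 2 := by decide
      exact key p hpa
    rcases hp with rfl | rfl
    · rw [← h01] at h
      linarith
    · have := TRIRK_tri S 0 1 2 (by decide) (by decide) (by decide)
      rw [← h01] at this
      linarith

end Pool.Agent.NNc
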