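import Pool.Agent.NNc.AngFin
import Pool.Agent.NNc.Sys3P
import Pool.Agent.NNc.TriRk
import Pool.Agent.NNc.Asm

/-!
# Assembly for triangles: from the angle level to labelled tilings

`shP n p ok`, `shU n u ok`: the records of the engine for the triangle `p0 : p1 : p2` and for the family
with the relation `u`; `ok` is the side rule.  `OkP`, `OkU`: the side rule is true for all triangles
of the record.  `tri_dead`: if all records are dead, there is no tiling by congruent triangles.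
The side `k` is opposite to the corner `k + 2` (mod 3): side `1` is opposite to the corner `0`,
side `2` to the corner `1`, side `0` to the corner `2`.
-/

namespace Pool.Agent.NNc

open Pool.Agent.NNb

/-- the record of the triangle with angles proportional to `p` -/
def shP (n : ℕ) (p : ℕ × ℕ × ℕ) (ok : ℕ → List (ℕ × Bool) → Bool) : Shape where
  m := 3
  n := n
  W := wP n p.1 p.2.1 p.2.2
  rk := fun k => if k = 0 then p.2.2 else if k = 1 then p.1 else p.2.1
  ok := ok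

/-- the record of the family of triangles with the relation `u` -/
def shU (n : ℕ) (u : ℤ × ℤ × ℤ) (ok : ℕ → List (ℕ × Bool) → Bool) : Shape where
  m := 3
  n := n
  W := wU n u.1 u.2.1 u.2.2
  rk := fun k => if k = 0 then 2 else if k = 1 then 0 else 1
  ok := ok

/-- the side rule `ok` is true for a triangle with sides `len 0`, `len 1`, `len 2` -/
def OkLen (len : ℕ → ℝ) (ok : ℕ → List (ℕ × Bool) → Bool) : Prop :=
  ∀ k (l : List (ℕ × Bool)), k < 3 → l ≠ [] → (∀ p ∈ l, p.1 < 3) → Fits len l (len k) →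
    ok k l = true

/-- the lengths of the sides of the tiles -/
noncomputable def lenT {ι : Type} {n : ℕ} (S : Sys3 ι n) (k : ℕ) : ℝ :=
  S.ρ * Real.sin (S.θ (Fin.ofNat 3 (k + 2)))

/-- the side rule `ok` is true for all triangles with `θ 0 < θ 1 < θ 2` and `u · θ = 0` -/
def OkU (u : ℤ × ℤ × ℤ) (ok : ℕ → List (ℕ × Bool) → Bool) : Prop :=
  ∀ {ι : Type} {n : ℕ} (S : Sys3 ι n), S.θ 0 < S.θ 1 → S.θ 1 < S.θ 2 →
    (u.1 : ℝ) * S.θ 0 + (u.2.1 : ℝ) * S.θ 1 + (u.2.2 : ℝ) * S.θ 2 = 0 → OkLen (lenT S) ok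

/-- the side rule `ok` is true for the triangle with angles proportional to `p` -/
def OkP (p : ℕ × ℕ × ℕ) (ok : ℕ → List (ℕ × Bool) → Bool) : Prop :=
  ∀ {ι : Type} {n : ℕ} (S : Sys3 ι n),
    S.θ 0 * (p.1 + p.2.1 + p.2.2 : ℕ) = Real.pi * (p.1 : ℕ) →
    S.θ 1 * (p.1 + p.2.1 + p.2.2 : ℕ) = Real.pi * (p.2.1 : ℕ) →
    S.θ 2 * (p.1 + p.2.1 + p.2.2 : ℕ) = Real.pi * (p.2.2 : ℕ) → OkLen (lenT S) ok

variable {ι : Type} {n : ℕ} (S : Sys3 ι n)

theorem sin_le_iff (k l : Fin 3) : S.θ k < S.θ l ↔ Real.sin (S.θ k) < Real.sin (S.θ l) := by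
  constructor
  · exact sin_lt S k l
  · intro h
    rcases lt_trichotomy (S.θ k) (S.θ l) with h1 | h1 | h1
    · exact h1
    · rw [h1] at h; exact absurd h (lt_irrefl _)
    · exact absurd (sin_lt S l k h1) (not_lt.2 h.le)

theorem sin_eq_iff (k l : Fin 3) : S.θ k = S.θ l ↔ Real.sin (S.θ k) = Real.sin (S.θ l) := by
  constructor
  · intro h; rw [h]
  · intro h
    rcases lt_trichotomy (S.θ k) (S.θ l) with h1 | h1 | h1
    · have := sin_lt S k l h1
      rw [h] at this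
      exact absurd this (lt_irrefl _)
    · exact h1
    · have := sin_lt S l k h1
      rw [h] at this
      exact absurd this (lt_irrefl _)

theorem cls_of {T : SysP ι 3 n} (hT : T.toSys = S.toSys)
    (hlab : ∀ i k, T.lab i k = S.lab i (Fin.ofNat 3 k)) (x : ℂ) :
    T.cls x = [S.cnt 0 x, S.cnt 1 x, S.cnt 2 x, S.fl x] := by
  classical
  have htl : T.tl x = S.tl x := by rw [hT]
  have hC : T.C = S.C := by rw [hT]
  unfold SysP.cls Sys3.cnt Sys3.fl
  rw [htl, hC]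
  simp only [hlab, List.range_succ, List.range_zero, List.nil_append,
    List.map_cons, List.map_nil, List.cons_append]
  have e0 : (Fin.ofNat 3 0 : Fin 3) = 0 := rfl
  have e1 : (Fin.ofNat 3 1 : Fin 3) = 1 := rfl
  have e2 : (Fin.ofNat 3 2 : Fin 3) = 2 := rfl
  rw [e0, e1, e2]
  simp only [eq_comm (a := x)]

/-- the corner opposite to the side `k` -/
theorem opp0 : (Fin.ofNat 3 (0 + 2) : Fin 3) = 2 := rfl
theorem opp1 : (Fin.ofNat 3 (1 + 2) : Fin 3) = 0 := rfl
theorem opp2 : (Fin.ofNat 3 (2 + 2) : Fin 3) = 1 := rfl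

theorem ltil_of (hl : Link S.toSys) (sh : Shape) (hm : sh.m = 3) (hn : sh.n = n)
    (hW : ∀ t x, x ∈ S.N t → [S.cnt 0 x, S.cnt 1 x, S.cnt 2 x, S.fl x] ∈ sh.W)
    (hrk : ∀ k l, k < 3 → l < 3 →
      (S.θ (Fin.ofNat 3 (k + 2)) = S.θ (Fin.ofNat 3 (l + 2)) → sh.rk k = sh.rk l) ∧
      (S.θ (Fin.ofNat 3 (k + 2)) < S.θ (Fin.ofNat 3 (l + 2)) → sh.rk k < sh.rk l))
    (hok : OkLen (lenT S) sh.ok) : Nonempty (LTil sh) := by
  obtain ⟨T, hT, hlab, hlen⟩ := exists_sysP_of_sys3 S hl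
  have hN : T.N = S.N := by rw [hT]
  have hlen' : T.len = lenT S := funext hlen
  refine T.exists_LTil sh hm hn ?_ ?_ ?_ ?_
  · intro i x hx
    rw [hN] at hx
    rw [cls_of S hT hlab]
    exact hW i x hx
  · intro k l hk hl' h
    rw [hlen, hlen] at h
    exact (hrk k l hk hl').1 ((sin_eq_iff S _ _).2 (mul_left_cancel₀ S.ρ_pos.ne' h))
  · intro k l hk hl' h
    rw [hlen, hlen] at h
    exact (hrk k l hk hl').2 ((sin_le_iff S _ _).2 (lt_of_mul_lt_mul_left h S.ρ_pos.le))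
  · intro k l hk hne hlt hf
    rw [hlen'] at hf
    exact hok k l hk hne hlt hf

theorem ltil_U (hl : Link S.toSys) {u : ℤ × ℤ × ℤ} {ok : ℕ → List (ℕ × Bool) → Bool}
    (h01 : S.θ 0 < S.θ 1) (h12 : S.θ 1 < S.θ 2)
    (hW : ∀ t x, x ∈ S.N t → [S.cnt 0 x, S.cnt 1 x, S.cnt 2 x, S.fl x] ∈ wU n u.1 u.2.1 u.2.2)
    (hok : OkLen (lenT S) ok) : Nonempty (LTil (shU n u ok)) := by
  refine ltil_of S hl _ rfl rfl hW ?_ hok
  intro k l hk hl'
  interval_cases k <;> interval_cases l <;>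
    simp only [opp0, opp1, opp2, shU] <;> constructor <;> intro h <;> first
      | rfl
      | (exfalso; linarith)
      | norm_num

theorem ltil_P (hl : Link S.toSys) {p : ℕ × ℕ × ℕ} {ok : ℕ → List (ℕ × Bool) → Bool}
    (hp : 0 < p.1)
    (h0 : S.θ 0 * (p.1 + p.2.1 + p.2.2 : ℕ) = Real.pi * (p.1 : ℕ))
    (h1 : S.θ 1 * (p.1 + p.2.1 + p.2.2 : ℕ) = Real.pi * (p.2.1 : ℕ))
    (h2 : S.θ 2 * (p.1 + p.2.1 + p.2.2 : ℕ) = Real.pi * (p.2.2 : ℕ))
    (hW : ∀ t x, x ∈ S.N t → [S.cnt 0 x, S.cnt 1 x, S.cnt 2 x, S.fl x] ∈ wP n p.1 p.2.1 p.2.2)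
    (hok : OkLen (lenT S) ok) : Nonempty (LTil (shP n p ok)) := by
  have hq : (0 : ℝ) < ((p.1 + p.2.1 + p.2.2 : ℕ) : ℝ) := by
    have : 0 < p.1 + p.2.1 + p.2.2 := by omega
    exact_mod_cast this
  have hpi := Real.pi_pos
  -- comparison of the angles
  have key : ∀ {a b : ℝ} {s t : ℕ}, a * (p.1 + p.2.1 + p.2.2 : ℕ) = Real.pi * (s : ℕ) →
      b * (p.1 + p.2.1 + p.2.2 : ℕ) = Real.pi * (t : ℕ) →
      (a = b → s = t) ∧ (a < b → s < t) := by
    intro a b s t ha hb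
    constructor
    · intro h
      rw [h, hb] at ha
      have := mul_left_cancel₀ hpi.ne' ha
      exact_mod_cast this.symm
    · intro h
      have h' := mul_lt_mul_of_pos_right h hq
      rw [ha, hb] at h'
      have := lt_of_mul_lt_mul_left h' hpi.le
      exact_mod_cast this
  refine ltil_of S hl _ rfl rfl hW ?_ hok
  intro k l hk hl'
  interval_cases k <;> interval_cases l <;> (try rw [opp0]) <;> (try rw [opp1]) <;>
    (try rw [opp2]) <;> first
      | exact key h2 h2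
      | exact key h2 h0
      | exact key h2 h1
      | exact key h0 h2
      | exact key h0 h0
      | exact key h0 h1
      | exact key h1 h2
      | exact key h1 h0
      | exact key h1 h1

/-- **Assembly**: if all records are dead, there is no tiling by congruent triangles. -/
theorem tri_dead (hl : Link S.toSys) {U : List (ℤ × ℤ × ℤ)} {L : List (ℕ × ℕ × ℕ)}
    (hA : AngRes S U L) (hU : ∀ u ∈ U, ∃ ok, OkU u ok ∧ IsEmpty (LTil (shU n u ok)))
    (hL : ∀ p ∈ L, ∃ ok, OkP p ok ∧ IsEmpty (LTil (shP n p ok))) : False := by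
  rcases hA with ⟨u, hu, h01, h12, hr, hW⟩ | ⟨p, hp, hp0, h0, h1, h2, hW⟩
  · obtain ⟨ok, hok, hE⟩ := hU u hu
    obtain ⟨T⟩ := ltil_U S hl h01 h12 hW (hok S h01 h12 hr)
    exact hE.false T
  · obtain ⟨ok, hok, hE⟩ := hL p hp
    obtain ⟨T⟩ := ltil_P S hl hp0 h0 h1 h2 hW (hok S h0 h1 h2)
    exact hE.false T

end Pool.Agent.NNc
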